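import Pool.Agent.GH.Base

/-!
# Ghost conjecture `(3,1)`: definitions used in the proof

`bser = E(q)^3/E(q^3)` (weight one), `hser3 = q E(q^9)^3/E(q)^3`, the matrices `Mat3 a x` of
`U_3` in the basis `b^x (1+27f)^{a/3} f^j`, the evaluation `ev3 w : ℤ_3[[W]] → ℂ_3` and the
parametrisation `w = 7^x - 1`; here `x = k` is the weight.
-/

open PowerSeries Filter Topology

noncomputable section

namespace GH

namespace D3

/-- `b = ∏ (1-q^n)^3/(1-q^{3n})`. -/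
def bser (R : Type*) [CommRing R] : PowerSeries R := euler R 1 ^ 3 * invOfUnit (euler R 3) 1

/-- `h = q ∏ (1-q^{9n})^3/(1-q^n)^3`. -/
def hser3 (R : Type*) [CommRing R] : PowerSeries R :=
  X * (euler R 9 ^ 3 * invOfUnit (euler R 1 ^ 3) 1)

/-- `Q = 1 + 9T + 27T²`. -/
def Qser (K : Type*) [CommRing K] : PowerSeries K := 1 + C (9 : K) * X + C (27 : K) * X ^ 2

/-- `b^x = (b^3)^{x/3}`, a form of weight `x`. -/
def bPow {K : Type*} [Field K] (x : K) : PowerSeries K := ppow (bser K ^ 3) (x / 3)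

/-- The matrix of `U_3` in the basis `b^x (1+27f)^{a/3} f^j`, `a = 0, 1, 2`:
`[T^{3i-j}] (1+3T)^{2-a} (1+9T)^a (1+9T+27T²)^{i+j-1-(x-a)/3}`. -/
def Mat3 {K : Type*} [Field K] (a : ℕ) (x : K) (i j : ℕ) : K :=
  if j ≤ 3 * i then
    PowerSeries.coeff (3 * i - j)
      ((1 + C (3 : K) * X) ^ (2 - a) * (1 + C (9 : K) * X) ^ a *
        ppow (Qser K) ((i : K) + j - 1 - (x - a) / 3))
  else 0

/-- The coefficients of `(1+27T)^{a/3}`. -/
def v3 {K : Type*} [Field K] (a n : ℕ) : K :=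
  PowerSeries.coeff n (rescale (27 : K) (binS ((a : K) / 3)))

/-- The field `ℂ_3`. -/
abbrev C3 : Type := PadicComplex 3

/-- The Iwasawa algebra `ℤ_3[[W]]`. -/
abbrev Lam3 : Type := PowerSeries ℤ_[3]

/-- The inclusion `ℤ_3 → ℂ_3`. -/
def iota3 : ℤ_[3] →+* C3 := (algebraMap ℚ_[3] C3).comp PadicInt.Coe.ringHom

/-- The evaluation of a power series over `ℤ_3` at `w`, `‖w‖ < 1`. -/
def ev3 (w : C3) (F : Lam3) : C3 := ∑' n : ℕ, iota3 (PowerSeries.coeff n F) * w ^ n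

/-- The coefficientwise evaluation of a power series over `ℤ_3[[W]]`. -/
def evS3 (w : C3) (F : PowerSeries Lam3) : PowerSeries C3 :=
  PowerSeries.mk fun n ↦ ev3 w (PowerSeries.coeff n F)

/-- `w(x) = 7^x - 1 = ∑_{n ≥ 1} binom(x, n) 6^n`. -/
def wx3 (x : C3) : C3 := ∑' n : ℕ, PowerSeries.coeff (n + 1) (binS x) * 6 ^ (n + 1)

/-- The 3-stabilised Eisenstein series
`1 - 2k/((1-3^(k-1)) B_k) ∑ (∑_{d ∣ n, 3 ∤ d} d^(k-1)) q^n` over `ℚ`. -/
def eisStab3 (k : ℕ) : PowerSeries ℚ :=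
  1 + PowerSeries.mk fun n ↦ -(2 * k / ((1 - 3 ^ (k - 1)) * bernoulli k)) *
    ∑ d ∈ n.divisors, if 3 ∣ d then 0 else (d : ℚ) ^ (k - 1)

/-- The level one form `G = b^12 + 3^7 Δ U_3(f)` of weight `12` with constant term `1`. -/
def G12 : PowerSeries ℚ :=
  bser ℚ ^ 12 + C ((3 : ℚ) ^ 7) * (X * euler ℚ 1 ^ 24) * U 3 (hauptmodul 3 ℚ)

end D3

end GH
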