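import Pool.Agent.GH.D3.Base3

open PowerSeries Filter Topology

noncomputable section

namespace GH

namespace D3

/-! The 3-adic zeta integral as a unit of `ℤ_3[[W]]`. -/

/-- The properties of the family `kap` of `ZChar3`. -/
structure KapFam3 (kap : ℕ → Lam3) : Prop where
  val : ∀ a, ¬ 3 ∣ a → ∀ κ : Weight 3, κ.IsEven → κ.val a = ev3 κ.w (kap a)
  dvd : ∀ a, 3 ∣ a → kap a = 0
  c0 : ∀ a, ¬ 3 ∣ a → PowerSeries.coeff 0 (kap a) = 1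
  seven : kap 7 = 1 + X
  one : kap 1 = 1
  mul : ∀ a b, ¬ 3 ∣ a → ¬ 3 ∣ b → kap (a * b) = kap a * kap b
  cont : ∀ (m n : ℕ), ∃ N : ℕ, ∀ a b : ℕ, ¬ 3 ∣ a → ¬ 3 ∣ b → a ≡ b [MOD 3 ^ N] →
      ∀ j ≤ m, ‖PowerSeries.coeff j (kap a) - PowerSeries.coeff j (kap b)‖ ≤ (3 : ℝ)⁻¹ ^ n
  neg : ∀ (m n : ℕ), ∃ N : ℕ, ∀ a b : ℕ, ¬ 3 ∣ a → ¬ 3 ∣ b → 3 ^ N ∣ a + b →
      ∀ j ≤ m, ‖PowerSeries.coeff j (kap a) - PowerSeries.coeff j (kap b)‖ ≤ (3 : ℝ)⁻¹ ^ n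
  wlt : ∀ κ : Weight 3, κ.IsEven → ‖κ.w‖ < 1
  nval : ∀ (κ : Weight 3) (a : ℕ), 3 ∣ a → κ.val a = 0

/-! ### the measure -/

/-- `⌊7a/3^n⌋ - 3` -/
def d3zi_m (n a : ℕ) : ℤ := ((7 * a / 3 ^ n : ℕ) : ℤ) - 3

theorem d3zi_m_dist (n a : ℕ) : d3zi_m (n + 1) a + d3zi_m (n + 1) (3 ^ n + a) +
    d3zi_m (n + 1) (3 ^ n + 3 ^ n + a) = d3zi_m n a := by
  unfold d3zi_m
  have h1 : 7 * a / 3 ^ (n + 1) = 7 * a / 3 ^ n / 3 := by
    rw [pow_succ, Nat.div_div_eq_div_mul]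
  have h2 : 7 * (3 ^ n + a) / 3 ^ (n + 1) = (7 * a / 3 ^ n + 7) / 3 := by
    rw [pow_succ, ← Nat.div_div_eq_div_mul]
    congr 1
    have : 7 * (3 ^ n + a) = 7 * a + 7 * 3 ^ n := by ring
    rw [this, Nat.add_mul_div_right _ _ (by positivity)]
  have h3 : 7 * (3 ^ n + 3 ^ n + a) / 3 ^ (n + 1) = (7 * a / 3 ^ n + 14) / 3 := by
    rw [pow_succ, ← Nat.div_div_eq_div_mul]
    congr 1
    have : 7 * (3 ^ n + 3 ^ n + a) = 7 * a + 14 * 3 ^ n := by ring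
    rw [this, Nat.add_mul_div_right _ _ (by positivity)]
  rw [h1, h2, h3]
  generalize 7 * a / 3 ^ n = q
  omega

/-! ### the sums -/

/-- the sums -/
def d3zi_S (F : ℕ → ℤ_[3]) (n : ℕ) : ℤ_[3] :=
  ∑ a ∈ Finset.range (3 ^ n), F a * (d3zi_m n a : ℤ_[3])

theorem d3zi_three {n : ℕ} (hn : 1 ≤ n) : ∃ c, 3 ^ n = 3 * c := by
  obtain ⟨k, rfl⟩ := Nat.exists_eq_add_of_le hn
  exact ⟨3 ^ k, by rw [pow_add]; norm_num⟩

theorem d3zi_S_succ (F : ℕ → ℤ_[3]) (n : ℕ) : d3zi_S F (n + 1) - d3zi_S F n =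
    ∑ a ∈ Finset.range (3 ^ n),
      ((F (3 ^ n + a) - F a) * (d3zi_m (n + 1) (3 ^ n + a) : ℤ_[3]) +
        (F (3 ^ n + 3 ^ n + a) - F a) * (d3zi_m (n + 1) (3 ^ n + 3 ^ n + a) : ℤ_[3])) := by
  unfold d3zi_S
  rw [show 3 ^ (n + 1) = 3 ^ n + 3 ^ n + 3 ^ n by ring, Finset.sum_range_add,
    Finset.sum_range_add, ← Finset.sum_add_distrib, ← Finset.sum_add_distrib,
    ← Finset.sum_sub_distrib]
  refine Finset.sum_congr rfl fun a _ => ?_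
  rw [← d3zi_m_dist n a]
  push_cast
  ring

theorem d3zi_sum_le {N : ℕ} {x y : ℕ → ℤ_[3]} {m k : ℕ → ℤ} {ε : ℝ} (hε : 0 ≤ ε)
    (h : ∀ a, a < N → ‖x a‖ ≤ ε) (h' : ∀ a, a < N → ‖y a‖ ≤ ε) :
    ‖∑ a ∈ Finset.range N, (x a * (m a : ℤ_[3]) + y a * (k a : ℤ_[3]))‖ ≤ ε := by
  refine IsUltrametricDist.norm_sum_le_of_forall_le_of_nonneg hε fun a ha => ?_
  refine (PadicInt.nonarchimedean _ _).trans (max_le ?_ ?_)
  · rw [norm_mul]
    calc ‖x a‖ * ‖((m a : ℤ) : ℤ_[3])‖ ≤ ε * 1 :=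
          mul_le_mul (h a (Finset.mem_range.1 ha)) (PadicInt.norm_le_one _)
            (norm_nonneg _) hε
      _ = ε := mul_one _
  · rw [norm_mul]
    calc ‖y a‖ * ‖((k a : ℤ) : ℤ_[3])‖ ≤ ε * 1 :=
          mul_le_mul (h' a (Finset.mem_range.1 ha)) (PadicInt.norm_le_one _)
            (norm_nonneg _) hε
      _ = ε := mul_one _

/-! ### limits -/

theorem d3zi_tele {u : ℕ → ℤ_[3]} {ε : ℝ} {n0 : ℕ} (hε : 0 ≤ ε)
    (h : ∀ n, n0 ≤ n → ‖u (n + 1) - u n‖ ≤ ε) (m : ℕ) (hm : n0 ≤ m) : ‖u m - u n0‖ ≤ ε := by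
  induction m, hm using Nat.le_induction with
  | base => simpa using hε
  | succ m hm ih =>
    have e : u (m + 1) - u n0 = (u (m + 1) - u m) + (u m - u n0) := by ring
    rw [e]
    exact (PadicInt.nonarchimedean _ _).trans (max_le (h m hm) ih)

theorem d3zi_lim {u : ℕ → ℤ_[3]}
    (h : ∀ ε : ℝ, 0 < ε → ∃ N, ∀ n, N ≤ n → ‖u (n + 1) - u n‖ ≤ ε) :
    ∃ L, Tendsto u atTop (𝓝 L) := by
  refine cauchySeq_tendsto_of_complete ?_
  rw [Metric.cauchySeq_iff']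
  intro ε hε
  obtain ⟨N, hN⟩ := h (ε / 2) (by positivity)
  refine ⟨N, fun n hn => ?_⟩
  rw [dist_eq_norm]
  exact lt_of_le_of_lt (d3zi_tele (by positivity) hN n hn) (by linarith)

/-! ### inverses of numbers prime to `3` -/

/-- the inverse of a number prime to `3` -/
def d3zi_u (a : ℕ) : ℤ_[3] := PadicInt.inv (a : ℤ_[3])

theorem d3zi_norm {a : ℕ} (ha : ¬ 3 ∣ a) : ‖(a : ℤ_[3])‖ = 1 := by
  rw [PadicInt.norm_natCast_eq_one_iff]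
  exact (Nat.Prime.coprime_iff_not_dvd Nat.prime_three).2 ha

theorem d3zi_mul_u {a : ℕ} (ha : ¬ 3 ∣ a) : (a : ℤ_[3]) * d3zi_u a = 1 :=
  PadicInt.mul_inv (d3zi_norm ha)

theorem d3zi_u_sub {a b : ℕ} (ha : ¬ 3 ∣ a) (hb : ¬ 3 ∣ b) :
    ‖d3zi_u a - d3zi_u b‖ ≤ ‖(a : ℤ_[3]) - b‖ := by
  have e : d3zi_u a - d3zi_u b = d3zi_u a * d3zi_u b * -((a : ℤ_[3]) - b) := by
    linear_combination (d3zi_u b) * d3zi_mul_u ha - d3zi_u a * d3zi_mul_u hb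
  rw [e, norm_mul, norm_mul, norm_neg]
  have h1 : ‖d3zi_u a‖ * ‖d3zi_u b‖ ≤ 1 :=
    mul_le_one₀ (PadicInt.norm_le_one _) (norm_nonneg _) (PadicInt.norm_le_one _)
  exact mul_le_of_le_one_left (norm_nonneg _) h1

theorem d3zi_pow_norm (k : ℤ) (N : ℕ) (h : (3 : ℤ) ^ N ∣ k) :
    ‖(k : ℤ_[3])‖ ≤ (3 : ℝ)⁻¹ ^ N := by
  have h1 := (PadicInt.norm_int_le_pow_iff_dvd (p := 3) (k := k) (n := N)).2 (by exact_mod_cast h)
  rw [zpow_neg, zpow_natCast] at h1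
  rw [inv_pow]
  exact_mod_cast h1

theorem d3zi_modEq {a b N : ℕ} (h : a ≡ b [MOD 3 ^ N]) :
    ‖(a : ℤ_[3]) - b‖ ≤ (3 : ℝ)⁻¹ ^ N := by
  have h1 := (Nat.modEq_iff_dvd.1 h.symm)
  have h2 := d3zi_pow_norm ((a : ℤ) - b) N (by exact_mod_cast h1)
  push_cast at h2
  exact h2

/-! ### the coefficients -/

/-- the function `κ(a)/(7a)`, coefficient `j` -/
def d3zi_F (kap : ℕ → Lam3) (j a : ℕ) : ℤ_[3] :=
  PowerSeries.coeff j (kap a) * d3zi_u a * d3zi_u 7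

theorem d3zi_F_dvd {kap : ℕ → Lam3} (hk : KapFam3 kap) (j a : ℕ) (ha : 3 ∣ a) :
    d3zi_F kap j a = 0 := by
  unfold d3zi_F
  rw [hk.dvd a ha, map_zero, zero_mul, zero_mul]

theorem d3zi_F_sub {kap : ℕ → Lam3} {j a b : ℕ} {ε : ℝ} (hε : 0 ≤ ε)
    (h1 : ‖PowerSeries.coeff j (kap a) - PowerSeries.coeff j (kap b)‖ ≤ ε)
    (h2 : ‖d3zi_u a - d3zi_u b‖ ≤ ε) : ‖d3zi_F kap j a - d3zi_F kap j b‖ ≤ ε := by
  have e : d3zi_F kap j a - d3zi_F kap j b =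
      (PowerSeries.coeff j (kap a) - PowerSeries.coeff j (kap b)) * (d3zi_u a * d3zi_u 7) +
      (d3zi_u a - d3zi_u b) * (PowerSeries.coeff j (kap b) * d3zi_u 7) := by
    unfold d3zi_F
    ring
  rw [e]
  refine (PadicInt.nonarchimedean _ _).trans (max_le ?_ ?_)
  · rw [norm_mul]
    calc _ ≤ ε * 1 := mul_le_mul h1 (PadicInt.norm_le_one _) (norm_nonneg _) hε
      _ = ε := mul_one _
  · rw [norm_mul]
    calc _ ≤ ε * 1 := mul_le_mul h2 (PadicInt.norm_le_one _) (norm_nonneg _) hε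
      _ = ε := mul_one _

theorem d3zi_pow_small {ε : ℝ} (hε : 0 < ε) : ∃ n : ℕ, (3 : ℝ)⁻¹ ^ n < ε :=
  exists_pow_lt_of_lt_one hε (by norm_num)

theorem d3zi_cont {kap : ℕ → Lam3} (hk : KapFam3 kap) (j : ℕ) {ε : ℝ} (hε : 0 < ε) :
    ∃ N : ℕ, ∀ a b : ℕ, ¬ 3 ∣ a → ¬ 3 ∣ b → a ≡ b [MOD 3 ^ N] →
      ‖d3zi_F kap j a - d3zi_F kap j b‖ ≤ ε := by
  obtain ⟨n, hn⟩ := d3zi_pow_small hε
  obtain ⟨N, hN⟩ := hk.cont j n
  refine ⟨max N n, fun a b ha hb hab => d3zi_F_sub hε.le ?_ ?_⟩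
  · exact (hN a b ha hb (hab.of_dvd (pow_dvd_pow 3 (le_max_left _ _))) j le_rfl).trans hn.le
  · exact ((d3zi_u_sub ha hb).trans (d3zi_modEq
      (hab.of_dvd (pow_dvd_pow 3 (le_max_right _ _))))).trans hn.le

/-- Differences of values at lifts of the same residue. -/
theorem d3zi_lift {F : ℕ → ℤ_[3]} (hF : ∀ a, 3 ∣ a → F a = 0) {N n : ℕ} {ε : ℝ} (hε : 0 ≤ ε)
    (hN : ∀ a b : ℕ, ¬ 3 ∣ a → ¬ 3 ∣ b → a ≡ b [MOD 3 ^ N] → ‖F a - F b‖ ≤ ε)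
    (hn : 1 ≤ n) (hNn : N ≤ n) (c a : ℕ) : ‖F (3 ^ n * c + a) - F a‖ ≤ ε := by
  obtain ⟨d, hd⟩ := d3zi_three hn
  have h0 : 3 ∣ 3 ^ n * c := ⟨d * c, by rw [hd]; ring⟩
  by_cases ha : 3 ∣ a
  · rw [hF a ha, hF _ (dvd_add h0 ha), sub_self, norm_zero]
    exact hε
  · refine hN _ _ (fun h => ha ((Nat.dvd_add_right h0).1 h)) ha ?_
    have h3 : 3 ^ N ∣ 3 ^ n * c := (pow_dvd_pow 3 hNn).mul_right c
    exact ((Nat.modEq_iff_dvd' (by omega)).2 (by simpa using h3)).symm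

theorem d3zi_diff {F : ℕ → ℤ_[3]} (hF : ∀ a, 3 ∣ a → F a = 0) {N n : ℕ} {ε : ℝ} (hε : 0 ≤ ε)
    (hN : ∀ a b : ℕ, ¬ 3 ∣ a → ¬ 3 ∣ b → a ≡ b [MOD 3 ^ N] → ‖F a - F b‖ ≤ ε)
    (hn : 1 ≤ n) (hNn : N ≤ n) : ‖d3zi_S F (n + 1) - d3zi_S F n‖ ≤ ε := by
  rw [d3zi_S_succ F n]
  refine d3zi_sum_le hε (fun a _ => ?_) (fun a _ => ?_)
  · have := d3zi_lift hF hε hN hn hNn 1 a
    rwa [mul_one] at this
  · have := d3zi_lift hF hε hN hn hNn 2 a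
    rwa [show 3 ^ n * 2 = 3 ^ n + 3 ^ n by ring] at this

theorem d3zi_S_lim {kap : ℕ → Lam3} (hk : KapFam3 kap) (j : ℕ) :
    ∃ L, Tendsto (d3zi_S (d3zi_F kap j)) atTop (𝓝 L) := by
  refine d3zi_lim fun ε hε => ?_
  obtain ⟨N, hN⟩ := d3zi_cont hk j hε
  refine ⟨max N 1, fun n hn => ?_⟩
  exact d3zi_diff (d3zi_F_dvd hk j) hε.le hN ((le_max_right _ _).trans hn)
    ((le_max_left _ _).trans hn)

theorem d3zi_unit {kap : ℕ → Lam3} (hk : KapFam3 kap) {L : ℤ_[3]}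
    (h : Tendsto (d3zi_S (d3zi_F kap 0)) atTop (𝓝 L)) : IsUnit L := by
  have h1 : ∀ n, 1 ≤ n →
      ‖d3zi_S (d3zi_F kap 0) (n + 1) - d3zi_S (d3zi_F kap 0) n‖ ≤ (3 : ℝ)⁻¹ := by
    intro n hn
    refine d3zi_diff (N := 1) (d3zi_F_dvd hk 0) (by norm_num) (fun a b ha hb hab => ?_) hn hn
    refine d3zi_F_sub (by norm_num) ?_ ?_
    · rw [hk.c0 _ ha, hk.c0 _ hb, sub_self, norm_zero]
      norm_num
    · have h4 := (d3zi_u_sub ha hb).trans (d3zi_modEq hab)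
      rwa [pow_one] at h4
  have h2 : ‖d3zi_S (d3zi_F kap 0) 1‖ = 1 := by
    have h20 : ¬ 3 ∣ 2 := by decide
    have h10 : ¬ 3 ∣ 1 := by decide
    have h70 : ¬ 3 ∣ 7 := by decide
    have e : d3zi_S (d3zi_F kap 0) 1 = - (d3zi_u 2 * d3zi_u 7) := by
      unfold d3zi_S
      have h5 : d3zi_m 1 1 = -1 := by decide
      have h6 : d3zi_m 1 2 = 1 := by decide
      have h7 : d3zi_u 1 = 1 := by
        have := d3zi_mul_u h10
        rwa [Nat.cast_one, one_mul] at this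
      rw [pow_one]
      simp only [Finset.sum_range_succ, Finset.sum_range_zero]
      rw [d3zi_F_dvd hk 0 0 (dvd_zero 3), h5, h6]
      unfold d3zi_F
      rw [hk.c0 1 h10, hk.c0 2 h20, h7]
      have h8 := d3zi_mul_u h20
      push_cast at h8 ⊢
      linear_combination (d3zi_u 7) * h8
    have h7 := congrArg norm (d3zi_mul_u h70)
    rw [norm_mul, d3zi_norm h70, one_mul, norm_one] at h7
    have h8 := congrArg norm (d3zi_mul_u h20)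
    rw [norm_mul, d3zi_norm h20, one_mul, norm_one] at h8
    rw [e, norm_neg, norm_mul, h7, h8, one_mul]
  have h3 : ‖L - d3zi_S (d3zi_F kap 0) 1‖ ≤ (3 : ℝ)⁻¹ := by
    have h4 := (h.sub_const (d3zi_S (d3zi_F kap 0) 1)).norm
    refine le_of_tendsto h4 ?_
    filter_upwards [eventually_ge_atTop 1] with m hm
    exact d3zi_tele (by norm_num) h1 m hm
  rw [PadicInt.isUnit_iff]
  refine le_antisymm (PadicInt.norm_le_one _) ?_
  by_contra h5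
  push Not at h5
  have h6 : ‖d3zi_S (d3zi_F kap 0) 1‖ < 1 := by
    have e : d3zi_S (d3zi_F kap 0) 1 = L + -(L - d3zi_S (d3zi_F kap 0) 1) := by ring
    rw [e]
    refine lt_of_le_of_lt (PadicInt.nonarchimedean _ _) (max_lt h5 ?_)
    rw [norm_neg]
    exact lt_of_le_of_lt h3 (by norm_num)
  rw [h2] at h6
  exact lt_irrefl _ h6

/-! ### evaluation -/

theorem d3zi_norm_iota (z : ℤ_[3]) : ‖iota3 z‖ = ‖z‖ := by
  unfold iota3
  rw [RingHom.comp_apply]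
  have h := PadicComplex.norm_extends' 3 (z : ℚ_[3])
  rw [← PadicInt.norm_def] at h
  exact h

theorem d3zi_iota_cont : Continuous (iota3 : ℤ_[3] → C3) :=
  (AddMonoidHomClass.isometry_of_norm iota3 d3zi_norm_iota).continuous

theorem d3zi_iota_le (z : ℤ_[3]) : ‖iota3 z‖ ≤ 1 := by
  rw [d3zi_norm_iota]
  exact PadicInt.norm_le_one _

theorem d3zi_summable {w : C3} (hw : ‖w‖ < 1) (c : ℕ → ℤ_[3]) :
    Summable fun j => iota3 (c j) * w ^ j := by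
  refine Summable.of_norm_bounded (summable_geometric_of_lt_one (norm_nonneg w) hw) fun j => ?_
  rw [norm_mul, norm_pow]
  exact mul_le_of_le_one_left (by positivity) (d3zi_iota_le _)

theorem d3zi_iota_u {a : ℕ} (ha : ¬ 3 ∣ a) : iota3 (d3zi_u a) = (a : C3)⁻¹ := by
  have h := congrArg iota3 (d3zi_mul_u ha)
  rw [map_mul, map_one, map_natCast] at h
  exact eq_inv_of_mul_eq_one_right h

theorem d3zi_hasSum {kap : ℕ → Lam3} (hk : KapFam3 kap) (κ : Weight 3) (hκ : κ.IsEven)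
    (n a : ℕ) :
    HasSum (fun j => iota3 (d3zi_F kap j a * (d3zi_m n a : ℤ_[3])) * κ.w ^ j)
      (κ.val a / (a : C3) * (((((1 + 2 * 3) * a / 3 ^ n : ℕ) : C3) - (3 : ℕ)) /
        (1 + 2 * (3 : ℕ)))) := by
  by_cases ha : ¬ 3 ∣ a
  · have hw := hk.wlt κ hκ
    have h1 : HasSum (fun j => iota3 (PowerSeries.coeff j (kap a)) * κ.w ^ j) (κ.val a) := by
      rw [hk.val a ha κ hκ]
      exact (d3zi_summable hw _).hasSum
    have h2 := h1.mul_left ((a : C3)⁻¹ * ((7 : ℕ) : C3)⁻¹ * ((d3zi_m n a : ℤ) : C3))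
    have e1 : (fun j => iota3 (d3zi_F kap j a * (d3zi_m n a : ℤ_[3])) * κ.w ^ j) =
        fun j => (a : C3)⁻¹ * ((7 : ℕ) : C3)⁻¹ * ((d3zi_m n a : ℤ) : C3) *
          (iota3 (PowerSeries.coeff j (kap a)) * κ.w ^ j) := by
      funext j
      unfold d3zi_F
      rw [map_mul, map_mul, map_mul, map_intCast, d3zi_iota_u ha, d3zi_iota_u (by decide)]
      ring
    have e2 : κ.val a / (a : C3) * (((((1 + 2 * 3) * a / 3 ^ n : ℕ) : C3) - (3 : ℕ)) /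
        (1 + 2 * (3 : ℕ))) =
        (a : C3)⁻¹ * ((7 : ℕ) : C3)⁻¹ * ((d3zi_m n a : ℤ) : C3) * κ.val a := by
      have e3 : (1 + 2 * 3) * a = 7 * a := by ring
      rw [e3]
      unfold d3zi_m
      have e4 : (1 + 2 * ((3 : ℕ) : C3)) = ((7 : ℕ) : C3) := by norm_num
      rw [e4]
      generalize 7 * a / 3 ^ n = q
      push_cast
      ring
    rw [e1, e2]
    exact h2
  · rw [not_not] at ha
    rw [hk.nval κ a ha, zero_div, zero_mul]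
    have e : (fun j => iota3 (d3zi_F kap j a * (d3zi_m n a : ℤ_[3])) * κ.w ^ j) = fun _ => 0 := by
      funext j
      rw [d3zi_F_dvd hk j a ha, zero_mul, map_zero, zero_mul]
    rw [e]
    exact hasSum_zero

theorem d3zi_sum_eq {kap : ℕ → Lam3} (hk : KapFam3 kap) (κ : Weight 3) (hκ : κ.IsEven) (n : ℕ) :
    ∑ a ∈ Finset.range (3 ^ n), κ.val a / (a : C3) *
        (((((1 + 2 * 3) * a / 3 ^ n : ℕ) : C3) - (3 : ℕ)) / (1 + 2 * (3 : ℕ))) =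
      ∑' j, iota3 (d3zi_S (d3zi_F kap j) n) * κ.w ^ j := by
  have h1 := hasSum_sum (s := Finset.range (3 ^ n)) fun a _ => d3zi_hasSum hk κ hκ n a
  rw [← h1.tsum_eq]
  congr 1
  funext j
  unfold d3zi_S
  rw [map_sum, Finset.sum_mul]

theorem exists_zetaUnit3 (kap : ℕ → Lam3) (hk : KapFam3 kap) : ∃ Z : Lam3,
    IsUnit (PowerSeries.coeff 0 Z) ∧
    ∀ κ : Weight 3, κ.IsEven →
      Tendsto (fun n : ℕ ↦ ∑ a ∈ Finset.range (3 ^ n), κ.val a / (a : C3) *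
        (((((1 + 2 * 3) * a / 3 ^ n : ℕ) : C3) - (3 : ℕ)) / (1 + 2 * (3 : ℕ)))) atTop
        (𝓝 (ev3 κ.w Z)) ∧ κ.zetaIntegral = ev3 κ.w Z := by
  choose L hL using d3zi_S_lim hk
  refine ⟨PowerSeries.mk L, ?_, fun κ hκ => ?_⟩
  · rw [PowerSeries.coeff_mk]
    exact d3zi_unit hk (hL 0)
  · have hw := hk.wlt κ hκ
    have h1 : Tendsto (fun n : ℕ ↦ ∑ a ∈ Finset.range (3 ^ n), κ.val a / (a : C3) *
        (((((1 + 2 * 3) * a / 3 ^ n : ℕ) : C3) - (3 : ℕ)) / (1 + 2 * (3 : ℕ)))) atTop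
        (𝓝 (ev3 κ.w (PowerSeries.mk L))) := by
      have e : ev3 κ.w (PowerSeries.mk L) = ∑' j, iota3 (L j) * κ.w ^ j := by
        unfold ev3
        congr 1
        funext j
        rw [PowerSeries.coeff_mk]
      rw [e]
      have h2 : Tendsto (fun n => ∑' j, iota3 (d3zi_S (d3zi_F kap j) n) * κ.w ^ j) atTop
          (𝓝 (∑' j, iota3 (L j) * κ.w ^ j)) := by
        refine tendsto_tsum_of_dominated_convergence
          (summable_geometric_of_lt_one (norm_nonneg κ.w) hw) (fun j => ?_)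
          (Filter.Eventually.of_forall fun n j => ?_)
        · exact ((d3zi_iota_cont.tendsto _).comp (hL j)).mul_const _
        · rw [norm_mul, norm_pow]
          exact mul_le_of_le_one_left (by positivity) (d3zi_iota_le _)
      exact h2.congr fun n => (d3zi_sum_eq hk κ hκ n).symm
    exact ⟨h1, h1.limUnder_eq⟩

end D3

end GH
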