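import Pool.Agent.GH.D3.Base3
import Pool.Agent.GH.ZValP

open PowerSeries Filter Topology

noncomputable section

namespace GH

namespace D3

/-! The values of the regularised sums at classical weights. -/

/-- `lim_n ∑_{a < 3^n, 3 ∤ a} a^{k-1} (⌊7a/3^n⌋ - 3)/7 = (1 - 7^{-k})(1 - 3^{k-1}) B_k/k`. -/
theorem tendsto_zetaSum3 (k : ℕ) (hk : Even k) (hk2 : 2 ≤ k) :
    Tendsto (fun n : ℕ ↦ ∑ a ∈ (Finset.range (3 ^ n)).filter (fun a ↦ ¬ 3 ∣ a),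
      (a : ℚ_[3]) ^ (k - 1) * (((7 * a / 3 ^ n : ℕ) : ℚ_[3]) - 3) / 7) atTop
      (𝓝 (((1 - (7 : ℚ)⁻¹ ^ k) * (1 - 3 ^ (k - 1)) * bernoulli k / k : ℚ) : ℚ_[3])) := by
  have h := GH.ZP.tendsto_zetaSum 3 k hk2
  have e1 : (1 + 2 * ((3 : ℕ) : ℚ)) = 7 := by norm_num
  have e2 : (1 + 2 * ((3 : ℕ) : ℚ_[3])) = 7 := by norm_num
  have e3 : ((3 : ℕ) : ℚ) = 3 := by norm_num
  have e4 : ((3 : ℕ) : ℚ_[3]) = 3 := by norm_num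
  rw [e1, e3] at h
  refine h.congr fun n ↦ ?_
  rw [e2, e4]

end D3

end GH
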