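import Pool.Agent.GH.D3.ZChar3
import Pool.Agent.GH.D3.ZInt3
import Pool.Agent.GH.D3.ZVal3

open PowerSeries Filter Topology

noncomputable section

namespace GH

namespace D3

/-! The Eisenstein family over `ℤ_3[[W]]`. -/

theorem d3_ef_isUnit {d : ℕ} (hd : ¬ 3 ∣ d) : IsUnit (d : ℤ_[3]) := by
  rw [PadicInt.isUnit_iff, PadicInt.norm_natCast_eq_one_iff]
  exact (Nat.Prime.coprime_iff_not_dvd Nat.prime_three).2 hd

theorem d3_ef_iota_inv {d : ℕ} (hd : ¬ 3 ∣ d) :
    iota3 (Ring.inverse (d : ℤ_[3])) = (d : C3)⁻¹ := by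
  have h1 : (d : ℤ_[3]) * Ring.inverse (d : ℤ_[3]) = 1 :=
    Ring.mul_inverse_cancel _ (d3_ef_isUnit hd)
  have h2 := congrArg iota3 h1
  rw [map_mul, map_one, map_natCast] at h2
  exact eq_inv_of_mul_eq_one_right h2

theorem d3_ef_sum {R : Type*} [AddCommMonoid R] (g : ℕ → R) (hg : ∀ d, 3 ∣ d → g d = 0)
    (n : ℕ) : ∑ d ∈ (3 * n).divisors, g d = ∑ d ∈ n.divisors, g d := by
  rcases Nat.eq_zero_or_pos n with rfl | hn
  · rfl
  symm
  refine Finset.sum_subset ?_ ?_
  · intro d hd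
    rw [Nat.mem_divisors] at hd ⊢
    exact ⟨Dvd.dvd.mul_left hd.1 3, by omega⟩
  · intro d hd hd'
    rw [Nat.mem_divisors] at hd hd'
    by_contra hne
    have h3 : ¬ 3 ∣ d := fun h => hne (hg d h)
    refine hd' ⟨?_, by omega⟩
    exact (Nat.Coprime.dvd_mul_left (Nat.Coprime.symm
      ((Nat.Prime.coprime_iff_not_dvd Nat.prime_three).2 h3))).1 hd.1

/-- the Eisenstein constant at classical weights -/
theorem d3_ef_const (κ : Weight 3) (m : ℕ) (hm : 1 ≤ m)
    (hval : ∀ a : ℕ, ¬ 3 ∣ a → κ.val a = (a : C3) ^ (12 * m))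
    (hval0 : ∀ a : ℕ, 3 ∣ a → κ.val a = 0) (Zv : C3)
    (hZ : Tendsto (fun n : ℕ ↦ ∑ a ∈ Finset.range (3 ^ n), κ.val a / (a : C3) *
        (((((1 + 2 * 3) * a / 3 ^ n : ℕ) : C3) - (3 : ℕ)) / (1 + 2 * (3 : ℕ)))) atTop (𝓝 Zv))
    (hZ2 : κ.zetaIntegral = Zv) :
    κ.eisConst = ((-(2 * (12 * m : ℕ) / ((1 - 3 ^ (12 * m - 1)) * bernoulli (12 * m))) : ℚ) :
      C3) := by
  set k := 12 * m with hk
  have hk2 : 2 ≤ k := by omega
  have hkE : Even k := ⟨6 * m, by omega⟩
  have h1 := tendsto_zetaSum3 k hkE hk2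
  have h2 := ((continuous_algebraMap ℚ_[3] C3).tendsto _).comp h1
  have h3 : ((algebraMap ℚ_[3] C3) ∘ fun n : ℕ ↦
      ∑ a ∈ (Finset.range (3 ^ n)).filter (fun a ↦ ¬ 3 ∣ a),
        (a : ℚ_[3]) ^ (k - 1) * (((7 * a / 3 ^ n : ℕ) : ℚ_[3]) - 3) / 7) =
      (fun n : ℕ ↦ ∑ a ∈ Finset.range (3 ^ n), κ.val a / (a : C3) *
        (((((1 + 2 * 3) * a / 3 ^ n : ℕ) : C3) - (3 : ℕ)) / (1 + 2 * (3 : ℕ)))) := by
    funext n
    rw [Function.comp_apply, map_sum, Finset.sum_filter]
    refine Finset.sum_congr rfl fun a _ => ?_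
    by_cases ha : 3 ∣ a
    · rw [if_neg (not_not.2 ha), hval0 a ha, zero_div, zero_mul]
    · rw [if_pos ha]
      have ha0 : (a : C3) ≠ 0 := by
        have : a ≠ 0 := by
          rintro rfl
          exact ha (dvd_zero 3)
        exact_mod_cast this
      rw [map_div₀, map_mul, map_pow, map_sub, map_natCast, map_natCast, hval a ha]
      have e1 : (a : C3) ^ k / (a : C3) = (a : C3) ^ (k - 1) := by
        have e2 : (a : C3) ^ k = (a : C3) ^ (k - 1) * a := by
          rw [← pow_succ]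
          congr 1
          omega
        rw [e2, mul_div_cancel_right₀ _ ha0]
      rw [e1]
      have e3 : (algebraMap ℚ_[3] C3) 3 = 3 := map_ofNat _ 3
      have e4 : (algebraMap ℚ_[3] C3) 7 = 7 := map_ofNat _ 7
      have e5 : ((1 + 2 * 3) * a / 3 ^ n : ℕ) = (7 * a / 3 ^ n : ℕ) := by norm_num
      rw [e3, e4, e5, mul_div_assoc]
      congr 2
      push_cast
      norm_num
  rw [h3, map_ratCast] at h2
  have h4 := tendsto_nhds_unique hZ h2
  have h5 : κ.val (1 + 2 * 3) = (7 : C3) ^ k := by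
    have := hval 7 (by decide)
    simpa using this
  unfold Weight.eisConst
  rw [hZ2, h4, h5]
  push_cast
  have h6 : (1 - ((7 : C3))⁻¹ ^ k) ≠ 0 := by
    rw [sub_ne_zero]
    intro h
    rw [inv_pow, eq_comm, inv_eq_one] at h
    have h7 : ((7 ^ k : ℕ) : C3) = ((1 : ℕ) : C3) := by
      push_cast
      exact h
    have h8 : 7 ^ k = 1 := Nat.cast_injective h7
    have h9 : k = 0 := by
      rcases Nat.pow_eq_one.1 h8 with h9 | h9
      · norm_num at h9
      · exact h9
    omega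
  rw [← inv_pow]
  rw [mul_assoc (1 - ((7 : C3))⁻¹ ^ k), mul_div_assoc (1 - ((7 : C3))⁻¹ ^ k),
    mul_comm (-2 : C3), mul_div_mul_left _ _ h6, div_div_eq_mul_div]
  ring

theorem exists_eisFam3 : ∃ E : PowerSeries Lam3,
    PowerSeries.coeff 0 E = 1 ∧ (∀ n, 1 ≤ n → X ∣ PowerSeries.coeff n E) ∧
    U 3 E = E ∧
    (∀ κ : Weight 3, κ.IsEven → κ.eis = evS3 κ.w E) ∧
    (∀ m : ℕ, 1 ≤ m → evS3 (7 ^ (12 * m) - 1) E =
      PowerSeries.map (algebraMap ℚ C3) (eisStab3 (12 * m))) := by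
  obtain ⟨kap, k1, k2, k3, k4, k5, k6, k7, k8⟩ := exists_kap3
  have hfam : KapFam3 kap := ⟨k1, k2, k3, k4, k5, k6, k7, k8,
    fun κ hκ => norm_w_lt_one3 κ hκ, fun κ a ha => val_of_dvd3 κ ha⟩
  obtain ⟨Z, hZu, hZ⟩ := exists_zetaUnit3 kap hfam
  have hZunit : IsUnit Z := by
    rw [PowerSeries.isUnit_iff_constantCoeff, ← PowerSeries.coeff_zero_eq_constantCoeff_apply]
    exact hZu
  obtain ⟨Zi, hZi⟩ := hZunit.exists_right_inv
  have hXunit : IsUnit (1 + X : Lam3) := by
    rw [PowerSeries.isUnit_iff_constantCoeff]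
    simp
  obtain ⟨V, hV⟩ := hXunit.exists_right_inv
  set c : Lam3 := -2 * (1 - V) * Zi with hc
  have hXc : (X : Lam3) ∣ c := by
    refine ⟨-2 * V * Zi, ?_⟩
    rw [hc]
    linear_combination 2 * Zi * hV
  set g : ℕ → Lam3 := fun d => kap d * PowerSeries.C (Ring.inverse (d : ℤ_[3])) with hg
  have hg0 : ∀ d, 3 ∣ d → g d = 0 := by
    intro d hd
    rw [hg]
    simp only
    rw [k2 d hd, zero_mul]
  set E : PowerSeries Lam3 := 1 + PowerSeries.mk fun n => c * ∑ d ∈ n.divisors, g d with hE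
  have hcoeff : ∀ n, PowerSeries.coeff n E = (if n = 0 then 1 else 0) +
      c * ∑ d ∈ n.divisors, g d := by
    intro n
    rw [hE, map_add, PowerSeries.coeff_mk, PowerSeries.coeff_one]
  have heis : ∀ κ : Weight 3, κ.IsEven → κ.eis = evS3 κ.w E := by
    intro κ hκ
    have hw := norm_w_lt_one3 κ hκ
    obtain ⟨φ, hφ⟩ := exists_ev3Hom hw
    have hφX : φ X = κ.w := by rw [hφ, ev3_X hw]
    have hφC : ∀ a, φ (PowerSeries.C a) = iota3 a := fun a => by rw [hφ, ev3_C hw]
    have h5 : κ.val (1 + 2 * 3) = 1 + κ.w := by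
      have h := k1 7 (by decide) κ hκ
      rw [k4, ← hφ, map_add, map_one, hφX] at h
      exact h
    have hVi : φ V = (1 + κ.w)⁻¹ := by
      have h := congrArg φ hV
      rw [map_mul, map_add, map_one, hφX] at h
      exact eq_inv_of_mul_eq_one_right h
    have hZi' : φ Zi = (φ Z)⁻¹ := by
      have h := congrArg φ hZi
      rw [map_mul, map_one] at h
      exact eq_inv_of_mul_eq_one_right h
    have hconst : κ.eisConst = φ c := by
      unfold Weight.eisConst
      rw [(hZ κ hκ).2, h5, ← hφ, hc, map_mul, map_mul, map_neg, map_sub, map_one, hVi, hZi',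
        map_ofNat, div_eq_mul_inv]
    have hgd : ∀ d, φ (g d) = κ.val d / (d : C3) := by
      intro d
      by_cases hd : 3 ∣ d
      · rw [hg0 d hd, map_zero, val_of_dvd3 κ hd, zero_div]
      · rw [hg]
        simp only
        rw [map_mul, hφC, d3_ef_iota_inv hd, k1 d hd κ hκ, hφ, div_eq_mul_inv]
    ext n
    have h1 : PowerSeries.coeff n (evS3 κ.w E) = φ (PowerSeries.coeff n E) := by
      rw [evS3, PowerSeries.coeff_mk, hφ]
    rw [h1, hcoeff, Weight.eis, map_add, PowerSeries.coeff_mk, PowerSeries.coeff_one, map_add,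
      map_mul, map_sum, hconst]
    simp only [hgd]
    congr 1
    split_ifs <;> simp
  refine ⟨E, ?_, ?_, ?_, heis, ?_⟩
  · rw [hcoeff]
    simp
  · intro n hn
    rw [hcoeff, if_neg (by omega), zero_add]
    exact Dvd.dvd.mul_right hXc _
  · ext1 n
    rw [U, PowerSeries.coeff_mk, hcoeff, hcoeff, d3_ef_sum g hg0 n]
    congr 1
    by_cases h : n = 0
    · simp [h]
    · rw [if_neg h, if_neg (by omega)]
  · intro m hm
    obtain ⟨κ, hκ⟩ := exists_powWeight3 (12 * m)
    have hval : ∀ a : ℕ, ¬ 3 ∣ a → κ.val a = (a : C3) ^ (12 * m) := by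
      intro a ha
      unfold Weight.val
      rw [dif_pos (d3_ef_isUnit ha), hκ]
      rw [IsUnit.unit_spec, map_natCast]
    have heven : κ.IsEven := by
      unfold Weight.IsEven
      apply Units.ext
      rw [hκ, Units.val_neg, Units.val_one, map_neg, map_one,
        show 12 * m = 2 * (6 * m) by ring, pow_mul]
      norm_num
    have hw : κ.w = 7 ^ (12 * m) - 1 := by
      unfold Weight.w
      have h5 : κ.val (1 + 2 * 3) = (7 : C3) ^ (12 * m) := by
        have := hval 7 (by decide)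
        simpa using this
      rw [h5]
    rw [← hw, ← heis κ heven]
    have hconst := d3_ef_const κ m hm hval (fun a ha => val_of_dvd3 κ ha) _
      (hZ κ heven).1 (hZ κ heven).2
    ext n
    rw [Weight.eis, eisStab3, map_add, PowerSeries.coeff_mk, PowerSeries.coeff_one,
      PowerSeries.coeff_map, map_add, PowerSeries.coeff_mk, PowerSeries.coeff_one, map_add,
      map_mul, map_sum, hconst]
    congr 1
    · split_ifs <;> simp
    · congr 1
      refine Finset.sum_congr rfl fun d _ => ?_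
      by_cases hd : 3 ∣ d
      · rw [if_pos hd, val_of_dvd3 κ hd, zero_div, map_zero]
      · rw [if_neg hd, hval d hd]
        have hd0 : (d : C3) ≠ 0 := by
          have : d ≠ 0 := by
            rintro rfl
            exact hd (dvd_zero 3)
          exact_mod_cast this
        have e2 : (d : C3) ^ (12 * m) = (d : C3) ^ (12 * m - 1) * d := by
          rw [← pow_succ]
          congr 1
          omega
        rw [e2, mul_div_cancel_right₀ _ hd0]
        simp

end D3

end GH
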