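import Pool.Agent.GH.D3.Base3
import Pool.Agent.GH.GaussP

open PowerSeries Filter Topology

noncomputable section

namespace GH

namespace D3

/-! Gauss norm on `‖w‖ ≤ 1/3` for `ℤ_3[[W]]`. -/

theorem d3_evp (w : C3) (F : Lam3) : GP.evp (p := 3) w F = ev3 w F := rfl

theorem norm_coeff_le_of_bound3 (F : Lam3) (B : ℝ)
    (h : ∀ w : C3, ‖w‖ ≤ 1 / 3 → ‖ev3 w F‖ ≤ B)
    (m : ℕ) : ‖PowerSeries.coeff m F‖ ≤ 3 ^ m * B := by
  have h1 := GP.norm_coeff_le_of_bound (p := 3) (e := 1) one_ne_zero F B (fun w hw => by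
    rw [d3_evp]
    refine h w ?_
    simpa using hw) m
  simpa using h1

theorem exists_generic_point3 (F : Lam3) (T : Finset C3) : ∃ x : C3, ‖x‖ = 1 ∧
    (∀ t ∈ T, ‖x - t‖ = 1 ∨ ¬ ‖t‖ ≤ 1) ∧
    ∀ m, ‖PowerSeries.coeff m F‖ ≤ 3 ^ m * ‖ev3 (3 * x) F‖ := by
  obtain ⟨x, hx, hT, h⟩ := GP.exists_generic_point (p := 3) (e := 1) one_ne_zero F T
  refine ⟨x, hx, hT, fun m => ?_⟩
  have h1 := h m
  rw [d3_evp] at h1
  simpa using h1

end D3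

end GH
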