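import Pool.Agent.GH.D3.Base3
import Pool.Agent.GH.D3.Ext3_c
import Pool.Agent.GH.D3.GaussN3

open PowerSeries Filter Topology

noncomputable section

namespace GH

namespace D3

/-! From the central disc to the whole weight disc. -/

/-- the centres of the three residue discs in the coordinate `y = w/3` -/
def g3c (i : Fin 3) : C3 := (((7 : ℤ) ^ (i : ℕ) - 1) / 3 : ℤ)

theorem g3c_eq (i : Fin 3) : 3 * g3c i = 7 ^ (i : ℕ) - 1 := by
  unfold g3c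
  fin_cases i <;> norm_num

theorem g3c_le (i : Fin 3) : ‖g3c i‖ ≤ 1 := d3_norm_int_le _

theorem g3c_sub (i j : Fin 3) (h : i ≠ j) : ‖g3c i - g3c j‖ = 1 := by
  unfold g3c
  rw [← Int.cast_sub]
  apply d3_norm_ndvd
  revert h
  fin_cases i <;> fin_cases j <;> norm_num

theorem d3_param {y : C3} (hy : ‖y‖ ≤ 1) :
    ∃ x : C3, ‖x‖ ≤ 1 ∧ wx3 x = 3 * y ∧ ∀ i : Fin 3, ‖x - (i : ℕ)‖ = ‖y - g3c i‖ := by
  have h8 : ‖3 * y‖ = ‖y‖ / 3 := by
    rw [norm_mul, d3_norm_three]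
    ring
  obtain ⟨x, hx, hxy⟩ := exists_wx3_eq (w := 3 * y) (by rw [h8]; linarith)
  refine ⟨x, hx, hxy, fun i => ?_⟩
  have h1 := norm_wx3_sub hx (y := (((i : ℕ) : ℕ) : C3)) (d3_norm_nat_le _)
  rw [wx3_natCast, hxy, ← g3c_eq, ← mul_sub, norm_mul, d3_norm_three] at h1
  linarith

open Polynomial in
/-- the truncation of the power series as a polynomial in `y = w/3` -/
def g3P (F : Lam3) (l : ℕ) : Polynomial C3 :=
  ∑ m ∈ Finset.range (l + 1), Polynomial.C (iota3 (PowerSeries.coeff m F) * 3 ^ m) *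
    (Polynomial.X : Polynomial C3) ^ m

theorem g3P_natDegree (F : Lam3) (l : ℕ) : (g3P F l).natDegree ≤ l := by
  unfold g3P
  refine Polynomial.natDegree_sum_le_of_forall_le _ _ fun m hm => ?_
  refine (Polynomial.natDegree_C_mul_X_pow_le _ _).trans ?_
  rw [Finset.mem_range] at hm
  omega

theorem g3P_coeff (F : Lam3) (l : ℕ) :
    (g3P F l).coeff l = iota3 (PowerSeries.coeff l F) * 3 ^ l := by
  unfold g3P
  rw [Polynomial.finsetSum_coeff]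
  simp only [Polynomial.coeff_C_mul_X_pow]
  rw [Finset.sum_ite_eq, if_pos (Finset.mem_range.2 (Nat.lt_succ_self l))]

theorem g3P_eval (F : Lam3) (l : ℕ) (y : C3) : (g3P F l).eval y =
    ∑ m ∈ Finset.range (l + 1), iota3 (PowerSeries.coeff m F) * (3 * y) ^ m := by
  unfold g3P
  rw [Polynomial.eval_finsetSum]
  refine Finset.sum_congr rfl fun m _ => ?_
  rw [Polynomial.eval_mul, Polynomial.eval_C, Polynomial.eval_pow, Polynomial.eval_X, mul_pow]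
  ring

theorem g3P_norm (F : Lam3) (l : ℕ) {y : C3} (hy : ‖y‖ ≤ 1) {v : ℝ}
    (hv : ‖ev3 (3 * y) F‖ = v) (hv1 : (1 / 3) ^ l * (3 / 4) ≤ v) : ‖(g3P F l).eval y‖ = v := by
  have h8 : ‖3 * y‖ ≤ 1 / 3 := by
    rw [norm_mul, d3_norm_three]
    linarith
  have h1 := d3_ev_sub_sum F (w := 3 * y) (lt_of_le_of_lt h8 (by norm_num)) l
  rw [← g3P_eval] at h1
  have h2 : ‖3 * y‖ ^ (l + 1) ≤ (1 / 3) ^ (l + 1) :=
    pow_le_pow_left₀ (norm_nonneg _) h8 _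
  have h3 : (0 : ℝ) < (1 / 3) ^ l := by positivity
  rw [← hv]
  refine d3_norm_eq (lt_of_le_of_lt (h1.trans h2) ?_)
  rw [hv, pow_succ]
  linarith

/-- The coefficients of `a n`. -/
theorem d3_coeffs (a : ℕ → Lam3)
    (hcent : ∀ w : C3, ‖w‖ ≤ 1 / 3 →
      newtonPolygon 3 (fun n ↦ ev3 w (a n)) = newtonPolygon 3 (ghost 3 w)) (n : ℕ) :
    (∀ m, ‖PowerSeries.coeff m (a n)‖ ≤ 3 ^ m * (1 / 3) ^ (n * (n + 1))) ∧
      ‖PowerSeries.coeff (n * (n + 1)) (a n)‖ = 1 := by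
  classical
  have hev : ∀ x : C3, ‖x‖ ≤ 1 →
      (1 / 3) ^ (n * (n + 1)) * (3 / 4) ≤ ‖ghost 3 (wx3 x) n‖ →
      ‖ev3 (wx3 x) (a n)‖ = ‖ghost 3 (wx3 x) n‖ := by
    intro x hx h
    have h1 := hcent (wx3 x) (by rw [norm_wx3 hx]; linarith)
    exact d3_tri (a := fun n ↦ ev3 (wx3 x) (a n)) h1 (fun i => d3_ghost_le hx i) h
  have h3 : (0 : ℝ) < (1 / 3) ^ (n * (n + 1)) := by positivity
  -- the two cases
  have ha : ∀ y : C3, ‖y‖ ≤ 1 → (∀ i, ‖y - g3c i‖ = 1) →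
      ‖ev3 (3 * y) (a n)‖ = (1 / 3) ^ (n * (n + 1)) := by
    intro y hy hy3
    obtain ⟨x, hx, hxy, hx1⟩ := d3_param hy
    have hg := d3_ghost_gen hx (fun i => (hx1 i).trans (hy3 i)) n
    rw [← hxy, hev x hx (by rw [hg]; linarith), hg]
  have hb : ∀ (i : Fin 3) (y : C3), ‖y‖ ≤ 1 → 1 / 3 < ‖y - g3c i‖ → ‖y - g3c i‖ < 1 →
      3 / 4 ≤ ‖y - g3c i‖ ^ g3A n i →
      ‖ev3 (3 * y) (a n)‖ = (1 / 3) ^ (n * (n + 1)) * ‖y - g3c i‖ ^ g3A n i := by
    intro i y hyn hy hy1 hy2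
    obtain ⟨x, hx, hxy, hx1⟩ := d3_param hyn
    have hg := d3_ghost_near hx i (by rw [hx1]; exact hy) (by rw [hx1]; exact hy1) n
    rw [hx1] at hg
    rw [← hxy, hev x hx (by rw [hg]; exact mul_le_mul_of_nonneg_left hy2 h3.le), hg]
  -- a generic point
  obtain ⟨x', hx', hT, hbd⟩ := exists_generic_point3 (a n) (Finset.univ.image g3c)
  have hx3 : ∀ i, ‖x' - g3c i‖ = 1 := by
    intro i
    rcases hT (g3c i) (Finset.mem_image_of_mem _ (Finset.mem_univ i)) with h | h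
    · exact h
    · exact absurd (g3c_le i) h
  rw [ha x' hx'.le hx3] at hbd
  refine ⟨hbd, ?_⟩
  -- the polynomial
  have hpow : ∀ k : ℕ, ∀ᶠ r in 𝓝 (1 : ℝ), 3 / 4 < r ^ k := by
    intro k
    have h1 : Tendsto (fun r : ℝ => r ^ k) (𝓝 1) (𝓝 (1 ^ k)) := (continuous_pow k).tendsto 1
    rw [one_pow] at h1
    exact h1.eventually (lt_mem_nhds (by norm_num))
  have hhalf : ∀ᶠ r in 𝓝 (1 : ℝ), 1 / 3 < r := lt_mem_nhds (by norm_num)
  have hp := g3_poly g3c g3c_le g3c_sub (g3P (a n) (n * (n + 1))) (g3P_natDegree _ _)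
    (g3A_sum n) h3
    (fun y hy hy3 => g3P_norm _ _ hy (ha y hy hy3) (by linarith))
    (fun i => by
      filter_upwards [hpow (g3A n i), hhalf] with r hr1 hr2 y hy hr3
      subst hy
      have hyn : ‖y‖ ≤ 1 := by
        have h1 : y = (y - g3c i) - (-g3c i) := by ring
        rw [h1]
        exact d3_sub_le hr3.le (by rw [norm_neg]; exact g3c_le i)
      exact g3P_norm _ _ hyn (hb i y hyn hr2 hr3 hr1.le)
        (mul_le_mul_of_nonneg_left hr1.le h3.le))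
    ⟨x', hx'.le, hx3⟩
  rw [g3P_coeff, norm_mul, d3_iota_norm, norm_pow, d3_norm_three] at hp
  exact mul_right_cancel₀ h3.ne' (hp.trans (one_mul _).symm)

theorem ghost3_extend (a : ℕ → Lam3) (h0 : ∀ w : C3, ‖w‖ < 1 → ev3 w (a 0) = 1)
    (hcent : ∀ w : C3, ‖w‖ ≤ 1 / 3 →
      newtonPolygon 3 (fun n ↦ ev3 w (a n)) = newtonPolygon 3 (ghost 3 w))
    {w : C3} (hw : ‖w‖ < 1) :
    newtonPolygon 3 (fun n ↦ ev3 w (a n)) = newtonPolygon 3 (ghost 3 w) := by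
  rcases le_or_gt ‖w‖ (1 / 3) with h | h
  · exact hcent w h
  · refine g1_np_congr 3 fun n => ?_
    obtain ⟨h1, h2⟩ := d3_coeffs a hcent n
    rw [norm_ghost3_outer h n]
    exact d3_ev_outer (a n) (fun m _ => h1 m) h2 h hw

end D3

end GH
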