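import Pool.Agent.GH.D3.Base3
import Pool.Agent.GH.FamA

/-!
# Ghost conjecture `(3,1)`: norms of power series (for `Fam3`)
-/

open PowerSeries Filter Topology

noncomputable section

namespace GH

namespace D3

/-! ### expansion `q ↦ q³` -/

section expand

variable {K : Type*} [Field K]

lemma d3fa_expand_subst {v : PowerSeries K} (hv : PowerSeries.constantCoeff v = 0)
    (g : PowerSeries K) :
    PowerSeries.expand 3 three_ne_zero (g.subst v) = g.subst (v.expand 3 three_ne_zero) := by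
  rw [PowerSeries.expand_apply, PowerSeries.expand_apply]
  exact subst_comp_subst_apply (HasSubst.of_constantCoeff_zero' hv)
    (HasSubst.X_pow three_ne_zero) g

lemma d3fa_expand_ppow {u : PowerSeries K} (hu : PowerSeries.constantCoeff u = 1) (s : K) :
    (ppow u s).expand 3 three_ne_zero = ppow (u.expand 3 three_ne_zero) s := by
  unfold ppow
  rw [d3fa_expand_subst (by rw [map_sub, hu, map_one, sub_self]), map_sub, map_one]

end expand

/-! ### norms -/

section norm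

/-- The coefficients have norm at most `c (7/6)^{-n}`. -/
def NBF3 (F : PowerSeries C3) (c : ℝ) : Prop := ∀ n, ‖PowerSeries.coeff n F‖ * (7 / 6 : ℝ) ^ n ≤ c

lemma NBF3.mul {F G : PowerSeries C3} {a b : ℝ} (hF : NBF3 F a) (hG : NBF3 G b) (ha : 0 ≤ a)
    (hb : 0 ≤ b) : NBF3 (F * G) (a * b) := by
  intro n
  have h32 : (0 : ℝ) < (7 / 6 : ℝ) ^ n := by positivity
  rw [← le_div_iff₀ h32, PowerSeries.coeff_mul]
  refine IsUltrametricDist.norm_sum_le_of_forall_le_of_nonneg (by positivity) fun ij hij => ?_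
  rw [Finset.HasAntidiagonal.mem_antidiagonal] at hij
  rw [le_div_iff₀ h32, norm_mul, ← hij, pow_add]
  calc ‖PowerSeries.coeff ij.1 F‖ * ‖PowerSeries.coeff ij.2 G‖ *
        ((7 / 6 : ℝ) ^ ij.1 * (7 / 6 : ℝ) ^ ij.2)
      = (‖PowerSeries.coeff ij.1 F‖ * (7 / 6 : ℝ) ^ ij.1) *
        (‖PowerSeries.coeff ij.2 G‖ * (7 / 6 : ℝ) ^ ij.2) := by ring
    _ ≤ a * b := mul_le_mul (hF _) (hG _) (by positivity) ha

lemma NBF3.one : NBF3 1 1 := by
  intro n
  rw [PowerSeries.coeff_one]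
  rcases Nat.eq_zero_or_pos n with h | h
  · subst h
    simp
  · rw [if_neg (by omega), norm_zero, zero_mul]
    exact zero_le_one

lemma NBF3.pow {F : PowerSeries C3} {a : ℝ} (hF : NBF3 F a) (ha : 0 ≤ a) (m : ℕ) :
    NBF3 (F ^ m) (a ^ m) := by
  induction m with
  | zero =>
    rw [pow_zero, pow_zero]
    exact NBF3.one
  | succ m ih =>
    rw [pow_succ, pow_succ]
    exact ih.mul hF (by positivity) ha

lemma NBF3.mono {F : PowerSeries C3} {a b : ℝ} (hF : NBF3 F a) (h : a ≤ b) : NBF3 F b :=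
  fun n => (hF n).trans h

lemma NBF3.add {F G : PowerSeries C3} {a : ℝ} (hF : NBF3 F a) (hG : NBF3 G a) :
    NBF3 (F + G) a := by
  intro n
  have h32 : (0 : ℝ) < (7 / 6 : ℝ) ^ n := by positivity
  rw [← le_div_iff₀ h32, map_add]
  refine (IsUltrametricDist.norm_add_le_max _ _).trans (max_le ?_ ?_)
  · rw [le_div_iff₀ h32]
    exact hF n
  · rw [le_div_iff₀ h32]
    exact hG n

lemma NBF3.smul {F : PowerSeries C3} {a : ℝ} (hF : NBF3 F a) (c : C3) :
    NBF3 (C c * F) (‖c‖ * a) := by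
  intro n
  rw [PowerSeries.coeff_C_mul, norm_mul, mul_assoc]
  exact mul_le_mul_of_nonneg_left (hF n) (norm_nonneg _)

lemma NBF3.subst {F G : PowerSeries C3} {a : ℝ} (hF0 : PowerSeries.constantCoeff F = 0)
    (hF : NBF3 F a) (ha : 0 ≤ a) (hG : ∀ m, ‖PowerSeries.coeff m G‖ * a ^ m ≤ 1) :
    NBF3 (G.subst F) 1 := by
  intro n
  have h32 : (0 : ℝ) < (7 / 6 : ℝ) ^ n := by positivity
  rw [← le_div_iff₀ h32, fa_coeff_subst hF0]
  refine IsUltrametricDist.norm_sum_le_of_forall_le_of_nonneg (by positivity) fun m _ => ?_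
  rw [le_div_iff₀ h32, norm_mul, mul_assoc]
  calc ‖PowerSeries.coeff m G‖ * (‖PowerSeries.coeff n (F ^ m)‖ * (7 / 6 : ℝ) ^ n)
      ≤ ‖PowerSeries.coeff m G‖ * a ^ m :=
        mul_le_mul_of_nonneg_left (hF.pow ha m n) (norm_nonneg _)
    _ ≤ 1 := hG m

lemma NBF3.inv {F G : PowerSeries C3} (hF0 : PowerSeries.constantCoeff F = 1) (hF : NBF3 F 1)
    (hFG : F * G = 1) : NBF3 G 1 := by
  intro n
  induction n using Nat.strong_induction_on with
  | _ n ih =>
    have h32 : (0 : ℝ) < (7 / 6 : ℝ) ^ n := by positivity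
    have h1 : PowerSeries.coeff n G = (if n = 0 then 1 else 0) -
        ∑ ij ∈ (Finset.HasAntidiagonal.antidiagonal n).erase (0, n),
          PowerSeries.coeff ij.1 F * PowerSeries.coeff ij.2 G := by
      have h2 := congrArg (PowerSeries.coeff n) hFG
      rw [PowerSeries.coeff_mul, PowerSeries.coeff_one,
        ← Finset.add_sum_erase _ _ (Finset.HasAntidiagonal.mem_antidiagonal.2
          (show ((0, n) : ℕ × ℕ).1 + ((0, n) : ℕ × ℕ).2 = n from zero_add n)),
        PowerSeries.coeff_zero_eq_constantCoeff_apply, hF0, one_mul] at h2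
      exact eq_sub_of_add_eq h2
    rw [← le_div_iff₀ h32, h1, sub_eq_add_neg]
    refine (IsUltrametricDist.norm_add_le_max _ _).trans (max_le ?_ ?_)
    · rcases Nat.eq_zero_or_pos n with h | h
      · subst h
        simp
      · rw [if_neg (by omega), norm_zero]
        positivity
    · rw [norm_neg]
      refine IsUltrametricDist.norm_sum_le_of_forall_le_of_nonneg (by positivity) fun ij hij => ?_
      rw [Finset.mem_erase, Finset.HasAntidiagonal.mem_antidiagonal] at hij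
      have hlt : ij.2 < n := by
        rcases Nat.lt_or_ge ij.2 n with h | h
        · exact h
        · exact absurd (Prod.ext (by show ij.1 = 0; omega) (by show ij.2 = n; omega)) hij.1
      rw [le_div_iff₀ h32, norm_mul, ← hij.2, pow_add]
      calc ‖PowerSeries.coeff ij.1 F‖ * ‖PowerSeries.coeff ij.2 G‖ *
            ((7 / 6 : ℝ) ^ ij.1 * (7 / 6 : ℝ) ^ ij.2)
          = (‖PowerSeries.coeff ij.1 F‖ * (7 / 6 : ℝ) ^ ij.1) *
            (‖PowerSeries.coeff ij.2 G‖ * (7 / 6 : ℝ) ^ ij.2) := by ring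
        _ ≤ 1 * 1 := mul_le_mul (hF _) (ih _ hlt) (by positivity) zero_le_one
        _ = 1 := one_mul 1

/-- one product with vanishing constant terms -/
lemma d3fa_mul_bound {F G : PowerSeries C3} (hF0 : PowerSeries.constantCoeff F = 0)
    (hG0 : PowerSeries.constantCoeff G = 0) {n : ℕ} {a b : ℝ} (ha : 0 ≤ a) (hb : 0 ≤ b)
    (hF : ∀ m < n, ‖PowerSeries.coeff m F‖ * (7 / 6 : ℝ) ^ m ≤ a)
    (hG : ∀ m < n, ‖PowerSeries.coeff m G‖ * (7 / 6 : ℝ) ^ m ≤ b) {k : ℕ} (hk : k ≤ n) :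
    ‖PowerSeries.coeff k (F * G)‖ * (7 / 6 : ℝ) ^ k ≤ a * b := by
  have h32 : (0 : ℝ) < (7 / 6 : ℝ) ^ k := by positivity
  rw [← le_div_iff₀ h32, PowerSeries.coeff_mul]
  refine IsUltrametricDist.norm_sum_le_of_forall_le_of_nonneg (by positivity) fun ij hij => ?_
  rw [Finset.HasAntidiagonal.mem_antidiagonal] at hij
  rw [le_div_iff₀ h32]
  by_cases h1 : ij.1 = 0
  · rw [h1, PowerSeries.coeff_zero_eq_constantCoeff_apply, hF0, zero_mul, norm_zero, zero_mul]
    positivity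
  by_cases h2 : ij.2 = 0
  · rw [h2, PowerSeries.coeff_zero_eq_constantCoeff_apply, hG0, mul_zero, norm_zero, zero_mul]
    positivity
  rw [norm_mul, ← hij, pow_add]
  calc ‖PowerSeries.coeff ij.1 F‖ * ‖PowerSeries.coeff ij.2 G‖ *
        ((7 / 6 : ℝ) ^ ij.1 * (7 / 6 : ℝ) ^ ij.2)
      = (‖PowerSeries.coeff ij.1 F‖ * (7 / 6 : ℝ) ^ ij.1) *
        (‖PowerSeries.coeff ij.2 G‖ * (7 / 6 : ℝ) ^ ij.2) := by ring
    _ ≤ a * b := mul_le_mul (hF _ (by omega)) (hG _ (by omega)) (by positivity) ha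

/-- the norm of `h` as a power series in `f` -/
lemma d3fa_nb_g {g : PowerSeries C3} (h0 : PowerSeries.constantCoeff g = 0)
    (hg : g * (1 + C (9 : C3) * g + C (27 : C3) * g ^ 2) = X) (h9 : ‖(9 : C3)‖ ≤ 1 / 9)
    (h27 : ‖(27 : C3)‖ ≤ 1 / 27) : NBF3 g (7 / 6) := by
  have hg' : g = X - C (9 : C3) * (g * g) - C (27 : C3) * (g * (g * g)) := by
    rw [← hg]
    ring
  have h00 : PowerSeries.constantCoeff (g * g) = 0 := by rw [map_mul, h0, zero_mul]
  intro n
  induction n using Nat.strong_induction_on with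
  | _ n ih =>
    have h32 : (0 : ℝ) < (7 / 6 : ℝ) ^ n := by positivity
    have b2 : ∀ k ≤ n, ‖PowerSeries.coeff k (g * g)‖ * (7 / 6 : ℝ) ^ k ≤ 7 / 6 * (7 / 6) :=
      fun k hk => d3fa_mul_bound h0 h0 (by norm_num) (by norm_num) ih ih hk
    have b3 : ‖PowerSeries.coeff n (g * (g * g))‖ * (7 / 6 : ℝ) ^ n ≤
        7 / 6 * (7 / 6 * (7 / 6)) :=
      d3fa_mul_bound h0 h00 (by norm_num) (by norm_num) ih (fun m hm => b2 m hm.le) le_rfl
    rw [← le_div_iff₀ h32, hg', map_sub, map_sub, PowerSeries.coeff_C_mul,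
      PowerSeries.coeff_C_mul, sub_eq_add_neg, sub_eq_add_neg]
    refine (IsUltrametricDist.norm_add_le_max _ _).trans (max_le
      ((IsUltrametricDist.norm_add_le_max _ _).trans (max_le ?_ ?_)) ?_)
    · rw [PowerSeries.coeff_X]
      split_ifs with h
      · subst h
        simp
      · rw [norm_zero]
        positivity
    · rw [norm_neg, norm_mul, le_div_iff₀ h32, mul_assoc]
      calc ‖(9 : C3)‖ * (‖PowerSeries.coeff n (g * g)‖ * (7 / 6 : ℝ) ^ n)
          ≤ 1 / 9 * (7 / 6 * (7 / 6)) :=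
            mul_le_mul h9 (b2 n le_rfl) (by positivity) (by norm_num)
        _ ≤ 7 / 6 := by norm_num
    · rw [norm_neg, norm_mul, le_div_iff₀ h32, mul_assoc]
      calc ‖(27 : C3)‖ * (‖PowerSeries.coeff n (g * (g * g))‖ * (7 / 6 : ℝ) ^ n)
          ≤ 1 / 27 * (7 / 6 * (7 / 6 * (7 / 6))) :=
            mul_le_mul h27 b3 (by positivity) (by norm_num)
        _ ≤ 7 / 6 := by norm_num

end norm

end D3

end GH
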