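import Pool.Agent.GH.D3.Base3

/-!
# Ghost conjecture `(3,1)`: the parametrisation `w = 7^x - 1` of the disc `‖w‖ ≤ 1/3`
-/

open PowerSeries Filter Topology

noncomputable section

namespace GH

namespace D3

/-! ### norms of some numbers -/

lemma d3pm_norm_natCast (n : ℕ) : ‖(n : C3)‖ = ‖(n : ℚ_[3])‖ := by
  rw [← map_natCast (algebraMap ℚ_[3] C3) n, norm_algebraMap']

lemma d3pm_norm_three : ‖(3 : C3)‖ = 1 / 3 := by
  have h := d3pm_norm_natCast 3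
  have h2 : ‖((3 : ℕ) : ℚ_[3])‖ = ((3 : ℕ) : ℝ)⁻¹ := Padic.norm_p
  rw [h2] at h
  simpa using h

lemma d3pm_norm_two : ‖(2 : C3)‖ = 1 := by
  have h := d3pm_norm_natCast 2
  have h2 : ‖((2 : ℕ) : ℚ_[3])‖ = 1 := by
    rw [Padic.norm_natCast_eq_one_iff]
    decide
  rw [h2] at h
  simpa using h

lemma d3pm_norm_6 : ‖(6 : C3)‖ = 1 / 3 := by
  have h : (6 : C3) = 2 * 3 := by norm_num
  rw [h, norm_mul, d3pm_norm_two, d3pm_norm_three, one_mul]

lemma d3pm_norm_fact (n : ℕ) : ‖((n + 1).factorial : C3)‖⁻¹ ≤ (9 / 5) ^ n := by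
  have h0 : ((n + 1).factorial : ℚ_[3]) ≠ 0 := by
    exact_mod_cast (n + 1).factorial_ne_zero
  rw [d3pm_norm_natCast, Padic.norm_eq_zpow_neg_valuation h0, Padic.valuation_natCast, zpow_neg,
    inv_inv, zpow_natCast]
  have h1 : (3 - 1) * padicValNat 3 (n + 1).factorial < n + 1 :=
    sub_one_mul_padicValNat_factorial_lt_of_ne_zero 3 n.succ_ne_zero
  have h2 : 2 * padicValNat 3 (n + 1).factorial ≤ n := by omega
  calc ((3 : ℕ) : ℝ) ^ padicValNat 3 (n + 1).factorial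
      ≤ ((9 / 5 : ℝ) ^ 2) ^ padicValNat 3 (n + 1).factorial :=
        pow_le_pow_left₀ (by norm_num) (by norm_num) _
    _ = (9 / 5 : ℝ) ^ (2 * padicValNat 3 (n + 1).factorial) := (pow_mul _ _ _).symm
    _ ≤ (9 / 5 : ℝ) ^ n := pow_le_pow_right₀ (by norm_num) h2

lemma d3pm_norm_sub_nat {x : C3} (hx : ‖x‖ ≤ 1) (i : ℕ) : ‖x - i‖ ≤ 1 := by
  rw [sub_eq_add_neg]
  refine (IsUltrametricDist.norm_add_le_max _ _).trans (max_le hx ?_)
  rw [norm_neg]
  exact IsUltrametricDist.norm_natCast_le_one C3 i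

lemma d3pm_norm_prod {x : C3} (hx : ‖x‖ ≤ 1) (n : ℕ) :
    ‖∏ i ∈ Finset.range n, (x - i)‖ ≤ 1 := by
  rw [norm_prod]
  exact Finset.prod_le_one (fun i _ => norm_nonneg _) fun i _ => d3pm_norm_sub_nat hx i

lemma d3pm_norm_prod_sub {x y : C3} (hx : ‖x‖ ≤ 1) (hy : ‖y‖ ≤ 1) (n : ℕ) :
    ‖(∏ i ∈ Finset.range n, (x - i)) - ∏ i ∈ Finset.range n, (y - i)‖ ≤ ‖x - y‖ := by
  induction n with
  | zero => simp
  | succ n ih =>
    rw [Finset.prod_range_succ, Finset.prod_range_succ]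
    have h1 : (∏ i ∈ Finset.range n, (x - i)) * (x - n) - (∏ i ∈ Finset.range n, (y - i)) * (y - n)
        = ((∏ i ∈ Finset.range n, (x - i)) - ∏ i ∈ Finset.range n, (y - i)) * (x - n) +
          (∏ i ∈ Finset.range n, (y - i)) * (x - y) := by ring
    rw [h1]
    refine (IsUltrametricDist.norm_add_le_max _ _).trans (max_le ?_ ?_)
    · rw [norm_mul]
      calc _ ≤ ‖x - y‖ * 1 := mul_le_mul ih (d3pm_norm_sub_nat hx n) (norm_nonneg _) (norm_nonneg _)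
        _ = ‖x - y‖ := mul_one _
    · rw [norm_mul]
      calc _ ≤ 1 * ‖x - y‖ := mul_le_mul_of_nonneg_right (d3pm_norm_prod hy n) (norm_nonneg _)
        _ = ‖x - y‖ := one_mul _

/-- the terms of the series `w(x)` -/
def d3pmT (x : C3) (n : ℕ) : C3 := PowerSeries.coeff (n + 1) (binS x) * 6 ^ (n + 1)

lemma d3pmT_eq (x : C3) (n : ℕ) : d3pmT x n =
    (∏ i ∈ Finset.range (n + 1), (x - i)) * (6 ^ (n + 1) * ((n + 1).factorial : C3)⁻¹) := by
  unfold d3pmT binS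
  rw [PowerSeries.coeff_mk]
  ring

lemma d3pm_norm_const (n : ℕ) : ‖(6 : C3) ^ (n + 1) * ((n + 1).factorial : C3)⁻¹‖ ≤
    1 / 3 * (3 / 5) ^ n := by
  rw [norm_mul, norm_pow, norm_inv, d3pm_norm_6]
  calc (1 / 3 : ℝ) ^ (n + 1) * ‖((n + 1).factorial : C3)‖⁻¹ ≤ (1 / 3 : ℝ) ^ (n + 1) * (9 / 5) ^ n :=
        mul_le_mul_of_nonneg_left (d3pm_norm_fact n) (by positivity)
    _ = 1 / 3 * (3 / 5) ^ n := by
        rw [pow_succ, mul_right_comm, ← mul_pow]
        norm_num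
        ring

lemma d3pm_norm_T {x : C3} (hx : ‖x‖ ≤ 1) (n : ℕ) : ‖d3pmT x n‖ ≤ 1 / 3 * (3 / 5) ^ n := by
  rw [d3pmT_eq, norm_mul]
  calc _ ≤ 1 * (1 / 3 * (3 / 5) ^ n) :=
        mul_le_mul (d3pm_norm_prod hx _) (d3pm_norm_const n) (norm_nonneg _) zero_le_one
    _ = _ := one_mul _

lemma d3pm_norm_T_sub {x y : C3} (hx : ‖x‖ ≤ 1) (hy : ‖y‖ ≤ 1) (n : ℕ) :
    ‖d3pmT x n - d3pmT y n‖ ≤ ‖x - y‖ * (1 / 3 * (3 / 5) ^ n) := by
  rw [d3pmT_eq, d3pmT_eq, ← sub_mul, norm_mul]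
  exact mul_le_mul (d3pm_norm_prod_sub hx hy _) (d3pm_norm_const n) (norm_nonneg _) (norm_nonneg _)

lemma d3pm_geo (c r : ℝ) (K : ℕ) (h0 : 0 ≤ r) (h1 : r < 1) :
    HasSum (fun n : ℕ => c * r ^ (n + K)) (c * r ^ K * (1 - r)⁻¹) := by
  have h := (hasSum_geometric_of_lt_one h0 h1).mul_left (c * r ^ K)
  have e : (fun n : ℕ => c * r ^ (n + K)) = fun n => c * r ^ K * r ^ n := by
    funext n
    rw [pow_add]
    ring
  rw [e]
  exact h

lemma d3pm_summable_geo : Summable fun n : ℕ => (1 / 3 : ℝ) * (3 / 5) ^ n :=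
  (summable_geometric_of_lt_one (by norm_num) (by norm_num)).mul_left _

lemma d3pm_summable {x : C3} (hx : ‖x‖ ≤ 1) : Summable (d3pmT x) :=
  Summable.of_norm_bounded d3pm_summable_geo (d3pm_norm_T hx)

lemma d3pm_wx (x : C3) : wx3 x = ∑' n, d3pmT x n := rfl

/-- the part of `w(x)` of degree at least two -/
def d3pmR (x : C3) : C3 := ∑' n, d3pmT x (n + 1)

lemma d3pmT_zero (x : C3) : d3pmT x 0 = 6 * x := by
  rw [d3pmT_eq]
  simp
  ring

lemma d3pm_wx_eq {x : C3} (hx : ‖x‖ ≤ 1) : wx3 x = 6 * x + d3pmR x := by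
  rw [d3pm_wx, (d3pm_summable hx).tsum_eq_zero_add, d3pmT_zero]
  rfl

lemma d3pm_norm_R_sub {x y : C3} (hx : ‖x‖ ≤ 1) (hy : ‖y‖ ≤ 1) :
    ‖d3pmR x - d3pmR y‖ ≤ ‖x - y‖ / 5 := by
  have sx : Summable fun n => d3pmT x (n + 1) := (summable_nat_add_iff 1).2 (d3pm_summable hx)
  have sy : Summable fun n => d3pmT y (n + 1) := (summable_nat_add_iff 1).2 (d3pm_summable hy)
  unfold d3pmR
  rw [← sx.tsum_sub sy]
  refine IsUltrametricDist.norm_tsum_le_of_forall_le_of_nonneg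
    (div_nonneg (norm_nonneg _) (by norm_num)) fun n => ?_
  refine (d3pm_norm_T_sub hx hy (n + 1)).trans ?_
  have h1 : (3 / 5 : ℝ) ^ (n + 1) ≤ 3 / 5 := by
    rw [pow_succ]
    have : ((3 / 5 : ℝ)) ^ n ≤ 1 := pow_le_one₀ (by norm_num) (by norm_num)
    linarith
  calc ‖x - y‖ * (1 / 3 * (3 / 5) ^ (n + 1)) ≤ ‖x - y‖ * (1 / 5) :=
        mul_le_mul_of_nonneg_left (by linarith) (norm_nonneg _)
    _ = ‖x - y‖ / 5 := by ring

theorem norm_wx3_sub {x y : C3} (hx : ‖x‖ ≤ 1) (hy : ‖y‖ ≤ 1) :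
    ‖wx3 x - wx3 y‖ = ‖x - y‖ / 3 := by
  rw [d3pm_wx_eq hx, d3pm_wx_eq hy]
  have h1 : 6 * x + d3pmR x - (6 * y + d3pmR y) = 6 * (x - y) + (d3pmR x - d3pmR y) := by ring
  rw [h1]
  have h2 : ‖6 * (x - y)‖ = ‖x - y‖ / 3 := by
    rw [norm_mul, d3pm_norm_6]
    ring
  have h3 := d3pm_norm_R_sub hx hy
  by_cases hxy : x = y
  · subst hxy
    simp
  have h4 : 0 < ‖x - y‖ := norm_pos_iff.2 (sub_ne_zero.2 hxy)
  have h5 : ‖d3pmR x - d3pmR y‖ < ‖6 * (x - y)‖ := by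
    rw [h2]
    linarith
  rw [IsUltrametricDist.norm_add_eq_max_of_norm_ne_norm h5.ne', max_eq_left h5.le, h2]

lemma d3pmR_zero : d3pmR 0 = 0 := by
  unfold d3pmR
  have : ∀ n, d3pmT 0 (n + 1) = 0 := by
    intro n
    rw [d3pmT_eq, Finset.prod_eq_zero (i := 0) (by simp) (by simp), zero_mul]
  simp [this]

lemma d3pm_wx_zero : wx3 0 = 0 := by
  rw [d3pm_wx_eq (by simp), d3pmR_zero]
  simp

theorem norm_wx3 {x : C3} (hx : ‖x‖ ≤ 1) : ‖wx3 x‖ = ‖x‖ / 3 := by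
  have h := norm_wx3_sub hx (y := 0) (by simp)
  rwa [d3pm_wx_zero, sub_zero, sub_zero] at h

lemma d3pm_prod_nat (m n : ℕ) :
    ∏ i ∈ Finset.range n, ((m : C3) - i) = (m.descFactorial n : C3) := by
  induction n with
  | zero => simp
  | succ n ih =>
    rw [Finset.prod_range_succ, ih, Nat.descFactorial_succ]
    rcases le_or_gt n m with h | h
    · rw [Nat.cast_mul, Nat.cast_sub h]
      ring
    · rw [Nat.descFactorial_of_lt h]
      simp

lemma d3pm_coeff_nat (m n : ℕ) : PowerSeries.coeff n (binS (m : C3)) = (m.choose n : C3) := by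
  unfold binS
  rw [PowerSeries.coeff_mk, d3pm_prod_nat, Nat.descFactorial_eq_factorial_mul_choose, Nat.cast_mul,
    mul_comm, mul_div_assoc, div_self (by exact_mod_cast n.factorial_ne_zero), mul_one]

theorem wx3_natCast (m : ℕ) : wx3 (m : C3) = 7 ^ m - 1 := by
  have h1 : (7 : C3) ^ m = ∑ n ∈ Finset.range (m + 1), 6 ^ n * (m.choose n : C3) := by
    have h2 : (7 : C3) = 6 + 1 := by norm_num
    rw [h2, add_pow]
    simp
  rw [Finset.sum_range_succ'] at h1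
  rw [h1]
  simp only [pow_zero, Nat.choose_zero_right, Nat.cast_one, mul_one, add_sub_cancel_right]
  unfold wx3
  rw [tsum_eq_sum (s := Finset.range m)]
  · refine Finset.sum_congr rfl fun n _ => ?_
    rw [d3pm_coeff_nat, mul_comm]
  · intro n hn
    rw [Finset.mem_range, not_lt] at hn
    rw [d3pm_coeff_nat, Nat.choose_eq_zero_of_lt (by omega)]
    simp

theorem exists_wx3_eq {w : C3} (hw : ‖w‖ ≤ 1 / 3) : ∃ x : C3, ‖x‖ ≤ 1 ∧ wx3 x = w := by
  have h6 : (6 : C3) ≠ 0 := by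
    intro h
    have := d3pm_norm_6
    rw [h, norm_zero] at this
    norm_num at this
  set T : C3 → C3 := fun x => (w - d3pmR x) / 6 with hT
  have hball : ∀ x : C3, ‖x‖ ≤ 1 → ‖T x‖ ≤ 1 := by
    intro x hx
    have h1 : ‖d3pmR x‖ ≤ 1 / 3 := by
      have h2 := d3pm_norm_R_sub hx (y := 0) (by simp)
      rw [d3pmR_zero, sub_zero, sub_zero] at h2
      linarith
    have h2 : ‖w - d3pmR x‖ ≤ 1 / 3 := by
      rw [sub_eq_add_neg]
      refine (IsUltrametricDist.norm_add_le_max _ _).trans (max_le hw ?_)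
      rwa [norm_neg]
    rw [hT]
    simp only [norm_div, d3pm_norm_6]
    rw [div_le_one (by norm_num)]
    exact h2
  have hlip : ∀ x y : C3, ‖x‖ ≤ 1 → ‖y‖ ≤ 1 → ‖T x - T y‖ ≤ 3 / 5 * ‖x - y‖ := by
    intro x y hx hy
    have h1 : T x - T y = (d3pmR y - d3pmR x) / 6 := by
      rw [hT]
      ring
    have h2 := d3pm_norm_R_sub hy hx
    rw [h1, norm_div, d3pm_norm_6, norm_sub_rev x y, div_le_iff₀ (by norm_num)]
    linarith
  have hmaps : Set.MapsTo T (Metric.closedBall (0 : C3) 1) (Metric.closedBall (0 : C3) 1) := by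
    intro x hx
    rw [mem_closedBall_zero_iff] at hx ⊢
    exact hball x hx
  have hcontr : ContractingWith (3 / 5) (hmaps.restrict T _ _) := by
    refine ⟨by rw [← NNReal.coe_lt_coe]; norm_num, LipschitzWith.of_dist_le_mul ?_⟩
    rintro ⟨x, hx⟩ ⟨y, hy⟩
    rw [mem_closedBall_zero_iff] at hx hy
    rw [Subtype.dist_eq, Subtype.dist_eq, dist_eq_norm, dist_eq_norm]
    simpa using hlip x y hx hy
  obtain ⟨x, hx, hfix, _⟩ := hcontr.exists_fixedPoint' Metric.isClosed_closedBall.isComplete hmaps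
    (x := 0) (by simp) (edist_ne_top _ _)
  rw [mem_closedBall_zero_iff] at hx
  refine ⟨x, hx, ?_⟩
  rw [d3pm_wx_eq hx]
  have h1 : (w - d3pmR x) / 6 = x := hfix
  rw [div_eq_iff h6] at h1
  rw [mul_comm, ← h1]
  ring

/-! ### the evaluations at `w(x)` are Tate functions of `x` -/

/-- the partial sums of `w(x)` as polynomials -/
def d3pmP (K : ℕ) : Polynomial C3 :=
  ∑ n ∈ Finset.range K, (∏ i ∈ Finset.range (n + 1), (Polynomial.X - Polynomial.C (i : C3))) *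
    Polynomial.C (6 ^ (n + 1) * ((n + 1).factorial : C3)⁻¹)

lemma d3pmP_eval (K : ℕ) (x : C3) : (d3pmP K).eval x = ∑ n ∈ Finset.range K, d3pmT x n := by
  unfold d3pmP
  rw [Polynomial.eval_finsetSum]
  refine Finset.sum_congr rfl fun n _ => ?_
  rw [d3pmT_eq, Polynomial.eval_mul, Polynomial.eval_prod, Polynomial.eval_C]
  simp

lemma d3pmP_norm {x : C3} (hx : ‖x‖ ≤ 1) (K : ℕ) : ‖(d3pmP K).eval x‖ ≤ 1 / 3 := by
  rw [d3pmP_eval]
  refine IsUltrametricDist.norm_sum_le_of_forall_le_of_nonneg (by norm_num) fun n _ => ?_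
  refine (d3pm_norm_T hx n).trans ?_
  have h : ((3 / 5 : ℝ)) ^ n ≤ 1 := pow_le_one₀ (by norm_num) (by norm_num)
  linarith

lemma d3pmP_sub {x : C3} (hx : ‖x‖ ≤ 1) (K : ℕ) : ‖wx3 x - (d3pmP K).eval x‖ ≤ (3 / 5) ^ K := by
  have h1 : wx3 x - (d3pmP K).eval x = ∑' n, d3pmT x (n + K) := by
    rw [d3pmP_eval, d3pm_wx, ← (d3pm_summable hx).sum_add_tsum_nat_add K]
    ring
  rw [h1]
  refine (tsum_of_norm_bounded (d3pm_geo (1 / 3) (3 / 5) K (by norm_num) (by norm_num))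
    fun n => d3pm_norm_T hx (n + K)).trans ?_
  have h : 0 ≤ ((3 / 5 : ℝ)) ^ K := by positivity
  have h2 : (1 - 3 / 5 : ℝ)⁻¹ = 5 / 2 := by norm_num
  rw [h2]
  linarith

lemma d3pm_norm_iota (a : ℤ_[3]) : ‖iota3 a‖ ≤ 1 := by
  unfold iota3
  rw [RingHom.comp_apply, norm_algebraMap']
  exact a.2

lemma d3pm_pow_sub {a b : C3} (ha : ‖a‖ ≤ 1) (hb : ‖b‖ ≤ 1) (m : ℕ) :
    ‖a ^ m - b ^ m‖ ≤ ‖a - b‖ := by
  induction m with
  | zero => simp
  | succ m ih =>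
    have h1 : a ^ (m + 1) - b ^ (m + 1) = (a ^ m - b ^ m) * a + b ^ m * (a - b) := by ring
    rw [h1]
    refine (IsUltrametricDist.norm_add_le_max _ _).trans (max_le ?_ ?_)
    · rw [norm_mul]
      calc _ ≤ ‖a - b‖ * 1 := mul_le_mul ih ha (norm_nonneg _) (norm_nonneg _)
        _ = ‖a - b‖ := mul_one _
    · rw [norm_mul, norm_pow]
      calc _ ≤ 1 * ‖a - b‖ :=
            mul_le_mul_of_nonneg_right (pow_le_one₀ (norm_nonneg _) hb) (norm_nonneg _)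
        _ = ‖a - b‖ := one_mul _

/-- The evaluations at `w(x)` are Tate functions of `x`. -/
theorem isTate_ev_wx3 (F : Lam3) : IsTate fun x ↦ ev3 (wx3 x) F := by
  intro ε hε
  have hlim : Tendsto (fun N : ℕ => (3 / 2 : ℝ) * (1 / 3) ^ N + (3 / 5) ^ N) atTop (𝓝 0) := by
    have h1 := (tendsto_pow_atTop_nhds_zero_of_lt_one (r := (1 / 3 : ℝ)) (by norm_num)
      (by norm_num)).const_mul (3 / 2)
    have h2 := tendsto_pow_atTop_nhds_zero_of_lt_one (r := (3 / 5 : ℝ)) (by norm_num)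
      (by norm_num)
    simpa using h1.add h2
  obtain ⟨N, hN⟩ := (hlim.eventually (gt_mem_nhds hε)).exists
  refine ⟨∑ m ∈ Finset.range N, Polynomial.C (iota3 (PowerSeries.coeff m F)) * d3pmP N ^ m, ?_⟩
  intro x hx
  have hw : ‖wx3 x‖ ≤ 1 / 3 := by
    rw [norm_wx3 hx]
    linarith
  have hterm : ∀ m, ‖iota3 (PowerSeries.coeff m F) * wx3 x ^ m‖ ≤ (1 / 3) ^ m := by
    intro m
    rw [norm_mul, norm_pow]
    calc _ ≤ 1 * (1 / 3 : ℝ) ^ m := mul_le_mul (d3pm_norm_iota _)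
          (pow_le_pow_left₀ (norm_nonneg _) hw m) (by positivity) zero_le_one
      _ = _ := one_mul _
  have hsum : Summable fun m => iota3 (PowerSeries.coeff m F) * wx3 x ^ m :=
    Summable.of_norm_bounded (summable_geometric_of_lt_one (by norm_num) (by norm_num)) hterm
  have h1 : ev3 (wx3 x) F - (∑ m ∈ Finset.range N,
      Polynomial.C (iota3 (PowerSeries.coeff m F)) * d3pmP N ^ m).eval x =
      (∑' m, iota3 (PowerSeries.coeff (m + N) F) * wx3 x ^ (m + N)) +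
      ∑ m ∈ Finset.range N,
        iota3 (PowerSeries.coeff m F) * (wx3 x ^ m - (d3pmP N).eval x ^ m) := by
    unfold ev3
    rw [← hsum.sum_add_tsum_nat_add N, Polynomial.eval_finsetSum]
    simp only [Polynomial.eval_mul, Polynomial.eval_C, Polynomial.eval_pow, mul_sub,
      Finset.sum_sub_distrib]
    ring
  rw [h1]
  refine (norm_add_le _ _).trans (le_trans (add_le_add ?_ ?_) hN.le)
  · refine (tsum_of_norm_bounded (d3pm_geo 1 (1 / 3) N (by norm_num) (by norm_num))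
      fun n => (hterm (n + N)).trans (le_of_eq (one_mul _).symm)).trans (le_of_eq ?_)
    have h2 : (1 - 1 / 3 : ℝ)⁻¹ = 3 / 2 := by norm_num
    rw [h2]
    ring
  · refine IsUltrametricDist.norm_sum_le_of_forall_le_of_nonneg (by positivity) fun m _ => ?_
    rw [norm_mul]
    calc _ ≤ 1 * (3 / 5 : ℝ) ^ N := mul_le_mul (d3pm_norm_iota _)
          ((d3pm_pow_sub (hw.trans (by norm_num)) ((d3pmP_norm hx N).trans (by norm_num)) m).trans
            (d3pmP_sub hx N)) (norm_nonneg _) zero_le_one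
      _ = _ := one_mul _

end D3

end GH
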