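import Pool.Agent.GH.D3.Base3
import Pool.Agent.GH.FExp

open PowerSeries Filter Topology

noncomputable section

namespace GH

namespace D3

/-! Consequences of the dissection `euler_cube` (given as a hypothesis). -/

/-- The statement of `QJac.euler_cube`. -/
def QJ : Prop := ∃ A : PowerSeries ℤ,
    euler ℤ 1 ^ 3 = A.expand 3 three_ne_zero - 3 * X * euler ℤ 9 ^ 3

/-! ### Products and expansion -/

lemma d3_coeff_stable (K : Type*) [CommRing K] (k n N : ℕ) (h : n < k * (N + 1)) :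
    ∀ M, N ≤ M → PowerSeries.coeff n (∏ m ∈ Finset.range M,
      (1 - (X : PowerSeries K) ^ (k * (m + 1)))) =
      PowerSeries.coeff n (∏ m ∈ Finset.range N, (1 - (X : PowerSeries K) ^ (k * (m + 1)))) := by
  intro M hM
  induction M, hM using Nat.le_induction with
  | base => rfl
  | succ M hM ih =>
    rw [Finset.prod_range_succ, mul_sub, mul_one, map_sub, ih, PowerSeries.coeff_mul_X_pow',
      if_neg, sub_zero]
    have h1 : k * (N + 1) ≤ k * (M + 1) := Nat.mul_le_mul_left _ (by omega)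
    omega

lemma d3_coeff_euler (K : Type*) [CommRing K] (k n M : ℕ) (hk : 1 ≤ k) (hM : n ≤ M) :
    PowerSeries.coeff n (euler K k) =
      PowerSeries.coeff n (∏ m ∈ Finset.range M, (1 - (X : PowerSeries K) ^ (k * (m + 1)))) := by
  unfold euler
  rw [PowerSeries.coeff_mk]
  refine (d3_coeff_stable K k n n ?_ M hM).symm
  nlinarith

lemma d3_expand_prod (K : Type*) [CommRing K] (k N : ℕ) : (∏ m ∈ Finset.range N,
      (1 - (X : PowerSeries K) ^ (k * (m + 1)))).expand 3 three_ne_zero =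
      ∏ m ∈ Finset.range N, (1 - (X : PowerSeries K) ^ (3 * k * (m + 1))) := by
  rw [map_prod]
  refine Finset.prod_congr rfl fun m _ => ?_
  rw [map_sub, map_one, map_pow, PowerSeries.expand_X, ← pow_mul, mul_assoc]

lemma d3_expand_euler (K : Type*) [CommRing K] (k : ℕ) (hk : 1 ≤ k) :
    (euler K k).expand 3 three_ne_zero = euler K (3 * k) := by
  ext n
  rw [PowerSeries.coeff_expand]
  split_ifs with h
  · obtain ⟨l, rfl⟩ := h
    rw [Nat.mul_div_cancel_left l three_pos, d3_coeff_euler K k l l hk le_rfl,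
      d3_coeff_euler K (3 * k) (3 * l) (3 * l) (by omega) le_rfl,
      ← PowerSeries.coeff_expand_mul 3 three_ne_zero, d3_expand_prod]
    refine (d3_coeff_stable K (3 * k) (3 * l) l ?_ (3 * l) (by omega)).symm
    nlinarith
  · unfold euler
    rw [PowerSeries.coeff_mk, ← d3_expand_prod, PowerSeries.coeff_expand_of_not_dvd 3 three_ne_zero _ h]

lemma d3_ne_zero {F : PowerSeries ℤ} (h : PowerSeries.constantCoeff F = 1) : F ≠ 0 := by
  rintro rfl
  simp at h

lemma d3_euler_ne (k : ℕ) : euler ℤ k ≠ 0 := d3_ne_zero (fx_constantCoeff_euler ℤ k)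

lemma d3_mul_inv (R : Type*) [CommRing R] (k : ℕ) : euler R k * invOfUnit (euler R k) 1 = 1 :=
  PowerSeries.mul_invOfUnit _ _ (by rw [fx_constantCoeff_euler]; rfl)

lemma d3_mul_inv3 (R : Type*) [CommRing R] (k : ℕ) :
    euler R k ^ 3 * invOfUnit (euler R k ^ 3) 1 = 1 :=
  PowerSeries.mul_invOfUnit _ _ (by rw [map_pow, fx_constantCoeff_euler, one_pow]; rfl)

lemma d3_isUnit (R : Type*) [CommRing R] (k : ℕ) : IsUnit (euler R k) := by
  rw [PowerSeries.isUnit_iff_constantCoeff, fx_constantCoeff_euler]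
  exact isUnit_one

/-! ### The norm of `E(q)` -/

section norm

variable {K : Type*} [CommRing K] {z : K}

lemma d3_cube (hz : 1 + z + z ^ 2 = 0) : z ^ 3 = 1 := by
  linear_combination (z - 1) * hz

lemma d3_fac (hz : 1 + z + z ^ 2 = 0) (x : PowerSeries K) :
    (1 - x) * (1 - C z * x) * (1 - C (z ^ 2) * x) = 1 - x ^ 3 := by
  have h1 : (1 : PowerSeries K) + C z + C z ^ 2 = 0 := by
    rw [← map_pow, ← map_one (C : K →+* PowerSeries K), ← map_add, ← map_add, hz, map_zero]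
  have h3 : (C z : PowerSeries K) ^ 3 = 1 := by
    rw [← map_pow, d3_cube hz, map_one]
  rw [map_pow]
  linear_combination (-x + x ^ 2 * C z) * h1 - x ^ 3 * h3

lemma d3_rescale_prod (z : K) (N : ℕ) : rescale z (∏ m ∈ Finset.range N,
      (1 - (X : PowerSeries K) ^ (1 * (m + 1)))) =
      ∏ m ∈ Finset.range N, (1 - C (z ^ (m + 1)) * (X : PowerSeries K) ^ (m + 1)) := by
  rw [map_prod]
  refine Finset.prod_congr rfl fun m _ => ?_
  rw [map_sub, map_one, map_pow, rescale_X, one_mul, mul_pow, ← map_pow]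

lemma d3_norm_prod (hz : 1 + z + z ^ 2 = 0) (N : ℕ) :
    (∏ m ∈ Finset.range (3 * N), (1 - (X : PowerSeries K) ^ (1 * (m + 1)))) *
      (∏ m ∈ Finset.range (3 * N), (1 - C (z ^ (m + 1)) * (X : PowerSeries K) ^ (m + 1))) *
      (∏ m ∈ Finset.range (3 * N), (1 - C ((z ^ 2) ^ (m + 1)) * (X : PowerSeries K) ^ (m + 1))) *
      (∏ m ∈ Finset.range N, (1 - (X : PowerSeries K) ^ (9 * (m + 1)))) =
    (∏ m ∈ Finset.range (3 * N), (1 - (X : PowerSeries K) ^ (3 * (m + 1)))) *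
      (∏ m ∈ Finset.range N, (1 - (X : PowerSeries K) ^ (3 * (m + 1)))) ^ 3 := by
  have hc := d3_cube hz
  induction N with
  | zero => simp
  | succ N ih =>
    have e : 3 * (N + 1) = 3 * N + 1 + 1 + 1 := by ring
    rw [e]
    simp only [Finset.prod_range_succ]
    set P1 := ∏ m ∈ Finset.range (3 * N), (1 - (X : PowerSeries K) ^ (1 * (m + 1)))
    set P2 := ∏ m ∈ Finset.range (3 * N), (1 - C (z ^ (m + 1)) * (X : PowerSeries K) ^ (m + 1))
    set P3 := ∏ m ∈ Finset.range (3 * N),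
      (1 - C ((z ^ 2) ^ (m + 1)) * (X : PowerSeries K) ^ (m + 1))
    set P4 := ∏ m ∈ Finset.range N, (1 - (X : PowerSeries K) ^ (9 * (m + 1)))
    set P5 := ∏ m ∈ Finset.range (3 * N), (1 - (X : PowerSeries K) ^ (3 * (m + 1)))
    set P6 := ∏ m ∈ Finset.range N, (1 - (X : PowerSeries K) ^ (3 * (m + 1)))
    have z1 : z ^ (3 * N + 1) = z := by rw [pow_succ, pow_mul, hc, one_pow, one_mul]
    have z2 : z ^ (3 * N + 1 + 1) = z ^ 2 := by
      rw [show 3 * N + 1 + 1 = 3 * N + 2 by ring, pow_add, pow_mul, hc, one_pow, one_mul]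
    have z3 : z ^ (3 * N + 1 + 1 + 1) = 1 := by
      rw [show 3 * N + 1 + 1 + 1 = 3 * (N + 1) by ring, pow_mul, hc, one_pow]
    have y1 : (z ^ 2) ^ (3 * N + 1) = z ^ 2 := by rw [← pow_mul, mul_comm, pow_mul, z1]
    have y2 : (z ^ 2) ^ (3 * N + 1 + 1) = z := by
      rw [← pow_mul, mul_comm, pow_mul, z2, ← pow_mul]
      calc z ^ (2 * 2) = z ^ 3 * z := by ring
        _ = z := by rw [hc, one_mul]
    have y3 : (z ^ 2) ^ (3 * N + 1 + 1 + 1) = 1 := by
      rw [← pow_mul, mul_comm, pow_mul, z3, one_pow]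
    rw [z1, z2, z3, y1, y2, y3]
    have f1 := d3_fac hz ((X : PowerSeries K) ^ (3 * N + 1))
    have f2 := d3_fac hz ((X : PowerSeries K) ^ (3 * N + 1 + 1))
    have e1 : ((X : PowerSeries K) ^ (3 * N + 1)) ^ 3 = X ^ (3 * (3 * N + 1)) := by
      rw [← pow_mul, mul_comm]
    have e2 : ((X : PowerSeries K) ^ (3 * N + 1 + 1)) ^ 3 = X ^ (3 * (3 * N + 1 + 1)) := by
      rw [← pow_mul, mul_comm]
    have e3 : 3 * (3 * N + 1 + 1 + 1) = 9 * (N + 1) := by ring
    have e4 : 3 * (N + 1) = 3 * N + 1 + 1 + 1 := by ring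
    rw [e1] at f1
    rw [e2] at f2
    rw [e3, e4, one_mul, one_mul, one_mul, map_one, one_mul, ← f1, ← f2]
    linear_combination ((1 - (X : PowerSeries K) ^ (3 * N + 1)) *
      (1 - C z * (X : PowerSeries K) ^ (3 * N + 1)) *
      (1 - C (z ^ 2) * (X : PowerSeries K) ^ (3 * N + 1)) *
      ((1 - (X : PowerSeries K) ^ (3 * N + 1 + 1)) *
      (1 - C z * (X : PowerSeries K) ^ (3 * N + 1 + 1)) *
      (1 - C (z ^ 2) * (X : PowerSeries K) ^ (3 * N + 1 + 1))) *
      (1 - (X : PowerSeries K) ^ (3 * N + 1 + 1 + 1)) ^ 3 *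
      (1 - (X : PowerSeries K) ^ (9 * (N + 1)))) * ih

lemma d3_dvd {F G : PowerSeries K} {n : ℕ} (h : ∀ m < n, PowerSeries.coeff m F =
    PowerSeries.coeff m G) : Ideal.Quotient.mk (Ideal.span {(X : PowerSeries K) ^ n}) F =
      Ideal.Quotient.mk (Ideal.span {(X : PowerSeries K) ^ n}) G := by
  rw [Ideal.Quotient.eq, Ideal.mem_span_singleton, PowerSeries.X_pow_dvd_iff]
  intro m hm
  rw [map_sub, h m hm, sub_self]

lemma d3_norm (hz : 1 + z + z ^ 2 = 0) :
    euler K 1 * rescale z (euler K 1) * rescale (z ^ 2) (euler K 1) * euler K 9 =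
      euler K 3 ^ 4 := by
  ext n
  have key : Ideal.Quotient.mk (Ideal.span {(X : PowerSeries K) ^ (n + 1)})
      (euler K 1 * rescale z (euler K 1) * rescale (z ^ 2) (euler K 1) * euler K 9) =
      Ideal.Quotient.mk (Ideal.span {(X : PowerSeries K) ^ (n + 1)}) (euler K 3 ^ 4) := by
    have h1 := d3_dvd (F := euler K 1) (n := n + 1)
      (G := ∏ m ∈ Finset.range (3 * n), (1 - (X : PowerSeries K) ^ (1 * (m + 1))))
      (fun m hm => d3_coeff_euler K 1 m (3 * n) le_rfl (by omega))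
    have h2 : ∀ y : K, Ideal.Quotient.mk (Ideal.span {(X : PowerSeries K) ^ (n + 1)})
        (rescale y (euler K 1)) = Ideal.Quotient.mk (Ideal.span {(X : PowerSeries K) ^ (n + 1)})
        (∏ m ∈ Finset.range (3 * n), (1 - C (y ^ (m + 1)) * (X : PowerSeries K) ^ (m + 1))) := by
      intro y
      apply d3_dvd
      intro m hm
      rw [← d3_rescale_prod, coeff_rescale, coeff_rescale,
        d3_coeff_euler K 1 m (3 * n) le_rfl (by omega)]
    have h9 := d3_dvd (F := euler K 9) (n := n + 1)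
      (G := ∏ m ∈ Finset.range n, (1 - (X : PowerSeries K) ^ (9 * (m + 1))))
      (fun m hm => d3_coeff_euler K 9 m n (by norm_num) (by omega))
    have h3 := d3_dvd (F := euler K 3) (n := n + 1)
      (G := ∏ m ∈ Finset.range (3 * n), (1 - (X : PowerSeries K) ^ (3 * (m + 1))))
      (fun m hm => d3_coeff_euler K 3 m (3 * n) (by norm_num) (by omega))
    have h3' := d3_dvd (F := euler K 3) (n := n + 1)
      (G := ∏ m ∈ Finset.range n, (1 - (X : PowerSeries K) ^ (3 * (m + 1))))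
      (fun m hm => d3_coeff_euler K 3 m n (by norm_num) (by omega))
    rw [map_mul, map_mul, map_mul, h1, h2, h2, h9, ← map_mul, ← map_mul, ← map_mul,
      d3_norm_prod hz, map_mul, map_pow, map_pow, ← h3, ← h3']
    ring
  rw [Ideal.Quotient.eq, Ideal.mem_span_singleton, PowerSeries.X_pow_dvd_iff] at key
  have := key n (Nat.lt_succ_self n)
  rwa [map_sub, sub_eq_zero] at this

lemma d3_rescale_expand (hz : 1 + z + z ^ 2 = 0) (A : PowerSeries K) :
    rescale z (A.expand 3 three_ne_zero) = A.expand 3 three_ne_zero := by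
  ext n
  rw [coeff_rescale, PowerSeries.coeff_expand]
  split_ifs with h
  · obtain ⟨l, rfl⟩ := h
    rw [pow_mul, d3_cube hz, one_pow, one_mul]
  · rw [mul_zero]

end norm

lemma d3_key_C (A : PowerSeries ℂ)
    (hA : euler ℂ 1 ^ 3 = A.expand 3 three_ne_zero - 3 * X * euler ℂ 9 ^ 3) :
    ((A.expand 3 three_ne_zero) ^ 3 - (3 * X * euler ℂ 9 ^ 3) ^ 3) * euler ℂ 9 ^ 3 =
      euler ℂ 3 ^ 12 := by
  obtain ⟨z, hz⟩ : ∃ z : ℂ, 1 + z + z ^ 2 = 0 := by
    obtain ⟨z, hz⟩ := IsAlgClosed.exists_root (Polynomial.X ^ 2 + Polynomial.X + 1 : Polynomial ℂ)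
      (by
        have h : (Polynomial.X ^ 2 + Polynomial.X + 1 : Polynomial ℂ).degree = 2 := by
          compute_degree!
        rw [h]
        decide)
    refine ⟨z, ?_⟩
    rw [Polynomial.IsRoot.def] at hz
    simp only [Polynomial.eval_add, Polynomial.eval_pow, Polynomial.eval_X,
      Polynomial.eval_one] at hz
    linear_combination hz
  have hz2 : 1 + z ^ 2 + (z ^ 2) ^ 2 = 0 := by linear_combination (z ^ 2 - z + 1) * hz
  have h9 : euler ℂ 9 = (euler ℂ 3).expand 3 three_ne_zero := by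
    rw [d3_expand_euler ℂ 3 (by norm_num)]
  have hres : ∀ y : ℂ, 1 + y + y ^ 2 = 0 → rescale y (euler ℂ 1) ^ 3 =
      A.expand 3 three_ne_zero - C y * (3 * X * euler ℂ 9 ^ 3) := by
    intro y hy
    rw [← map_pow, hA, map_sub, d3_rescale_expand hy, map_mul, map_mul, map_pow, rescale_X, h9,
      d3_rescale_expand hy, map_ofNat]
    ring
  have hn := d3_norm (K := ℂ) hz
  have hC := d3_fac (K := ℂ) hz
  have h1 : (1 : PowerSeries ℂ) + C z + C z ^ 2 = 0 := by
    rw [← map_pow, ← map_one (C : ℂ →+* PowerSeries ℂ), ← map_add, ← map_add, hz, map_zero]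
  have h3 : (C z : PowerSeries ℂ) ^ 3 = 1 := by
    rw [← map_pow, d3_cube hz, map_one]
  set A' := A.expand 3 three_ne_zero with hA'
  set Y := 3 * X * euler ℂ 9 ^ 3 with hY
  calc (A' ^ 3 - Y ^ 3) * euler ℂ 9 ^ 3
      = (A' - Y) * (A' - C z * Y) * (A' - C (z ^ 2) * Y) * euler ℂ 9 ^ 3 := by
        rw [map_pow]
        linear_combination (A' ^ 2 * Y * euler ℂ 9 ^ 3 - A' * Y ^ 2 * C z * euler ℂ 9 ^ 3) * h1 +
          Y ^ 3 * euler ℂ 9 ^ 3 * h3
    _ = (euler ℂ 1 * rescale z (euler ℂ 1) * rescale (z ^ 2) (euler ℂ 1) * euler ℂ 9) ^ 3 := by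
        rw [← hA, ← hres z hz, ← hres (z ^ 2) hz2]
        ring
    _ = euler ℂ 3 ^ 12 := by
        rw [hn]
        ring

lemma d3_map_inj : Function.Injective (PowerSeries.map (Int.castRingHom ℂ)) := by
  intro F G h
  ext n
  have h1 := congrArg (PowerSeries.coeff n) h
  rw [PowerSeries.coeff_map, PowerSeries.coeff_map] at h1
  exact Int.cast_injective h1

lemma d3_key (A : PowerSeries ℤ)
    (hA : euler ℤ 1 ^ 3 = A.expand 3 three_ne_zero - 3 * X * euler ℤ 9 ^ 3) :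
    ((A.expand 3 three_ne_zero) ^ 3 - (3 * X * euler ℤ 9 ^ 3) ^ 3) * euler ℤ 9 ^ 3 =
      euler ℤ 3 ^ 12 := by
  have h := congrArg (PowerSeries.map (Int.castRingHom ℂ)) hA
  rw [map_pow, fx_map_euler, map_sub, PowerSeries.map_expand, map_mul, map_mul, map_pow,
    fx_map_euler, map_ofNat, PowerSeries.map_X] at h
  have h2 := d3_key_C _ h
  apply d3_map_inj
  rw [map_mul, map_sub, map_pow, map_pow, map_pow, map_pow, map_mul, map_mul, map_pow,
    fx_map_euler, fx_map_euler, map_ofNat, PowerSeries.map_X, PowerSeries.map_expand]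
  exact h2

/-! ### The identities over `ℤ` -/

section ring

variable (R : Type*) [CommRing R]

theorem constantCoeff_bser : PowerSeries.constantCoeff (bser R) = 1 := by
  unfold bser
  rw [map_mul, map_pow, fx_constantCoeff_euler, PowerSeries.constantCoeff_invOfUnit]
  simp

theorem coeff_zero_hser3 : PowerSeries.coeff 0 (hser3 R) = 0 := by
  unfold hser3
  simp

theorem coeff_one_hser3 : PowerSeries.coeff 1 (hser3 R) = 1 := by
  unfold hser3
  have h := PowerSeries.coeff_succ_X_mul 0 (euler R 9 ^ 3 * invOfUnit (euler R 1 ^ 3) 1)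
  rw [zero_add] at h
  rw [h, PowerSeries.coeff_zero_eq_constantCoeff_apply, map_mul, map_pow,
    fx_constantCoeff_euler, PowerSeries.constantCoeff_invOfUnit]
  simp

lemma d3_bser_mul : bser R * euler R 3 = euler R 1 ^ 3 := by
  unfold bser
  calc euler R 1 ^ 3 * invOfUnit (euler R 3) 1 * euler R 3
      = euler R 1 ^ 3 * (euler R 3 * invOfUnit (euler R 3) 1) := by ring
    _ = euler R 1 ^ 3 := by rw [d3_mul_inv, mul_one]

lemma d3_hser_mul : hser3 R * euler R 1 ^ 3 = X * euler R 9 ^ 3 := by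
  unfold hser3
  calc X * (euler R 9 ^ 3 * invOfUnit (euler R 1 ^ 3) 1) * euler R 1 ^ 3
      = X * euler R 9 ^ 3 * (euler R 1 ^ 3 * invOfUnit (euler R 1 ^ 3) 1) := by ring
    _ = X * euler R 9 ^ 3 := by rw [d3_mul_inv3, mul_one]

theorem map_bser {S : Type*} [CommRing S] (φ : R →+* S) :
    PowerSeries.map φ (bser R) = bser S := by
  have h1 := congrArg (PowerSeries.map φ) (d3_bser_mul R)
  rw [map_mul, map_pow, fx_map_euler, fx_map_euler, ← d3_bser_mul S] at h1
  exact (d3_isUnit S 3).mul_right_cancel h1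

theorem map_hser3 {S : Type*} [CommRing S] (φ : R →+* S) :
    PowerSeries.map φ (hser3 R) = hser3 S := by
  have h1 := congrArg (PowerSeries.map φ) (d3_hser_mul R)
  rw [map_mul, map_mul, map_pow, map_pow, fx_map_euler, fx_map_euler, PowerSeries.map_X,
    ← d3_hser_mul S] at h1
  exact ((d3_isUnit S 1).pow 3).mul_right_cancel h1

end ring

lemma d3_haupt : hauptmodul 3 ℤ * euler ℤ 1 ^ 12 = X * euler ℤ 3 ^ 12 := by
  show X * (euler ℤ 3 * invOfUnit (euler ℤ 1) 1) ^ 12 * euler ℤ 1 ^ 12 = X * euler ℤ 3 ^ 12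
  rw [mul_assoc, ← mul_pow]
  have h : euler ℤ 3 * invOfUnit (euler ℤ 1) 1 * euler ℤ 1 = euler ℤ 3 := by
    calc euler ℤ 3 * invOfUnit (euler ℤ 1) 1 * euler ℤ 1
        = euler ℤ 3 * (euler ℤ 1 * invOfUnit (euler ℤ 1) 1) := by ring
      _ = euler ℤ 3 := by rw [fx_mul_inv, mul_one]
  rw [h]

lemma d3_Q (hq : QJ) :
    euler ℤ 1 ^ 9 * (1 + 9 * hser3 ℤ + 27 * hser3 ℤ ^ 2) * euler ℤ 9 ^ 3 = euler ℤ 3 ^ 12 := by
  obtain ⟨A, hA⟩ := hq
  rw [← d3_key A hA]
  have hh := d3_hser_mul ℤ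
  have hA' : A.expand 3 three_ne_zero = euler ℤ 1 ^ 3 * (1 + 3 * hser3 ℤ) := by
    linear_combination (-1 : PowerSeries ℤ) * hA - 3 * hh
  have hY : 3 * X * euler ℤ 9 ^ 3 = 3 * hser3 ℤ * euler ℤ 1 ^ 3 := by
    linear_combination (-3 : PowerSeries ℤ) * hh
  rw [hA', hY]
  ring

lemma d3_haupt_eq (hq : QJ) :
    hauptmodul 3 ℤ = hser3 ℤ * (1 + 9 * hser3 ℤ + 27 * hser3 ℤ ^ 2) := by
  have hb : euler ℤ 1 ^ 12 ≠ 0 := pow_ne_zero _ (d3_euler_ne 1)
  apply mul_right_cancel₀ hb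
  rw [d3_haupt, ← d3_Q hq]
  calc X * (euler ℤ 1 ^ 9 * (1 + 9 * hser3 ℤ + 27 * hser3 ℤ ^ 2) * euler ℤ 9 ^ 3)
      = (X * euler ℤ 9 ^ 3) * (euler ℤ 1 ^ 9 * (1 + 9 * hser3 ℤ + 27 * hser3 ℤ ^ 2)) := by ring
    _ = hser3 ℤ * (1 + 9 * hser3 ℤ + 27 * hser3 ℤ ^ 2) * euler ℤ 1 ^ 12 := by
        rw [← d3_hser_mul ℤ]
        ring

lemma d3_expand_haupt (hq : QJ) :
    (hauptmodul 3 ℤ).expand 3 three_ne_zero * (1 + 9 * hser3 ℤ + 27 * hser3 ℤ ^ 2) =
      hser3 ℤ ^ 3 := by
  have h1 : (hauptmodul 3 ℤ).expand 3 three_ne_zero * euler ℤ 3 ^ 12 = X ^ 3 * euler ℤ 9 ^ 12 := by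
    have h := congrArg (PowerSeries.expand 3 three_ne_zero) d3_haupt
    rw [map_mul, map_mul, map_pow, map_pow, d3_expand_euler ℤ 3 (by norm_num),
      d3_expand_euler ℤ 1 le_rfl, PowerSeries.expand_X] at h
    exact h
  have hb : euler ℤ 1 ^ 9 * euler ℤ 9 ^ 3 ≠ 0 :=
    mul_ne_zero (pow_ne_zero _ (d3_euler_ne 1)) (pow_ne_zero _ (d3_euler_ne 9))
  apply mul_right_cancel₀ hb
  calc (hauptmodul 3 ℤ).expand 3 three_ne_zero * (1 + 9 * hser3 ℤ + 27 * hser3 ℤ ^ 2) *
        (euler ℤ 1 ^ 9 * euler ℤ 9 ^ 3)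
      = (hauptmodul 3 ℤ).expand 3 three_ne_zero *
        (euler ℤ 1 ^ 9 * (1 + 9 * hser3 ℤ + 27 * hser3 ℤ ^ 2) * euler ℤ 9 ^ 3) := by ring
    _ = X ^ 3 * euler ℤ 9 ^ 12 := by rw [d3_Q hq, h1]
    _ = (X * euler ℤ 9 ^ 3) ^ 3 * euler ℤ 9 ^ 3 := by ring
    _ = hser3 ℤ ^ 3 * (euler ℤ 1 ^ 9 * euler ℤ 9 ^ 3) := by
        rw [← d3_hser_mul ℤ]
        ring

lemma d3_bser_cube (hq : QJ) :
    bser ℤ ^ 3 * (1 + 9 * hser3 ℤ + 27 * hser3 ℤ ^ 2) = (bser ℤ ^ 3).expand 3 three_ne_zero := by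
  have h1 : (bser ℤ).expand 3 three_ne_zero * euler ℤ 9 = euler ℤ 3 ^ 3 := by
    have h := congrArg (PowerSeries.expand 3 three_ne_zero) (d3_bser_mul ℤ)
    rw [map_mul, map_pow, d3_expand_euler ℤ 3 (by norm_num), d3_expand_euler ℤ 1 le_rfl] at h
    exact h
  rw [map_pow]
  have hb : euler ℤ 3 ^ 3 * euler ℤ 9 ^ 3 ≠ 0 :=
    mul_ne_zero (pow_ne_zero _ (d3_euler_ne 3)) (pow_ne_zero _ (d3_euler_ne 9))
  apply mul_right_cancel₀ hb
  calc bser ℤ ^ 3 * (1 + 9 * hser3 ℤ + 27 * hser3 ℤ ^ 2) * (euler ℤ 3 ^ 3 * euler ℤ 9 ^ 3)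
      = (bser ℤ * euler ℤ 3) ^ 3 * (1 + 9 * hser3 ℤ + 27 * hser3 ℤ ^ 2) * euler ℤ 9 ^ 3 := by ring
    _ = euler ℤ 1 ^ 9 * (1 + 9 * hser3 ℤ + 27 * hser3 ℤ ^ 2) * euler ℤ 9 ^ 3 := by
        rw [d3_bser_mul]
        ring
    _ = euler ℤ 3 ^ 3 * (euler ℤ 3 ^ 3) ^ 3 := by
        rw [d3_Q hq]
        ring
    _ = (bser ℤ).expand 3 three_ne_zero ^ 3 * (euler ℤ 3 ^ 3 * euler ℤ 9 ^ 3) := by
        rw [← h1]
        ring

lemma d3_haupt_mul_bser :
    hauptmodul 3 ℤ * bser ℤ ^ 12 = X * euler ℤ 1 ^ 24 := by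
  have hb : euler ℤ 3 ^ 12 ≠ 0 := pow_ne_zero _ (d3_euler_ne 3)
  apply mul_right_cancel₀ hb
  calc hauptmodul 3 ℤ * bser ℤ ^ 12 * euler ℤ 3 ^ 12
      = hauptmodul 3 ℤ * (bser ℤ * euler ℤ 3) ^ 12 := by ring
    _ = hauptmodul 3 ℤ * euler ℤ 1 ^ 12 * euler ℤ 1 ^ 24 := by
        rw [d3_bser_mul]
        ring
    _ = X * euler ℤ 1 ^ 24 * euler ℤ 3 ^ 12 := by
        rw [d3_haupt]
        ring

lemma d3_exists_inv (hq : QJ) : ∃ B : PowerSeries ℤ, PowerSeries.constantCoeff B = 1 ∧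
    hser3 ℤ * (B.expand 3 three_ne_zero - 3 * X) = X := by
  obtain ⟨A, hA⟩ := hq
  refine ⟨A * invOfUnit (euler ℤ 3 ^ 3) 1, ?_, ?_⟩
  · have h := congrArg PowerSeries.constantCoeff hA
    rw [map_pow, fx_constantCoeff_euler, map_sub, PowerSeries.constantCoeff_expand, map_mul,
      map_mul, PowerSeries.constantCoeff_X] at h
    rw [map_mul, PowerSeries.constantCoeff_invOfUnit]
    simp only [one_pow, mul_zero, zero_mul, sub_zero] at h
    rw [← h]
    simp
  · have hb : euler ℤ 9 ^ 3 ≠ 0 := pow_ne_zero _ (d3_euler_ne 9)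
    apply mul_right_cancel₀ hb
    have h1 : euler ℤ 9 ^ 3 * (invOfUnit (euler ℤ 3 ^ 3) 1).expand 3 three_ne_zero = 1 := by
      have h := congrArg (PowerSeries.expand 3 three_ne_zero) (d3_mul_inv3 ℤ 3)
      rw [map_mul, map_pow, d3_expand_euler ℤ 3 (by norm_num), map_one] at h
      exact h
    rw [map_mul]
    calc hser3 ℤ * (A.expand 3 three_ne_zero *
          (invOfUnit (euler ℤ 3 ^ 3) 1).expand 3 three_ne_zero - 3 * X) * euler ℤ 9 ^ 3
        = hser3 ℤ * (A.expand 3 three_ne_zero * (euler ℤ 9 ^ 3 *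
          (invOfUnit (euler ℤ 3 ^ 3) 1).expand 3 three_ne_zero) - 3 * X * euler ℤ 9 ^ 3) := by
          ring
      _ = hser3 ℤ * euler ℤ 1 ^ 3 := by rw [h1, mul_one, ← hA]
      _ = X * euler ℤ 9 ^ 3 := d3_hser_mul ℤ

/-! ### Transport to any ring -/

section trans

variable {R : Type*} [CommRing R]

/-- `h = q/(B(q³) - 3q)` with `B` of constant term `1`. -/
theorem exists_hser3_inv (hq : QJ) : ∃ B : PowerSeries R, PowerSeries.constantCoeff B = 1 ∧
    hser3 R * (B.expand 3 three_ne_zero - 3 * X) = X := by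
  obtain ⟨B, hB, h⟩ := d3_exists_inv hq
  refine ⟨PowerSeries.map (Int.castRingHom R) B, ?_, ?_⟩
  · rw [← PowerSeries.coeff_zero_eq_constantCoeff_apply, PowerSeries.coeff_map,
      PowerSeries.coeff_zero_eq_constantCoeff_apply, hB, map_one]
  · have h2 := congrArg (PowerSeries.map (Int.castRingHom R)) h
    rwa [map_mul, map_sub, map_mul, PowerSeries.map_expand, map_ofNat, PowerSeries.map_X,
      map_hser3] at h2

lemma d3_map_Q : PowerSeries.map (Int.castRingHom R) (1 + 9 * hser3 ℤ + 27 * hser3 ℤ ^ 2) =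
    1 + 9 * hser3 R + 27 * hser3 R ^ 2 := by
  rw [map_add, map_add, map_mul, map_mul, map_pow, map_one, map_ofNat, map_ofNat, map_hser3]

/-- `f = h (1 + 9h + 27h²)`. -/
theorem hauptmodul3_eq (hq : QJ) :
    hauptmodul 3 R = hser3 R * (1 + 9 * hser3 R + 27 * hser3 R ^ 2) := by
  have h := congrArg (PowerSeries.map (Int.castRingHom R)) (d3_haupt_eq hq)
  rwa [map_hauptmodul, map_mul, d3_map_Q, map_hser3] at h

/-- `f(q³) (1 + 9h + 27h²) = h³`. -/
theorem expand_hauptmodul3 (hq : QJ) :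
    (hauptmodul 3 R).expand 3 three_ne_zero * (1 + 9 * hser3 R + 27 * hser3 R ^ 2) =
      hser3 R ^ 3 := by
  have h := congrArg (PowerSeries.map (Int.castRingHom R)) (d3_expand_haupt hq)
  rwa [map_mul, PowerSeries.map_expand, map_hauptmodul, d3_map_Q, map_pow, map_hser3] at h

/-- `b³ (1 + 9h + 27h²) = b(q³)³`. -/
theorem bser_cube (hq : QJ) :
    bser R ^ 3 * (1 + 9 * hser3 R + 27 * hser3 R ^ 2) = (bser R ^ 3).expand 3 three_ne_zero := by
  have h := congrArg (PowerSeries.map (Int.castRingHom R)) (d3_bser_cube hq)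
  rwa [map_mul, PowerSeries.map_expand, d3_map_Q, map_pow, map_bser] at h

/-- `f b^12 = Δ = q ∏ (1-q^n)^24`. -/
theorem hauptmodul3_mul_bser (hq : QJ) :
    hauptmodul 3 R * bser R ^ 12 = X * euler R 1 ^ 24 := by
  have h := congrArg (PowerSeries.map (Int.castRingHom R)) d3_haupt_mul_bser
  rwa [map_mul, map_mul, map_pow, map_pow, map_hauptmodul, map_bser, fx_map_euler,
    PowerSeries.map_X] at h

end trans

/-! ### The inverse series of `T (1 + 9T + 27T²)` -/

/-- The contraction whose fixed point is the inverse series divided by `X`. -/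
def d3Phi (u : PowerSeries ℤ) : PowerSeries ℤ := 1 - 9 * X * u ^ 2 - 27 * X ^ 2 * u ^ 3

/-- The iterates. -/
def d3It (n : ℕ) : PowerSeries ℤ := (d3Phi^[n]) 1

lemma d3It_succ (n : ℕ) : d3It (n + 1) = d3Phi (d3It n) :=
  Function.iterate_succ_apply' d3Phi n 1

lemma d3Phi_dvd {a b : PowerSeries ℤ} {n : ℕ} (h : X ^ n ∣ a - b) :
    X ^ (n + 1) ∣ d3Phi a - d3Phi b := by
  obtain ⟨c, hc⟩ := h
  refine ⟨c * (-9 * (a + b) - 27 * X * (a ^ 2 + a * b + b ^ 2)), ?_⟩
  unfold d3Phi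
  rw [pow_succ]
  linear_combination (X * (-9 * (a + b) - 27 * X * (a ^ 2 + a * b + b ^ 2))) * hc

lemma d3It_dvd (n : ℕ) : (X : PowerSeries ℤ) ^ (n + 1) ∣ d3It (n + 1) - d3It n := by
  induction n with
  | zero =>
    refine ⟨-9 - 27 * X, ?_⟩
    show d3Phi 1 - 1 = _
    unfold d3Phi
    ring
  | succ n ih =>
    rw [d3It_succ (n + 1), d3It_succ n]
    rw [d3It_succ n] at ih
    exact d3Phi_dvd ih

lemma d3It_dvd' (n k : ℕ) : (X : PowerSeries ℤ) ^ (n + 1) ∣ d3It (n + k) - d3It n := by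
  induction k with
  | zero => simp
  | succ k ih =>
    have h1 := d3It_dvd (n + k)
    have h2 : (X : PowerSeries ℤ) ^ (n + 1) ∣ X ^ (n + k + 1) := pow_dvd_pow _ (by omega)
    have h3 := dvd_add (h2.trans h1) ih
    rwa [sub_add_sub_cancel] at h3

/-- The fixed point. -/
def d3U : PowerSeries ℤ := PowerSeries.mk fun n => PowerSeries.coeff n (d3It n)

lemma d3U_dvd (n : ℕ) : (X : PowerSeries ℤ) ^ (n + 1) ∣ d3U - d3It n := by
  rw [PowerSeries.X_pow_dvd_iff]
  intro m hm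
  have h := d3It_dvd' m (n - m)
  rw [PowerSeries.X_pow_dvd_iff] at h
  have h2 := h m (Nat.lt_succ_self m)
  rw [show m + (n - m) = n by omega, map_sub] at h2
  unfold d3U
  rw [map_sub, PowerSeries.coeff_mk]
  linarith

lemma d3U_fix : d3Phi d3U = d3U := by
  ext n
  have h1 := d3Phi_dvd (d3U_dvd n)
  rw [← d3It_succ] at h1
  have h2 := d3U_dvd (n + 1)
  rw [PowerSeries.X_pow_dvd_iff] at h1 h2
  have h3 := h1 n (by omega)
  have h4 := h2 n (by omega)
  rw [map_sub] at h3 h4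
  linarith

lemma d3U_eq : X * d3U * (1 + 9 * (X * d3U) + 27 * (X * d3U) ^ 2) = X := by
  have h := d3U_fix
  unfold d3Phi at h
  linear_combination (-X : PowerSeries ℤ) * h

lemma d3U_zero : PowerSeries.constantCoeff d3U = 1 := by
  have h := congrArg PowerSeries.constantCoeff d3U_fix
  unfold d3Phi at h
  rw [← h]
  simp

section subst

variable {R : Type*} [CommRing R]

/-- `h` as a power series in `f`: integral coefficients. -/
theorem exists_hser3_eq_subst
    (h : hauptmodul 3 R = hser3 R * (1 + 9 * hser3 R + 27 * hser3 R ^ 2)) :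
    ∃ g : PowerSeries ℤ, PowerSeries.coeff 0 g = 0 ∧ PowerSeries.coeff 1 g = 1 ∧
      g * (1 + 9 * g + 27 * g ^ 2) = X ∧
      hser3 R = (PowerSeries.map (Int.castRingHom R) g).subst (hauptmodul 3 R) := by
  refine ⟨X * d3U, ?_, ?_, d3U_eq, ?_⟩
  · simp
  · have h1 := PowerSeries.coeff_succ_X_mul 0 d3U
    rw [zero_add] at h1
    rw [h1, PowerSeries.coeff_zero_eq_constantCoeff_apply, d3U_zero]
  · have hg0 : PowerSeries.coeff 0 (X * d3U) = 0 := by simp
    have hgeq := d3U_eq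
    generalize X * d3U = g at hg0 hgeq ⊢
    set G := (PowerSeries.map (Int.castRingHom R) g).subst (hauptmodul 3 R) with hG
    have h1 : G * (1 + 9 * G + 27 * G ^ 2) = hauptmodul 3 R := by
      have h2 := congrArg (PowerSeries.map (Int.castRingHom R)) hgeq
      rw [map_mul, map_add, map_add, map_mul, map_mul, map_pow, map_one, map_ofNat, map_ofNat,
        PowerSeries.map_X] at h2
      have h3 := congrArg (substAlgHom (R := R) (fx_hasSubst (R := R) 3)) h2
      rw [map_mul, map_add, map_add, map_mul, map_mul, map_pow, map_one, map_ofNat, map_ofNat,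
        substAlgHom_X, coe_substAlgHom] at h3
      exact h3
    have h0 : PowerSeries.constantCoeff (hser3 R) = 0 := by
      rw [← PowerSeries.coeff_zero_eq_constantCoeff_apply, coeff_zero_hser3]
    have hG0 : PowerSeries.constantCoeff G = 0 := by
      rw [← PowerSeries.coeff_zero_eq_constantCoeff_apply, hG, fx_coeff_subst,
        PowerSeries.coeff_map, hg0]
      simp
    have h4 : (hser3 R - G) * (1 + 9 * (hser3 R + G) +
        27 * (hser3 R ^ 2 + hser3 R * G + G ^ 2)) = 0 := by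
      have h5 : hser3 R * (1 + 9 * hser3 R + 27 * hser3 R ^ 2) =
        G * (1 + 9 * G + 27 * G ^ 2) := by rw [h1, h]
      linear_combination h5
    have h6 : IsUnit (1 + 9 * (hser3 R + G) + 27 * (hser3 R ^ 2 + hser3 R * G + G ^ 2)) := by
      rw [PowerSeries.isUnit_iff_constantCoeff]
      have : PowerSeries.constantCoeff (1 + 9 * (hser3 R + G) +
          27 * (hser3 R ^ 2 + hser3 R * G + G ^ 2)) = 1 := by
        simp only [map_add, map_mul, map_pow, h0, hG0, map_one]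
        ring
      rw [this]
      exact isUnit_one
    have h7 := (h6.mul_left_eq_zero).1 h4
    exact sub_eq_zero.1 h7

end subst

end D3

end GH
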