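import Pool.Agent.GH.D3.Base3
import Pool.Agent.GH.QGauss

open PowerSeries Filter Topology

noncomputable section

namespace GH

namespace D3

/-! ### A finite form of Jacobi's identity -/

/-- The triangular numbers. -/
def d3j_tri : ℕ → ℕ
  | 0 => 0
  | n + 1 => d3j_tri n + (n + 1)

theorem d3j_tri_succ (n : ℕ) : d3j_tri (n + 1) = d3j_tri n + (n + 1) := rfl

theorem d3j_le_tri (n : ℕ) : n ≤ d3j_tri n := by
  cases n with
  | zero => exact Nat.zero_le _
  | succ n =>
    rw [d3j_tri_succ]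
    omega

theorem d3j_tri_mono : StrictMono (fun n => d3j_tri n) := by
  refine strictMono_nat_of_lt_succ fun n => ?_
  rw [d3j_tri_succ]
  omega

theorem d3j_two_tri (n : ℕ) : 2 * d3j_tri n = n * (n + 1) := by
  induction n with
  | zero => rfl
  | succ n ih =>
    rw [d3j_tri_succ, mul_add, ih]
    ring

section

variable {R : Type*} [CommRing R]

/-- The product of the first `n` factors times the Gaussian binomial `(2n+1, n-j)`. -/
def d3j_b (x : R) (n j : ℕ) : R :=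
  (∏ i ∈ Finset.range j, (1 - x ^ (n - i))) *
    ∏ i ∈ Finset.Ico (n + j + 1) (2 * n + 1), (1 - x ^ (i + 1))

/-- The terms of the finite form. -/
def d3j_s (x : R) (n j : ℕ) : R := (-1) ^ j * x ^ d3j_tri j * d3j_b x n j

theorem d3j_b_zero_of_lt (x : R) (n j : ℕ) (h : n < j) : d3j_b x n j = 0 := by
  unfold d3j_b
  rw [Finset.prod_eq_zero (Finset.mem_range.2 h), zero_mul]
  simp

theorem d3j_b_succ (x : R) (n j : ℕ) : d3j_b x (n + 1) (j + 1) =
    (1 - x ^ (n + 1)) * (∏ i ∈ Finset.range j, (1 - x ^ (n - i))) *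
      ∏ i ∈ Finset.Ico (n + j + 3) (2 * n + 3), (1 - x ^ (i + 1)) := by
  unfold d3j_b
  rw [Finset.prod_range_succ']
  have h1 : ∀ i : ℕ, n + 1 - (i + 1) = n - i := fun i => by omega
  simp only [h1, Nat.sub_zero]
  rw [show n + 1 + (j + 1) + 1 = n + j + 3 by ring, show 2 * (n + 1) + 1 = 2 * n + 3 by ring]
  ring

theorem d3j_step (x : R) (n j : ℕ) : d3j_s x (n + 1) (j + 1) = (1 - x ^ (n + 1)) *
    ((1 + x ^ (2 * n + 2)) * d3j_s x n (j + 1) -
      x ^ (n + 1) * (d3j_s x n j + d3j_s x n (j + 2))) := by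
  unfold d3j_s
  rw [show d3j_tri (j + 2) = d3j_tri j + (j + 1) + (j + 2) from rfl,
    show d3j_tri (j + 1) = d3j_tri j + (j + 1) from rfl, d3j_b_succ]
  set t := d3j_tri j with ht
  rcases Nat.lt_trichotomy n j with h | h | h
  · rw [d3j_b_zero_of_lt x n j h, d3j_b_zero_of_lt x n (j + 1) (by omega),
      d3j_b_zero_of_lt x n (j + 2) (by omega), Finset.prod_eq_zero (Finset.mem_range.2 h)]
    · ring
    · simp
  · subst h
    rw [d3j_b_zero_of_lt x n (n + 1) (by omega), d3j_b_zero_of_lt x n (n + 2) (by omega)]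
    unfold d3j_b
    rw [Finset.Ico_eq_empty (by omega), Finset.Ico_eq_empty (by omega), Finset.prod_empty]
    ring
  · obtain ⟨m, rfl⟩ : ∃ m, n = m + j + 1 := ⟨n - j - 1, by omega⟩
    rcases m with _ | m
    · rw [d3j_b_zero_of_lt x (0 + j + 1) (j + 2) (by omega)]
      unfold d3j_b
      rw [Finset.prod_range_succ _ j, show 0 + j + 1 + (j + 1) + 1 = 2 * j + 2 + 1 by ring,
        show 2 * (0 + j + 1) + 1 = 2 * j + 2 + 1 by ring,
        show 0 + j + 1 + j + 1 = 2 * j + 2 by ring,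
        show 0 + j + 1 + j + 3 = 2 * j + 4 by ring,
        show 2 * (0 + j + 1) + 3 = 2 * j + 4 + 1 by ring,
        Finset.prod_Ico_succ_top (show 2 * j + 4 ≤ 2 * j + 4 by omega),
        Finset.prod_Ico_succ_top (show 2 * j + 2 ≤ 2 * j + 2 by omega),
        Finset.Ico_self, Finset.Ico_self, Finset.Ico_self, Finset.prod_empty,
        show 0 + j + 1 - j = 1 by omega]
      ring
    · unfold d3j_b
      rw [Finset.prod_range_succ _ (j + 1), Finset.prod_range_succ _ j,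
        show m + 1 + j + 1 - j = m + 2 by omega,
        show m + 1 + j + 1 - (j + 1) = m + 1 by omega,
        show m + 1 + j + 1 + j + 3 = m + 2 * j + 5 by ring,
        show m + 1 + j + 1 + j + 1 = m + 2 * j + 3 by ring,
        show m + 1 + j + 1 + (j + 1) + 1 = m + 2 * j + 4 by ring,
        show m + 1 + j + 1 + (j + 2) + 1 = m + 2 * j + 5 by ring,
        show 2 * (m + 1 + j + 1) + 1 = 2 * m + 2 * j + 5 by ring,
        show 2 * (m + 1 + j + 1) + 3 = 2 * m + 2 * j + 5 + 1 + 1 by ring,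
        Finset.prod_eq_prod_Ico_succ_bot (show m + 2 * j + 3 < 2 * m + 2 * j + 5 by omega),
        Finset.prod_eq_prod_Ico_succ_bot (show m + 2 * j + 3 + 1 < 2 * m + 2 * j + 5 by omega),
        Finset.prod_Ico_succ_top (show m + 2 * j + 5 ≤ 2 * m + 2 * j + 5 + 1 by omega),
        Finset.prod_Ico_succ_top (show m + 2 * j + 5 ≤ 2 * m + 2 * j + 5 by omega)]
      ring

theorem d3j_step0 (x : R) (n : ℕ) : d3j_s x (n + 1) 0 = (1 - x ^ (n + 1)) *
    ((1 + x ^ (n + 1) + x ^ (2 * n + 2)) * d3j_s x n 0 - x ^ (n + 1) * d3j_s x n 1) := by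
  unfold d3j_s d3j_b
  rw [show d3j_tri 1 = 1 from rfl, show d3j_tri 0 = 0 from rfl]
  rcases n with _ | n
  · simp
    ring
  · simp only [Finset.range_zero, Finset.prod_empty, Finset.prod_range_one, pow_zero, one_mul,
      pow_one, Nat.sub_zero, Nat.add_zero]
    rw [show n + 1 + 1 + 1 = n + 3 by ring, show 2 * (n + 1 + 1) + 1 = 2 * n + 3 + 1 + 1 by ring,
      show 2 * (n + 1) + 1 = 2 * n + 3 by ring, show n + 1 + 1 = n + 2 by ring,
      Finset.prod_eq_prod_Ico_succ_bot (show n + 2 < 2 * n + 3 by omega),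
      Finset.prod_Ico_succ_top (show n + 3 ≤ 2 * n + 3 + 1 by omega),
      Finset.prod_Ico_succ_top (show n + 3 ≤ 2 * n + 3 by omega)]
    ring

theorem d3j_finite (x : R) (n : ℕ) :
    (∏ i ∈ Finset.range n, (1 - x ^ (i + 1))) ^ 3 =
      ∑ j ∈ Finset.range (n + 1), (2 * (j : R) + 1) * d3j_s x n j := by
  induction n with
  | zero => simp [d3j_s, d3j_b, d3j_tri]
  | succ n ih =>
    have h0 : ∀ j, n < j → d3j_s x n j = 0 := by
      intro j hj
      unfold d3j_s
      rw [d3j_b_zero_of_lt x n j hj, mul_zero]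
    rw [Finset.prod_range_succ, mul_pow, ih,
      Finset.sum_range_succ' (fun j : ℕ => (2 * (j : R) + 1) * d3j_s x (n + 1) j) (n + 1)]
    have e1 : ∑ j ∈ Finset.range (n + 1), (2 * (((j + 1 : ℕ)) : R) + 1) * d3j_s x (n + 1) (j + 1) =
        (1 - x ^ (n + 1)) * ((1 + x ^ (2 * n + 2)) *
          ∑ j ∈ Finset.range (n + 1), (2 * (((j + 1 : ℕ)) : R) + 1) * d3j_s x n (j + 1) -
          x ^ (n + 1) * (∑ j ∈ Finset.range (n + 1), (2 * (j : R) + 3) * d3j_s x n j +
            ∑ j ∈ Finset.range (n + 1), (2 * (j : R) + 3) * d3j_s x n (j + 2))) := by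
      rw [← Finset.sum_add_distrib, Finset.mul_sum, Finset.mul_sum, ← Finset.sum_sub_distrib,
        Finset.mul_sum]
      refine Finset.sum_congr rfl fun j _ => ?_
      rw [d3j_step]
      push_cast
      ring
    have e2 : ∑ j ∈ Finset.range (n + 1), (2 * (((j + 1 : ℕ)) : R) + 1) * d3j_s x n (j + 1) =
        ∑ j ∈ Finset.range (n + 1), (2 * (j : R) + 1) * d3j_s x n j - d3j_s x n 0 := by
      have := Finset.sum_range_succ' (fun j : ℕ => (2 * (j : R) + 1) * d3j_s x n j) (n + 1)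
      rw [Finset.sum_range_succ, h0 (n + 1) (Nat.lt_succ_self n), mul_zero, add_zero] at this
      rw [this]
      simp
    have e3 : ∑ j ∈ Finset.range (n + 1), (2 * (j : R) + 3) * d3j_s x n (j + 2) =
        ∑ j ∈ Finset.range (n + 1), (2 * (j : R) - 1) * d3j_s x n j + d3j_s x n 0 - d3j_s x n 1 := by
      have h1 := Finset.sum_range_succ' (fun j : ℕ => (2 * (j : R) - 1) * d3j_s x n j) (n + 2)
      have h2 := Finset.sum_range_succ'
        (fun j : ℕ => (2 * (((j + 1 : ℕ)) : R) - 1) * d3j_s x n (j + 1)) (n + 1)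
      rw [Finset.sum_range_succ, Finset.sum_range_succ, h0 (n + 1) (by omega),
        h0 (n + 2) (by omega), mul_zero, mul_zero, add_zero, add_zero, h2] at h1
      have h3 : ∑ j ∈ Finset.range (n + 1),
          (2 * (((j + 1 + 1 : ℕ)) : R) - 1) * d3j_s x n (j + 1 + 1) =
          ∑ j ∈ Finset.range (n + 1), (2 * (j : R) + 3) * d3j_s x n (j + 2) := by
        refine Finset.sum_congr rfl fun j _ => ?_
        push_cast
        ring
      rw [h3] at h1
      rw [h1]
      push_cast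
      ring
    have e4 : ∑ j ∈ Finset.range (n + 1), (2 * (j : R) + 3) * d3j_s x n j =
        2 * ∑ j ∈ Finset.range (n + 1), (2 * (j : R) + 1) * d3j_s x n j -
        ∑ j ∈ Finset.range (n + 1), (2 * (j : R) - 1) * d3j_s x n j := by
      rw [Finset.mul_sum, ← Finset.sum_sub_distrib]
      refine Finset.sum_congr rfl fun j _ => ?_
      ring
    rw [e1, e2, e3, e4, d3j_step0]
    push_cast
    ring

end

/-! ### Jacobi's identity -/

/-- `∑ (-1)^m (2m+1) q^(m(m+1)/2)`. -/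
def d3j_J : PowerSeries ℤ :=
  PowerSeries.mk fun n ↦ ∑ j ∈ Finset.range (n + 1),
    if n = d3j_tri j then (-1) ^ j * (2 * (j : ℤ) + 1) else 0

theorem d3j_coeff_J (n N : ℕ) (h : n ≤ N) : PowerSeries.coeff n d3j_J =
    ∑ j ∈ Finset.range (N + 1), if n = d3j_tri j then (-1) ^ j * (2 * (j : ℤ) + 1) else 0 := by
  unfold d3j_J
  rw [coeff_mk]
  refine Finset.sum_subset (Finset.range_subset_range.2 (by omega)) fun j _ hj => ?_
  rw [if_neg]
  intro hc
  have := d3j_le_tri j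
  exact hj (Finset.mem_range.2 (by omega))

theorem d3j_J_trunc (N : ℕ) : (X : PowerSeries ℤ) ^ (N + 1) ∣ d3j_J -
    ∑ j ∈ Finset.range (N + 1), (2 * (j : PowerSeries ℤ) + 1) *
      ((-1) ^ j * (X : PowerSeries ℤ) ^ d3j_tri j) := by
  rw [X_pow_dvd_iff]
  intro n hn
  rw [map_sub, sub_eq_zero, d3j_coeff_J n N (Nat.lt_succ_iff.1 hn), map_sum]
  refine Finset.sum_congr rfl fun j _ => ?_
  have : (2 * (j : PowerSeries ℤ) + 1) * ((-1) ^ j * (X : PowerSeries ℤ) ^ d3j_tri j) =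
      C ((-1) ^ j * (2 * (j : ℤ) + 1)) * X ^ d3j_tri j := by
    simp only [map_mul, map_pow, map_neg, map_one, map_add, map_natCast, map_ofNat]
    ring
  rw [this, coeff_C_mul, coeff_X_pow]
  split_ifs <;> simp

theorem d3j_b_one (n j : ℕ) (h : j ≤ n) :
    (X : PowerSeries ℤ) ^ (n - j + 1) ∣ d3j_b (X : PowerSeries ℤ) n j - 1 := by
  unfold d3j_b
  have h1 := qg_prod_sub_one (fun i => n - i) (n - j + 1) (Finset.range j) (by
    intro m hm
    have := Finset.mem_range.1 hm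
    omega)
  have h2 := qg_prod_sub_one (fun i => i + 1) (n - j + 1) (Finset.Ico (n + j + 1) (2 * n + 1)) (by
    intro m hm
    have := Finset.mem_Ico.1 hm
    omega)
  obtain ⟨a, ha⟩ := h1
  obtain ⟨b, hb⟩ := h2
  rw [sub_eq_iff_eq_add] at ha hb
  rw [ha, hb]
  exact ⟨a * (X ^ (n - j + 1) * b + 1) + b, by ring⟩

theorem d3j_jacobi : euler ℤ 1 ^ 3 = d3j_J := by
  apply qg_ext
  intro N
  have h1 := d3j_J_trunc N
  have h2 := qg_euler 1 N le_rfl
  simp only [one_mul] at h2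
  have h3 := d3j_finite (X : PowerSeries ℤ) N
  have h4 : (X : PowerSeries ℤ) ^ (N + 1) ∣
      ∑ j ∈ Finset.range (N + 1), (2 * (j : PowerSeries ℤ) + 1) * d3j_s (X : PowerSeries ℤ) N j -
      ∑ j ∈ Finset.range (N + 1), (2 * (j : PowerSeries ℤ) + 1) *
      ((-1) ^ j * (X : PowerSeries ℤ) ^ d3j_tri j) := by
    rw [← Finset.sum_sub_distrib]
    refine Finset.dvd_sum fun j hj => ?_
    have hj' : j ≤ N := Nat.lt_succ_iff.1 (Finset.mem_range.1 hj)
    obtain ⟨a, ha⟩ := d3j_b_one N j hj'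
    unfold d3j_s
    rw [sub_eq_iff_eq_add] at ha
    rw [ha]
    have h5 : (X : PowerSeries ℤ) ^ (N + 1) ∣ X ^ d3j_tri j * X ^ (N - j + 1) := by
      rw [← pow_add]
      refine pow_dvd_pow _ ?_
      have := d3j_le_tri j
      omega
    obtain ⟨c, hc⟩ := h5
    refine ⟨(2 * (j : PowerSeries ℤ) + 1) * ((-1) ^ j * (c * a)), ?_⟩
    linear_combination (2 * (j : PowerSeries ℤ) + 1) * (-1) ^ j * a * hc
  rw [← h3] at h4
  obtain ⟨a, ha⟩ := h1
  obtain ⟨b, hb⟩ := h2
  obtain ⟨c, hc⟩ := h4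
  set P := ∏ i ∈ Finset.range N, (1 - (X : PowerSeries ℤ) ^ (i + 1)) with hP
  refine ⟨b * (euler ℤ 1 ^ 2 + euler ℤ 1 * P + P ^ 2) + c - a, ?_⟩
  linear_combination (euler ℤ 1 ^ 2 + euler ℤ 1 * P + P ^ 2) * hb + hc - ha

/-! ### Expansion of the Euler product -/

theorem d3j_coeff_stable (k n N : ℕ) (h : n < k * (N + 1)) :
    ∀ M, N ≤ M → PowerSeries.coeff n (∏ m ∈ Finset.range M,
      (1 - (X : PowerSeries ℤ) ^ (k * (m + 1)))) =
      PowerSeries.coeff n (∏ m ∈ Finset.range N, (1 - (X : PowerSeries ℤ) ^ (k * (m + 1)))) := by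
  intro M hM
  induction M, hM using Nat.le_induction with
  | base => rfl
  | succ M hM ih =>
    rw [Finset.prod_range_succ, mul_sub, mul_one, map_sub, ih, PowerSeries.coeff_mul_X_pow',
      if_neg, sub_zero]
    have h1 : k * (N + 1) ≤ k * (M + 1) := Nat.mul_le_mul_left _ (by omega)
    omega

theorem d3j_expand_euler (p : ℕ) (hp : p ≠ 0) :
    (euler ℤ 1).expand p hp = euler ℤ p := by
  have hprod : ∀ N : ℕ, (∏ m ∈ Finset.range N,
      (1 - (X : PowerSeries ℤ) ^ (1 * (m + 1)))).expand p hp =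
      ∏ m ∈ Finset.range N, (1 - (X : PowerSeries ℤ) ^ (p * (m + 1))) := by
    intro N
    rw [map_prod]
    refine Finset.prod_congr rfl fun m _ => ?_
    rw [map_sub, map_one, map_pow, PowerSeries.expand_X, ← pow_mul, one_mul]
  ext n
  rw [PowerSeries.coeff_expand]
  have hpos : 0 < p := Nat.pos_of_ne_zero hp
  split_ifs with h
  · obtain ⟨l, rfl⟩ := h
    rw [Nat.mul_div_cancel_left l hpos]
    unfold euler
    rw [PowerSeries.coeff_mk, PowerSeries.coeff_mk,
      ← PowerSeries.coeff_expand_mul p hp, hprod]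
    refine (d3j_coeff_stable p (p * l) l ?_ (p * l) (Nat.le_mul_of_pos_left _ hpos)).symm
    exact Nat.mul_lt_mul_of_pos_left (Nat.lt_succ_self l) hpos
  · unfold euler
    rw [PowerSeries.coeff_mk, ← hprod, PowerSeries.coeff_expand_of_not_dvd p hp _ h]

/-! ### The dissection -/

theorem d3j_tri_three (k : ℕ) : d3j_tri (3 * k + 1) = 1 + 9 * d3j_tri k := by
  have h1 := d3j_two_tri (3 * k + 1)
  have h2 := d3j_two_tri k
  have : 2 * d3j_tri (3 * k + 1) = 2 * (1 + 9 * d3j_tri k) := by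
    rw [h1, show 2 * (1 + 9 * d3j_tri k) = 2 + 9 * (2 * d3j_tri k) by ring, h2]
    ring
  omega

theorem d3j_tri_mod_zero (k : ℕ) : 3 ∣ d3j_tri (3 * k) := by
  have h1 := d3j_two_tri (3 * k)
  have : 2 * d3j_tri (3 * k) = 3 * (k * (3 * k + 1)) := by rw [h1]; ring
  have h3 : 3 ∣ 2 * d3j_tri (3 * k) := ⟨_, this⟩
  exact (Nat.Coprime.dvd_of_dvd_mul_left (by norm_num) h3)

theorem d3j_tri_mod_two (k : ℕ) : 3 ∣ d3j_tri (3 * k + 2) := by
  have h1 := d3j_two_tri (3 * k + 2)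
  have : 2 * d3j_tri (3 * k + 2) = 3 * ((3 * k + 2) * (k + 1)) := by rw [h1]; ring
  have h3 : 3 ∣ 2 * d3j_tri (3 * k + 2) := ⟨_, this⟩
  exact (Nat.Coprime.dvd_of_dvd_mul_left (by norm_num) h3)

/-- coefficient at a triangular number -/
theorem d3j_coeff_tri (k : ℕ) : PowerSeries.coeff (d3j_tri k) d3j_J = (-1) ^ k * (2 * (k : ℤ) + 1) := by
  unfold d3j_J
  rw [coeff_mk, Finset.sum_eq_single k]
  · rw [if_pos rfl]
  · intro j _ hj
    rw [if_neg]
    intro hc
    exact hj (d3j_tri_mono.injective hc.symm)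
  · intro h
    exact absurd (Finset.mem_range.2 (Nat.lt_succ_of_le (d3j_le_tri k))) h

theorem d3j_coeff_not (n : ℕ) (h : ∀ k, n ≠ d3j_tri k) : PowerSeries.coeff n d3j_J = 0 := by
  unfold d3j_J
  rw [coeff_mk, Finset.sum_eq_zero]
  intro j _
  rw [if_neg (h j)]

theorem d3j_dissect (n : ℕ) (h : ¬ 3 ∣ n) : PowerSeries.coeff n d3j_J =
    PowerSeries.coeff n (-(3 * X * d3j_J.expand 9 (by norm_num))) := by
  rw [map_neg, mul_assoc, show (3 : PowerSeries ℤ) = C (3 : ℤ) by simp, coeff_C_mul]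
  rcases n with _ | n
  · exact absurd (dvd_zero 3) h
  rw [coeff_succ_X_mul, PowerSeries.coeff_expand]
  by_cases ht : ∃ k, n + 1 = d3j_tri k
  · obtain ⟨k, hk⟩ := ht
    obtain ⟨l, hl | hl | hl⟩ : ∃ l, k = 3 * l ∨ k = 3 * l + 1 ∨ k = 3 * l + 2 :=
      ⟨k / 3, by omega⟩
    · subst hl
      exact absurd (hk ▸ d3j_tri_mod_zero l) h
    · subst hl
      have h1 : n = 9 * d3j_tri l := by
        rw [d3j_tri_three] at hk
        omega
      rw [hk, d3j_coeff_tri, h1, if_pos ⟨_, rfl⟩, Nat.mul_div_cancel_left _ (by norm_num),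
        d3j_coeff_tri]
      rw [pow_add, pow_mul]
      push_cast
      norm_num
      ring
    · subst hl
      exact absurd (hk ▸ d3j_tri_mod_two l) h
  · push Not at ht
    rw [d3j_coeff_not _ ht]
    split_ifs with h9
    · obtain ⟨m, rfl⟩ := h9
      rw [Nat.mul_div_cancel_left _ (by norm_num), d3j_coeff_not, mul_zero, neg_zero]
      intro k hk
      apply ht (3 * k + 1)
      rw [d3j_tri_three, hk]
      ring
    · simp

/-- The 3-dissection of Jacobi's `∏ (1-q^n)^3 = ∑ (-1)^n (2n+1) q^{n(n+1)/2}`. -/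
theorem euler_cube : ∃ A : PowerSeries ℤ,
    euler ℤ 1 ^ 3 = A.expand 3 three_ne_zero - 3 * X * euler ℤ 9 ^ 3 := by
  have h9 : euler ℤ 9 ^ 3 = d3j_J.expand 9 (by norm_num) := by
    rw [← d3j_jacobi, map_pow, d3j_expand_euler]
  refine ⟨PowerSeries.mk fun n ↦ PowerSeries.coeff (3 * n) d3j_J, ?_⟩
  rw [h9, d3j_jacobi]
  ext n
  by_cases h : 3 ∣ n
  · have h0 : PowerSeries.coeff n (3 * X * d3j_J.expand 9 (by norm_num)) = 0 := by
      rw [mul_assoc, show (3 : PowerSeries ℤ) = C (3 : ℤ) by simp, coeff_C_mul]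
      rcases n with _ | n
      · simp
      rw [coeff_succ_X_mul, PowerSeries.coeff_expand, if_neg, mul_zero]
      omega
    rw [map_sub, h0, sub_zero]
    obtain ⟨l, rfl⟩ := h
    rw [PowerSeries.coeff_expand_mul, coeff_mk]
  · rw [map_sub, PowerSeries.coeff_expand_of_not_dvd 3 three_ne_zero _ h, zero_sub, ← map_neg]
    exact d3j_dissect n h

end D3

end GH
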