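import Pool.Agent.GH.D3.Base3
import Pool.Agent.GH.FamA

open PowerSeries Filter Topology

noncomputable section

namespace GH

namespace D3

/-! Norm bounds for the matrices of `U_3`. -/

theorem norm_three_C3 : ‖(3 : C3)‖ = 3⁻¹ := by
  have h1 : (3 : C3) = algebraMap ℚ_[3] C3 ((3 : ℕ) : ℚ_[3]) := by
    rw [map_natCast]
    norm_num
  rw [h1, norm_algebraMap', Padic.norm_p]
  norm_num

theorem d3_ubn_natCast (n : ℕ) : ‖(n : C3)‖ = ‖(n : ℚ_[3])‖ := by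
  rw [← map_natCast (algebraMap ℚ_[3] C3) n, norm_algebraMap']

theorem d3_ubn_fac_val (n : ℕ) :
    ‖((n.factorial : ℕ) : C3)‖⁻¹ = 3 ^ (padicValNat 3 n.factorial) := by
  have h0 : ((n.factorial : ℕ) : ℚ_[3]) ≠ 0 := by
    exact_mod_cast Nat.factorial_ne_zero n
  rw [d3_ubn_natCast, Padic.norm_eq_zpow_neg_valuation h0, Padic.valuation_natCast]
  rw [← zpow_neg, neg_neg, zpow_natCast]
  norm_num

theorem d3_ubn_fac (n : ℕ) :
    ∃ v : ℕ, ‖(((n + 1).factorial : ℕ) : C3)‖⁻¹ = 3 ^ v ∧ 2 * v ≤ n := by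
  refine ⟨_, d3_ubn_fac_val (n + 1), ?_⟩
  have h1 := sub_one_mul_padicValNat_factorial (p := 3) (n + 1)
  have h2 : 0 < ((3 : ℕ).digits (n + 1)).sum := by
    rw [Nat.pos_iff_ne_zero]
    intro h3
    have h4 : ∀ d ∈ (3 : ℕ).digits (n + 1), d = 0 := List.sum_eq_zero_iff.1 h3
    have h5 : (3 : ℕ).digits (n + 1) ≠ [] := by
      rw [Ne, Nat.digits_eq_nil_iff_eq_zero]
      omega
    exact Nat.getLast_digit_ne_zero 3 (Nat.succ_ne_zero n) (h4 _ (List.getLast_mem h5))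
  omega

theorem d3_ubn_int (m : ℤ) : ‖(m : C3)‖ ≤ 1 := IsUltrametricDist.norm_intCast_le_one C3 m

theorem d3_ubn_nat (m : ℕ) : ‖(m : C3)‖ ≤ 1 := by
  have h := d3_ubn_int (m : ℤ)
  rwa [Int.cast_natCast] at h

theorem d3_ubn_third {y : C3} (hy : ‖y‖ ≤ 1) : ‖y / 3‖ ≤ 3 := by
  rw [norm_div, norm_three_C3, div_inv_eq_mul]
  linarith

theorem d3_ubn_prod {s : C3} (n : ℕ) (h : ∀ l : ℕ, ‖s - l‖ ≤ 3) :
    ‖∏ i ∈ Finset.range n, (s - i)‖ ≤ 3 ^ n := by
  rw [norm_prod]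
  calc ∏ i ∈ Finset.range n, ‖s - i‖ ≤ ∏ _i ∈ Finset.range n, (3 : ℝ) :=
        Finset.prod_le_prod (fun i _ => norm_nonneg _) (fun i _ => h i)
    _ = 3 ^ n := by rw [Finset.prod_const, Finset.card_range]

/-- The bound `3^v 3^{-m} ≤ (3/5)^{m+1}` for `2 v ≤ m - 1`. -/
theorem d3_ubn_pow {v m : ℕ} (h : 2 * v + 1 ≤ m) :
    (3 : ℝ) ^ v * (3 : ℝ)⁻¹ ^ m ≤ (3 / 5 : ℝ) ^ (m + 1) := by
  have h1 : ((3 : ℝ) ^ v * (3 : ℝ)⁻¹ ^ m) ^ 2 ≤ ((3 / 5 : ℝ) ^ (m + 1)) ^ 2 := by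
    calc ((3 : ℝ) ^ v * (3 : ℝ)⁻¹ ^ m) ^ 2 = (3 : ℝ) ^ (2 * v) * ((3 : ℝ)⁻¹ ^ m * (3 : ℝ)⁻¹ ^ m) := by
          rw [mul_pow, ← pow_mul, mul_comm v 2]
          ring
      _ ≤ (3 : ℝ) ^ (m - 1) * ((3 : ℝ)⁻¹ ^ m * (3 : ℝ)⁻¹ ^ m) := by
          refine mul_le_mul_of_nonneg_right ?_ (by positivity)
          exact pow_le_pow_right₀ (by norm_num) (by omega)
      _ = (3 : ℝ)⁻¹ ^ (m + 1) := by
          obtain ⟨k, rfl⟩ : ∃ k, m = k + 1 := ⟨m - 1, by omega⟩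
          rw [Nat.add_sub_cancel]
          have h2 : (3 : ℝ) ^ k * (3 : ℝ)⁻¹ ^ k = 1 := by
            rw [← mul_pow, mul_inv_cancel₀ (by norm_num), one_pow]
          rw [pow_succ, pow_succ, pow_succ]
          linear_combination (3 : ℝ)⁻¹ ^ k * 3⁻¹ * 3⁻¹ * h2
      _ ≤ ((3 / 5 : ℝ) ^ 2) ^ (m + 1) := pow_le_pow_left₀ (by norm_num) (by norm_num) _
      _ = ((3 / 5 : ℝ) ^ (m + 1)) ^ 2 := by
          rw [← pow_mul, ← pow_mul, mul_comm]
  exact le_of_sq_le_sq h1 (by positivity)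

/-- The bound for the coefficients. -/
def d3B (m : ℕ) : ℝ := if m = 0 then 1 else (3 / 5 : ℝ) ^ (m + 1)

theorem d3B_pos (m : ℕ) : 0 < d3B m := by
  unfold d3B
  split_ifs
  · norm_num
  · positivity

theorem d3B_mul (i j : ℕ) : d3B i * d3B j ≤ d3B (i + j) := by
  unfold d3B
  rcases Nat.eq_zero_or_pos i with hi | hi
  · subst hi
    simp
  · rcases Nat.eq_zero_or_pos j with hj | hj
    · subst hj
      simp
    · rw [if_neg (by omega), if_neg (by omega), if_neg (by omega), ← pow_add]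
      exact pow_le_pow_of_le_one (by norm_num) (by norm_num) (by omega)

theorem d3B_le (m : ℕ) : d3B m ≤ (3 / 5 : ℝ) ^ m := by
  unfold d3B
  split_ifs with h
  · rw [h, pow_zero]
  · exact pow_le_pow_of_le_one (by norm_num) (by norm_num) (by omega)

/-- The series whose coefficients satisfy the bound. -/
def d3Bd (F : PowerSeries C3) : Prop := ∀ m, ‖PowerSeries.coeff m F‖ ≤ d3B m

theorem d3Bd_mul {F G : PowerSeries C3} (hF : d3Bd F) (hG : d3Bd G) : d3Bd (F * G) := by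
  intro n
  rw [PowerSeries.coeff_mul]
  refine IsUltrametricDist.norm_sum_le_of_forall_le_of_nonneg (d3B_pos n).le fun ij hij => ?_
  rw [Finset.HasAntidiagonal.mem_antidiagonal] at hij
  rw [norm_mul, ← hij]
  exact (mul_le_mul (hF _) (hG _) (norm_nonneg _) (d3B_pos _).le).trans (d3B_mul _ _)

theorem d3Bd_one : d3Bd 1 := by
  intro n
  rw [PowerSeries.coeff_one]
  split_ifs with h
  · rw [h, norm_one]
    unfold d3B
    simp
  · rw [norm_zero]
    exact (d3B_pos n).le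

theorem d3Bd_pow {F : PowerSeries C3} (hF : d3Bd F) (m : ℕ) : d3Bd (F ^ m) := by
  induction m with
  | zero =>
    rw [pow_zero]
    exact d3Bd_one
  | succ m ih =>
    rw [pow_succ]
    exact d3Bd_mul ih hF

theorem d3Bd_lin {a : C3} (ha : ‖a‖ ≤ 3⁻¹) : d3Bd (1 + C a * X) := by
  intro n
  rw [map_add, PowerSeries.coeff_one]
  rcases n with _ | _ | n
  · rw [PowerSeries.coeff_zero_eq_constantCoeff_apply]
    simp [d3B]
  · rw [PowerSeries.coeff_C_mul, PowerSeries.coeff_X]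
    simp only [zero_add, one_ne_zero, if_false, if_true, mul_one]
    unfold d3B
    rw [if_neg one_ne_zero]
    refine ha.trans ?_
    norm_num
  · rw [PowerSeries.coeff_C_mul, PowerSeries.coeff_X, if_neg (by omega), if_neg (by omega),
      mul_zero, add_zero, norm_zero]
    exact (d3B_pos _).le

/-- The coefficients of `(9T+27T^2)^n`. -/
theorem d3_ubn_base (n : ℕ) :
    ∀ m, ‖PowerSeries.coeff m ((Qser C3 - 1) ^ n)‖ ≤ (3 : ℝ)⁻¹ ^ n * (3 : ℝ)⁻¹ ^ m := by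
  have h9 : ‖(9 : C3)‖ = 9⁻¹ := by
    have h : (9 : C3) = 3 ^ 2 := by norm_num
    rw [h, norm_pow, norm_three_C3]
    norm_num
  have h27 : ‖(27 : C3)‖ = 27⁻¹ := by
    have h : (27 : C3) = 3 ^ 3 := by norm_num
    rw [h, norm_pow, norm_three_C3]
    norm_num
  have hQ : Qser C3 - 1 = (C (9 : C3) + C (27 : C3) * X) * X := by
    unfold Qser
    ring
  induction n with
  | zero =>
    intro m
    rw [pow_zero, pow_zero, one_mul, PowerSeries.coeff_one]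
    split_ifs with h
    · rw [h, norm_one, pow_zero]
    · rw [norm_zero]
      positivity
  | succ n ih =>
    intro m
    rw [pow_succ, hQ]
    cases m with
    | zero =>
      rw [← mul_assoc, PowerSeries.coeff_zero_mul_X, norm_zero]
      positivity
    | succ m =>
      rw [← mul_assoc, PowerSeries.coeff_succ_mul_X, ← hQ, mul_add, map_add,
        PowerSeries.coeff_mul_C, ← mul_assoc]
      refine (IsUltrametricDist.norm_add_le_max _ _).trans (max_le ?_ ?_)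
      · rw [norm_mul, h9]
        calc ‖PowerSeries.coeff m ((Qser C3 - 1) ^ n)‖ * 9⁻¹
            ≤ ((3 : ℝ)⁻¹ ^ n * (3 : ℝ)⁻¹ ^ m) * 9⁻¹ :=
              mul_le_mul_of_nonneg_right (ih m) (by norm_num)
          _ = (3 : ℝ)⁻¹ ^ (n + 1) * (3 : ℝ)⁻¹ ^ (m + 1) := by ring
      · cases m with
        | zero =>
          rw [PowerSeries.coeff_zero_mul_X, norm_zero]
          positivity
        | succ m =>
          rw [PowerSeries.coeff_succ_mul_X, PowerSeries.coeff_mul_C, norm_mul, h27]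
          calc ‖PowerSeries.coeff m ((Qser C3 - 1) ^ n)‖ * 27⁻¹
              ≤ ((3 : ℝ)⁻¹ ^ n * (3 : ℝ)⁻¹ ^ m) * 27⁻¹ :=
                mul_le_mul_of_nonneg_right (ih m) (by norm_num)
            _ = (3 : ℝ)⁻¹ ^ (n + 1) * (3 : ℝ)⁻¹ ^ (m + 1 + 1) := by ring

theorem d3_ubn_constQ : PowerSeries.constantCoeff (Qser C3 - 1) = 0 := by
  unfold Qser
  simp

theorem d3Bd_Q {s : C3} (h : ∀ l : ℕ, ‖s - l‖ ≤ 3) : d3Bd (ppow (Qser C3) s) := by
  intro m
  unfold ppow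
  rw [fa_coeff_subst d3_ubn_constQ]
  refine IsUltrametricDist.norm_sum_le_of_forall_le_of_nonneg (d3B_pos m).le fun n hn => ?_
  rw [Finset.mem_range] at hn
  cases n with
  | zero =>
    rw [pow_zero, PowerSeries.coeff_one]
    split_ifs with h0
    · rw [h0, mul_one, binS, coeff_mk]
      simp [d3B]
    · rw [mul_zero, norm_zero]
      exact (d3B_pos m).le
  | succ n =>
    obtain ⟨v, hv, hvn⟩ := d3_ubn_fac n
    have hm : m ≠ 0 := by omega
    rw [norm_mul, binS, coeff_mk, norm_div, div_eq_mul_inv, hv, d3B, if_neg hm]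
    calc ‖∏ i ∈ Finset.range (n + 1), (s - i)‖ * 3 ^ v *
          ‖PowerSeries.coeff m ((Qser C3 - 1) ^ (n + 1))‖
        ≤ (3 ^ (n + 1) * 3 ^ v) * ((3 : ℝ)⁻¹ ^ (n + 1) * (3 : ℝ)⁻¹ ^ m) := by
          refine mul_le_mul ?_ (d3_ubn_base _ _) (norm_nonneg _) (by positivity)
          exact mul_le_mul_of_nonneg_right (d3_ubn_prod _ h) (by positivity)
      _ = (3 : ℝ) ^ v * (3 : ℝ)⁻¹ ^ m := by
          have h2 : (3 : ℝ) ^ (n + 1) * (3 : ℝ)⁻¹ ^ (n + 1) = 1 := by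
            rw [← mul_pow, mul_inv_cancel₀ (by norm_num), one_pow]
          linear_combination (3 : ℝ) ^ v * (3 : ℝ)⁻¹ ^ m * h2
      _ ≤ (3 / 5 : ℝ) ^ (m + 1) := d3_ubn_pow (by omega)

theorem d3_ubn_exp {x : C3} (hx : ‖x‖ ≤ 1) (a i j l : ℕ) :
    ‖(i : C3) + j - 1 - (x - a) / 3 - l‖ ≤ 3 := by
  have h1 : (i : C3) + j - 1 - (x - a) / 3 - l =
      (((i : ℤ) + j - 1 - l : ℤ) : C3) + (-(x - a)) / 3 := by
    push_cast
    ring
  rw [h1]
  refine (IsUltrametricDist.norm_add_le_max _ _).trans (max_le ?_ ?_)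
  · exact (d3_ubn_int _).trans (by norm_num)
  · apply d3_ubn_third
    rw [norm_neg, sub_eq_add_neg]
    refine (IsUltrametricDist.norm_add_le_max _ _).trans (max_le hx ?_)
    rw [norm_neg]
    exact d3_ubn_nat a

theorem d3Bd_Mat {x : C3} (hx : ‖x‖ ≤ 1) (a i j : ℕ) :
    d3Bd ((1 + C (3 : C3) * X) ^ (2 - a) * (1 + C (9 : C3) * X) ^ a *
        ppow (Qser C3) ((i : C3) + j - 1 - (x - a) / 3)) := by
  refine d3Bd_mul (d3Bd_mul (d3Bd_pow (d3Bd_lin ?_) _) (d3Bd_pow (d3Bd_lin ?_) _))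
    (d3Bd_Q fun l => d3_ubn_exp hx a i j l)
  · rw [norm_three_C3]
  · have h : (9 : C3) = 3 ^ 2 := by norm_num
    rw [h, norm_pow, norm_three_C3]
    norm_num

theorem norm_Mat3_le {a : ℕ} (ha : a ≤ 2) {x : C3} (hx : ‖x‖ ≤ 1) {i j : ℕ} (h : j ≤ 3 * i) :
    ‖Mat3 a x i j‖ ≤ (3 / 5 : ℝ) ^ (3 * i - j) := by
  unfold Mat3
  rw [if_pos h]
  exact (d3Bd_Mat hx a i j _).trans (d3B_le _)

theorem norm_Mat3_lt {x : C3} (hx : ‖x‖ ≤ 1) {i j : ℕ} (h : j < 3 * i) :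
    ‖Mat3 0 x i j‖ ≤ (3 / 5 : ℝ) ^ (3 * i - j + 1) := by
  unfold Mat3
  rw [if_pos h.le]
  refine (d3Bd_Mat hx 0 i j _).trans ?_
  unfold d3B
  rw [if_neg (by omega)]

theorem norm_v3_le {a : ℕ} (ha : a ≤ 2) (n : ℕ) : ‖(v3 a n : C3)‖ ≤ (3 : ℝ)⁻¹ ^ n := by
  have hs : ∀ l : ℕ, ‖(a : C3) / 3 - l‖ ≤ 3 := by
    intro l
    have h1 : (a : C3) / 3 - l = ((-(l : ℤ) : ℤ) : C3) + (a : C3) / 3 := by
      push_cast
      ring
    rw [h1]
    refine (IsUltrametricDist.norm_add_le_max _ _).trans (max_le ?_ ?_)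
    · exact (d3_ubn_int _).trans (by norm_num)
    · exact d3_ubn_third (d3_ubn_nat a)
  have h27 : ‖(27 : C3)‖ = 27⁻¹ := by
    have h : (27 : C3) = 3 ^ 3 := by norm_num
    rw [h, norm_pow, norm_three_C3]
    norm_num
  have hf : ‖((n.factorial : ℕ) : C3)‖⁻¹ ≤ 3 ^ n := by
    cases n with
    | zero => simp
    | succ n =>
      obtain ⟨v, hv, hvn⟩ := d3_ubn_fac n
      rw [hv]
      exact pow_le_pow_right₀ (by norm_num) (by omega)
  rw [v3, coeff_rescale, binS, coeff_mk, norm_mul, norm_div, norm_pow, h27, div_eq_mul_inv]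
  have h3 : (3 : ℝ)⁻¹ ^ n = (27 : ℝ)⁻¹ ^ n * (3 ^ n * 3 ^ n) := by
    rw [← mul_pow, ← mul_pow]
    norm_num
  rw [h3]
  refine mul_le_mul_of_nonneg_left ?_ (by positivity)
  exact mul_le_mul (d3_ubn_prod n hs) hf (by positivity) (by positivity)

theorem v3_zero (a : ℕ) : (v3 a 0 : C3) = 1 := by
  rw [v3, coeff_rescale, binS, coeff_mk]
  simp

/-- The matrix entries are polynomials in `x`. -/
theorem Mat3_isPoly (a i j : ℕ) : ∃ P : Polynomial C3, ∀ x : C3, Mat3 a x i j = P.eval x := by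
  have hu : PowerSeries.constantCoeff (Qser C3) = 1 := by
    unfold Qser
    simp
  by_cases h : j ≤ 3 * i
  · choose P hP using fun n => fa_ppow_poly (K := C3) hu n
    refine ⟨∑ kl ∈ Finset.HasAntidiagonal.antidiagonal (3 * i - j),
      Polynomial.C (PowerSeries.coeff kl.1
        ((1 + C (3 : C3) * X) ^ (2 - a) * (1 + C (9 : C3) * X) ^ a)) *
      (P kl.2).comp (Polynomial.C ((i : C3) + j - 1 + a / 3) -
        Polynomial.C (1 / 3) * Polynomial.X), fun x => ?_⟩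
    unfold Mat3
    rw [if_pos h, PowerSeries.coeff_mul, Polynomial.eval_finsetSum]
    refine Finset.sum_congr rfl fun kl _ => ?_
    rw [Polynomial.eval_mul, Polynomial.eval_C, Polynomial.eval_comp, Polynomial.eval_sub,
      Polynomial.eval_mul, Polynomial.eval_C, Polynomial.eval_C, Polynomial.eval_X, hP]
    congr 2
    ring
  · refine ⟨0, fun x => ?_⟩
    unfold Mat3
    rw [if_neg h, Polynomial.eval_zero]

end D3

end GH
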