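import Pool.Agent.GH.D3.UMat3A
import Pool.Agent.GH.UMatB_b
import Pool.Agent.GH.FExp

open PowerSeries Filter Topology

noncomputable section

namespace GH

namespace D3

variable {K : Type*} [Field K] [CharZero K]

/-! ### Helper lemmas -/

theorem d3_ppow_expand {u : PowerSeries K} (hu : PowerSeries.constantCoeff u = 1) (s : K) :
    (ppow u s).expand 3 three_ne_zero = ppow (u.expand 3 three_ne_zero) s := by
  unfold ppow
  have h := expand_subst 3 three_ne_zero (ub_hs hu) (binS s)
  have h1 : (u - 1).expand 3 three_ne_zero = u.expand 3 three_ne_zero - 1 := by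
    rw [map_sub, map_one]
  rw [← h1]
  exact h

theorem d3_const_Q : PowerSeries.constantCoeff (Qser K) = 1 := by
  unfold Qser
  simp

/-- `Q^s` -/
def d3R (s : K) : PowerSeries K := ppow (Qser K) s

theorem d3R_add (s t : K) : d3R (s + t) = d3R s * d3R t := ub_ppow_add d3_const_Q s t

theorem d3R_zero : d3R (0 : K) = 1 := ub_ppow_zero d3_const_Q

theorem d3R_one : d3R (1 : K) = Qser K := ub_ppow_one d3_const_Q

theorem d3R_nat (n : ℕ) : d3R (n : K) = Qser K ^ n := ub_ppow_nat d3_const_Q n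

theorem d3R_const (s : K) : PowerSeries.constantCoeff (d3R s) = 1 := ub_const_ppow d3_const_Q s

theorem d3R_neg_one : d3R (-1 : K) = (Qser K)⁻¹ := by
  have h1 : d3R (-1 : K) * Qser K = 1 := by
    rw [← d3R_one, ← d3R_add]
    have : (-1 : K) + 1 = 0 := by ring
    rw [this, d3R_zero]
  have h2 : PowerSeries.constantCoeff (Qser K) ≠ 0 := by
    rw [d3_const_Q]
    exact one_ne_zero
  rw [PowerSeries.eq_inv_iff_mul_eq_one h2]
  exact h1

/-- `T Q` -/
def d3P (K : Type*) [Field K] : PowerSeries K := X * Qser K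

theorem d3P_const : PowerSeries.constantCoeff (d3P K) = 0 := by
  unfold d3P
  simp

theorem d3P_pow (j : ℕ) : d3P K ^ j = X ^ j * d3R (j : K) := by
  unfold d3P
  rw [mul_pow, d3R_nat]

theorem d3_Mat3_zero (x : K) (i j : ℕ) :
    Mat3 0 x i j = PowerSeries.coeff (3 * i)
      ((1 + C (3 : K) * X) ^ 2 * d3R ((i : K) - 1 - x / 3) * d3P K ^ j) := by
  have h1 : (1 + C (3 : K) * X) ^ 2 * d3R ((i : K) - 1 - x / 3) * d3P K ^ j =
      X ^ j * ((1 + C (3 : K) * X) ^ (2 - 0) * (1 + C (9 : K) * X) ^ 0 *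
        ppow (Qser K) ((i : K) + j - 1 - (x - ((0 : ℕ) : K)) / 3)) := by
    have h2 : (i : K) + j - 1 - (x - ((0 : ℕ) : K)) / 3 = ((i : K) - 1 - x / 3) + j := by
      rw [Nat.cast_zero, sub_zero]
      ring
    rw [d3P_pow, h2]
    change _ = X ^ j * ((1 + C (3 : K) * X) ^ (2 - 0) * (1 + C (9 : K) * X) ^ 0 *
      d3R (((i : K) - 1 - x / 3) + j))
    rw [d3R_add]
    ring
  rw [h1, PowerSeries.coeff_X_pow_mul']
  rfl

theorem d3_Mat3 (a : ℕ) (x : K) (i j : ℕ) :
    Mat3 a x i j = PowerSeries.coeff (3 * i)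
      (X ^ j * ((1 + C (3 : K) * X) ^ (2 - a) * (1 + C (9 : K) * X) ^ a *
        d3R ((i : K) + j - 1 - (x - a) / 3))) := by
  rw [PowerSeries.coeff_X_pow_mul']
  rfl

theorem d3_ppow_cube {w : PowerSeries K} (hw : PowerSeries.constantCoeff w = 1) (a : ℕ) :
    ppow (w ^ 3) ((a : K) / 3) = w ^ a := by
  have h : (a : K) / 3 + (a : K) / 3 + (a : K) / 3 = a := by ring
  have hw2 : PowerSeries.constantCoeff (w * w) = 1 := by rw [map_mul, hw, one_mul]
  rw [pow_succ, pow_two, ub_ppow_mul hw2 hw, ub_ppow_mul hw hw, ← ub_ppow_add hw,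
    ← ub_ppow_add hw, h, ub_ppow_nat hw]

theorem d3_const_h (hh : HIds3 K) : PowerSeries.constantCoeff (hser3 K) = 0 := by
  rw [← PowerSeries.coeff_zero_eq_constantCoeff_apply]
  exact hh.c0

theorem d3_hs_h (hh : HIds3 K) : HasSubst (hser3 K) :=
  HasSubst.of_constantCoeff_zero' (d3_const_h hh)

theorem d3_hs_P : HasSubst (d3P K) := HasSubst.of_constantCoeff_zero' d3P_const

theorem d3_Q_subst (hh : HIds3 K) :
    ((Qser K).subst (hser3 K) : PowerSeries K) = 1 + 9 * hser3 K + 27 * hser3 K ^ 2 := by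
  have hs := d3_hs_h hh
  unfold Qser
  rw [subst_add hs, subst_add hs, subst_mul hs, subst_mul hs, subst_pow hs, subst_X hs,
    ub_subst_one hs, ub_subst_C hs, ub_subst_C hs, ub_C_num, ub_C_num]

theorem d3_f_subst (hh : HIds3 K) :
    ((d3P K).subst (hser3 K) : PowerSeries K) = hauptmodul 3 K := by
  have hs := d3_hs_h hh
  unfold d3P
  rw [subst_mul hs, subst_X hs, d3_Q_subst hh, hh.f1]

theorem d3_const_Qh (hh : HIds3 K) :
    PowerSeries.constantCoeff (1 + 9 * hser3 K + 27 * hser3 K ^ 2) = 1 := by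
  have h := d3_const_h hh
  simp [h]

theorem d3_const_b (hh : HIds3 K) : PowerSeries.constantCoeff (bser K ^ 3) = 1 := by
  rw [map_pow, hh.t0, one_pow]

theorem d3_R_subst (hh : HIds3 K) (s : K) :
    ((d3R s).subst (hser3 K) : PowerSeries K) =
      ppow (1 + 9 * hser3 K + 27 * hser3 K ^ 2) s := by
  have hs := d3_hs_h hh
  unfold d3R ppow
  rw [subst_comp_subst_apply (ub_hs d3_const_Q) hs]
  congr 1
  rw [subst_sub hs, d3_Q_subst hh, ub_subst_one hs]

theorem d3_b_expand (hh : HIds3 K) (x : K) :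
    bPow x = (bPow x).expand 3 three_ne_zero * (d3R (-(x / 3))).subst (hser3 K) := by
  have h1 : (bPow x).expand 3 three_ne_zero =
      bPow x * ppow (1 + 9 * hser3 K + 27 * hser3 K ^ 2) (x / 3) := by
    unfold bPow
    rw [d3_ppow_expand (d3_const_b hh), ← hh.t3,
      ub_ppow_mul (d3_const_b hh) (d3_const_Qh hh)]
  rw [h1, d3_R_subst hh, mul_assoc, ← ub_ppow_add (d3_const_Qh hh), add_neg_cancel,
    ub_ppow_zero (d3_const_Qh hh), mul_one]

/-! ### The theorems -/

theorem Mat3_of_lt (a : ℕ) (x : K) {i j : ℕ} (h : 3 * i < j) : Mat3 a x i j = 0 := by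
  unfold Mat3
  rw [if_neg (by omega)]

/-- Column version for a general function of `f`. -/
theorem U_bPow_subst (hh : HIds3 K) (x : K) (u : PowerSeries K) :
    U 3 (bPow x * u.subst (hauptmodul 3 K)) =
      bPow x * (PowerSeries.mk fun i ↦
        ∑ j ∈ Finset.range (3 * i + 1), Mat3 0 x i j * PowerSeries.coeff j u).subst
        (hauptmodul 3 K) := by
  have hs := d3_hs_h hh
  have h1 : (u.subst (hauptmodul 3 K) : PowerSeries K) =
      PowerSeries.subst (hser3 K) (u.subst (d3P K) : PowerSeries K) := by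
    rw [subst_comp_subst_apply d3_hs_P hs, d3_f_subst hh]
  have h2 : bPow x * (u.subst (hauptmodul 3 K) : PowerSeries K) =
      (bPow x).expand 3 three_ne_zero *
        PowerSeries.subst (hser3 K) (d3R (-(x / 3)) * (u.subst (d3P K) : PowerSeries K)) := by
    rw [subst_mul hs, ← mul_assoc, ← d3_b_expand hh, h1]
  rw [h2, d3_U_expand_mul, U_subst_hser3 hh]
  congr 2
  ext i
  rw [PowerSeries.coeff_mk, PowerSeries.coeff_mk]
  have h3 : (1 + C (3 : K) * X) ^ 2 * Qser K ^ i * (Qser K)⁻¹ *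
      (d3R (-(x / 3)) * (u.subst (d3P K) : PowerSeries K)) =
      ((1 + C (3 : K) * X) ^ 2 * d3R ((i : K) - 1 - x / 3)) * u.subst (d3P K) := by
    have h4 : (i : K) - 1 - x / 3 = (i : K) + (-1) + (-(x / 3)) := by ring
    rw [h4, d3R_add, d3R_add, d3R_nat, d3R_neg_one]
    ring
  rw [h3, ub_coeff_mul_subst d3P_const (N := 3 * i + 1)]
  · refine Finset.sum_congr rfl fun m _ => ?_
    rw [d3_Mat3_zero]
    ring
  · rw [d3P_pow]
    exact dvd_mul_right _ _

/-- The matrix of `U_3` in the basis `b^x f^j`. -/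
theorem U_bPow (hh : HIds3 K) (x : K) (j : ℕ) :
    U 3 (bPow x * hauptmodul 3 K ^ j) =
      bPow x * (PowerSeries.mk fun i ↦ Mat3 0 x i j).subst (hauptmodul 3 K) := by
  have hf : HasSubst (hauptmodul 3 K) := by
    refine HasSubst.of_constantCoeff_zero' ?_
    rw [hh.f1, map_mul, d3_const_h hh, zero_mul]
  have h := U_bPow_subst hh x (X ^ j)
  rw [subst_pow hf, subst_X hf] at h
  rw [h]
  congr 2
  ext i
  rw [PowerSeries.coeff_mk, PowerSeries.coeff_mk]
  by_cases hj : j ≤ 3 * i
  · rw [Finset.sum_eq_single j]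
    · rw [PowerSeries.coeff_X_pow, if_pos rfl, mul_one]
    · intro b _ hb
      rw [PowerSeries.coeff_X_pow, if_neg hb, mul_zero]
    · intro h
      exact absurd (Finset.mem_range.mpr (by omega)) h
  · rw [Mat3_of_lt 0 x (by omega)]
    refine Finset.sum_eq_zero fun b hb => ?_
    rw [Finset.mem_range] at hb
    rw [PowerSeries.coeff_X_pow, if_neg (by omega), mul_zero]

/-- Change of basis between the three matrices. -/
theorem Mat3_mul_v3 (a : ℕ) (ha : a ≤ 2) (x : K) (i j : ℕ) :
    ∑ k ∈ Finset.range (3 * i + 1), (if j ≤ k then Mat3 0 x i k * v3 a (k - j) else 0) =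
      ∑ k ∈ Finset.range (i + 1), v3 a (i - k) * Mat3 a x k j := by
  obtain ⟨V, hV⟩ : ∃ V : PowerSeries K, V = rescale (27 : K) (binS ((a : K) / 3)) := ⟨_, rfl⟩
  have hvv : ∀ n, (v3 a n : K) = PowerSeries.coeff n V := fun n => by rw [hV]; rfl
  -- the left side
  have hL : ∑ k ∈ Finset.range (3 * i + 1), (if j ≤ k then Mat3 0 x i k * v3 a (k - j) else 0) =
      PowerSeries.coeff (3 * i) (((1 + C (3 : K) * X) ^ 2 * d3R ((i : K) - 1 - x / 3)) *
        ((X ^ j * V).subst (d3P K) : PowerSeries K)) := by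
    rw [ub_coeff_mul_subst d3P_const (N := 3 * i + 1)
      (by rw [d3P_pow]; exact dvd_mul_right _ _)]
    refine Finset.sum_congr rfl fun m _ => ?_
    rw [← d3_Mat3_zero, PowerSeries.coeff_X_pow_mul', hvv]
    split_ifs
    · ring
    · ring
  have hVP : (V.subst (d3P K) : PowerSeries K) = (1 + C (9 : K) * X) ^ a := by
    rw [hV, ub_rescale_subst _ _ d3P_const]
    have h1 : 1 + C (27 : K) * d3P K = (1 + C (9 : K) * X) ^ 3 := by
      unfold d3P Qser
      rw [ub_C_num, ub_C_num]
      ring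
    rw [h1, d3_ppow_cube (by simp)]
  have hVP' : ((X ^ j * V).subst (d3P K) : PowerSeries K) =
      X ^ j * d3R (j : K) * (1 + C (9 : K) * X) ^ a := by
    rw [subst_mul d3_hs_P, subst_pow d3_hs_P, subst_X d3_hs_P, hVP, d3P_pow]
  -- the right side
  obtain ⟨Q, hQ⟩ : ∃ Q : PowerSeries K, Q = X ^ 3 * d3R (-1 : K) := ⟨_, rfl⟩
  have hQ0 : PowerSeries.constantCoeff Q = 0 := by
    rw [hQ, map_mul, map_pow, PowerSeries.constantCoeff_X]
    ring
  have hQm : ∀ m : ℕ, Q ^ m = X ^ (3 * m) * d3R (-(m : K)) := by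
    intro m
    induction m with
    | zero => rw [pow_zero, mul_zero, pow_zero, Nat.cast_zero, neg_zero, d3R_zero, mul_one]
    | succ m ih =>
      have h1 : -((m + 1 : ℕ) : K) = -(m : K) + (-1) := by
        push_cast
        ring
      rw [pow_succ, ih, h1, d3R_add, hQ]
      ring
  have hVQ : (V.subst Q : PowerSeries K) =
      (1 + C (3 : K) * X) ^ a * d3R (-((a : K) / 3)) := by
    rw [hV, ub_rescale_subst _ _ hQ0]
    have h2 : d3R (-1 : K) * Qser K = 1 := by
      rw [← d3R_one, ← d3R_add]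
      have : (-1 : K) + 1 = 0 := by ring
      rw [this, d3R_zero]
    have h3 : 1 + C (27 : K) * Q = (1 + C (3 : K) * X) ^ 3 * d3R (-1 : K) := by
      rw [hQ]
      have h4 : Qser K = 1 + 9 * X + 27 * X ^ 2 := by
        unfold Qser
        rw [ub_C_num, ub_C_num]
      rw [h4] at h2
      rw [ub_C_num, ub_C_num]
      linear_combination -h2
    have h5 : PowerSeries.constantCoeff ((1 + C (3 : K) * X) ^ 3) = 1 := by simp
    have h6 : ppow (d3R (-1 : K)) ((a : K) / 3) = d3R (-((a : K) / 3)) := by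
      have hc : PowerSeries.constantCoeff (d3R (-1 : K) * Qser K) = 1 := by
        rw [h2, map_one]
      have h7 := ub_ppow_mul (d3R_const (-1 : K)) (d3_const_Q (K := K)) ((a : K) / 3)
      have h8 : ppow (1 : PowerSeries K) ((a : K) / 3) = 1 := by
        unfold ppow
        have h9 : (1 : PowerSeries K) - 1 = 0 := sub_self _
        rw [h9]
        have hz : PowerSeries.constantCoeff (0 : PowerSeries K) = 0 := map_zero _
        ext n
        rw [PowerSeries.coeff_subst' (HasSubst.of_constantCoeff_zero' hz),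
          finsum_eq_single _ 0]
        · rw [pow_zero, PowerSeries.coeff_zero_eq_constantCoeff_apply, ub_const_binS, one_smul]
        · intro m hm
          rw [zero_pow hm, map_zero, smul_zero]
      rw [h2, h8] at h7
      have h11 : ppow (Qser K) ((a : K) / 3) * d3R (-((a : K) / 3)) = 1 := by
        change d3R ((a : K) / 3) * d3R (-((a : K) / 3)) = 1
        rw [← d3R_add, add_neg_cancel, d3R_zero]
      calc ppow (d3R (-1 : K)) ((a : K) / 3)
          = ppow (d3R (-1 : K)) ((a : K) / 3) *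
            (ppow (Qser K) ((a : K) / 3) * d3R (-((a : K) / 3))) := by rw [h11, mul_one]
        _ = (ppow (d3R (-1 : K)) ((a : K) / 3) * ppow (Qser K) ((a : K) / 3)) *
            d3R (-((a : K) / 3)) := by ring
        _ = _ := by rw [← h7, one_mul]
    rw [h3, ub_ppow_mul h5 (d3R_const _), d3_ppow_cube (by simp), h6]
  have hR : ∑ k ∈ Finset.range (i + 1), v3 a (i - k) * Mat3 a x k j =
      PowerSeries.coeff (3 * i) ((X ^ j * ((1 + C (3 : K) * X) ^ (2 - a) *
        (1 + C (9 : K) * X) ^ a * d3R ((i : K) + j - 1 - (x - a) / 3))) *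
        (V.subst Q : PowerSeries K)) := by
    rw [ub_coeff_mul_subst hQ0 (N := i + 1)]
    · rw [← Finset.sum_range_reflect]
      refine Finset.sum_congr rfl fun m hm => ?_
      rw [Finset.mem_range] at hm
      have h1 : i - (i + 1 - 1 - m) = m := by omega
      have h2 : i + 1 - 1 - m = i - m := by omega
      rw [h1, h2, hvv, d3_Mat3, hQm]
      have h3 : (X ^ j * ((1 + C (3 : K) * X) ^ (2 - a) * (1 + C (9 : K) * X) ^ a *
          d3R ((i : K) + j - 1 - (x - a) / 3))) *
          (X ^ (3 * m) * d3R (-(m : K))) = X ^ (3 * m) * (X ^ j *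
            ((1 + C (3 : K) * X) ^ (2 - a) * (1 + C (9 : K) * X) ^ a *
            d3R (((i - m : ℕ) : K) + j - 1 - (x - a) / 3))) := by
        have h4 : ((i - m : ℕ) : K) + j - 1 - (x - a) / 3 =
            ((i : K) + j - 1 - (x - a) / 3) + -(m : K) := by
          rw [Nat.cast_sub (by omega)]
          ring
        rw [h4, d3R_add]
        ring
      have h5 : 3 * i - 3 * m = 3 * (i - m) := by omega
      have h6 : ∀ Z : PowerSeries K, PowerSeries.coeff (3 * i) (X ^ (3 * m) * Z) =
          PowerSeries.coeff (3 * (i - m)) Z := by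
        intro Z
        rw [PowerSeries.coeff_X_pow_mul', if_pos (by omega), h5]
      rw [h3, h6]
    · rw [hQm]
      refine Dvd.dvd.mul_right ?_ _
      exact pow_dvd_pow _ (by omega)
  rw [hL, hR, hVP', hVQ]
  congr 1
  have h1 : (i : K) - 1 - x / 3 + j = ((i : K) + j - 1 - (x - a) / 3) + -((a : K) / 3) := by ring
  have h2 : d3R ((i : K) - 1 - x / 3) * d3R (j : K) =
      d3R ((i : K) + j - 1 - (x - a) / 3) * d3R (-((a : K) / 3)) := by
    rw [← d3R_add, ← d3R_add, h1]
  have h3 : (1 + C (3 : K) * X) ^ 2 = (1 + C (3 : K) * X) ^ (2 - a) * (1 + C (3 : K) * X) ^ a := by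
    rw [← pow_add]
    congr 1
    omega
  rw [h3]
  linear_combination (1 + C (3 : K) * X) ^ (2 - a) * (1 + C (3 : K) * X) ^ a * X ^ j *
    (1 + C (9 : K) * X) ^ a * h2

theorem Mat3_zero_zero (x : K) : Mat3 0 x 0 0 = 1 := by
  rw [d3_Mat3_zero, mul_zero, PowerSeries.coeff_zero_eq_constantCoeff_apply, pow_zero, mul_one,
    map_mul, d3R_const]
  simp

omit [CharZero K] in
theorem d3_const_bser : PowerSeries.constantCoeff (bser K) = 1 := by
  unfold bser
  have h1 : PowerSeries.constantCoeff (invOfUnit (euler K 3) 1) = 1 := by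
    rw [PowerSeries.constantCoeff_invOfUnit]
    simp
  rw [map_mul, map_pow, fx_constantCoeff_euler, h1]
  simp

theorem bPow_natCast (m : ℕ) : bPow ((3 * m : ℕ) : K) = bser K ^ (3 * m) := by
  have hb : PowerSeries.constantCoeff (bser K ^ 3) = 1 := by
    rw [map_pow, d3_const_bser, one_pow]
  have h : (((3 * m : ℕ) : K)) / 3 = (m : K) := by
    push_cast
    field_simp
  unfold bPow
  rw [h, ub_ppow_nat hb, ← pow_mul]

end D3

end GH
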