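import Pool.Agent.GH.D3.ZChar3_a

open PowerSeries Filter Topology

noncomputable section

namespace GH

namespace D3

/-! Even characters of `ℤ_3ˣ` and the evaluation map `ev3`. -/

theorem norm_iota3 (a : ℤ_[3]) : ‖iota3 a‖ = ‖a‖ := d3z_norm_iota a

theorem exists_ev3Hom {w : C3} (hw : ‖w‖ < 1) :
    ∃ φ : Lam3 →+* C3, ∀ F, φ F = ev3 w F := ⟨d3z_evHom hw, fun _ ↦ rfl⟩

theorem norm_ev3_le {w : C3} (hw : ‖w‖ < 1) (F : Lam3) : ‖ev3 w F‖ ≤ 1 := d3z_norm_ev_le hw F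

theorem ev3_X {w : C3} (hw : ‖w‖ < 1) : ev3 w X = w := by
  have _ := hw
  exact d3z_ev_X w

theorem ev3_C {w : C3} (hw : ‖w‖ < 1) (a : ℤ_[3]) : ev3 w (PowerSeries.C a) = iota3 a := by
  have _ := hw
  exact d3z_ev_C w a

/-- the unit `7^s` -/
def d3z_u (s : ℤ_[3]) : (ℤ_[3])ˣ :=
  ⟨d3z_E s, d3z_E (-s), d3z_E_mul_neg s, by rw [mul_comm]; exact d3z_E_mul_neg s⟩

theorem d3z_u_val (s : ℤ_[3]) : ((d3z_u s : (ℤ_[3])ˣ) : ℤ_[3]) = d3z_E s := rfl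

theorem d3z_u_add (s t : ℤ_[3]) : d3z_u (s + t) = d3z_u s * d3z_u t := by
  ext
  rw [Units.val_mul, d3z_u_val, d3z_u_val, d3z_u_val, AddChar.map_add_eq_mul]

theorem d3z_u_zero : d3z_u 0 = 1 := by
  ext
  rw [d3z_u_val, AddChar.map_zero_eq_one]
  rfl

theorem d3z_u_cont : Continuous d3z_u := by
  rw [Units.continuous_iff]
  exact ⟨d3z_E_cont, d3z_E_cont.comp continuous_neg⟩

theorem d3z_val (κ : Weight 3) {a : ℕ} (u : (ℤ_[3])ˣ) (h : (u : ℤ_[3]) = a) :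
    κ.val a = ((κ u : C3ˣ) : C3) := by
  have hu : IsUnit (a : ℤ_[3]) := h ▸ u.isUnit
  unfold Weight.val
  rw [dif_pos hu]
  have : hu.unit = u := Units.ext (by rw [IsUnit.unit_spec, h])
  rw [this]

/-- the additive character `s ↦ κ(7^s)` -/
def d3z_chi (κ : Weight 3) : AddChar ℤ_[3] C3 where
  toFun s := ((κ (d3z_u s) : C3ˣ) : C3)
  map_zero_eq_one' := by rw [d3z_u_zero, map_one, Units.val_one]
  map_add_eq_mul' s t := by rw [d3z_u_add, map_mul, Units.val_mul]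

theorem d3z_chi_apply (κ : Weight 3) (s : ℤ_[3]) :
    d3z_chi κ s = ((κ (d3z_u s) : C3ˣ) : C3) := rfl

theorem d3z_chi_cont (κ : Weight 3) : Continuous (d3z_chi κ) :=
  Units.continuous_val.comp (κ.continuous_toFun.comp d3z_u_cont)

theorem d3z_chi_one (κ : Weight 3) : d3z_chi κ 1 = 1 + κ.w := by
  have h : κ.val (1 + 2 * 3) = d3z_chi κ 1 := by
    refine d3z_val κ (d3z_u 1) ?_
    rw [d3z_u_val, d3z_E_one]
    norm_num
  unfold Weight.w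
  rw [h]
  ring

/-- the binomial series `(1 + W)^s` -/
def d3z_bs (s : ℤ_[3]) : Lam3 := PowerSeries.mk fun n ↦ Ring.choose s n

theorem d3z_bs_add (s t : ℤ_[3]) : d3z_bs (s + t) = d3z_bs s * d3z_bs t := by
  ext n
  rw [PowerSeries.coeff_mul]
  simp only [d3z_bs, PowerSeries.coeff_mk]
  exact Ring.add_choose_eq n (Commute.all s t)

theorem d3z_bs_zero : d3z_bs 0 = 1 := by
  ext n
  have h := Ring.choose_natCast (R := ℤ_[3]) 0 n
  rw [Nat.cast_zero] at h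
  simp only [d3z_bs, PowerSeries.coeff_mk, PowerSeries.coeff_one, h]
  rcases Nat.eq_zero_or_pos n with rfl | hn
  · simp
  · rw [Nat.choose_eq_zero_of_lt hn, if_neg hn.ne', Nat.cast_zero]

theorem d3z_bs_one : d3z_bs 1 = 1 + X := by
  ext n
  have h := Ring.choose_natCast (R := ℤ_[3]) 1 n
  rw [Nat.cast_one] at h
  rw [map_add, PowerSeries.coeff_one, PowerSeries.coeff_X]
  simp only [d3z_bs, PowerSeries.coeff_mk, h]
  rcases n with _ | _ | n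
  · simp
  · simp
  · rw [Nat.choose_eq_zero_of_lt (by omega)]
    simp

theorem d3z_key (κ : Weight 3) : ‖κ.w‖ < 1 ∧ ∀ s, d3z_chi κ s = ev3 κ.w (d3z_bs s) := by
  let A : Algebra ℤ_[3] C3 := iota3.toAlgebra
  have B : @IsBoundedSMul ℤ_[3] C3 _ _ _ _ A.toSMul := by
    refine @IsBoundedSMul.of_norm_smul_le ℤ_[3] C3 _ _ A.toModule ?_
    intro r x
    show ‖iota3 r * x‖ ≤ ‖r‖ * ‖x‖
    rw [norm_mul, d3z_norm_iota]
  have h1 := AddChar.tendsto_eval_one_sub_pow (d3z_chi_cont κ)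
  rw [d3z_chi_one, add_sub_cancel_left] at h1
  have hw : ‖κ.w‖ < 1 := tendsto_pow_atTop_nhds_zero_iff_norm_lt_one.1 h1
  refine ⟨hw, fun s ↦ ?_⟩
  have h2 := PadicInt.eq_addChar_of_value_at_one h1 (d3z_chi_cont κ) (d3z_chi_one κ)
  rw [h2]
  show PadicInt.mahlerSeries (κ.w ^ ·) s = _
  rw [PadicInt.mahlerSeries_apply h1]
  unfold ev3
  refine tsum_congr fun n ↦ ?_
  simp only [d3z_bs, PowerSeries.coeff_mk]
  rfl

theorem norm_w_lt_one3 (κ : Weight 3) (h : κ.IsEven) : ‖κ.w‖ < 1 := by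
  have _ := h
  exact (d3z_key κ).1

theorem d3z_iota_cont : Continuous iota3 :=
  (AddMonoidHomClass.isometry_of_norm iota3 d3z_norm_iota).continuous

/-- The powers `z ↦ z^k`. -/
theorem exists_powWeight3 (k : ℕ) : ∃ κ : Weight 3, ∀ u : (ℤ_[3])ˣ,
    ((κ u : C3ˣ) : C3) = iota3 (u : ℤ_[3]) ^ k := by
  refine ⟨⟨(powMonoidHom k).comp (Units.map (iota3 : ℤ_[3] →* C3)), ?_⟩, fun u ↦ ?_⟩
  · show Continuous fun u : (ℤ_[3])ˣ ↦ (Units.map (iota3 : ℤ_[3] →* C3) u) ^ k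
    exact (Continuous.units_map (iota3 : ℤ_[3] →* C3) d3z_iota_cont).pow k
  · show (((Units.map (iota3 : ℤ_[3] →* C3) u) ^ k : C3ˣ) : C3) = _
    rw [Units.val_pow_eq_pow_val]
    rfl

theorem val_of_dvd3 (κ : Weight 3) {a : ℕ} (h : 3 ∣ a) : κ.val a = 0 := by
  unfold Weight.val
  rw [dif_neg (d3z_not_isUnit h)]

/-- the exponent `ell(a)`, `a = ± 7^ell(a)` -/
def d3z_ell (a : ℕ) : ℤ_[3] := if h : ¬ 3 ∣ a then (d3z_exists h).choose else 0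

theorem d3z_ell_spec {a : ℕ} (h : ¬ 3 ∣ a) : d3z_E (d3z_ell a) = a ∨ d3z_E (d3z_ell a) = -a := by
  unfold d3z_ell
  rw [dif_pos h]
  exact (d3z_exists h).choose_spec

theorem d3z_uniq {s t x : ℤ_[3]} (hs : d3z_E s = x ∨ d3z_E s = -x)
    (ht : d3z_E t = x ∨ d3z_E t = -x) : s = t := by
  have h1 : d3z_E s = d3z_E t ∨ d3z_E s + d3z_E t = 0 := by
    rcases hs with hs | hs <;> rcases ht with ht | ht
    · left; rw [hs, ht]
    · right; rw [hs, ht]; ring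
    · right; rw [hs, ht]; ring
    · left; rw [hs, ht]
  rcases h1 with h1 | h1
  · have h2 := d3z_E_sub s t
    rw [h1, sub_self, norm_zero] at h2
    have h3 : ‖s - t‖ = 0 := by linarith
    exact sub_eq_zero.1 (norm_eq_zero.1 h3)
  · have h2 := d3z_E_add s t
    rw [h1, norm_zero] at h2
    norm_num at h2

theorem d3z_nd_mul {a b : ℕ} (ha : ¬ 3 ∣ a) (hb : ¬ 3 ∣ b) : ¬ 3 ∣ a * b := by
  intro h
  rcases (Nat.Prime.dvd_mul Nat.prime_three).1 h with h | h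
  · exact ha h
  · exact hb h

theorem d3z_ell_mul {a b : ℕ} (ha : ¬ 3 ∣ a) (hb : ¬ 3 ∣ b) :
    d3z_ell (a * b) = d3z_ell a + d3z_ell b := by
  refine d3z_uniq (x := ((a * b : ℕ) : ℤ_[3])) (d3z_ell_spec (d3z_nd_mul ha hb)) ?_
  rw [AddChar.map_add_eq_mul]
  push_cast
  rcases d3z_ell_spec ha with h1 | h1 <;> rcases d3z_ell_spec hb with h2 | h2 <;> rw [h1, h2]
  · left; rfl
  · right; ring
  · right; ring
  · left; ring

theorem d3z_ell_one : d3z_ell 1 = 0 := by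
  refine d3z_uniq (x := ((1 : ℕ) : ℤ_[3])) (d3z_ell_spec (by decide)) (Or.inl ?_)
  rw [AddChar.map_zero_eq_one, Nat.cast_one]

theorem d3z_ell_seven : d3z_ell 7 = 1 := by
  refine d3z_uniq (x := ((7 : ℕ) : ℤ_[3])) (d3z_ell_spec (by decide)) (Or.inl ?_)
  rw [d3z_E_one]
  norm_num

theorem d3z_ell_close {a b : ℕ} (ha : ¬ 3 ∣ a) (hb : ¬ 3 ∣ b) {N : ℕ} (hN : 1 ≤ N)
    (h : ‖(a : ℤ_[3]) - b‖ ≤ (1 / 3 : ℝ) ^ N ∨ ‖(a : ℤ_[3]) + b‖ ≤ (1 / 3 : ℝ) ^ N) :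
    ‖d3z_ell a - d3z_ell b‖ ≤ 3 * (1 / 3 : ℝ) ^ N := by
  have hN' : (1 / 3 : ℝ) ^ N ≤ 1 / 3 := by
    calc (1 / 3 : ℝ) ^ N ≤ (1 / 3) ^ 1 :=
          pow_le_pow_of_le_one (by norm_num) (by norm_num) hN
      _ = 1 / 3 := by norm_num
  have h1 : ‖d3z_E (d3z_ell a) - d3z_E (d3z_ell b)‖ ≤ (1 / 3 : ℝ) ^ N ∨
      ‖d3z_E (d3z_ell a) + d3z_E (d3z_ell b)‖ ≤ (1 / 3 : ℝ) ^ N := by
    rcases d3z_ell_spec ha with h1 | h1 <;> rcases d3z_ell_spec hb with h2 | h2 <;> rw [h1, h2]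
    · exact h
    · rw [sub_neg_eq_add, ← sub_eq_add_neg]
      exact h.symm
    · have e1 : (-(a : ℤ_[3]) - b) = -(a + b) := by ring
      have e2 : (-(a : ℤ_[3]) + b) = -(a - b) := by ring
      rw [e1, e2, norm_neg, norm_neg]
      exact h.symm
    · have e1 : (-(a : ℤ_[3]) - -b) = -(a - b) := by ring
      have e2 : (-(a : ℤ_[3]) + -b) = -(a + b) := by ring
      rw [e1, e2, norm_neg, norm_neg]
      exact h
  rcases h1 with h1 | h1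
  · rw [d3z_E_sub] at h1
    linarith
  · rw [d3z_E_add] at h1
    linarith

theorem d3z_choose_uc (n : ℕ) (m : ℕ) : ∃ δ > 0, ∀ s t : ℤ_[3], ‖s - t‖ < δ →
    ∀ j ≤ m, ‖Ring.choose s j - Ring.choose t j‖ ≤ (3 : ℝ)⁻¹ ^ n := by
  have one : ∀ j : ℕ, ∃ δ > 0, ∀ s t : ℤ_[3], ‖s - t‖ < δ →
      ‖Ring.choose s j - Ring.choose t j‖ ≤ (3 : ℝ)⁻¹ ^ n := by
    intro j
    have huc : UniformContinuous fun x : ℤ_[3] ↦ Ring.choose x j :=
      CompactSpace.uniformContinuous_of_continuous (PadicInt.continuous_choose j)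
    obtain ⟨δ, hδ, h⟩ := Metric.uniformContinuous_iff.1 huc ((3 : ℝ)⁻¹ ^ n) (by positivity)
    refine ⟨δ, hδ, fun s t hst ↦ ?_⟩
    have h1 := h (a := s) (b := t) (by rwa [dist_eq_norm])
    rw [dist_eq_norm] at h1
    exact h1.le
  induction m with
  | zero =>
    obtain ⟨δ, hδ, h⟩ := one 0
    refine ⟨δ, hδ, fun s t hst j hj ↦ ?_⟩
    rw [Nat.le_zero.1 hj]
    exact h s t hst
  | succ m ih =>
    obtain ⟨δ, hδ, h⟩ := ih
    obtain ⟨δ', hδ', h'⟩ := one (m + 1)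
    refine ⟨min δ δ', lt_min hδ hδ', fun s t hst j hj ↦ ?_⟩
    rcases Nat.lt_or_eq_of_le hj with hj | hj
    · exact h s t (hst.trans_le (min_le_left _ _)) j (Nat.lt_succ_iff.1 hj)
    · rw [hj]
      exact h' s t (hst.trans_le (min_le_right _ _))

theorem d3z_norm_of_dvd {z : ℤ} {N : ℕ} (h : (3 : ℤ) ^ N ∣ z) :
    ‖(z : ℤ_[3])‖ ≤ (1 / 3 : ℝ) ^ N := by
  have h1 := (PadicInt.norm_int_le_pow_iff_dvd (p := 3) (k := z) (n := N)).2 (by exact_mod_cast h)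
  rw [zpow_neg, zpow_natCast] at h1
  rw [one_div, inv_pow]
  exact_mod_cast h1

/-- The universal even character. -/
theorem exists_kap3 : ∃ kap : ℕ → Lam3,
    (∀ a, ¬ 3 ∣ a → ∀ κ : Weight 3, κ.IsEven → κ.val a = ev3 κ.w (kap a)) ∧
    (∀ a, 3 ∣ a → kap a = 0) ∧
    (∀ a, ¬ 3 ∣ a → PowerSeries.coeff 0 (kap a) = 1) ∧
    kap 7 = 1 + X ∧ kap 1 = 1 ∧
    (∀ a b, ¬ 3 ∣ a → ¬ 3 ∣ b → kap (a * b) = kap a * kap b) ∧
    (∀ (m n : ℕ), ∃ N : ℕ, ∀ a b : ℕ, ¬ 3 ∣ a → ¬ 3 ∣ b → a ≡ b [MOD 3 ^ N] →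
      ∀ j ≤ m, ‖PowerSeries.coeff j (kap a) - PowerSeries.coeff j (kap b)‖ ≤ (3 : ℝ)⁻¹ ^ n) ∧
    (∀ (m n : ℕ), ∃ N : ℕ, ∀ a b : ℕ, ¬ 3 ∣ a → ¬ 3 ∣ b → 3 ^ N ∣ a + b →
      ∀ j ≤ m, ‖PowerSeries.coeff j (kap a) - PowerSeries.coeff j (kap b)‖ ≤ (3 : ℝ)⁻¹ ^ n) := by
  have hN : ∀ m n : ℕ, ∃ N : ℕ, 1 ≤ N ∧ ∀ a b : ℕ, ¬ 3 ∣ a → ¬ 3 ∣ b →
      (‖(a : ℤ_[3]) - b‖ ≤ (1 / 3 : ℝ) ^ N ∨ ‖(a : ℤ_[3]) + b‖ ≤ (1 / 3 : ℝ) ^ N) →
      ∀ j ≤ m, ‖Ring.choose (d3z_ell a) j - Ring.choose (d3z_ell b) j‖ ≤ (3 : ℝ)⁻¹ ^ n := by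
    intro m n
    obtain ⟨δ, hδ, h⟩ := d3z_choose_uc n m
    obtain ⟨K, hK⟩ := exists_pow_lt_of_lt_one (show (0 : ℝ) < δ / 3 by positivity)
      (show (1 / 3 : ℝ) < 1 by norm_num)
    refine ⟨K + 1, by omega, fun a b ha hb hab j hj ↦ h _ _ ?_ j hj⟩
    refine (d3z_ell_close ha hb (by omega) hab).trans_lt ?_
    have : (1 / 3 : ℝ) ^ (K + 1) ≤ (1 / 3) ^ K :=
      pow_le_pow_of_le_one (by norm_num) (by norm_num) (by omega)
    linarith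
  refine ⟨fun a ↦ if 3 ∣ a then 0 else d3z_bs (d3z_ell a), ?_, ?_, ?_, ?_, ?_, ?_, ?_, ?_⟩
  · intro a ha κ hκ
    simp only [if_neg ha]
    rw [← (d3z_key κ).2, d3z_chi_apply]
    rcases d3z_ell_spec ha with h | h
    · exact d3z_val κ (d3z_u (d3z_ell a)) h
    · rw [d3z_val κ (-1 * d3z_u (d3z_ell a)) (by
        rw [Units.val_mul, d3z_u_val, h]
        simp), map_mul]
      have h1 : κ (-1) = 1 := hκ
      rw [h1, one_mul]
  · intro a ha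
    simp only [if_pos ha]
  · intro a ha
    simp only [if_neg ha, d3z_bs, PowerSeries.coeff_mk, Ring.choose_zero_right]
  · have h7 : ¬ 3 ∣ 7 := by decide
    simp only [if_neg h7, d3z_ell_seven, d3z_bs_one]
  · have h1 : ¬ 3 ∣ 1 := by decide
    simp only [if_neg h1, d3z_ell_one, d3z_bs_zero]
  · intro a b ha hb
    simp only [if_neg ha, if_neg hb, if_neg (d3z_nd_mul ha hb), d3z_ell_mul ha hb, d3z_bs_add]
  · intro m n
    obtain ⟨N, _, h⟩ := hN m n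
    refine ⟨N, fun a b ha hb hab j hj ↦ ?_⟩
    simp only [if_neg ha, if_neg hb, d3z_bs, PowerSeries.coeff_mk]
    refine h a b ha hb (Or.inl ?_) j hj
    have h1 : ((3 : ℕ) ^ N : ℤ) ∣ (a : ℤ) - b := by
      have := (Nat.modEq_iff_dvd.1 hab.symm)
      exact_mod_cast this
    have h2 := d3z_norm_of_dvd (z := (a : ℤ) - b) (N := N) (by exact_mod_cast h1)
    push_cast at h2
    exact h2
  · intro m n
    obtain ⟨N, _, h⟩ := hN m n
    refine ⟨N, fun a b ha hb hab j hj ↦ ?_⟩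
    simp only [if_neg ha, if_neg hb, d3z_bs, PowerSeries.coeff_mk]
    refine h a b ha hb (Or.inr ?_) j hj
    have h2 := d3z_norm_of_dvd (z := (a : ℤ) + b) (N := N) (by exact_mod_cast hab)
    push_cast at h2
    exact h2

end D3

end GH
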