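import Pool.Agent.GH.D3.Glue3
import Pool.Agent.GH.D3.UMat3B
import Pool.Agent.GH.D3.Fam3_a
import Pool.Agent.GH.D3.UBound3
import Pool.Agent.GH.D3.ZChar3
import Pool.Agent.GH.D3.QHaupt3
import Pool.Agent.GH.D3.QJac
import Pool.Agent.GH.D3.Param3

open PowerSeries Filter Topology

noncomputable section

namespace GH

namespace D3

/-! The matrix of `U_3` in the basis `E_κ f^j` in the family. -/

/-- `Φ_l`: the coefficients of `E(q)/E(q³)` in powers of `f`. -/
def Phi3 (E : PowerSeries Lam3) (l : ℕ) : Lam3 :=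
  fcoeff 3 (E * invOfUnit (E.expand 3 three_ne_zero) 1) l

/-- The family matrix. -/
def famMatrix3 (E : PowerSeries Lam3) (i j : ℕ) : Lam3 :=
  fcoeff 3 (invOfUnit E 1 * U 3 (E * hauptmodul 3 Lam3 ^ j)) i

/-! ### helper lemmas (prefix `fa_`) -/

lemma d3fa_map_U {R S : Type*} [CommRing R] [CommRing S] (φ : R →+* S) (F : PowerSeries R) :
    PowerSeries.map φ (U 3 F) = U 3 (PowerSeries.map φ F) := by
  ext n
  simp [U]

lemma d3fa_mul_invOfUnit {R : Type*} [CommRing R] {F : PowerSeries R}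
    (h : PowerSeries.constantCoeff F = 1) : F * invOfUnit F 1 = 1 :=
  PowerSeries.mul_invOfUnit _ _ (by rw [h]; rfl)

lemma d3fa_map_invOfUnit {R : Type*} [CommRing R] (φ : R →+* C3) {F : PowerSeries R}
    (h : PowerSeries.constantCoeff F = 1) :
    PowerSeries.map φ (invOfUnit F 1) = (PowerSeries.map φ F)⁻¹ := by
  rw [PowerSeries.eq_inv_iff_mul_eq_one, ← map_mul, mul_comm, d3fa_mul_invOfUnit h, map_one]
  rw [← PowerSeries.coeff_zero_eq_constantCoeff_apply, PowerSeries.coeff_map,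
    PowerSeries.coeff_zero_eq_constantCoeff_apply, h, map_one]
  exact one_ne_zero

lemma d3fa_evS {w : C3} (φ : Lam3 →+* C3) (hφ : ∀ F, φ F = ev3 w F) (F : PowerSeries Lam3) :
    evS3 w F = PowerSeries.map φ F := by
  ext n
  rw [PowerSeries.coeff_map, hφ]
  unfold evS3
  rw [PowerSeries.coeff_mk]

lemma d3fa_cE {E : PowerSeries Lam3} (hE : EisFamily3 E) : PowerSeries.constantCoeff E = 1 := by
  rw [← PowerSeries.coeff_zero_eq_constantCoeff_apply, hE.c0]

lemma d3fa_c_map {R : Type*} [CommRing R] (φ : R →+* C3) {F : PowerSeries R}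
    (h : PowerSeries.constantCoeff F = 1) : PowerSeries.constantCoeff (PowerSeries.map φ F) = 1 := by
  rw [← PowerSeries.coeff_zero_eq_constantCoeff_apply, PowerSeries.coeff_map,
    PowerSeries.coeff_zero_eq_constantCoeff_apply, h, map_one]

/-- the matrix after evaluation -/
lemma d3fa_ev_fam {E : PowerSeries Lam3} (hE : EisFamily3 E) {w : C3} (hw : ‖w‖ < 1) (i j : ℕ) :
    ev3 w (famMatrix3 E i j) =
      fcoeff 3 ((evS3 w E)⁻¹ * U 3 (evS3 w E * hauptmodul 3 C3 ^ j)) i := by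
  obtain ⟨φ, hφ⟩ := exists_ev3Hom hw
  rw [← hφ, famMatrix3, ← fcoeff_map 3 φ, map_mul, d3fa_map_invOfUnit φ (d3fa_cE hE), d3fa_map_U, map_mul,
    map_pow, map_hauptmodul, d3fa_evS φ hφ]

lemma d3fa_ev_Phi {E : PowerSeries Lam3} (hE : EisFamily3 E) {w : C3} (hw : ‖w‖ < 1) (l : ℕ) :
    ev3 w (Phi3 E l) = fcoeff 3 (evS3 w E * ((evS3 w E).expand 3 three_ne_zero)⁻¹) l := by
  obtain ⟨φ, hφ⟩ := exists_ev3Hom hw
  rw [← hφ, Phi3, ← fcoeff_map 3 φ, map_mul, d3fa_map_invOfUnit φ, PowerSeries.map_expand,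
    d3fa_evS φ hφ]
  rw [PowerSeries.constantCoeff_expand, d3fa_cE hE]

lemma d3fa_hIds : HIds3 C3 where
  c0 := coeff_zero_hser3 C3
  c1 := coeff_one_hser3 C3
  t0 := constantCoeff_bser C3
  f1 := hauptmodul3_eq euler_cube
  f2 := expand_hauptmodul3 euler_cube
  h1 := exists_hser3_inv euler_cube
  t3 := bser_cube euler_cube

lemma d3fa_b3 : PowerSeries.constantCoeff (bser C3 ^ 3) = 1 := by
  rw [map_pow, constantCoeff_bser, one_pow]

lemma d3fa_bPow_c (x : C3) : PowerSeries.constantCoeff (bPow x) = 1 :=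
  fa_constantCoeff_ppow d3fa_b3 _

lemma d3fa_haupt_c : PowerSeries.constantCoeff (hauptmodul 3 C3) = 0 := by
  rw [← PowerSeries.coeff_zero_eq_constantCoeff_apply, coeff_zero_hauptmodul]

theorem uMatrix3_eq (E : PowerSeries Lam3) (hE : EisFamily3 E) (κ : Weight 3) (hκ : κ.IsEven)
    (i j : ℕ) : κ.uMatrix i j = ev3 κ.w (famMatrix3 E i j) := by
  rw [d3fa_ev_fam hE (norm_w_lt_one3 κ hκ), Weight.uMatrix, hE.eis κ hκ]

lemma d3fa_fcoeff_zero {R : Type*} [CommRing R] (F : PowerSeries R) {i : ℕ}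
    (h : ∀ n ≤ i, PowerSeries.coeff n F = 0) : ∀ n ≤ i, fcoeff 3 F n = 0 := by
  intro n
  induction n using Nat.strong_induction_on with
  | _ n ih =>
    intro hn
    rw [fx_fcoeff, h n hn, Finset.sum_eq_zero, sub_zero]
    intro m hm
    rw [Finset.mem_range] at hm
    rw [ih m hm (by omega), zero_mul]

theorem famMatrix3_of_lt (E : PowerSeries Lam3) (hE : EisFamily3 E) {i j : ℕ} (h : 3 * i < j) :
    famMatrix3 E i j = 0 := by
  unfold famMatrix3
  refine d3fa_fcoeff_zero _ (i := i) (fun n hn => ?_) i le_rfl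
  rw [PowerSeries.coeff_mul]
  refine Finset.sum_eq_zero fun ab hab => ?_
  rw [Finset.HasAntidiagonal.mem_antidiagonal] at hab
  have h1 : PowerSeries.coeff ab.2 (U 3 (E * hauptmodul 3 Lam3 ^ j)) = 0 := by
    unfold U
    rw [PowerSeries.coeff_mk, PowerSeries.coeff_mul]
    refine Finset.sum_eq_zero fun cd hcd => ?_
    rw [Finset.HasAntidiagonal.mem_antidiagonal] at hcd
    rw [fx_coeff_pow_lt 3 (by omega), mul_zero]
  rw [h1, mul_zero]

/-- the product of a series in `f` and `f^j` -/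
lemma d3fa_subst_mul_pow (u : PowerSeries C3) (j : ℕ) :
    u.subst (hauptmodul 3 C3) * hauptmodul 3 C3 ^ j =
      (u * X ^ j).subst (hauptmodul 3 C3) := by
  rw [PowerSeries.subst_mul (fx_hasSubst 3), ← coe_substAlgHom (fx_hasSubst (R := C3) 3), map_pow,
    substAlgHom_X]

lemma d3fa_coeff_mul_X_pow (u : PowerSeries C3) (j k : ℕ) :
    PowerSeries.coeff k (u * X ^ j) = if j ≤ k then PowerSeries.coeff (k - j) u else 0 :=
  PowerSeries.coeff_mul_X_pow' _ _ _

theorem ev3_famMatrix (E : PowerSeries Lam3) (hE : EisFamily3 E) {w : C3} (hw : ‖w‖ < 1)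
    (i j : ℕ) : ev3 w (famMatrix3 E i j) =
      ∑ k ∈ Finset.range (3 * i + 1), if j ≤ k then Mat3 0 0 i k * ev3 w (Phi3 E (k - j)) else 0 := by
  obtain ⟨φ, hφ⟩ := exists_ev3Hom hw
  have hc : PowerSeries.constantCoeff (evS3 w E) = 1 := by
    rw [d3fa_evS φ hφ]
    exact d3fa_c_map φ (d3fa_cE hE)
  set E' := evS3 w E with hE'
  have hc2 : PowerSeries.constantCoeff (E'.expand 3 three_ne_zero) ≠ 0 := by
    rw [PowerSeries.constantCoeff_expand, hc]
    exact one_ne_zero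
  have hc1 : PowerSeries.constantCoeff E' ≠ 0 := by
    rw [hc]
    exact one_ne_zero
  set Φ : PowerSeries C3 := PowerSeries.mk (fcoeff 3 (E' * (E'.expand 3 three_ne_zero)⁻¹)) with hΦ
  have h1 : Φ.subst (hauptmodul 3 C3) = E' * (E'.expand 3 three_ne_zero)⁻¹ := subst_fcoeff 3 _
  have h2 : E' * hauptmodul 3 C3 ^ j =
      E'.expand 3 three_ne_zero * (Φ * X ^ j).subst (hauptmodul 3 C3) := by
    rw [← d3fa_subst_mul_pow, h1]
    calc E' * hauptmodul 3 C3 ^ j = E' * hauptmodul 3 C3 ^ j *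
          (E'.expand 3 three_ne_zero * (E'.expand 3 three_ne_zero)⁻¹) := by
          rw [PowerSeries.mul_inv_cancel _ hc2, mul_one]
      _ = _ := by ring
  have h3 : U 3 ((Φ * X ^ j).subst (hauptmodul 3 C3)) = (PowerSeries.mk fun i ↦
        ∑ k ∈ Finset.range (3 * i + 1), Mat3 0 0 i k * PowerSeries.coeff k (Φ * X ^ j)).subst
        (hauptmodul 3 C3) := by
    have h4 := U_bPow_subst d3fa_hIds (0 : C3) (Φ * X ^ j)
    have h5 : bPow (0 : C3) = 1 := by
      unfold bPow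
      rw [zero_div]
      exact fa_ppow_zero d3fa_b3
    rwa [h5, one_mul, one_mul] at h4
  rw [d3fa_ev_fam hE hw, ← hE', h2, U_expand_mul3, ← mul_assoc, PowerSeries.inv_mul_cancel _ hc1,
    one_mul, h3, fcoeff_subst]
  show PowerSeries.coeff i (PowerSeries.mk _) = _
  rw [PowerSeries.coeff_mk]
  refine Finset.sum_congr rfl fun k _ => ?_
  rw [d3fa_coeff_mul_X_pow]
  split_ifs with hjk
  · rw [d3fa_ev_Phi hE hw, hΦ, PowerSeries.coeff_mk]
  · rw [mul_zero]

/-! ### the central disc -/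

lemma d3fa_norm9 : ‖(9 : C3)‖ = 1 / 9 := by
  have h : (9 : C3) = 3 ^ 2 := by norm_num
  rw [h, norm_pow, norm_three_C3]
  norm_num

lemma d3fa_norm27 : ‖(27 : C3)‖ = 1 / 27 := by
  have h : (27 : C3) = 3 ^ 3 := by norm_num
  rw [h, norm_pow, norm_three_C3]
  norm_num

lemma d3fa_norm_natCast (n : ℕ) : ‖(n : C3)‖ = ‖(n : ℚ_[3])‖ := by
  rw [← map_natCast (algebraMap ℚ_[3] C3) n]
  exact norm_algebraMap' C3 (n : ℚ_[3])

lemma d3fa_norm_fact (m : ℕ) : ‖(m.factorial : C3)‖⁻¹ ≤ 2 ^ m := by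
  have h0 : (m.factorial : ℚ_[3]) ≠ 0 := by
    exact_mod_cast m.factorial_ne_zero
  rw [d3fa_norm_natCast, Padic.norm_eq_zpow_neg_valuation h0, Padic.valuation_natCast, zpow_neg,
    inv_inv, zpow_natCast]
  have h1 : 2 * padicValNat 3 m.factorial ≤ m := by
    have h2 := sub_one_mul_padicValNat_factorial (p := 3) m
    omega
  have h3 : ((3 : ℝ) ^ padicValNat 3 m.factorial) ^ 2 ≤ (2 ^ m) ^ 2 := by
    calc ((3 : ℝ) ^ padicValNat 3 m.factorial) ^ 2 = 3 ^ (2 * padicValNat 3 m.factorial) := by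
          rw [← pow_mul, mul_comm]
      _ ≤ 3 ^ m := pow_le_pow_right₀ (by norm_num) h1
      _ ≤ 4 ^ m := pow_le_pow_left₀ (by norm_num) (by norm_num) m
      _ = (2 ^ m) ^ 2 := by
          rw [← pow_mul, mul_comm, pow_mul]
          norm_num
  exact_mod_cast (pow_le_pow_iff_left₀ (by positivity) (by positivity) two_ne_zero).1 h3

lemma d3fa_norm_binS {s : C3} (hs : ‖s‖ ≤ 3) (m : ℕ) :
    ‖PowerSeries.coeff m (binS s)‖ * (7 / 54 : ℝ) ^ m ≤ 1 := by
  have h1 : ‖∏ i ∈ Finset.range m, (s - i)‖ ≤ 3 ^ m := by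
    rw [norm_prod]
    calc ∏ i ∈ Finset.range m, ‖s - i‖ ≤ ∏ _i ∈ Finset.range m, (3 : ℝ) := by
          refine Finset.prod_le_prod (fun i _ => norm_nonneg _) fun i _ => ?_
          rw [sub_eq_add_neg]
          refine (IsUltrametricDist.norm_add_le_max _ _).trans (max_le hs ?_)
          rw [norm_neg]
          exact (IsUltrametricDist.norm_natCast_le_one C3 i).trans (by norm_num)
      _ = 3 ^ m := by rw [Finset.prod_const, Finset.card_range]
  have h2 := d3fa_norm_fact m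
  unfold binS
  rw [PowerSeries.coeff_mk, norm_div, div_eq_mul_inv]
  calc ‖∏ i ∈ Finset.range m, (s - i)‖ * ‖(m.factorial : C3)‖⁻¹ * (7 / 54 : ℝ) ^ m
      ≤ 3 ^ m * 2 ^ m * (7 / 54 : ℝ) ^ m := by gcongr
    _ = (7 / 9 : ℝ) ^ m := by
        rw [← mul_pow, ← mul_pow]
        norm_num
    _ ≤ 1 := pow_le_one₀ (by norm_num) (by norm_num)

/-- On the central disc the coefficients of `E(q)/E(q³)` decay with radius `7/6`. -/
theorem norm_Phi3_central (E : PowerSeries Lam3) (hE : EisFamily3 E) (u : ℕ → C3 → C3)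
    (hu : OrdVec3 u) {w : C3} (hw : ‖w‖ ≤ 1 / 3) (l : ℕ) :
    ‖ev3 w (Phi3 E l)‖ * (7 / 6 : ℝ) ^ l ≤ 1 := by
  obtain ⟨x, hx, rfl⟩ := exists_wx3_eq hw
  have hw1 : ‖wx3 x‖ < 1 := lt_of_le_of_lt hw (by norm_num)
  obtain ⟨g, hg0, -, hg, hh⟩ := exists_hser3_eq_subst (R := C3) (hauptmodul3_eq euler_cube)
  set f := hauptmodul 3 C3 with hf
  have hfs : HasSubst f := fx_hasSubst 3
  set G := PowerSeries.map (Int.castRingHom C3) g with hG
  have hG0 : PowerSeries.constantCoeff G = 0 := by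
    rw [← PowerSeries.coeff_zero_eq_constantCoeff_apply, hG, PowerSeries.coeff_map, hg0, map_zero]
  have hC9 : (C (9 : C3) : PowerSeries C3) = 9 := map_ofNat _ _
  have hC27 : (C (27 : C3) : PowerSeries C3) = 27 := map_ofNat _ _
  have hGX : G * (1 + C (9 : C3) * G + C (27 : C3) * G ^ 2) = X := by
    have h2 := congrArg (PowerSeries.map (Int.castRingHom C3)) hg
    rw [map_mul, map_add, map_add, map_mul, map_mul, map_pow, map_one, map_ofNat, map_ofNat,
      PowerSeries.map_X] at h2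
    rw [hC9, hC27]
    exact h2
  have nG : NBF3 G (7 / 6) := d3fa_nb_g hG0 hGX d3fa_norm9.le d3fa_norm27.le
  -- `W = 9 h + 27 h²`
  set W : PowerSeries C3 := C (9 : C3) * G + C (27 : C3) * G ^ 2 with hW
  have nW : NBF3 W (7 / 54) := by
    refine NBF3.add ((nG.smul 9).mono ?_) (((nG.pow (by norm_num) 2).smul 27).mono ?_)
    · rw [d3fa_norm9]
      norm_num
    · rw [d3fa_norm27]
      norm_num
  have hW0 : PowerSeries.constantCoeff W = 0 := by
    rw [hW, map_add, map_mul, map_mul, map_pow, hG0]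
    simp
  -- `A = 1 + 9 h + 27 h²`
  set A : PowerSeries C3 := 1 + W with hA
  have hA0 : PowerSeries.constantCoeff A = 1 := by rw [hA, map_add, map_one, hW0, add_zero]
  have nA : NBF3 A 1 := NBF3.one.add (nW.mono (by norm_num))
  have hWf : W.subst f = 9 * hser3 C3 + 27 * hser3 C3 ^ 2 := by
    rw [hW, hC9, hC27, ← coe_substAlgHom hfs, map_add, map_mul, map_mul, map_pow, map_ofNat,
      map_ofNat, coe_substAlgHom, ← hh]
  have hAf : A.subst f = 1 + 9 * hser3 C3 + 27 * hser3 C3 ^ 2 := by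
    have h1 : A.subst f = 1 + W.subst f := by
      rw [hA, ← coe_substAlgHom hfs, map_add, map_one, coe_substAlgHom]
    rw [h1, hWf, add_assoc]
  have hAi : A * A⁻¹ = 1 := PowerSeries.mul_inv_cancel _ (by rw [hA0]; exact one_ne_zero)
  have nAi : NBF3 A⁻¹ 1 := NBF3.inv hA0 nA hAi
  -- `k(f) = f(q³)`
  set k : PowerSeries C3 := G ^ 3 * A⁻¹ with hk
  have nk : NBF3 k (5 / 3) :=
    ((nG.pow (by norm_num) 3).mul nAi (by norm_num) zero_le_one).mono (by norm_num)
  have hk0 : PowerSeries.constantCoeff k = 0 := by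
    rw [hk, map_mul, map_pow, hG0]
    simp
  have hkf : k.subst f = f.expand 3 three_ne_zero := by
    have h1 : k.subst f * A.subst f = hser3 C3 ^ 3 := by
      rw [← PowerSeries.subst_mul hfs, hk, mul_assoc, mul_comm A⁻¹ A, hAi, mul_one, hh,
        ← coe_substAlgHom hfs, map_pow]
    have h2 : f.expand 3 three_ne_zero * A.subst f = hser3 C3 ^ 3 := by
      rw [hAf]
      exact expand_hauptmodul3 euler_cube
    have h3 : A.subst f ≠ 0 := by
      intro h
      have h4 := congrArg (PowerSeries.coeff 0) h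
      rw [fx_coeff_subst] at h4
      simp [hA0] at h4
    exact mul_right_cancel₀ h3 (h1.trans h2.symm)
  -- `B(f) = (1 + 9 h + 27 h²)^{x/3}`
  set B : PowerSeries C3 := (binS (x / 3)).subst W with hB
  have hs2 : ‖x / 3‖ ≤ 3 := by
    rw [norm_div, norm_three_C3, div_inv_eq_mul]
    linarith
  have nB : NBF3 B 1 := NBF3.subst hW0 nW (by norm_num) (d3fa_norm_binS hs2)
  have hB0 : PowerSeries.constantCoeff B = 1 := by
    rw [← PowerSeries.coeff_zero_eq_constantCoeff_apply, hB, fa_coeff_subst hW0]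
    simp [binS]
  have hBf : PowerSeries.subst f B =
      ppow (1 + 9 * hser3 C3 + 27 * hser3 C3 ^ 2) (x / 3) := by
    unfold ppow
    rw [hB, subst_comp_subst_apply (HasSubst.of_constantCoeff_zero' hW0) hfs]
    congr 1
    rw [hWf, add_assoc, add_sub_cancel_left]
  -- `V(f) = u(f(q³))`
  set uS : PowerSeries C3 := PowerSeries.mk fun n ↦ u n x with huS
  obtain ⟨hu0, hub, -⟩ := hu.eqs x hx
  set V : PowerSeries C3 := uS.subst k with hV
  have nV : NBF3 V 1 := by
    refine NBF3.subst hk0 nk (by norm_num) fun m => ?_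
    rw [huS, PowerSeries.coeff_mk]
    exact hub m
  have hV0 : PowerSeries.constantCoeff V = 1 := by
    rw [← PowerSeries.coeff_zero_eq_constantCoeff_apply, hV, fa_coeff_subst hk0]
    simp [huS, hu0]
  have hVf : PowerSeries.subst f V = PowerSeries.expand 3 three_ne_zero (uS.subst f) := by
    rw [hV, subst_comp_subst_apply (HasSubst.of_constantCoeff_zero' hk0) hfs, hkf,
      d3fa_expand_subst d3fa_haupt_c]
  have nu : NBF3 uS 1 := by
    intro n
    rw [huS, PowerSeries.coeff_mk]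
    exact (mul_le_mul_of_nonneg_left (pow_le_pow_left₀ (by norm_num) (by norm_num) n)
      (norm_nonneg _)).trans (hub n)
  -- the product
  have hBV0 : PowerSeries.constantCoeff (B * V) = 1 := by rw [map_mul, hB0, hV0, one_mul]
  have hBVi : B * V * (B * V)⁻¹ = 1 :=
    PowerSeries.mul_inv_cancel _ (by rw [hBV0]; exact one_ne_zero)
  have nBV : NBF3 (B * V) 1 := (nB.mul nV zero_le_one zero_le_one).mono (by norm_num)
  have nBVi : NBF3 (B * V)⁻¹ 1 := NBF3.inv hBV0 nBV hBVi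
  have nΦ : NBF3 (uS * (B * V)⁻¹) 1 := (nu.mul nBVi zero_le_one zero_le_one).mono (by norm_num)
  have hE1 : evS3 (wx3 x) E = bPow x * uS.subst f := evS3_eisFam E hE u hu x hx
  have h16h : PowerSeries.constantCoeff (1 + 9 * hser3 C3 + 27 * hser3 C3 ^ 2) = 1 := by
    have h1 : PowerSeries.constantCoeff (hser3 C3) = 0 := by
      rw [← PowerSeries.coeff_zero_eq_constantCoeff_apply, coeff_zero_hser3]
    rw [map_add, map_add, map_mul, map_mul, map_pow, h1, map_one]
    simp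
  have hE2 : (evS3 (wx3 x) E).expand 3 three_ne_zero = bPow x * (B * V).subst f := by
    rw [hE1, map_mul]
    have h1 : (bPow x).expand 3 three_ne_zero = bPow x * PowerSeries.subst f B := by
      unfold bPow
      rw [d3fa_expand_ppow d3fa_b3, ← bser_cube euler_cube, fa_ppow_mul d3fa_b3 h16h, hBf]
    rw [h1, PowerSeries.subst_mul hfs, hVf, mul_assoc]
  have hcE : PowerSeries.constantCoeff ((evS3 (wx3 x) E).expand 3 three_ne_zero) ≠ 0 := by
    obtain ⟨φ, hφ⟩ := exists_ev3Hom hw1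
    rw [PowerSeries.constantCoeff_expand, d3fa_evS φ hφ, d3fa_c_map φ (d3fa_cE hE)]
    exact one_ne_zero
  have hΦ : evS3 (wx3 x) E * ((evS3 (wx3 x) E).expand 3 three_ne_zero)⁻¹ =
      (uS * (B * V)⁻¹).subst f := by
    symm
    rw [PowerSeries.eq_mul_inv_iff_mul_eq hcE, hE2, hE1, PowerSeries.subst_mul hfs]
    have h1 : ((B * V)⁻¹).subst f * (B * V).subst f = 1 := by
      rw [← PowerSeries.subst_mul hfs, mul_comm (B * V)⁻¹, hBVi, ← coe_substAlgHom hfs, map_one]
    calc uS.subst f * ((B * V)⁻¹).subst f * (bPow x * (B * V).subst f)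
        = bPow x * uS.subst f * (((B * V)⁻¹).subst f * (B * V).subst f) := by ring
      _ = bPow x * uS.subst f := by rw [h1, mul_one]
  rw [d3fa_ev_Phi hE hw1, hΦ, fcoeff_subst]
  exact nΦ l

/-- Decay for all weights. -/
theorem norm_famMatrix3_le (E : PowerSeries Lam3) (hE : EisFamily3 E)
    (hc : ∀ w : C3, ‖w‖ ≤ 1 / 3 → ∀ l, ‖ev3 w (Phi3 E l)‖ * (7 / 6 : ℝ) ^ l ≤ 1)
    (hG : ∀ (F : Lam3) (B : ℝ), (∀ w : C3, ‖w‖ ≤ 1 / 3 → ‖ev3 w F‖ ≤ B) →
      ∀ m : ℕ, ‖PowerSeries.coeff m F‖ ≤ 3 ^ m * B) (ρ : ℝ) (hρ : ρ < 1) :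
    ∃ R : ℝ, 1 < R ∧ ∃ c : ℝ, 0 < c ∧ ∀ w : C3, ‖w‖ ≤ ρ → ∀ i j : ℕ, j ≤ 3 * i →
      ‖ev3 w (famMatrix3 E i j)‖ ≤ c * R⁻¹ ^ (3 * i - j) := by
  have hρ0 : max ρ 0 < 1 := max_lt hρ zero_lt_one
  obtain ⟨N, hN⟩ := exists_pow_lt_of_lt_one (show (0 : ℝ) < 1 / 3 by norm_num) hρ0
  have hN0 : N ≠ 0 := by
    rintro rfl
    norm_num at hN
  set R : ℝ := (7 / 6 : ℝ) ^ ((N : ℝ)⁻¹) with hR
  have hRN : R ^ N = 7 / 6 := by
    rw [hR, ← Real.rpow_natCast, ← Real.rpow_mul (by norm_num), inv_mul_cancel₀ (by exact_mod_cast hN0),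
      Real.rpow_one]
  have hR1 : 1 < R := Real.one_lt_rpow (by norm_num) (by positivity)
  have hR0 : 0 < R := zero_lt_one.trans hR1
  have hR4 : R ≤ 5 / 3 := by
    by_contra h
    push Not at h
    have h1 : R ≤ R ^ N := le_self_pow₀ hR1.le hN0
    rw [hRN] at h1
    linarith
  refine ⟨R, hR1, 1, one_pos, fun w hw i j hij => ?_⟩
  have hw0 : ‖w‖ ≤ max ρ 0 := hw.trans (le_max_left _ _)
  have hw1 : ‖w‖ < 1 := lt_of_le_of_lt hw hρ
  -- the bound for the coefficients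
  have hP : ∀ l : ℕ, ‖ev3 w (Phi3 E l)‖ ≤ R⁻¹ ^ l := by
    intro l
    unfold ev3
    refine IsUltrametricDist.norm_tsum_le_of_forall_le_of_nonneg (by positivity) fun m => ?_
    have h1 : ‖iota3 (PowerSeries.coeff m (Phi3 E l))‖ ≤ 3 ^ m * (6 / 7 : ℝ) ^ l := by
      rw [norm_iota3]
      refine hG (Phi3 E l) ((6 / 7 : ℝ) ^ l) (fun w' hw' => ?_) m
      have h2 := hc w' hw' l
      have h3 : (6 / 7 : ℝ) ^ l = ((7 / 6 : ℝ) ^ l)⁻¹ := by
        rw [← inv_pow]
        norm_num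
      rw [h3, ← one_div, le_div_iff₀ (by positivity)]
      exact h2
    have h2 : ‖iota3 (PowerSeries.coeff m (Phi3 E l))‖ ≤ 1 := (norm_iota3 _).le.trans (PadicInt.norm_le_one _)
    have h3 : (‖iota3 (PowerSeries.coeff m (Phi3 E l)) * w ^ m‖) ^ N ≤ (R⁻¹ ^ l) ^ N := by
      have h4 : ‖iota3 (PowerSeries.coeff m (Phi3 E l))‖ ^ N ≤ 3 ^ m * (6 / 7 : ℝ) ^ l :=
        (pow_le_of_le_one (norm_nonneg _) h2 hN0).trans h1
      have h5 : (‖w‖ ^ m) ^ N ≤ (1 / 3) ^ m := by
        rw [← pow_mul, mul_comm m N, pow_mul]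
        exact pow_le_pow_left₀ (by positivity)
          ((pow_le_pow_left₀ (norm_nonneg _) hw0 N).trans hN.le) m
      rw [norm_mul, norm_pow, mul_pow]
      calc _ ≤ (3 ^ m * (6 / 7 : ℝ) ^ l) * (1 / 3) ^ m :=
            mul_le_mul h4 h5 (by positivity) (by positivity)
        _ = (6 / 7 : ℝ) ^ l := by
            rw [mul_right_comm, ← mul_pow]
            norm_num
        _ = (R⁻¹ ^ l) ^ N := by
            rw [← pow_mul, mul_comm l N, pow_mul, inv_pow, hRN]
            norm_num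
    exact (pow_le_pow_iff_left₀ (norm_nonneg _) (by positivity) hN0).1 h3
  rw [ev3_famMatrix E hE hw1, one_mul]
  refine IsUltrametricDist.norm_sum_le_of_forall_le_of_nonneg (by positivity) fun k hk => ?_
  rw [Finset.mem_range] at hk
  split_ifs with hjk
  · have hk' : k ≤ 3 * i := by omega
    rw [norm_mul]
    calc ‖Mat3 0 (0 : C3) i k‖ * ‖ev3 w (Phi3 E (k - j))‖
        ≤ (3 / 5 : ℝ) ^ (3 * i - k) * R⁻¹ ^ (k - j) :=
          mul_le_mul (norm_Mat3_le (by norm_num) (by simp) hk') (hP _) (norm_nonneg _) (by positivity)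
      _ ≤ R⁻¹ ^ (3 * i - k) * R⁻¹ ^ (k - j) := by
          refine mul_le_mul_of_nonneg_right (pow_le_pow_left₀ (by norm_num) ?_ _) (by positivity)
          rw [le_inv_comm₀ (by norm_num) hR0]
          norm_num
          linarith
      _ = R⁻¹ ^ (3 * i - j) := by
          rw [← pow_add]
          congr 1
          omega
  · rw [norm_zero]
    positivity

/-- Change of basis on the central disc. -/
theorem Mat3_mul_u (E : PowerSeries Lam3) (hE : EisFamily3 E) (u : ℕ → C3 → C3) (hu : OrdVec3 u)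
    {x : C3} (hx : ‖x‖ ≤ 1) (i j : ℕ) :
    ∑ k ∈ Finset.range (3 * i + 1), (if j ≤ k then Mat3 0 x i k * u (k - j) x else 0) =
      ∑ k ∈ Finset.range (i + 1), u (i - k) x * ev3 (wx3 x) (famMatrix3 E k j) := by
  have hw1 : ‖wx3 x‖ < 1 := by
    rw [norm_wx3 hx]
    linarith
  set f := hauptmodul 3 C3 with hf
  have hfs : HasSubst f := fx_hasSubst 3
  set uS : PowerSeries C3 := PowerSeries.mk fun n ↦ u n x with huS
  have hE1 : evS3 (wx3 x) E = bPow x * uS.subst f := evS3_eisFam E hE u hu x hx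
  have hcE : PowerSeries.constantCoeff (evS3 (wx3 x) E) ≠ 0 := by
    obtain ⟨φ, hφ⟩ := exists_ev3Hom hw1
    rw [d3fa_evS φ hφ, d3fa_c_map φ (d3fa_cE hE)]
    exact one_ne_zero
  have ht : bPow x ≠ 0 := by
    intro h
    have h1 := d3fa_bPow_c x
    rw [h, map_zero] at h1
    exact zero_ne_one h1
  set Cj : PowerSeries C3 := PowerSeries.mk fun k ↦ ev3 (wx3 x) (famMatrix3 E k j) with hCj
  have h1 : U 3 (evS3 (wx3 x) E * f ^ j) = evS3 (wx3 x) E * Cj.subst f := by
    have h2 : Cj = PowerSeries.mk (fcoeff 3 ((evS3 (wx3 x) E)⁻¹ * U 3 (evS3 (wx3 x) E * f ^ j))) := by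
      ext k
      rw [hCj, PowerSeries.coeff_mk, PowerSeries.coeff_mk, d3fa_ev_fam hE hw1]
    rw [h2, subst_fcoeff, ← mul_assoc, PowerSeries.mul_inv_cancel _ hcE, one_mul]
  have h2 := U_bPow_subst d3fa_hIds x (uS * X ^ j)
  rw [← hf, ← d3fa_subst_mul_pow, ← hf, ← mul_assoc, ← hE1, h1, hE1, mul_assoc] at h2
  have h3 := mul_left_cancel₀ ht h2
  rw [← PowerSeries.subst_mul hfs] at h3
  have h4 := congrArg (fun F => fcoeff 3 F i) h3
  simp only [hf, fcoeff_subst] at h4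
  rw [PowerSeries.coeff_mk, PowerSeries.coeff_mul,
    Finset.Nat.sum_antidiagonal_eq_sum_range_succ
      (fun a b => PowerSeries.coeff a uS * PowerSeries.coeff b Cj)] at h4
  have h5 : ∑ k ∈ Finset.range (i + 1), u (i - k) x * ev3 (wx3 x) (famMatrix3 E k j) =
      ∑ k ∈ Finset.range (i + 1), PowerSeries.coeff k uS * PowerSeries.coeff (i - k) Cj := by
    rw [← Finset.sum_range_reflect]
    refine Finset.sum_congr rfl fun k hk => ?_
    rw [Finset.mem_range] at hk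
    rw [huS, hCj, PowerSeries.coeff_mk, PowerSeries.coeff_mk]
    have e1 : i - (i + 1 - 1 - k) = k := by omega
    have e2 : i + 1 - 1 - k = i - k := by omega
    rw [e1, e2]
  rw [h5, h4]
  refine Finset.sum_congr rfl fun k _ => ?_
  rw [d3fa_coeff_mul_X_pow]
  split_ifs with hjk
  · rw [huS, PowerSeries.coeff_mk]
  · rw [mul_zero]

end D3

end GH
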