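import Pool.Agent.GH.D3.Base3
import Pool.Agent.GH.ClEkB
import Pool.Agent.GH.FamA

open PowerSeries Filter Topology

noncomputable section

namespace GH

namespace D3

/-! Eisenstein series of weight divisible by `12` in terms of `G` and `Δ`. -/

open scoped MatrixGroups
open ModularForm UpperHalfPlane

/-! ### constant terms -/

theorem d3_cek_euler_zero (k : ℕ) : PowerSeries.constantCoeff (euler ℚ k) = 1 := by
  rw [← PowerSeries.coeff_zero_eq_constantCoeff_apply]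
  unfold euler
  rw [PowerSeries.coeff_mk]
  simp

theorem d3_cek_invOfUnit_zero (u : PowerSeries ℚ) :
    PowerSeries.constantCoeff (invOfUnit u 1) = 1 := by
  rw [PowerSeries.constantCoeff_invOfUnit]
  simp

theorem d3_cek_bser_zero : PowerSeries.constantCoeff (bser ℚ) = 1 := by
  unfold bser
  rw [map_mul, map_pow, d3_cek_euler_zero, d3_cek_invOfUnit_zero, one_pow, mul_one]

theorem d3_cek_G12_zero : PowerSeries.constantCoeff G12 = 1 := by
  unfold G12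
  rw [map_add, map_pow, d3_cek_bser_zero, map_mul, map_mul, map_mul, PowerSeries.constantCoeff_X]
  ring

/-! ### level one forms -/

theorem d3_cek_main (G : ModularForm 𝒮ℒ 12)
    (hG : qExpansion 1 G = PowerSeries.map (algebraMap ℚ ℂ) G12) (m : ℕ) :
    ∀ (k : ℤ), k = 12 * m → ∀ (f : ModularForm 𝒮ℒ k) (F : PowerSeries ℚ),
    qExpansion 1 f = c2m F → ∃ c : ℕ → ℚ, F = ∑ b ∈ Finset.range (m + 1),
      C (c b) * G12 ^ (m - b) * c2D ^ b := by
  induction m with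
  | zero =>
    intro k hk f F hF
    obtain ⟨r, hr⟩ : ∃ r : ℚ, r = PowerSeries.coeff 0 F := ⟨_, rfl⟩
    obtain ⟨e, he⟩ : ∃ e : ModularForm 𝒮ℒ k, e = ModularForm.mcast (by rw [hk]; push_cast)
      (G.pow 0) := ⟨_, rfl⟩
    have hqe : qExpansion 1 e = c2m (G12 ^ 0) := by
      rw [he]
      rw [ModularForm.qExpansion_mcast, ModularForm.qExpansion_pow one_pos
        one_mem_strictPeriods_SL, hG, map_pow]
    obtain ⟨f', hf'⟩ : ∃ f' : ModularForm 𝒮ℒ k, f' = f - (r : ℂ) • e := ⟨_, rfl⟩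
    have hq : qExpansion 1 f' = c2m (F - C r * G12 ^ 0) := by
      rw [hf', show ((f - (r : ℂ) • e : ModularForm 𝒮ℒ k) : ℍ → ℂ) = ⇑f - ⇑((r : ℂ) • e) from rfl,
        ModularForm.qExpansion_sub one_pos one_mem_strictPeriods_SL f ((r : ℂ) • e),
        show (((r : ℂ) • e : ModularForm 𝒮ℒ k) : ℍ → ℂ) = (r : ℂ) • ⇑e from rfl,
        ModularForm.qExpansion_smul one_pos one_mem_strictPeriods_SL (r : ℂ) e, hF, hqe, map_sub,
        map_mul, PowerSeries.map_C, PowerSeries.smul_eq_C_mul]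
      rfl
    have hcusp : (qExpansion 1 f').coeff 0 = 0 := by
      rw [hq, PowerSeries.coeff_map, map_sub]
      have h1 : PowerSeries.coeff 0 (C r * G12 ^ 0) = r := by
        rw [PowerSeries.coeff_zero_eq_constantCoeff_apply, map_mul, map_pow, pow_zero, mul_one]
        exact PowerSeries.constantCoeff_C r
      rw [h1, ← hr, sub_self, map_zero]
    have hfac := qExpansion_eq_qExpansion_discriminant_mul f' hcusp
    obtain ⟨g, hg⟩ : ∃ g : ModularForm 𝒮ℒ (k - 12),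
      g = CuspForm.discriminantEquiv (toCuspForm f' hcusp) := ⟨_, rfl⟩
    rw [← hg, hq, c2_disc'] at hfac
    have hg0 : (g : ℍ → ℂ) = 0 :=
      ModularFormClass.levelOne_neg_weight_eq_zero (k := k - 12) (by omega) g
    rw [hg0, qExpansion_zero, mul_zero] at hfac
    have h1 := c2m_inj (hfac.trans (map_zero c2m).symm)
    refine ⟨fun _ => r, ?_⟩
    rw [zero_add, Finset.sum_range_one, pow_zero, mul_one]
    exact sub_eq_zero.1 h1
  | succ m ih =>
    intro k hk f F hF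
    obtain ⟨r, hr⟩ : ∃ r : ℚ, r = PowerSeries.coeff 0 F := ⟨_, rfl⟩
    obtain ⟨e, he⟩ : ∃ e : ModularForm 𝒮ℒ k, e = ModularForm.mcast (by rw [hk]; push_cast; ring)
      (G.pow (m + 1)) := ⟨_, rfl⟩
    have hqe : qExpansion 1 e = c2m (G12 ^ (m + 1)) := by
      rw [he]
      rw [ModularForm.qExpansion_mcast, ModularForm.qExpansion_pow one_pos
        one_mem_strictPeriods_SL, hG, map_pow]
    obtain ⟨f', hf'⟩ : ∃ f' : ModularForm 𝒮ℒ k, f' = f - (r : ℂ) • e := ⟨_, rfl⟩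
    have hq : qExpansion 1 f' = c2m (F - C r * G12 ^ (m + 1)) := by
      rw [hf', show ((f - (r : ℂ) • e : ModularForm 𝒮ℒ k) : ℍ → ℂ) = ⇑f - ⇑((r : ℂ) • e) from rfl,
        ModularForm.qExpansion_sub one_pos one_mem_strictPeriods_SL f ((r : ℂ) • e),
        show (((r : ℂ) • e : ModularForm 𝒮ℒ k) : ℍ → ℂ) = (r : ℂ) • ⇑e from rfl,
        ModularForm.qExpansion_smul one_pos one_mem_strictPeriods_SL (r : ℂ) e, hF, hqe, map_sub,
        map_mul, PowerSeries.map_C, PowerSeries.smul_eq_C_mul]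
      rfl
    have hcusp : (qExpansion 1 f').coeff 0 = 0 := by
      rw [hq, PowerSeries.coeff_map, map_sub]
      have h1 : PowerSeries.coeff 0 (C r * G12 ^ (m + 1)) = r := by
        rw [PowerSeries.coeff_zero_eq_constantCoeff_apply, map_mul, map_pow, d3_cek_G12_zero,
          one_pow, mul_one]
        exact PowerSeries.constantCoeff_C r
      rw [h1, ← hr, sub_self, map_zero]
    have hfac := qExpansion_eq_qExpansion_discriminant_mul f' hcusp
    obtain ⟨g, hg⟩ : ∃ g : ModularForm 𝒮ℒ (k - 12),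
      g = CuspForm.discriminantEquiv (toCuspForm f' hcusp) := ⟨_, rfl⟩
    rw [← hg, hq, c2_disc'] at hfac
    obtain ⟨G', hG', hFG⟩ := c2_rat (F := F - C r * G12 ^ (m + 1)) (u := euler ℚ 1 ^ 24)
      (G := qExpansion 1 g) (by rw [map_pow, c2_euler_zero, one_pow]) hfac
    obtain ⟨c', hc'⟩ := ih (k - 12) (by push_cast at hk ⊢; omega) g G' hG'
    refine ⟨fun b => if b = 0 then r else c' (b - 1), ?_⟩
    rw [Finset.sum_range_succ']
    have h3 : F = (X * euler ℚ 1 ^ 24) * G' + C r * G12 ^ (m + 1) := by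
      rw [← hFG]; ring
    rw [h3, hc', Finset.mul_sum]
    beta_reduce
    rw [if_pos rfl, Nat.sub_zero, pow_zero, mul_one]
    congr 1
    refine Finset.sum_congr rfl fun b _ => ?_
    rw [if_neg (Nat.succ_ne_zero b), Nat.add_sub_cancel,
      show m + 1 - (b + 1) = m - b by omega, pow_succ c2D b]
    unfold c2D
    ring

/-- Level one forms of weight `12m`. -/
theorem eisQ_eq_sum3 (hG : ∃ F : ModularForm 𝒮ℒ 12,
      qExpansion 1 F = PowerSeries.map (algebraMap ℚ ℂ) G12) (m : ℕ) (hm : 1 ≤ m) :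
    ∃ c : ℕ → ℚ, eisQ (12 * m) = ∑ j ∈ Finset.range (m + 1),
      C (c j) * G12 ^ (m - j) * (X * euler ℚ 1 ^ 24) ^ j := by
  obtain ⟨G, hG⟩ := hG
  have hk : 3 ≤ 12 * m := by omega
  have hk2 : Even (12 * m) := ⟨6 * m, by ring⟩
  exact d3_cek_main G hG m _ (by push_cast; ring) (ModularForm.E hk) (eisQ (12 * m))
    (c2_eis hk hk2)

/-! ### `G` in terms of `b` and `f` -/

theorem d3_cek_poly_sum (P : Polynomial ℚ) :
    ∑ i ∈ Finset.range (P.natDegree + 1), C (P.coeff i) * hauptmodul 3 ℚ ^ i =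
      Polynomial.aeval (hauptmodul 3 ℚ) P := by
  rw [Polynomial.aeval_eq_sum_range]
  refine Finset.sum_congr rfl fun i _ => ?_
  rw [PowerSeries.smul_eq_C_mul]

theorem d3_cek_Q_zero : PowerSeries.constantCoeff (Qser ℚ) = 1 := by
  unfold Qser
  simp

/-- the matrix has only finitely many entries in the column `1` -/
theorem d3_cek_Mat3 (i : ℕ) (hi : 4 ≤ i) : Mat3 0 (0 : ℚ) i 1 = 0 := by
  unfold Mat3
  rw [if_pos (by omega)]
  have h1 : ((i : ℚ) + (1 : ℕ) - 1 - (0 - ((0 : ℕ) : ℚ)) / 3) = (i : ℚ) := by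
    push_cast
    ring
  rw [h1, fa_ppow_nat d3_cek_Q_zero]
  have h2 : (1 + C (3 : ℚ) * X) ^ (2 - 0) * (1 + C (9 : ℚ) * X) ^ 0 * Qser ℚ ^ i =
      (((1 + Polynomial.C (3 : ℚ) * Polynomial.X) ^ 2 *
        (1 + Polynomial.C (9 : ℚ) * Polynomial.X + Polynomial.C (27 : ℚ) * Polynomial.X ^ 2) ^ i :
          Polynomial ℚ) : PowerSeries ℚ) := by
    unfold Qser
    push_cast
    ring
  rw [h2, Polynomial.coeff_coe]
  apply Polynomial.coeff_eq_zero_of_natDegree_lt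
  have h3 : (1 + Polynomial.C (3 : ℚ) * Polynomial.X).natDegree ≤ 1 := by compute_degree
  have h4 : (1 + Polynomial.C (9 : ℚ) * Polynomial.X +
      Polynomial.C (27 : ℚ) * Polynomial.X ^ 2).natDegree ≤ 2 := by compute_degree
  have h5 := Polynomial.natDegree_pow_le (p := 1 + Polynomial.C (3 : ℚ) * Polynomial.X) (n := 2)
  have h6 := Polynomial.natDegree_pow_le (p := 1 + Polynomial.C (9 : ℚ) * Polynomial.X +
      Polynomial.C (27 : ℚ) * Polynomial.X ^ 2) (n := i)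
  refine (Polynomial.natDegree_mul_le).trans_lt ?_
  have h7 : i * (1 + Polynomial.C (9 : ℚ) * Polynomial.X +
      Polynomial.C (27 : ℚ) * Polynomial.X ^ 2).natDegree ≤ i * 2 := Nat.mul_le_mul_left _ h4
  omega

theorem d3_cek_haupt_zero : PowerSeries.constantCoeff (hauptmodul 3 ℚ) = 0 := by
  unfold hauptmodul
  rw [map_mul, PowerSeries.constantCoeff_X, zero_mul]

/-- `G = b^12 P(f)`. Input: the matrix of `U_3` in weight `0`. -/
theorem G12_eq (hU : ∀ j : ℕ, U 3 (hauptmodul 3 ℚ ^ j) =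
      (PowerSeries.mk fun i ↦ Mat3 0 (0 : ℚ) i j).subst (hauptmodul 3 ℚ))
    (hd : hauptmodul 3 ℚ * bser ℚ ^ 12 = X * euler ℚ 1 ^ 24) :
    ∃ P : Polynomial ℚ, G12 = bser ℚ ^ 12 *
      ∑ i ∈ Finset.range (P.natDegree + 1), C (P.coeff i) * hauptmodul 3 ℚ ^ i := by
  obtain ⟨h, hh⟩ : ∃ h : PowerSeries ℚ, h = hauptmodul 3 ℚ := ⟨_, rfl⟩
  have hs : HasSubst (hauptmodul 3 ℚ) := HasSubst.of_constantCoeff_zero' d3_cek_haupt_zero
  obtain ⟨R, hR⟩ : ∃ R : Polynomial ℚ, R = ∑ i ∈ Finset.range 4,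
    Polynomial.C (Mat3 0 (0 : ℚ) i 1) * Polynomial.X ^ i := ⟨_, rfl⟩
  have h1 : (PowerSeries.mk fun i ↦ Mat3 0 (0 : ℚ) i 1) = (R : PowerSeries ℚ) := by
    ext n
    rw [PowerSeries.coeff_mk, Polynomial.coeff_coe, hR, Polynomial.finsetSum_coeff]
    rcases lt_or_ge n 4 with hn | hn
    · rw [Finset.sum_eq_single n]
      · rw [Polynomial.coeff_C_mul_X_pow, if_pos rfl]
      · intro b _ hb
        rw [Polynomial.coeff_C_mul_X_pow, if_neg (Ne.symm hb)]
      · intro hb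
        exact absurd (Finset.mem_range.2 hn) hb
    · rw [d3_cek_Mat3 n hn, Finset.sum_eq_zero]
      intro b hb
      rw [Finset.mem_range] at hb
      rw [Polynomial.coeff_C_mul_X_pow, if_neg (by omega)]
  have h2 : U 3 (hauptmodul 3 ℚ) = Polynomial.aeval (hauptmodul 3 ℚ) R := by
    have h3 := hU 1
    rw [pow_one, h1] at h3
    rw [h3, ← coe_substAlgHom hs]
    exact substAlgHom_coe hs R
  refine ⟨1 + Polynomial.C ((3 : ℚ) ^ 7) * Polynomial.X * R, ?_⟩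
  rw [d3_cek_poly_sum, G12, ← hd, h2, map_add, map_one, map_mul, map_mul, Polynomial.aeval_C,
    Polynomial.aeval_X]
  have h3 : (algebraMap ℚ (PowerSeries ℚ)) ((3 : ℚ) ^ 7) = C ((3 : ℚ) ^ 7) := rfl
  rw [h3]
  ring

/-- `E_{12m} = b^{12m} P(f)`. -/
theorem eisQ_eq_bser (hG : ∃ F : ModularForm 𝒮ℒ 12,
      qExpansion 1 F = PowerSeries.map (algebraMap ℚ ℂ) G12)
    (hP : ∃ P : Polynomial ℚ, G12 = bser ℚ ^ 12 *
      ∑ i ∈ Finset.range (P.natDegree + 1), C (P.coeff i) * hauptmodul 3 ℚ ^ i)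
    (hd : hauptmodul 3 ℚ * bser ℚ ^ 12 = X * euler ℚ 1 ^ 24) (m : ℕ) (hm : 1 ≤ m) :
    ∃ P : Polynomial ℚ, eisQ (12 * m) = bser ℚ ^ (12 * m) *
      ∑ i ∈ Finset.range (P.natDegree + 1), C (P.coeff i) * hauptmodul 3 ℚ ^ i := by
  obtain ⟨c, hc⟩ := eisQ_eq_sum3 hG m hm
  obtain ⟨P0, hP0⟩ := hP
  rw [d3_cek_poly_sum] at hP0
  obtain ⟨t, ht⟩ : ∃ t : PowerSeries ℚ, t = bser ℚ := ⟨_, rfl⟩
  obtain ⟨g, hg⟩ : ∃ g : PowerSeries ℚ, g = Polynomial.aeval (hauptmodul 3 ℚ) P0 := ⟨_, rfl⟩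
  obtain ⟨P, hP⟩ : ∃ P : Polynomial ℚ, P = ∑ b ∈ Finset.range (m + 1),
      Polynomial.C (c b) * P0 ^ (m - b) * Polynomial.X ^ b := ⟨_, rfl⟩
  refine ⟨P, ?_⟩
  rw [d3_cek_poly_sum, hP, map_sum, hc, Finset.mul_sum]
  refine Finset.sum_congr rfl fun b hb => ?_
  rw [Finset.mem_range] at hb
  rw [map_mul, map_mul, map_pow, map_pow, Polynomial.aeval_X, Polynomial.aeval_C, ← hd, hP0,
    ← hg, ← ht]
  have h3 : (algebraMap ℚ (PowerSeries ℚ)) (c b) = C (c b) := rfl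
  rw [h3]
  have h4 : t ^ (12 * m) = (t ^ 12) ^ (m - b) * (t ^ 12) ^ b := by
    rw [← pow_mul, ← pow_mul, ← pow_add]
    congr 1
    have : b ≤ m := by omega
    omega
  rw [h4, mul_pow, mul_pow]
  ring

/-! ### the stabilisation -/

theorem d3_cek_sigma (j n : ℕ) (hn : n ≠ 0) :
    (ArithmeticFunction.sigma j (3 * n) : ℚ) - 3 ^ j * (ArithmeticFunction.sigma j n : ℚ) =
      ∑ d ∈ n.divisors, if 3 ∣ d then 0 else (d : ℚ) ^ j := by
  have h3n : 3 * n ≠ 0 := by omega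
  rw [ArithmeticFunction.sigma_apply, ArithmeticFunction.sigma_apply]
  push_cast
  have h1 : ∑ d ∈ (3 * n).divisors, (d : ℚ) ^ j =
      ∑ d ∈ (3 * n).divisors.filter (fun d => ¬ 3 ∣ d), (d : ℚ) ^ j +
        ∑ d ∈ (3 * n).divisors.filter (fun d => ¬ ¬ 3 ∣ d), (d : ℚ) ^ j :=
    (Finset.sum_filter_add_sum_filter_not _ _ _).symm
  have h3 : (3 * n).divisors.filter (fun d => ¬ 3 ∣ d) =
      n.divisors.filter (fun d => ¬ 3 ∣ d) := by
    ext d
    simp only [Finset.mem_filter, Nat.mem_divisors]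
    constructor
    · rintro ⟨⟨h, _⟩, hd⟩
      have hcop : Nat.Coprime d 3 := ((Nat.Prime.coprime_iff_not_dvd Nat.prime_three).2 hd).symm
      exact ⟨⟨(Nat.Coprime.dvd_mul_left hcop).1 h, hn⟩, hd⟩
    · rintro ⟨⟨h, _⟩, hd⟩
      exact ⟨⟨Dvd.dvd.mul_left h 3, h3n⟩, hd⟩
  have h4 : (3 * n).divisors.filter (fun d => ¬ ¬ 3 ∣ d) =
      n.divisors.image (fun d => 3 * d) := by
    ext d
    simp only [Finset.mem_filter, Nat.mem_divisors, Finset.mem_image, not_not]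
    constructor
    · rintro ⟨⟨h, _⟩, e, rfl⟩
      exact ⟨e, ⟨Nat.dvd_of_mul_dvd_mul_left (by norm_num) h, hn⟩, rfl⟩
    · rintro ⟨e, ⟨h, _⟩, rfl⟩
      exact ⟨⟨Nat.mul_dvd_mul_left 3 h, h3n⟩, Dvd.intro e rfl⟩
  rw [h1, h3, h4, Finset.sum_image (fun a _ b _ hab => by
    have : 3 * a = 3 * b := hab
    omega)]
  rw [Finset.mul_sum, Finset.sum_filter]
  have h5 : ∑ d ∈ n.divisors, (((3 * d : ℕ)) : ℚ) ^ j = ∑ d ∈ n.divisors, 3 ^ j * (d : ℚ) ^ j := by
    refine Finset.sum_congr rfl fun d _ => ?_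
    push_cast
    rw [mul_pow]
  have h6 : ∑ d ∈ n.divisors, (if ¬ 3 ∣ d then (d : ℚ) ^ j else 0) =
      ∑ d ∈ n.divisors, (if 3 ∣ d then 0 else (d : ℚ) ^ j) := by
    refine Finset.sum_congr rfl fun d _ => ?_
    rw [ite_not]
  rw [h5, h6]
  ring

/-- The 3-stabilisation. -/
theorem eisStab3_eq (k : ℕ) (hk : 2 ≤ k) :
    C ((1 : ℚ) - 3 ^ (k - 1)) * eisStab3 k = U 3 (eisQ k) - C ((3 : ℚ) ^ (k - 1)) * eisQ k := by
  have hne : (1 : ℚ) - 3 ^ (k - 1) ≠ 0 := by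
    have h1 : (1 : ℚ) < 3 ^ (k - 1) := one_lt_pow₀ (by norm_num) (by omega)
    linarith
  ext n
  rw [map_sub (PowerSeries.coeff n), PowerSeries.coeff_C_mul, PowerSeries.coeff_C_mul]
  unfold U
  rw [PowerSeries.coeff_mk]
  unfold eisStab3 eisQ
  rw [map_add, map_add, map_add, PowerSeries.coeff_mk, PowerSeries.coeff_mk,
    PowerSeries.coeff_mk, PowerSeries.coeff_one, PowerSeries.coeff_one]
  by_cases hn : n = 0
  · subst hn
    simp
  · rw [if_neg hn, if_neg (by omega)]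
    have h1 := d3_cek_sigma (k - 1) n hn
    rw [← h1]
    have h2 : (1 - 3 ^ (k - 1) : ℚ) * (2 * k / ((1 - 3 ^ (k - 1)) * bernoulli k)) =
        2 * k / bernoulli k := by
      rw [mul_div_assoc', mul_div_mul_left _ _ hne]
    linear_combination (-(ArithmeticFunction.sigma (k - 1) (3 * n) : ℚ) +
      3 ^ (k - 1) * (ArithmeticFunction.sigma (k - 1) n : ℚ)) * h2

end D3

end GH
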