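import Pool.Agent.GH.D3.ClG12b

open PowerSeries Filter Topology

noncomputable section

namespace GH

namespace D3

/-! The level one form `G = b^12 + 3^7 Δ U_3(f)`: trace of `b^12 = Δ/f` from `Γ_0(3)`. -/

open scoped MatrixGroups Manifold
open ModularForm UpperHalfPlane CongruenceSubgroup SlashInvariantForm

/-- `Gc3` on the upper half plane. -/
def Gh3 (τ : ℍ) : ℂ := Gc3 τ

theorem Gh3_T : (Gh3 ∣[(12 : ℤ)] ModularGroup.T) = Gh3 := by
  ext z
  rw [SL_slash_apply, denom, modular_T_smul, ModularGroup.T]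
  have : Gh3 ((1 : ℝ) +ᵥ z) = Gh3 z := by
    rw [Gh3, Gh3, UpperHalfPlane.coe_vadd, ← Gc3_add_one (z : ℂ)]
    congr 1
    push_cast
    ring
  simp [this]

theorem Gh3_S : (Gh3 ∣[(12 : ℤ)] ModularGroup.S) = Gh3 := by
  ext z
  have hz : (z : ℂ) ≠ 0 := ne_zero z
  suffices Gc3 (-(z : ℂ)⁻¹) * ((z : ℂ) ^ 12)⁻¹ = Gc3 z by
    rw [SL_slash_apply, UpperHalfPlane.modular_S_smul]
    simpa [denom, ModularGroup.S, Gh3] using this
  have h := Gc3_S z.2
  have h1 : -(z : ℂ)⁻¹ = -1 / z := by rw [neg_div, one_div]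
  have h0 : (z : ℂ) = z.1 := rfl
  rw [← h0] at h
  rw [h1, h]
  have h4 : ((z : ℂ) ^ 12) ≠ 0 := pow_ne_zero _ hz
  field_simp

theorem hasSum_G3 (τ : ℍ) : HasSum
    (fun n : ℕ ↦ PowerSeries.coeff n G3 • (Function.Periodic.qParam 1 (τ : ℂ)) ^ n) (Gh3 τ) := by
  have hQ : ‖Function.Periodic.qParam 1 (τ : ℂ)‖ < 1 :=
    Function.Periodic.norm_qParam_lt_one one_pos τ.2
  have h := as_G3.hasSum hQ
  rw [eta_q_exp, evc_G3 τ.2] at h
  rw [eta_q_exp]
  exact h

theorem Gh3_bounded : IsBoundedAtImInfty Gh3 :=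
  isBoundedAtImInfty_of_hasSum_qExpansion (h := 1) one_pos hasSum_G3

/-- The level one form of weight twelve. -/
def G3form : ModularForm 𝒮ℒ 12 where
  toFun := Gh3
  slash_action_eq' A hA := by
    obtain ⟨A, rfl⟩ := hA
    exact slash_action_generators_SL2Z Gh3_S Gh3_T A
  holo' := by
    rw [UpperHalfPlane.mdifferentiable_iff]
    refine DifferentiableOn.congr (f := Gc3) (fun z hz ↦
      (Gc3_diff hz).differentiableWithinAt) fun z hz ↦ ?_
    simp [Gh3, ofComplex_apply_of_im_pos hz]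
  bdd_at_cusps' hc := by
    rw [Subgroup.IsArithmetic.isCusp_iff_isCusp_SL2Z] at hc
    rw [OnePoint.isBoundedAt_iff_forall_SL2Z hc]
    intro γ _
    rw [slash_action_generators_SL2Z Gh3_S Gh3_T]
    exact Gh3_bounded

theorem coeff_G3form (n : ℕ) : (qExpansion 1 G3form).coeff n = PowerSeries.coeff n G3 :=
  (ModularFormClass.qExpansion_coeff_unique one_pos one_mem_strictPeriods_SL
    (f := G3form) (c := fun n ↦ PowerSeries.coeff n G3) hasSum_G3 n).symm

theorem map_euler (R S : Type*) [CommRing R] [CommRing S] (φ : R →+* S) (k : ℕ) :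
    PowerSeries.map φ (euler R k) = euler S k := by
  ext n
  have h : PowerSeries.map φ (∏ m ∈ Finset.range n, (1 - (X : PowerSeries R) ^ (k * (m + 1)))) =
      ∏ m ∈ Finset.range n, (1 - (X : PowerSeries S) ^ (k * (m + 1))) := by
    rw [map_prod]
    refine Finset.prod_congr rfl fun m _ ↦ ?_
    rw [map_sub, map_one, map_pow, PowerSeries.map_X]
  rw [PowerSeries.coeff_map, euler, PowerSeries.coeff_mk, euler, PowerSeries.coeff_mk, ← h,
    PowerSeries.coeff_map]

theorem map_eulerInv (R S : Type*) [CommRing R] [CommRing S] (φ : R →+* S) (k : ℕ) :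
    PowerSeries.map φ (invOfUnit (euler R k) 1) = invOfUnit (euler S k) 1 := by
  have h1 := congrArg (PowerSeries.map φ) (euler_mul_inv R k)
  rw [map_mul, map_euler, map_one] at h1
  have h2 := euler_mul_inv S k
  calc PowerSeries.map φ (invOfUnit (euler R k) 1) =
        (euler S k * invOfUnit (euler S k) 1) * PowerSeries.map φ (invOfUnit (euler R k) 1) := by
        rw [h2, one_mul]
    _ = invOfUnit (euler S k) 1 *
        (euler S k * PowerSeries.map φ (invOfUnit (euler R k) 1)) := by ring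
    _ = invOfUnit (euler S k) 1 := by rw [h1, mul_one]

theorem d3g_map_bser (R S : Type*) [CommRing R] [CommRing S] (φ : R →+* S) :
    PowerSeries.map φ (bser R) = bser S := by
  rw [bser, bser, map_mul, map_pow, map_euler, map_eulerInv]

theorem map_haupt (p : ℕ) (R S : Type*) [CommRing R] [CommRing S] (φ : R →+* S) :
    PowerSeries.map φ (hauptmodul p R) = hauptmodul p S := by
  rw [hauptmodul, hauptmodul, map_mul, map_pow, map_mul, map_euler, map_eulerInv,
    PowerSeries.map_X]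

theorem map_U_series (p : ℕ) (R S : Type*) [CommRing R] [CommRing S] (φ : R →+* S)
    (F : PowerSeries R) : PowerSeries.map φ (U p F) = U p (PowerSeries.map φ F) := by
  ext n
  rw [PowerSeries.coeff_map, U, PowerSeries.coeff_mk, U, PowerSeries.coeff_mk,
    PowerSeries.coeff_map]

theorem map_G12 : PowerSeries.map (algebraMap ℚ ℂ) G12 = G3 := by
  have h1 : PowerSeries.map (algebraMap ℚ ℂ) (C ((3 : ℚ) ^ 7)) = C ((3 : ℂ) ^ 7) := by
    rw [PowerSeries.map_C]
    simp
  rw [G12, G3, map_add, map_mul, map_mul, map_mul, h1, map_pow _ (bser ℚ) 12,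
    map_pow _ (euler ℚ 1) 24, d3g_map_bser, map_euler, map_U_series, map_haupt, PowerSeries.map_X,
    pow_one]

theorem exists_G12_form : ∃ F : ModularForm 𝒮ℒ 12,
    qExpansion 1 F = PowerSeries.map (algebraMap ℚ ℂ) G12 := by
  refine ⟨G3form, ?_⟩
  rw [map_G12]
  ext n
  exact coeff_G3form n

end D3

end GH
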