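import Pool.Agent.GH.D3.Base3
import Pool.Agent.GH.FExp

open PowerSeries Filter Topology

noncomputable section

namespace GH

namespace D3

/-! The stabilised Eisenstein series of weight `12m` is `b^{12m}` times an overconvergent
function. -/

lemma d3_cs_inv (R : Type*) [CommRing R] (k : ℕ) : euler R k * invOfUnit (euler R k) 1 = 1 :=
  PowerSeries.mul_invOfUnit _ _ (by rw [fx_constantCoeff_euler]; rfl)

lemma d3_cs_map_inv {R S : Type*} [CommRing R] [CommRing S] (φ : R →+* S) (k : ℕ) :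
    PowerSeries.map φ (invOfUnit (euler R k) 1) = invOfUnit (euler S k) 1 := by
  have h1 : euler S k * PowerSeries.map φ (invOfUnit (euler R k) 1) = 1 := by
    rw [← fx_map_euler φ k, ← map_mul, d3_cs_inv, map_one]
  have h2 := d3_cs_inv S k
  calc PowerSeries.map φ (invOfUnit (euler R k) 1)
      = (euler S k * invOfUnit (euler S k) 1) * PowerSeries.map φ (invOfUnit (euler R k) 1) := by
        rw [h2, one_mul]
    _ = invOfUnit (euler S k) 1 * (euler S k * PowerSeries.map φ (invOfUnit (euler R k) 1)) := by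
        ring
    _ = invOfUnit (euler S k) 1 := by rw [h1, mul_one]

lemma d3_cs_map_bser {R S : Type*} [CommRing R] [CommRing S] (φ : R →+* S) :
    PowerSeries.map φ (bser R) = bser S := by
  unfold bser
  rw [map_mul, map_pow, fx_map_euler, d3_cs_map_inv]

lemma d3_cs_bser0 (R : Type*) [CommRing R] : PowerSeries.constantCoeff (bser R) = 1 := by
  unfold bser
  rw [map_mul, map_pow, fx_constantCoeff_euler, PowerSeries.constantCoeff_invOfUnit]
  simp

lemma d3_cs_map_U {R S : Type*} [CommRing R] [CommRing S] (φ : R →+* S) (F : PowerSeries R) :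
    PowerSeries.map φ (U 3 F) = U 3 (PowerSeries.map φ F) := by
  ext n
  rw [PowerSeries.coeff_map]
  unfold U
  rw [PowerSeries.coeff_mk, PowerSeries.coeff_mk, PowerSeries.coeff_map]

/-- polynomials in `f` -/
lemma d3_cs_poly (P : Polynomial ℚ) :
    PowerSeries.map (algebraMap ℚ C3)
      (∑ i ∈ Finset.range (P.natDegree + 1), C (P.coeff i) * hauptmodul 3 ℚ ^ i) =
      (((P.map (algebraMap ℚ C3) : Polynomial C3) : PowerSeries C3)).subst
        (hauptmodul 3 C3) := by
  rw [PowerSeries.subst_coe (fx_hasSubst 3), Polynomial.aeval_def,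
    Polynomial.eval₂_eq_sum_range' _ (n := P.natDegree + 1)
      (Nat.lt_succ_of_le (Polynomial.natDegree_map_le)), map_sum]
  refine Finset.sum_congr rfl fun i _ => ?_
  rw [map_mul, map_pow, map_hauptmodul, PowerSeries.map_C, Polynomial.coeff_map]
  rfl

theorem exists_stab3
    (hE : ∀ m : ℕ, 1 ≤ m → ∃ P : Polynomial ℚ, eisQ (12 * m) = bser ℚ ^ (12 * m) *
      ∑ i ∈ Finset.range (P.natDegree + 1), C (P.coeff i) * hauptmodul 3 ℚ ^ i)
    (hS : ∀ k : ℕ, 2 ≤ k → C ((1 : ℚ) - 3 ^ (k - 1)) * eisStab3 k =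
      U 3 (eisQ k) - C ((3 : ℚ) ^ (k - 1)) * eisQ k)
    (hU : ∀ (x : C3) (u : PowerSeries C3), U 3 (bPow x * u.subst (hauptmodul 3 C3)) =
      bPow x * (PowerSeries.mk fun i ↦
        ∑ j ∈ Finset.range (3 * i + 1), Mat3 0 x i j * PowerSeries.coeff j u).subst
        (hauptmodul 3 C3))
    (hb : ∀ m : ℕ, bPow ((3 * m : ℕ) : C3) = bser C3 ^ (3 * m))
    (hB : ∀ x : C3, ‖x‖ ≤ 1 → ∀ i j : ℕ, j ≤ 3 * i →
      ‖Mat3 0 x i j‖ ≤ (3 / 5 : ℝ) ^ (3 * i - j))
    (m : ℕ) (hm : 1 ≤ m) :
    ∃ u : PowerSeries C3, PowerSeries.coeff 0 u = 1 ∧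
      (∃ B : ℝ, ∀ n, ‖PowerSeries.coeff n u‖ * (5 / 3 : ℝ) ^ n ≤ B) ∧
      PowerSeries.map (algebraMap ℚ C3) (eisStab3 (12 * m)) =
        bPow ((12 * m : ℕ) : C3) * u.subst (hauptmodul 3 C3) := by
  obtain ⟨P, hP⟩ := hE m hm
  have hS1 := congrArg (PowerSeries.map (algebraMap ℚ C3)) (hS (12 * m) (by omega))
  have hs : HasSubst (hauptmodul 3 C3) := fx_hasSubst 3
  set Q : Polynomial C3 := P.map (algebraMap ℚ C3) with hQ
  set x : C3 := ((12 * m : ℕ) : C3) with hx
  have hbm : bPow x = bser C3 ^ (12 * m) := by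
    have h := hb (4 * m)
    rw [show 3 * (4 * m) = 12 * m by ring] at h
    exact h
  -- the Eisenstein series over `ℂ_3`
  have hE1 : PowerSeries.map (algebraMap ℚ C3) (eisQ (12 * m)) =
      bPow x * (Q : PowerSeries C3).subst (hauptmodul 3 C3) := by
    rw [hP, map_mul, map_pow, d3_cs_map_bser, d3_cs_poly, hbm]
  have hne : (1 : C3) - 3 ^ (12 * m - 1) ≠ 0 := by
    intro h0
    have h1 : (1 : C3) = 3 ^ (12 * m - 1) := sub_eq_zero.1 h0
    have h2 : (((1 : ℕ)) : C3) = ((3 ^ (12 * m - 1) : ℕ) : C3) := by push_cast; exact h1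
    have h3 : 1 = 3 ^ (12 * m - 1) := Nat.cast_injective h2
    have h4 : 3 ^ 1 ≤ 3 ^ (12 * m - 1) := Nat.pow_le_pow_right (by norm_num) (by omega)
    omega
  set c : C3 := (1 : C3) - 3 ^ (12 * m - 1) with hc
  set d : C3 := (3 : C3) ^ (12 * m - 1) with hd
  set v : PowerSeries C3 := PowerSeries.mk fun i ↦
        ∑ j ∈ Finset.range (3 * i + 1), Mat3 0 x i j * PowerSeries.coeff j (Q : PowerSeries C3)
    with hv
  have hcc : algebraMap ℚ C3 ((1 : ℚ) - 3 ^ (12 * m - 1)) = c := by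
    rw [hc, hd]; simp
  have hdd : algebraMap ℚ C3 ((3 : ℚ) ^ (12 * m - 1)) = d := by
    rw [hd]; simp
  rw [map_mul, PowerSeries.map_C, hcc, map_sub (PowerSeries.map (algebraMap ℚ C3)), d3_cs_map_U,
    map_mul (PowerSeries.map (algebraMap ℚ C3)), hE1, hU, PowerSeries.map_C, hdd, ← hv] at hS1
  set u : PowerSeries C3 := C c⁻¹ * (v - C d * (Q : PowerSeries C3)) with hu
  have hCs : ∀ a : C3, ∀ w : PowerSeries C3,
      (C a * w).subst (hauptmodul 3 C3) = C a * w.subst (hauptmodul 3 C3) := by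
    intro a w
    rw [PowerSeries.subst_mul hs]
    congr 1
    exact PowerSeries.subst_C a
  have heq : PowerSeries.map (algebraMap ℚ C3) (eisStab3 (12 * m)) =
        bPow x * u.subst (hauptmodul 3 C3) := by
    rw [hu, hCs, PowerSeries.subst_sub hs, hCs]
    have h1 : (C c⁻¹ : PowerSeries C3) * C c = 1 := by
      rw [← map_mul, inv_mul_cancel₀ hne, map_one]
    calc PowerSeries.map (algebraMap ℚ C3) (eisStab3 (12 * m))
        = (C c⁻¹ * C c) * PowerSeries.map (algebraMap ℚ C3) (eisStab3 (12 * m)) := by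
          rw [h1, one_mul]
      _ = C c⁻¹ * (C c * PowerSeries.map (algebraMap ℚ C3) (eisStab3 (12 * m))) := by ring
      _ = _ := by rw [hS1]; ring
  refine ⟨u, ?_, ?_, heq⟩
  · -- the constant coefficient
    have h1 := congrArg (PowerSeries.constantCoeff) heq
    rw [hbm, map_mul, map_pow, d3_cs_bser0, one_pow, one_mul,
      ← PowerSeries.coeff_zero_eq_constantCoeff_apply,
      ← PowerSeries.coeff_zero_eq_constantCoeff_apply, fx_coeff_subst, PowerSeries.coeff_map,
      Finset.sum_range_zero, zero_add] at h1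
    rw [← h1]
    unfold eisStab3
    rw [map_add, PowerSeries.coeff_mk]
    simp
  · -- the bound
    obtain ⟨A, hA⟩ : ∃ A : ℝ, A = ∑ j ∈ Finset.range (P.natDegree + 1), ‖Q.coeff j‖ := ⟨_, rfl⟩
    have hA0 : 0 ≤ A := hA ▸ Finset.sum_nonneg fun j _ => norm_nonneg _
    have hQz : ∀ j, P.natDegree < j → Q.coeff j = 0 := by
      intro j hj
      rw [hQ, Polynomial.coeff_map, Polynomial.coeff_eq_zero_of_natDegree_lt hj, map_zero]
    have hQA : ∀ j, ‖Q.coeff j‖ ≤ A := by
      intro j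
      by_cases hj : j ≤ P.natDegree
      · rw [hA]
        exact Finset.single_le_sum (f := fun j => ‖Q.coeff j‖) (fun j _ => norm_nonneg _)
          (Finset.mem_range.2 (Nat.lt_succ_of_le hj))
      · rw [hQz j (by omega), norm_zero]
        exact hA0
    have hx1 : ‖x‖ ≤ 1 := by
      rw [hx]
      exact IsUltrametricDist.norm_natCast_le_one C3 _
    have hd1 : ‖d‖ ≤ 1 := by
      rw [hd, norm_pow]
      refine pow_le_one₀ (norm_nonneg _) ?_
      have h := IsUltrametricDist.norm_natCast_le_one C3 3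
      simpa using h
    have hv1 : ∀ n, ‖PowerSeries.coeff n v‖ * (5 / 3 : ℝ) ^ n ≤ (5 / 3) ^ P.natDegree * A := by
      intro n
      have h1 : ‖PowerSeries.coeff n v‖ ≤ (27 / 125 : ℝ) ^ n * ((5 / 3) ^ P.natDegree * A) := by
        rw [hv, PowerSeries.coeff_mk]
        refine (IsUltrametricDist.norm_sum_le_of_forall_le_of_nonneg (by positivity)
          fun j hj => ?_)
        rw [Polynomial.coeff_coe, norm_mul]
        by_cases hjP : j ≤ P.natDegree
        · have hj2 : j ≤ 3 * n := by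
            have := Finset.mem_range.1 hj
            omega
          have h2 : (3 / 5 : ℝ) ^ (3 * n - j) ≤ (27 / 125 : ℝ) ^ n * (5 / 3) ^ P.natDegree := by
            have h3 : (3 / 5 : ℝ) ^ (3 * n - j) = (27 / 125 : ℝ) ^ n * (5 / 3) ^ j := by
              have h4 : (3 / 5 : ℝ) ^ (3 * n - j) * (3 / 5) ^ j = (27 / 125 : ℝ) ^ n := by
                rw [← pow_add, Nat.sub_add_cancel hj2, pow_mul]
                norm_num
              rw [← h4, mul_assoc, ← mul_pow]
              norm_num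
            rw [h3]
            exact mul_le_mul_of_nonneg_left (pow_le_pow_right₀ (by norm_num) hjP) (by positivity)
          calc ‖Mat3 0 x n j‖ * ‖Q.coeff j‖
              ≤ ((27 / 125 : ℝ) ^ n * (5 / 3) ^ P.natDegree) * A :=
                mul_le_mul ((hB x hx1 n j hj2).trans h2) (hQA j) (norm_nonneg _) (by positivity)
            _ = _ := by ring
        · rw [hQz j (by omega), norm_zero, mul_zero]
          positivity
      calc ‖PowerSeries.coeff n v‖ * (5 / 3 : ℝ) ^ n
          ≤ ((27 / 125 : ℝ) ^ n * ((5 / 3) ^ P.natDegree * A)) * (5 / 3 : ℝ) ^ n :=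
            mul_le_mul_of_nonneg_right h1 (by positivity)
        _ = ((27 / 125 : ℝ) * (5 / 3)) ^ n * ((5 / 3) ^ P.natDegree * A) := by
            rw [mul_pow]; ring
        _ ≤ 1 * ((5 / 3) ^ P.natDegree * A) :=
            mul_le_mul_of_nonneg_right (pow_le_one₀ (by norm_num) (by norm_num)) (by positivity)
        _ = _ := one_mul _
    have hq1 : ∀ n, ‖Q.coeff n‖ * (5 / 3 : ℝ) ^ n ≤ (5 / 3) ^ P.natDegree * A := by
      intro n
      by_cases hn : n ≤ P.natDegree
      · rw [mul_comm]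
        exact mul_le_mul (pow_le_pow_right₀ (by norm_num) hn) (hQA n) (norm_nonneg _)
          (by positivity)
      · rw [hQz n (by omega), norm_zero, zero_mul]
        positivity
    refine ⟨‖c⁻¹‖ * ((5 / 3) ^ P.natDegree * A + (5 / 3) ^ P.natDegree * A), fun n => ?_⟩
    have h1 : PowerSeries.coeff n u = c⁻¹ * (PowerSeries.coeff n v - d * Q.coeff n) := by
      rw [hu, PowerSeries.coeff_C_mul, map_sub, PowerSeries.coeff_C_mul, Polynomial.coeff_coe]
    rw [h1, norm_mul, mul_assoc]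
    refine mul_le_mul_of_nonneg_left ?_ (norm_nonneg _)
    have h2 : ‖PowerSeries.coeff n v - d * Q.coeff n‖ ≤
        ‖PowerSeries.coeff n v‖ + ‖Q.coeff n‖ := by
      refine (norm_sub_le _ _).trans (add_le_add le_rfl ?_)
      rw [norm_mul]
      calc ‖d‖ * ‖Q.coeff n‖ ≤ 1 * ‖Q.coeff n‖ := mul_le_mul_of_nonneg_right hd1 (norm_nonneg _)
        _ = _ := one_mul _
    calc ‖PowerSeries.coeff n v - d * Q.coeff n‖ * (5 / 3 : ℝ) ^ n
        ≤ (‖PowerSeries.coeff n v‖ + ‖Q.coeff n‖) * (5 / 3 : ℝ) ^ n :=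
          mul_le_mul_of_nonneg_right h2 (by positivity)
      _ = ‖PowerSeries.coeff n v‖ * (5 / 3 : ℝ) ^ n + ‖Q.coeff n‖ * (5 / 3 : ℝ) ^ n := by ring
      _ ≤ _ := add_le_add (hv1 n) (hq1 n)

end D3

end GH
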