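import Pool.Agent.GH.D3.Base3
import Pool.Agent.GH.Tate
import Pool.Agent.GH.D3.Param3
import Pool.Agent.GH.FExp
import Pool.Agent.GH.D3.QJac
import Pool.Agent.GH.D3.QHaupt3
import Pool.Agent.GH.D3.UMat3B
import Pool.Agent.GH.D3.UBound3
import Pool.Agent.GH.D3.ClG12
import Pool.Agent.GH.D3.ClEk3
import Pool.Agent.GH.D3.ClStab3

open PowerSeries Filter Topology

noncomputable section

namespace GH

namespace D3

/-! On the central disc `E_κ = b^x u_x(f)`. -/

/-- The output of `Ord3`. -/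
structure OrdVec3 (u : ℕ → C3 → C3) : Prop where
  eqs : ∀ x : C3, ‖x‖ ≤ 1 → u 0 x = 1 ∧ (∀ n, ‖u n x‖ * (5 / 3 : ℝ) ^ n ≤ 1) ∧
        ∀ i, u i x = ∑ j ∈ Finset.range (3 * i + 1), Mat3 0 x i j * u j x
  tate : ∀ n, IsTate (u n)
  uniq : ∀ x : C3, ‖x‖ ≤ 1 → ∀ v : ℕ → C3, v 0 = 1 →
        (∃ B : ℝ, ∀ n, ‖v n‖ * (5 / 3 : ℝ) ^ n ≤ B) →
        (∀ i, v i = ∑ j ∈ Finset.range (3 * i + 1), Mat3 0 x i j * v j) →
        ∀ n, v n = u n x

/-- The output of `EisFam3`. -/
structure EisFamily3 (E : PowerSeries Lam3) : Prop where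
  c0 : PowerSeries.coeff 0 E = 1
  dvd : ∀ n, 1 ≤ n → X ∣ PowerSeries.coeff n E
  eig : U 3 E = E
  eis : ∀ κ : Weight 3, κ.IsEven → κ.eis = evS3 κ.w E
  cls : ∀ m : ℕ, 1 ≤ m → evS3 (7 ^ (12 * m) - 1) E =
      PowerSeries.map (algebraMap ℚ C3) (eisStab3 (12 * m))

/-! ### helper lemmas `d3gl_...` -/

theorem d3gl_hIds (K : Type*) [Field K] : HIds3 K where
  c0 := coeff_zero_hser3 K
  c1 := coeff_one_hser3 K
  t0 := constantCoeff_bser K
  f1 := hauptmodul3_eq euler_cube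
  f2 := expand_hauptmodul3 euler_cube
  h1 := exists_hser3_inv euler_cube
  t3 := bser_cube euler_cube

theorem d3gl_U_evS (w : C3) (E : PowerSeries Lam3) : U 3 (evS3 w E) = evS3 w (U 3 E) := by
  ext n
  unfold U evS3
  rw [PowerSeries.coeff_mk, PowerSeries.coeff_mk, PowerSeries.coeff_mk, PowerSeries.coeff_mk]

theorem d3gl_U_bPow (x : C3) (u : PowerSeries C3) :
    U 3 (bPow x * u.subst (hauptmodul 3 C3)) =
      bPow x * (PowerSeries.mk fun i ↦
        ∑ j ∈ Finset.range (3 * i + 1), Mat3 0 x i j * PowerSeries.coeff j u).subst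
        (hauptmodul 3 C3) := U_bPow_subst (d3gl_hIds C3) x u

theorem d3gl_U_haupt (j : ℕ) : U 3 (hauptmodul 3 ℚ ^ j) =
    (PowerSeries.mk fun i ↦ Mat3 0 (0 : ℚ) i j).subst (hauptmodul 3 ℚ) := by
  have h := U_bPow (d3gl_hIds ℚ) 0 j
  have h0 : (bPow (0 : ℚ) : PowerSeries ℚ) = 1 := by
    have h1 := bPow_natCast (K := ℚ) 0
    rw [mul_zero, pow_zero, Nat.cast_zero] at h1
    exact h1
  rw [h0, one_mul, one_mul] at h
  exact h

theorem d3gl_exists_stab (m : ℕ) (hm : 1 ≤ m) :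
    ∃ u : PowerSeries C3, PowerSeries.coeff 0 u = 1 ∧
      (∃ B : ℝ, ∀ n, ‖PowerSeries.coeff n u‖ * (5 / 3 : ℝ) ^ n ≤ B) ∧
      PowerSeries.map (algebraMap ℚ C3) (eisStab3 (12 * m)) =
        bPow ((12 * m : ℕ) : C3) * u.subst (hauptmodul 3 C3) := by
  have hd : hauptmodul 3 ℚ * bser ℚ ^ 12 = X * euler ℚ 1 ^ 24 := hauptmodul3_mul_bser euler_cube
  exact exists_stab3
    (fun m hm => eisQ_eq_bser exists_G12_form (G12_eq d3gl_U_haupt hd) hd m hm)
    eisStab3_eq d3gl_U_bPow (fun m => bPow_natCast m)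
    (fun x hx i j h => norm_Mat3_le (by norm_num) hx h) m hm

/-- The identity at the classical weights. -/
theorem d3gl_nat (E : PowerSeries Lam3) (hE : EisFamily3 E) (u : ℕ → C3 → C3)
    (hu : OrdVec3 u) (m : ℕ) (hm : 1 ≤ m) :
    evS3 (wx3 ((12 * m : ℕ) : C3)) E = bPow ((12 * m : ℕ) : C3) *
      (PowerSeries.mk fun n ↦ u n ((12 * m : ℕ) : C3)).subst (hauptmodul 3 C3) := by
  obtain ⟨v, hv0, hvB, hv⟩ := d3gl_exists_stab m hm
  obtain ⟨x, hx⟩ : ∃ x : C3, x = ((12 * m : ℕ) : C3) := ⟨_, rfl⟩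
  have hx1 : ‖x‖ ≤ 1 := by
    rw [hx]
    exact IsUltrametricDist.norm_natCast_le_one C3 _
  have h1 : evS3 (wx3 x) E = bPow x * v.subst (hauptmodul 3 C3) := by
    rw [hx, wx3_natCast, hE.cls m hm, hv]
  have h2 : U 3 (evS3 (wx3 x) E) = evS3 (wx3 x) E := by rw [d3gl_U_evS, hE.eig]
  rw [h1, d3gl_U_bPow] at h2
  have h0 : bPow x ≠ 0 := by
    have h4 := bPow_natCast (K := C3) (4 * m)
    rw [show 3 * (4 * m) = 12 * m by ring, ← hx] at h4
    rw [h4]
    intro h
    have h3 := congrArg PowerSeries.constantCoeff h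
    rw [map_pow, constantCoeff_bser, one_pow, map_zero] at h3
    exact one_ne_zero h3
  have h3 := mul_left_cancel₀ h0 h2
  have h4 : ∀ i, PowerSeries.coeff i v = ∑ j ∈ Finset.range (3 * i + 1),
      Mat3 0 x i j * PowerSeries.coeff j v := by
    intro i
    have h5 := congrArg (fun F => fcoeff 3 F i) h3
    simp only [fcoeff_subst, PowerSeries.coeff_mk] at h5
    exact h5.symm
  have h5 : v = PowerSeries.mk fun n ↦ u n x := by
    ext n
    rw [PowerSeries.coeff_mk]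
    exact hu.uniq x hx1 (fun n => PowerSeries.coeff n v) hv0 hvB h4 n
  rw [← hx, h1, ← h5]

theorem d3gl_tate_binS (m : ℕ) : IsTate fun x : C3 ↦ PowerSeries.coeff m (binS (x / 3)) := by
  have h : (fun x : C3 ↦ PowerSeries.coeff m (binS (x / 3))) =
      fun x : C3 ↦ (∏ i ∈ Finset.range m, (x * 3⁻¹ - (i : C3))) * ((m.factorial : C3))⁻¹ := by
    funext x
    unfold binS
    rw [PowerSeries.coeff_mk, div_eq_mul_inv, div_eq_mul_inv]
  rw [h]
  refine IsTate.mul (IsTate.prod _ fun i _ => ?_) (IsTate.const _)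
  exact IsTate.sub (IsTate.mul IsTate.id (IsTate.const _)) (IsTate.const _)

theorem d3gl_coeff_bPow (x : C3) (n : ℕ) : PowerSeries.coeff n (bPow x) =
    ∑ m ∈ Finset.range (n + 1), PowerSeries.coeff m (binS (x / 3)) *
      PowerSeries.coeff n ((bser C3 ^ 3 - 1) ^ m) := by
  have h0 : PowerSeries.constantCoeff (bser C3 ^ 3 - 1) = 0 := by
    rw [map_sub, map_pow, constantCoeff_bser]
    simp
  have hs : HasSubst (bser C3 ^ 3 - 1) := HasSubst.of_constantCoeff_zero' h0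
  unfold bPow ppow
  rw [PowerSeries.coeff_subst' hs, finsum_eq_sum_of_support_subset (s := Finset.range (n + 1))]
  · exact Finset.sum_congr rfl fun m _ => by rw [smul_eq_mul]
  · intro m hm
    rw [Function.mem_support] at hm
    rw [Finset.coe_range, Set.mem_Iio]
    by_contra h
    refine hm ?_
    have h1 : (X : PowerSeries C3) ^ m ∣ (bser C3 ^ 3 - 1) ^ m :=
      pow_dvd_pow_of_dvd (PowerSeries.X_dvd_iff.2 h0) m
    rw [PowerSeries.X_pow_dvd_iff.1 h1 n (by omega), smul_zero]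

theorem d3gl_tate_bPow (n : ℕ) : IsTate fun x : C3 ↦ PowerSeries.coeff n (bPow x) := by
  have h : (fun x : C3 ↦ PowerSeries.coeff n (bPow x)) = fun x ↦
    ∑ m ∈ Finset.range (n + 1), PowerSeries.coeff m (binS (x / 3)) *
      PowerSeries.coeff n ((bser C3 ^ 3 - 1) ^ m) := by
    funext x
    exact d3gl_coeff_bPow x n
  rw [h]
  exact IsTate.sum _ fun m _ => IsTate.mul (d3gl_tate_binS m) (IsTate.const _)

theorem d3gl_tate_subst (u : ℕ → C3 → C3) (hu : ∀ n, IsTate (u n)) (n : ℕ) :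
    IsTate fun x : C3 ↦ PowerSeries.coeff n
      ((PowerSeries.mk fun n ↦ u n x).subst (hauptmodul 3 C3) : PowerSeries C3) := by
  have h : (fun x : C3 ↦ PowerSeries.coeff n
      ((PowerSeries.mk fun n ↦ u n x).subst (hauptmodul 3 C3) : PowerSeries C3)) = fun x ↦
      (∑ m ∈ Finset.range n, u m x * PowerSeries.coeff n (hauptmodul 3 C3 ^ m)) + u n x := by
    funext x
    rw [fx_coeff_subst]
    simp only [PowerSeries.coeff_mk]
  rw [h]
  exact IsTate.add (IsTate.sum _ fun m _ => IsTate.mul (hu m) (IsTate.const _)) (hu n)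

theorem evS3_eisFam (E : PowerSeries Lam3) (hE : EisFamily3 E) (u : ℕ → C3 → C3)
    (hu : OrdVec3 u) (x : C3) (hx : ‖x‖ ≤ 1) :
    evS3 (wx3 x) E = bPow x * (PowerSeries.mk fun n ↦ u n x).subst (hauptmodul 3 C3) := by
  ext n
  have hT : IsTate fun x : C3 ↦ PowerSeries.coeff n (evS3 (wx3 x) E) -
      PowerSeries.coeff n (bPow x *
        (PowerSeries.mk fun n ↦ u n x).subst (hauptmodul 3 C3)) := by
    refine IsTate.sub ?_ ?_
    · have h : (fun x : C3 ↦ PowerSeries.coeff n (evS3 (wx3 x) E)) =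
          fun x ↦ ev3 (wx3 x) (PowerSeries.coeff n E) := by
        funext x
        unfold evS3
        rw [PowerSeries.coeff_mk]
      rw [h]
      exact isTate_ev_wx3 _
    · have h : (fun x : C3 ↦ PowerSeries.coeff n (bPow x *
          (PowerSeries.mk fun n ↦ u n x).subst (hauptmodul 3 C3))) = fun x ↦
          ∑ p ∈ Finset.HasAntidiagonal.antidiagonal n, PowerSeries.coeff p.1 (bPow x) *
            PowerSeries.coeff p.2 ((PowerSeries.mk fun n ↦ u n x).subst (hauptmodul 3 C3) :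
              PowerSeries C3) := by
        funext x
        rw [PowerSeries.coeff_mul]
      rw [h]
      exact IsTate.sum _ fun p _ =>
        IsTate.mul (d3gl_tate_bPow p.1) (d3gl_tate_subst u hu.tate p.2)
  have hS : (Set.range fun m : ℕ => ((12 * (m + 1) : ℕ) : C3)).Infinite := by
    refine Set.infinite_range_of_injective fun a b hab => ?_
    have h : 12 * (a + 1) = 12 * (b + 1) := Nat.cast_injective hab
    omega
  have h := hT.eq_zero_of_infinite (hS.mono (by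
      rintro _ ⟨m, rfl⟩
      refine ⟨IsUltrametricDist.norm_natCast_le_one C3 _, ?_⟩
      have h1 := d3gl_nat E hE u hu (m + 1) (by omega)
      simp only []
      rw [h1, sub_self])) hx
  exact sub_eq_zero.1 h

end D3

end GH
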