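import Pool.Agent.GH.D3.Base3
import Pool.Agent.GH.OrdP

open PowerSeries Filter Topology

noncomputable section

namespace GH

namespace D3

/-! The ordinary eigenvector of `U_3` of weight `x`, analytic in `x`. -/

/-- The matrix is contracting for the weights `(3/5)^j`. -/
theorem d3o_contr (M : ℕ → ℕ → C3) (h0 : M 0 0 = 1)
    (hle : ∀ i j : ℕ, j ≤ 3 * i → ‖M i j‖ ≤ (3 / 5 : ℝ) ^ (3 * i - j)) :
    OP.Contr M 3 (3 / 5) (3 / 5) where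
  ρ0 := by norm_num
  ρ1 := by norm_num
  δ0 := by norm_num
  δ1 := by norm_num
  c00 := h0
  ent := by
    intro i j hj hij
    have h1 : ‖M i j‖ * (3 / 5 : ℝ) ^ j ≤ (3 / 5 : ℝ) ^ (3 * i - j) * (3 / 5 : ℝ) ^ j :=
      mul_le_mul_of_nonneg_right (hle i j hij) (by positivity)
    refine h1.trans ?_
    rw [← pow_add, ← pow_succ']
    exact pow_le_pow_of_le_one (by norm_num) (by norm_num) (by omega)
  col := by
    intro i _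
    refine (hle i 0 (Nat.zero_le _)).trans ?_
    exact pow_le_pow_of_le_one (by norm_num) (by norm_num) (by omega)

theorem exists_ord3
    (h0 : ∀ x : C3, Mat3 0 x 0 0 = 1)
    (hle : ∀ x : C3, ‖x‖ ≤ 1 → ∀ i j : ℕ, j ≤ 3 * i →
      ‖Mat3 0 x i j‖ ≤ (3 / 5 : ℝ) ^ (3 * i - j))
    (hlt : ∀ x : C3, ‖x‖ ≤ 1 → ∀ i j : ℕ, j < 3 * i →
      ‖Mat3 0 x i j‖ ≤ (3 / 5 : ℝ) ^ (3 * i - j + 1))
    (hpoly : ∀ i j : ℕ, ∃ P : Polynomial C3, ∀ x : C3, Mat3 0 x i j = P.eval x) :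
    ∃ u : ℕ → C3 → C3,
      (∀ x : C3, ‖x‖ ≤ 1 → u 0 x = 1 ∧ (∀ n, ‖u n x‖ * (5 / 3 : ℝ) ^ n ≤ 1) ∧
        ∀ i, u i x = ∑ j ∈ Finset.range (3 * i + 1), Mat3 0 x i j * u j x) ∧
      (∀ n, IsTate (u n)) ∧
      (∀ x : C3, ‖x‖ ≤ 1 → ∀ v : ℕ → C3, v 0 = 1 →
        (∃ B : ℝ, ∀ n, ‖v n‖ * (5 / 3 : ℝ) ^ n ≤ B) →
        (∀ i, v i = ∑ j ∈ Finset.range (3 * i + 1), Mat3 0 x i j * v j) →
        ∀ n, v n = u n x) := by
  have hinv : ∀ n : ℕ, (3 / 5 : ℝ) ^ n * (5 / 3 : ℝ) ^ n = 1 := fun n => by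
    rw [← mul_pow]
    norm_num
  have hc : ∀ x : C3, ‖x‖ ≤ 1 → OP.Contr (fun i j => Mat3 0 x i j) 3 (3 / 5) (3 / 5) :=
    fun x hx => d3o_contr _ (h0 x) (hle x hx)
  have hentry : ∀ i j, IsTate fun x : C3 => Mat3 0 x i j := by
    intro i j
    obtain ⟨P, hP⟩ := hpoly i j
    exact (IsTate.poly P).congr fun x _ => (hP x).symm
  refine ⟨fun i x => OP.fx (fun i j => Mat3 0 x i j) 3 i,
    fun x hx => ⟨OP.fx_zero _ _, fun n => ?_, fun i => ?_⟩,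
    fun n => ?_, fun x hx v hv0 hvB hv n => ?_⟩
  · calc ‖OP.fx (fun i j => Mat3 0 x i j) 3 n‖ * (5 / 3 : ℝ) ^ n
        ≤ (3 / 5 : ℝ) ^ n * (5 / 3 : ℝ) ^ n :=
          mul_le_mul_of_nonneg_right ((hc x hx).fx_bound n) (by positivity)
      _ = 1 := hinv n
  · exact (hc x hx).fx_eq i
  · exact OP.isTate_fx (fun x i j => Mat3 0 x i j) 3 hc hentry n
  · obtain ⟨B, hB⟩ := hvB
    refine (hc x hx).unique v hv0 (B := B) (fun m => ?_) hv n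
    calc ‖v m‖ = (‖v m‖ * (5 / 3 : ℝ) ^ m) * (3 / 5 : ℝ) ^ m := by
          rw [mul_assoc, mul_comm ((5 / 3 : ℝ) ^ m), hinv, mul_one]
      _ ≤ B * (3 / 5 : ℝ) ^ m := mul_le_mul_of_nonneg_right (hB m) (by positivity)

end D3

end GH
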