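import Pool.Agent.GH.D3.UMat3B
import Pool.Agent.GH.D3.UBound3
import Pool.Agent.GH.D3.ZChar3
import Pool.Agent.GH.D3.EisFam3
import Pool.Agent.GH.D3.GaussN3
import Pool.Agent.GH.D3.Param3
import Pool.Agent.GH.D3.Ord3
import Pool.Agent.GH.D3.Glue3
import Pool.Agent.GH.D3.Fam3
import Pool.Agent.GH.D3.FredFam3
import Pool.Agent.GH.D3.Ext3

/-!
# Final assembly: the central theorem implies the ghost conjecture for `p = 3`, `N = 1`
-/

open PowerSeries Filter Topology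

noncomputable section

namespace GH

namespace D3

/-- The theorem on the central disc. -/
def CentralTheorem3 : Prop :=
  ∀ x : C3, ‖x‖ ≤ 1 →
    (∀ a : ℕ, a ≤ 2 → ‖x - a‖ < 1 →
      newtonPolygon 3 (fred (Mat3 a x)) = newtonPolygon 3 (ghost 3 (wx3 x))) ∧
    ((∀ a : ℕ, a ≤ 2 → ‖x - a‖ = 1) →
      newtonPolygon 3 (fred (Mat3 0 x)) = newtonPolygon 3 (ghost 3 (wx3 x)))

theorem Mat3_zero_of_lt (a : ℕ) (x : C3) (i j : ℕ) (h : 3 * i < j) : Mat3 a x i j = 0 := by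
  simp [Mat3, not_le.mpr h]

/-- The three matrices have the same Fredholm series. -/
theorem fred_Mat3_eq {a : ℕ} (ha : a ≤ 2) {x : C3} (hx : ‖x‖ ≤ 1) :
    fred (Mat3 0 x) = fred (Mat3 a x) := by
  have h35 : (5 / 3 : ℝ)⁻¹ = 3 / 5 := by norm_num
  funext m
  refine fred_eq_of_toeplitz_p 3 (by norm_num) (Mat3 0 x) (Mat3 a x) (fun n ↦ v3 a n) (5 / 3) 1
    (by norm_num) (Mat3_zero_of_lt 0 x) (Mat3_zero_of_lt a x) ?_ ?_ (v3_zero a) ?_ ?_ m
  · intro i j h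
    rw [h35, one_mul]
    exact norm_Mat3_le (by norm_num) hx h
  · intro i j h
    rw [h35, one_mul]
    exact norm_Mat3_le ha hx h
  · intro n
    have h1 := norm_v3_le ha n
    have h2 : (3 : ℝ)⁻¹ ^ n * (5 / 3) ^ n ≤ 1 := by
      rw [← mul_pow]
      exact pow_le_one₀ (by norm_num) (by norm_num)
    calc ‖(v3 a n : C3)‖ * (5 / 3) ^ n ≤ (3 : ℝ)⁻¹ ^ n * (5 / 3) ^ n :=
          mul_le_mul_of_nonneg_right h1 (by positivity)
      _ ≤ 1 := h2
  · intro i j _ _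
    exact Mat3_mul_v3 a ha x i j

theorem m3_pow_le {n : ℕ} : (3 / 5 : ℝ) ^ n ≤ (7 / 6 : ℝ)⁻¹ ^ n :=
  pow_le_pow_left₀ (by norm_num) (by norm_num) n

/-- The change of basis from `b^x f^j` to `E f^j`. -/
theorem fred_fam3_eq (E : PowerSeries Lam3) (hE : EisFamily3 E) (u : ℕ → C3 → C3)
    (hu : OrdVec3 u) {x : C3} (hx : ‖x‖ ≤ 1) :
    fred (fun i j ↦ ev3 (wx3 x) (famMatrix3 E i j)) = fred (Mat3 0 x) := by
  have hw8 : ‖wx3 x‖ ≤ 1 / 3 := by
    rw [norm_wx3 hx]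
    linarith
  have hw1 : ‖wx3 x‖ < 1 := lt_of_le_of_lt hw8 (by norm_num)
  funext m
  symm
  refine fred_eq_of_toeplitz_p 3 (by norm_num) (Mat3 0 x) _ (fun n ↦ u n x) (7 / 6) 1
    (by norm_num) (Mat3_zero_of_lt 0 x) ?_ ?_ ?_ (hu.eqs x hx).1 ?_ ?_ m
  · intro i j h
    simp only [famMatrix3_of_lt E hE h]
    have := ev3_C hw1 0
    simpa using this
  · intro i j h
    rw [one_mul]
    exact (norm_Mat3_le (by norm_num) hx h).trans m3_pow_le
  · intro i j h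
    change ‖ev3 (wx3 x) (famMatrix3 E i j)‖ ≤ _
    rw [ev3_famMatrix E hE hw1]
    refine IsUltrametricDist.norm_sum_le_of_forall_le_of_nonneg (by positivity) ?_
    intro k hk
    have hk2 : k ≤ 3 * i := by
      simpa [Nat.lt_succ_iff] using Finset.mem_range.mp hk
    split_ifs with hjk
    · rw [norm_mul, one_mul]
      have h0 : ‖(0 : C3)‖ ≤ 1 := by simp
      have h1 : ‖Mat3 0 (0 : C3) i k‖ ≤ (7 / 6 : ℝ)⁻¹ ^ (3 * i - k) :=
        (norm_Mat3_le (by norm_num) h0 hk2).trans m3_pow_le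
      have h2 : ‖ev3 (wx3 x) (Phi3 E (k - j))‖ ≤ (7 / 6 : ℝ)⁻¹ ^ (k - j) := by
        have := norm_Phi3_central E hE u hu hw8 (k - j)
        rw [inv_pow]
        rwa [← le_div_iff₀ (by positivity), one_div] at this
      have h3 : 3 * i - j = (3 * i - k) + (k - j) := by omega
      rw [h3, pow_add]
      exact mul_le_mul h1 h2 (norm_nonneg _) (by positivity)
    · rw [norm_zero]
      positivity
  · intro n
    have h1 := (hu.eqs x hx).2.1 n
    refine le_trans ?_ h1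
    exact mul_le_mul_of_nonneg_left (pow_le_pow_left₀ (by norm_num) (by norm_num) n)
      (norm_nonneg _)
  · intro i j _ _
    exact Mat3_mul_u E hE u hu hx i j

theorem ghostConjecture_three (hc : CentralTheorem3) : GhostConjecture 3 := by
  obtain ⟨E, hE1, hE2, hE3, hE4, hE5⟩ := exists_eisFam3
  have hE : EisFamily3 E := ⟨hE1, hE2, hE3, hE4, hE5⟩
  obtain ⟨u, hu1, hu2, hu3⟩ := exists_ord3 (fun x ↦ Mat3_zero_zero x)
    (fun x hx i j h ↦ norm_Mat3_le (by norm_num) hx h) (fun x hx i j h ↦ norm_Mat3_lt hx h)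
    (fun i j ↦ Mat3_isPoly 0 i j)
  have hu : OrdVec3 u := ⟨hu1, hu2, hu3⟩
  have hPhi : ∀ w : C3, ‖w‖ ≤ 1 / 3 → ∀ l, ‖ev3 w (Phi3 E l)‖ * (7 / 6 : ℝ) ^ l ≤ 1 :=
    fun w hw l ↦ norm_Phi3_central E hE u hu hw l
  have hb := norm_famMatrix3_le E hE hPhi norm_coeff_le_of_bound3
  obtain ⟨a, ha⟩ := exists_fred_family3 (famMatrix3 E)
    (fun i j h ↦ famMatrix3_of_lt E hE h) hb
  have ha' : ∀ w : C3, ‖w‖ < 1 → fred (fun i j ↦ ev3 w (famMatrix3 E i j)) =
      fun m ↦ ev3 w (a m) := by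
    intro w hw
    funext m
    exact (ha w hw m).limUnder_eq
  have h0 : ∀ w : C3, ‖w‖ < 1 → ev3 w (a 0) = 1 := by
    intro w hw
    refine tendsto_nhds_unique (ha w hw 0) ?_
    have : (fun N : ℕ ↦ fredBlock (fun i j ↦ ev3 w (famMatrix3 E i j)) N 0) = fun _ ↦ 1 := by
      funext N
      simp [fredBlock, Polynomial.coeff_zero_eq_eval_zero]
    rw [this]
    exact tendsto_const_nhds
  have hcent : ∀ w : C3, ‖w‖ ≤ 1 / 3 →
      newtonPolygon 3 (fun n ↦ ev3 w (a n)) = newtonPolygon 3 (ghost 3 w) := by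
    intro w hw
    obtain ⟨x, hx, rfl⟩ := exists_wx3_eq hw
    have hw1 : ‖wx3 x‖ < 1 := lt_of_le_of_lt hw (by norm_num)
    rw [← ha' _ hw1, fred_fam3_eq E hE u hu hx]
    by_cases h : ∃ b : ℕ, b ≤ 2 ∧ ‖x - b‖ < 1
    · obtain ⟨b, hb2, hb⟩ := h
      rw [fred_Mat3_eq hb2 hx]
      exact (hc x hx).1 b hb2 hb
    · refine (hc x hx).2 fun b hb2 ↦ ?_
      have h1 : ‖x - b‖ ≤ 1 := by
        have := IsUltrametricDist.norm_add_le_max x (-(b : C3))
        rw [← sub_eq_add_neg, norm_neg] at this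
        refine this.trans (max_le hx ?_)
        exact IsUltrametricDist.norm_natCast_le_one C3 b
      rcases h1.eq_or_lt with h2 | h2
      · exact h2
      · exact absurd ⟨b, hb2, h2⟩ h
  intro κ hκ
  have hw : ‖κ.w‖ < 1 := norm_w_lt_one3 κ hκ
  have hm : κ.uMatrix = fun i j ↦ ev3 κ.w (famMatrix3 E i j) := by
    funext i j
    exact uMatrix3_eq E hE κ hκ i j
  refine ⟨fun m ↦ ⟨ev3 κ.w (a m), ?_⟩, ?_⟩
  · rw [hm]
    exact ha κ.w hw m
  · have : κ.charSeries = fun m ↦ ev3 κ.w (a m) := by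
      rw [← ha' κ.w hw]
      funext m
      rw [Weight.charSeries, hm]
    rw [this]
    exact ghost3_extend a h0 hcent hw

end D3

end GH
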