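import Pool.Agent.GH.D3.ClG12a

/-! Modularity of the function `b^12 + 3^6 Δ (f(z/3) + f((z+1)/3) + f((z+2)/3))`. -/

open PowerSeries Filter Topology

noncomputable section

namespace GH

namespace D3

open GH.E4 ModularForm
open Complex (I exp)

/-- `A = η^12`. -/
def Ae (z : ℂ) : ℂ := eta z ^ 12

theorem Ae_ne {z : ℂ} (hz : 0 < z.im) : Ae z ≠ 0 := pow_ne_zero _ (eta_ne_zero hz)

theorem eta_q_exp (z : ℂ) : Function.Periodic.qParam 1 z = exp (2 * Real.pi * I * z) := by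
  rw [Function.Periodic.qParam]
  simp

theorem Ae_eq (z : ℂ) : Ae z = exp (Real.pi * I * z) * Pq (exp (2 * Real.pi * I * z)) ^ 12 := by
  rw [Ae, eta, mul_pow]
  congr 1
  · rw [Function.Periodic.qParam, ← Complex.exp_nat_mul]
    congr 1
    push_cast
    ring
  · rw [Pq]
    simp only [eta_q, eta_q_exp]

theorem Ae_add_one (z : ℂ) : Ae (z + 1) = - Ae z := by
  have h1 : exp (Real.pi * I * (z + 1)) = - exp (Real.pi * I * z) := by
    rw [mul_add, Complex.exp_add, mul_one, Complex.exp_pi_mul_I]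
    ring
  have h2 : exp (2 * Real.pi * I * (z + 1)) = exp (2 * Real.pi * I * z) := by
    rw [mul_add, Complex.exp_add, mul_one, Complex.exp_two_pi_mul_I, mul_one]
  rw [Ae_eq, Ae_eq, h1, h2]
  ring

theorem sqrt_twelve {z : ℂ} (hz : z ≠ 0) : Complex.sqrt z ^ 12 = z ^ 6 := by
  rw [_root_.sqrt_eq_exp hz, ← Complex.exp_nat_mul]
  have : ((12 : ℕ) : ℂ) * (Complex.log z / 2) = (6 : ℕ) * Complex.log z := by
    push_cast
    ring
  rw [this, Complex.exp_nat_mul, Complex.exp_log hz]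

theorem Ae_S {z : ℂ} (hz : 0 < z.im) : Ae (-1 / z) = - z ^ 6 * Ae z := by
  have hz0 : z ≠ 0 := by
    rintro rfl
    simp at hz
  have h := eta_comp_eq_csqrt_I_inv hz
  have h1 : eta (-1 / z) = (Complex.sqrt I)⁻¹ * (Complex.sqrt z * eta z) := h
  rw [Ae, h1, mul_pow, inv_pow, mul_pow, sqrt_twelve hz0, sqrt_twelve Complex.I_ne_zero, Ae]
  have hI : I ^ 6 = -1 := by
    have : I ^ 6 = (I ^ 2) ^ 3 := by ring
    rw [this, Complex.I_sq]
    norm_num
  rw [hI]
  norm_num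

theorem im_S {z : ℂ} (hz : 0 < z.im) : 0 < (-1 / z).im := by
  have hz0 : z ≠ 0 := by
    rintro rfl
    simp at hz
  rw [neg_div, one_div, Complex.neg_im, Complex.inv_im]
  have : 0 < Complex.normSq z := Complex.normSq_pos.mpr hz0
  rw [neg_div, neg_neg]
  positivity

theorem im_nat_mul {z : ℂ} (hz : 0 < z.im) {n : ℕ} (hn : 0 < n) : 0 < ((n : ℂ) * z).im := by
  rw [Complex.mul_im]
  simp only [Complex.natCast_re, Complex.natCast_im, zero_mul, add_zero]
  positivity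

theorem im_three {z : ℂ} (hz : 0 < z.im) : 0 < (3 * z).im := by
  have := im_nat_mul hz (n := 3) (by norm_num)
  simpa using this

theorem im_third {z : ℂ} (hz : 0 < z.im) : 0 < (z / 3).im := by
  have h : z / 3 = (((1 / 3 : ℝ)) : ℂ) * z := by
    push_cast
    ring
  rw [h, Complex.re_ofReal_mul |> fun _ ↦ Complex.im_ofReal_mul]
  positivity

/-- `f = η(3z)^12/η(z)^12`. -/
def fz (z : ℂ) : ℂ := Ae (3 * z) / Ae z

theorem fz_add_one (z : ℂ) : fz (z + 1) = fz z := by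
  have h : 3 * (z + 1) = 3 * z + 1 + 1 + 1 := by ring
  rw [fz, fz, h, Ae_add_one, Ae_add_one, Ae_add_one, Ae_add_one, neg_neg, neg_div_neg_eq]

theorem fz_ne {z : ℂ} (hz : 0 < z.im) : fz z ≠ 0 :=
  div_ne_zero (Ae_ne (im_three hz)) (Ae_ne hz)

/-- `f(-1/(3z)) f(z) = 3^{-6}`. -/
theorem fz_W {z : ℂ} (hz : 0 < z.im) : fz (-1 / (3 * z)) = ((3 : ℂ) ^ 6 * fz z)⁻¹ := by
  have hz0 : z ≠ 0 := by
    rintro rfl
    simp at hz
  have h1 : 3 * (-1 / (3 * z)) = -1 / z := by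
    field_simp
  have hA := Ae_ne hz
  have hA3 := Ae_ne (im_three hz)
  rw [fz, h1, Ae_S hz, Ae_S (im_three hz), fz]
  field_simp

/-- `f(u/(3u+1)) = f(u)`. -/
theorem fz_V {u : ℂ} (hu : 0 < u.im) : fz (u / (3 * u + 1)) = fz u := by
  have hu0 : u ≠ 0 := by
    rintro rfl
    simp at hu
  have h31 : 3 * u + 1 ≠ 0 := by
    intro h
    have h1 := congrArg Complex.im h
    have h2 := im_three hu
    rw [Complex.add_im, Complex.one_im, Complex.zero_im, add_zero] at h1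
    linarith
  obtain ⟨v, hv⟩ : ∃ v : ℂ, v = -1 / (3 * u) - 1 := ⟨_, rfl⟩
  have hw : 0 < (-1 / (3 * u)).im := im_S (im_three hu)
  have hvim : 0 < v.im := by
    rw [hv, Complex.sub_im, Complex.one_im, sub_zero]
    exact hw
  have h1 : u / (3 * u + 1) = -1 / (3 * v) := by
    rw [hv]
    have h3 : (3 : ℂ) * (-1 / (3 * u) - 1) = -((3 * u + 1) / u) := by
      field_simp
      ring
    rw [h3]
    field_simp
  have h2 : fz v = fz (-1 / (3 * u)) := by
    rw [← fz_add_one v, hv, sub_add_cancel]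
  rw [h1, fz_W hvim, h2, fz_W hu]
  have := fz_ne hu
  field_simp

/-- `f(u/(1-3u)) = f(u)`. -/
theorem fz_V' {u : ℂ} (hu : 0 < u.im) : fz (u / (1 - 3 * u)) = fz u := by
  have hu0 : u ≠ 0 := by
    rintro rfl
    simp at hu
  have h31 : 1 - 3 * u ≠ 0 := by
    intro h
    have h1 := congrArg Complex.im h
    have h2 := im_three hu
    rw [Complex.sub_im, Complex.one_im, Complex.zero_im] at h1
    linarith
  obtain ⟨v, hv⟩ : ∃ v : ℂ, v = -1 / (3 * u) + 1 := ⟨_, rfl⟩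
  have hw : 0 < (-1 / (3 * u)).im := im_S (im_three hu)
  have hvim : 0 < v.im := by
    rw [hv, Complex.add_im, Complex.one_im, add_zero]
    exact hw
  have h1 : u / (1 - 3 * u) = -1 / (3 * v) := by
    rw [hv]
    have h3 : (3 : ℂ) * (-1 / (3 * u) + 1) = -((1 - 3 * u) / u) := by
      field_simp
      ring
    rw [h3]
    field_simp
  have h2 : fz v = fz (-1 / (3 * u)) := by
    rw [hv, fz_add_one]
  rw [h1, fz_W hvim, h2, fz_W hu]
  have := fz_ne hu
  field_simp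

/-- The trace of `b^12`. -/
def Gc3 (z : ℂ) : ℂ :=
  Ae z ^ 3 / Ae (3 * z) + 3 ^ 6 * (Ae z ^ 2 * (fz (z / 3) + fz ((z + 1) / 3) + fz ((z + 2) / 3)))

theorem Gc3_add_one (z : ℂ) : Gc3 (z + 1) = Gc3 z := by
  have h : 3 * (z + 1) = 3 * z + 1 + 1 + 1 := by ring
  have h1 : (z + 1 + 1) / 3 = (z + 2) / 3 := by ring
  have h2 : (z + 1 + 2) / 3 = z / 3 + 1 := by ring
  rw [Gc3, Gc3, h, Ae_add_one, Ae_add_one, Ae_add_one, Ae_add_one, h1, h2, fz_add_one]
  ring

theorem Gc3_S {z : ℂ} (hz : 0 < z.im) : Gc3 (-1 / z) = z ^ 12 * Gc3 z := by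
  have hz0 : z ≠ 0 := by
    rintro rfl
    simp at hz
  have hA := Ae_ne hz
  have hA3 := Ae_ne (im_three hz)
  have hz3 := im_third hz
  have hAt := Ae_ne hz3
  have h1 : 3 * (-1 / z) = -1 / (z / 3) := by
    field_simp
  have h2 : -1 / z / 3 = -1 / (3 * z) := by
    field_simp
  have h4 : fz ((-1 / z + 1) / 3) = fz ((z + 2) / 3) := by
    obtain ⟨u, hu⟩ : ∃ u : ℂ, u = (z - 1) / 3 := ⟨_, rfl⟩
    have huim : 0 < u.im := by
      rw [hu]
      refine im_third ?_
      rw [Complex.sub_im, Complex.one_im, sub_zero]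
      exact hz
    have e1 : (-1 / z + 1) / 3 = u / (3 * u + 1) := by
      have : 3 * u + 1 = z := by
        rw [hu]
        ring
      rw [this, hu]
      field_simp
      ring
    have e2 : (z + 2) / 3 = u + 1 := by
      rw [hu]
      ring
    rw [e1, e2, fz_V huim, fz_add_one]
  have h5 : fz ((-1 / z + 2) / 3) = fz ((z + 1) / 3) := by
    obtain ⟨u, hu⟩ : ∃ u : ℂ, u = (z + 1) / 3 := ⟨_, rfl⟩
    have huim : 0 < u.im := by
      rw [hu]
      refine im_third ?_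
      rw [Complex.add_im, Complex.one_im, add_zero]
      exact hz
    have e1 : (-1 / z + 2) / 3 = u / (1 - 3 * u) + 1 := by
      have : 1 - 3 * u = -z := by
        rw [hu]
        ring
      rw [this, hu]
      field_simp
      ring
    rw [e1, fz_add_one, fz_V' huim, hu]
  have h6 : 0 < (z / 3).im := im_third hz
  have h7 : 3 * (z / 3) = z := by ring
  have hf1 : fz z = Ae (3 * z) / Ae z := rfl
  have hf2 : fz (z / 3) = Ae z / Ae (z / 3) := by rw [fz, h7]
  rw [Gc3, Gc3, Ae_S hz, h1, Ae_S h6, h2, fz_W hz, h4, h5, hf1, hf2]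
  field_simp
  ring

theorem Ae_diff {z : ℂ} (hz : 0 < z.im) : DifferentiableAt ℂ Ae z :=
  (differentiableAt_eta_of_mem_upperHalfPlaneSet hz).pow 12

theorem fz_diff {z : ℂ} (hz : 0 < z.im) : DifferentiableAt ℂ fz z := by
  have h1 : DifferentiableAt ℂ (fun t : ℂ ↦ Ae (3 * t)) z :=
    DifferentiableAt.comp (g := Ae) (f := fun t : ℂ ↦ 3 * t) z (Ae_diff (im_three hz))
      (by fun_prop)
  exact h1.div (Ae_diff hz) (Ae_ne hz)

theorem Gc3_diff {z : ℂ} (hz : 0 < z.im) : DifferentiableAt ℂ Gc3 z := by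
  have h1 : DifferentiableAt ℂ (fun t : ℂ ↦ Ae (3 * t)) z :=
    DifferentiableAt.comp (g := Ae) (f := fun t : ℂ ↦ 3 * t) z (Ae_diff (im_three hz))
      (by fun_prop)
  have h2 : DifferentiableAt ℂ (fun t : ℂ ↦ fz (t / 3)) z :=
    DifferentiableAt.comp (g := fz) (f := fun t : ℂ ↦ t / 3) z (fz_diff (im_third hz))
      (by fun_prop)
  have h3 : DifferentiableAt ℂ (fun t : ℂ ↦ fz ((t + 1) / 3)) z :=
    DifferentiableAt.comp (g := fz) (f := fun t : ℂ ↦ (t + 1) / 3) z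
      (fz_diff (im_third (by simpa using hz))) (by fun_prop)
  have h4 : DifferentiableAt ℂ (fun t : ℂ ↦ fz ((t + 2) / 3)) z :=
    DifferentiableAt.comp (g := fz) (f := fun t : ℂ ↦ (t + 2) / 3) z
      (fz_diff (im_third (by simpa using hz))) (by fun_prop)
  exact (((Ae_diff hz).pow 3).div h1 (Ae_ne (im_three hz))).add
    ((((Ae_diff hz).pow 2).mul ((h2.add h3).add h4)).const_mul _)

/-! ### the q-expansion -/

theorem fz_eq {z : ℂ} (hz : 0 < z.im) :
    fz z = evc (hauptmodul 3 ℂ) (exp (2 * Real.pi * I * z)) := by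
  have hQ : ‖exp (2 * Real.pi * I * z)‖ < 1 := by
    rw [← eta_q_exp]
    exact Function.Periodic.norm_qParam_lt_one one_pos hz
  rw [evc_haupt3 hQ, fz, Ae_eq, Ae_eq]
  have h1 : exp (2 * Real.pi * I * (3 * z)) = exp (2 * Real.pi * I * z) ^ 3 := by
    rw [← Complex.exp_nat_mul]
    congr 1
    push_cast
    ring
  have h2 : exp (Real.pi * I * (3 * z)) = exp (2 * Real.pi * I * z) * exp (Real.pi * I * z) := by
    rw [← Complex.exp_add]
    congr 1
    ring
  rw [h1, h2, mul_pow, inv_pow]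
  have h3 : Pq (exp (2 * Real.pi * I * z)) ≠ 0 := Pq_ne hQ
  have h4 : exp (Real.pi * I * z) ≠ 0 := Complex.exp_ne_zero _
  field_simp

/-- The series of `Gc3`. -/
def G3 : PowerSeries ℂ :=
  bser ℂ ^ 12 + C ((3 : ℂ) ^ 7) * (X ^ 1 * euler ℂ 1 ^ 24) * U 3 (hauptmodul 3 ℂ)

theorem as_G3 : AS G3 :=
  (as_bser.pow 12).add (((AS.const _).mul ((AS.X_pow 1).mul (as_euler.pow 24))).mul
    (as_U as_haupt3 three_ne_zero))

theorem evc_G3 {z : ℂ} (hz : 0 < z.im) : evc G3 (exp (2 * Real.pi * I * z)) = Gc3 z := by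
  have hQ : ‖exp (2 * Real.pi * I * z)‖ < 1 := by
    rw [← eta_q_exp]
    exact Function.Periodic.norm_qParam_lt_one one_pos hz
  have ht : ‖exp (2 * Real.pi * I * (z / 3))‖ < 1 := by
    rw [← eta_q_exp]
    exact Function.Periodic.norm_qParam_lt_one one_pos (im_third hz)
  have ht3 : exp (2 * Real.pi * I * (z / 3)) ^ 3 = exp (2 * Real.pi * I * z) := by
    rw [← Complex.exp_nat_mul]
    congr 1
    push_cast
    ring
  have hom1 : exp (2 * Real.pi * I * ((z + 1) / 3)) = om * exp (2 * Real.pi * I * (z / 3)) := by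
    rw [om, ← Complex.exp_add]
    congr 1
    ring
  have hom2 : exp (2 * Real.pi * I * ((z + 2) / 3)) =
      om ^ 2 * exp (2 * Real.pi * I * (z / 3)) := by
    rw [om, ← Complex.exp_nat_mul, ← Complex.exp_add]
    congr 1
    push_cast
    ring
  have hU := evc_U3 as_haupt3 ht
  rw [ht3] at hU
  have hz1 : 0 < ((z + 1) / 3).im := im_third (by simpa using hz)
  have hz2 : 0 < ((z + 2) / 3).im := im_third (by simpa using hz)
  have hE : AS (C ((3 : ℂ) ^ 7) * (X ^ 1 * euler ℂ 1 ^ 24)) :=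
    (AS.const _).mul ((AS.X_pow 1).mul (as_euler.pow 24))
  rw [G3, evc_add (as_bser.pow 12) (hE.mul (as_U as_haupt3 three_ne_zero)) hQ,
    evc_mul hE (as_U as_haupt3 three_ne_zero) hQ,
    evc_mul (AS.const _) ((AS.X_pow 1).mul (as_euler.pow 24)) hQ, evc_const,
    evc_mul (AS.X_pow 1) (as_euler.pow 24) hQ, evc_X_pow, pow_one, evc_pow as_euler 24 hQ,
    evc_euler hQ, evc_pow as_bser 12 hQ, evc_bser hQ, Gc3, fz_eq (im_third hz), fz_eq hz1,
    fz_eq hz2, hom1, hom2]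
  have hA3 : Ae z ^ 3 / Ae (3 * z) = (Pq (exp (2 * Real.pi * I * z)) ^ 3 *
      (Pq (exp (2 * Real.pi * I * z) ^ 3))⁻¹) ^ 12 := by
    rw [Ae_eq, Ae_eq]
    have h1 : exp (2 * Real.pi * I * (3 * z)) = exp (2 * Real.pi * I * z) ^ 3 := by
      rw [← Complex.exp_nat_mul]
      congr 1
      push_cast
      ring
    have h2 : exp (Real.pi * I * (3 * z)) = exp (Real.pi * I * z) ^ 3 := by
      rw [← Complex.exp_nat_mul]
      congr 1
      push_cast
      ring
    rw [h1, h2, mul_pow, mul_pow, inv_pow]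
    have h4 : exp (Real.pi * I * z) ≠ 0 := Complex.exp_ne_zero _
    have h3 : Pq (exp (2 * Real.pi * I * z) ^ 3) ≠ 0 := Pq_ne (by
      rw [norm_pow]
      exact pow_lt_one₀ (norm_nonneg _) hQ three_ne_zero)
    field_simp
  have hA2 : Ae z ^ 2 = exp (2 * Real.pi * I * z) * Pq (exp (2 * Real.pi * I * z)) ^ 24 := by
    rw [Ae_eq, mul_pow, ← pow_mul, ← Complex.exp_nat_mul]
    congr 2
    push_cast
    ring
  rw [hA3, hA2, ← hU]
  ring

end D3

end GH
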