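import Pool.Agent.GH.D3.Base3
import Pool.Agent.GH.ClE4a
import Pool.Agent.GH.ClEkA

/-! Values of the power series `E(q^k)`, `E(q^k)^{-1}`, `U_3 F` on the open unit disc. -/

open PowerSeries Filter Topology

noncomputable section

namespace GH

namespace D3

open GH.E4

/-! ### Taylor series of functions on the open unit disc -/

theorem hasSum_c2T {g : ℂ → ℂ} (hg : DifferentiableOn ℂ g (Metric.ball 0 1)) {Q : ℂ}
    (hQ : ‖Q‖ < 1) : HasSum (fun n ↦ PowerSeries.coeff n (c2T g) * Q ^ n) (g Q) := by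
  have h := Complex.hasSum_taylorSeries_on_ball (c := 0) (z := Q) (r := 1) (f := g)
    (by simpa using hg) (by simpa using hQ)
  refine hasSum_congr_fun h fun n ↦ ?_
  rw [c2T_coeff, sub_zero, smul_eq_mul, smul_eq_mul]
  ring

theorem as_c2T {g : ℂ → ℂ} (hg : DifferentiableOn ℂ g (Metric.ball 0 1)) : AS (c2T g) := by
  intro Q hQ
  exact (hasSum_c2T hg hQ).summable.norm

theorem evc_c2T {g : ℂ → ℂ} (hg : DifferentiableOn ℂ g (Metric.ball 0 1)) {Q : ℂ}
    (hQ : ‖Q‖ < 1) : evc (c2T g) Q = g Q :=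
  (hasSum_c2T hg hQ).tsum_eq

/-- `P(q) = ∏ (1 - q^n)`. -/
def Pq (Q : ℂ) : ℂ := ∏' n : ℕ, (1 - Q ^ (n + 1))

theorem Pq_diff : DifferentiableOn ℂ Pq (Metric.ball 0 1) :=
  ModularForm.differentiableOn_tprod_one_sub_pow

theorem Pq_ne {Q : ℂ} (hQ : ‖Q‖ < 1) : Pq Q ≠ 0 := by
  refine tprod_one_add_ne_zero_of_summable (f := fun n ↦ -Q ^ (n + 1)) ?_ ?_
  · intro i h
    have h1 : Q ^ (i + 1) = 1 := by linear_combination -h
    have h2 := congrArg norm h1
    rw [norm_pow, norm_one] at h2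
    have h3 : ‖Q‖ ^ (i + 1) < 1 := pow_lt_one₀ (norm_nonneg _) hQ (by omega)
    linarith
  · simpa using (summable_nat_add_iff 1).mpr (summable_geometric_of_lt_one (norm_nonneg _) hQ)

theorem as_euler : AS (euler ℂ 1) := by
  rw [← c2T_tprod]
  exact as_c2T Pq_diff

theorem evc_euler {Q : ℂ} (hQ : ‖Q‖ < 1) : evc (euler ℂ 1) Q = Pq Q := by
  rw [← c2T_tprod]
  exact evc_c2T Pq_diff hQ

/-- `E(q)^{-1}`. -/
def einv : PowerSeries ℂ := invOfUnit (euler ℂ 1) 1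

theorem euler_zero (R : Type*) [CommRing R] (k : ℕ) :
    PowerSeries.constantCoeff (euler R k) = 1 := by
  rw [← coeff_zero_eq_constantCoeff_apply, euler, PowerSeries.coeff_mk]
  simp

theorem euler_mul_inv (R : Type*) [CommRing R] (k : ℕ) :
    euler R k * invOfUnit (euler R k) 1 = 1 :=
  mul_invOfUnit _ _ (by simp [euler_zero])

theorem c2T_inv : c2T (fun Q ↦ (Pq Q)⁻¹) = einv := by
  have hP : AnalyticAt ℂ Pq 0 := Pq_diff.analyticAt (Metric.ball_mem_nhds 0 one_pos)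
  have hPi : AnalyticAt ℂ (fun Q ↦ (Pq Q)⁻¹) 0 := hP.inv (Pq_ne (by simp))
  have h1 : c2T (Pq * fun Q ↦ (Pq Q)⁻¹) = 1 := by
    rw [← c2T_one]
    refine c2T_congr ?_
    filter_upwards [Metric.ball_mem_nhds (0 : ℂ) one_pos] with Q hQ
    rw [Pi.mul_apply, mul_inv_cancel₀ (Pq_ne (by simpa using hQ)), Pi.one_apply]
  rw [c2T_mul hP hPi] at h1
  have h2 : c2T Pq = euler ℂ 1 := c2T_tprod
  rw [h2] at h1
  have h3 := euler_mul_inv ℂ 1
  calc c2T (fun Q ↦ (Pq Q)⁻¹) = (euler ℂ 1 * einv) * c2T (fun Q ↦ (Pq Q)⁻¹) := by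
        rw [einv, h3, one_mul]
    _ = einv * (euler ℂ 1 * c2T (fun Q ↦ (Pq Q)⁻¹)) := by ring
    _ = einv := by rw [h1, mul_one]

theorem Pq_inv_diff : DifferentiableOn ℂ (fun Q ↦ (Pq Q)⁻¹) (Metric.ball 0 1) :=
  Pq_diff.inv fun Q hQ ↦ Pq_ne (by simpa using hQ)

theorem as_einv : AS einv := by
  rw [← c2T_inv]
  exact as_c2T Pq_inv_diff

theorem evc_einv {Q : ℂ} (hQ : ‖Q‖ < 1) : evc einv Q = (Pq Q)⁻¹ := by
  rw [← c2T_inv]
  exact evc_c2T Pq_inv_diff hQ

/-! ### `q ↦ q^k` -/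

theorem as_expand {F : PowerSeries ℂ} (hF : AS F) (k : ℕ) (hk : k ≠ 0) :
    AS (F.expand k hk) ∧ ∀ Q : ℂ, ‖Q‖ < 1 → evc (F.expand k hk) Q = evc F (Q ^ k) := by
  have key : ∀ Q : ℂ, ‖Q‖ < 1 →
      HasSum (fun n ↦ PowerSeries.coeff n (F.expand k hk) * Q ^ n) (evc F (Q ^ k)) := by
    intro Q hQ
    have hQk : ‖Q ^ k‖ < 1 := by
      rw [norm_pow]
      exact pow_lt_one₀ (norm_nonneg _) hQ hk
    have hinj : Function.Injective (fun n : ℕ ↦ k * n) := by
      intro a b h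
      exact Nat.eq_of_mul_eq_mul_left (Nat.pos_of_ne_zero hk) h
    rw [← hinj.hasSum_iff]
    · refine hasSum_congr_fun (hF.hasSum hQk) fun n ↦ ?_
      rw [Function.comp, coeff_expand_mul, pow_mul]
    · intro n hn
      rw [coeff_expand_of_not_dvd _ _ _ (fun ⟨m, hm⟩ ↦ hn ⟨m, hm.symm⟩), zero_mul]
  exact ⟨fun Q hQ ↦ (key Q hQ).summable.norm, fun Q hQ ↦ (key Q hQ).tsum_eq⟩

theorem euler_coeff' {n N : ℕ} (h : n ≤ N) {R : Type*} [CommRing R] (k : ℕ) (hk : k ≠ 0) :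
    PowerSeries.coeff n (euler R k) =
      PowerSeries.coeff n (∏ m ∈ Finset.range N, (1 - (X : PowerSeries R) ^ (k * (m + 1)))) := by
  have h0 : PowerSeries.coeff n (euler R k) =
      PowerSeries.coeff n (∏ m ∈ Finset.range n, (1 - (X : PowerSeries R) ^ (k * (m + 1)))) := by
    unfold euler
    rw [PowerSeries.coeff_mk]
  rw [h0]
  induction N, h using Nat.le_induction with
  | base => rfl
  | succ N hN ih =>
    have h1 : n < k * (N + 1) := by
      have : 1 ≤ k := Nat.pos_of_ne_zero hk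
      nlinarith
    rw [ih, Finset.prod_range_succ, mul_sub, mul_one, map_sub,
      PowerSeries.coeff_mul_X_pow', if_neg (by omega), sub_zero]

theorem euler_expand (R : Type*) [CommRing R] (k : ℕ) (hk : k ≠ 0) :
    euler R k = (euler R 1).expand k hk := by
  ext n
  rw [euler_coeff' le_rfl k hk]
  have h1 : (∏ m ∈ Finset.range n, (1 - (X : PowerSeries R) ^ (k * (m + 1)))) =
      (∏ m ∈ Finset.range n, (1 - (X : PowerSeries R) ^ (1 * (m + 1)))).expand k hk := by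
    rw [map_prod]
    refine Finset.prod_congr rfl fun m _ ↦ ?_
    rw [map_sub, map_one, map_pow, expand_X, ← pow_mul, one_mul]
  rw [h1]
  by_cases hd : k ∣ n
  · obtain ⟨m, rfl⟩ := hd
    rw [coeff_expand_mul, coeff_expand_mul]
    have hmn : m ≤ k * m := Nat.le_mul_of_pos_left m (Nat.pos_of_ne_zero hk)
    exact (euler_coeff' hmn 1 one_ne_zero).symm
  · rw [coeff_expand_of_not_dvd _ _ _ hd, coeff_expand_of_not_dvd _ _ _ hd]

theorem einv_expand (k : ℕ) (hk : k ≠ 0) :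
    invOfUnit (euler ℂ k) 1 = einv.expand k hk := by
  have h1 : euler ℂ k * einv.expand k hk = 1 := by
    rw [euler_expand ℂ k hk, ← map_mul, einv, euler_mul_inv, map_one]
  have h2 := euler_mul_inv ℂ k
  calc invOfUnit (euler ℂ k) 1 = (euler ℂ k * einv.expand k hk) * invOfUnit (euler ℂ k) 1 := by
        rw [h1, one_mul]
    _ = einv.expand k hk * (euler ℂ k * invOfUnit (euler ℂ k) 1) := by ring
    _ = einv.expand k hk := by rw [h2, mul_one]

theorem as_euler3 : AS (euler ℂ 3) := by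
  rw [euler_expand ℂ 3 three_ne_zero]
  exact (as_expand as_euler 3 three_ne_zero).1

theorem evc_euler3 {Q : ℂ} (hQ : ‖Q‖ < 1) : evc (euler ℂ 3) Q = Pq (Q ^ 3) := by
  rw [euler_expand ℂ 3 three_ne_zero, (as_expand as_euler 3 three_ne_zero).2 Q hQ, evc_euler]
  rw [norm_pow]
  exact pow_lt_one₀ (norm_nonneg _) hQ three_ne_zero

theorem as_einv3 : AS (invOfUnit (euler ℂ 3) 1) := by
  rw [einv_expand 3 three_ne_zero]
  exact (as_expand as_einv 3 three_ne_zero).1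

theorem evc_einv3 {Q : ℂ} (hQ : ‖Q‖ < 1) :
    evc (invOfUnit (euler ℂ 3) 1) Q = (Pq (Q ^ 3))⁻¹ := by
  rw [einv_expand 3 three_ne_zero, (as_expand as_einv 3 three_ne_zero).2 Q hQ, evc_einv]
  rw [norm_pow]
  exact pow_lt_one₀ (norm_nonneg _) hQ three_ne_zero

theorem haupt3_eq : hauptmodul 3 ℂ = X ^ 1 * (euler ℂ 3 * einv) ^ 12 := by
  rw [hauptmodul, pow_one, einv]

theorem as_haupt3 : AS (hauptmodul 3 ℂ) := by
  rw [haupt3_eq]
  exact (AS.X_pow 1).mul ((as_euler3.mul as_einv).pow 12)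

theorem evc_haupt3 {Q : ℂ} (hQ : ‖Q‖ < 1) :
    evc (hauptmodul 3 ℂ) Q = Q * (Pq (Q ^ 3) * (Pq Q)⁻¹) ^ 12 := by
  rw [haupt3_eq, evc_mul (AS.X_pow 1) ((as_euler3.mul as_einv).pow 12) hQ, evc_X_pow, pow_one,
    evc_pow (as_euler3.mul as_einv) 12 hQ, evc_mul as_euler3 as_einv hQ, evc_euler3 hQ,
    evc_einv hQ]

theorem as_bser : AS (bser ℂ) := (as_euler.pow 3).mul as_einv3

theorem evc_bser {Q : ℂ} (hQ : ‖Q‖ < 1) : evc (bser ℂ) Q = Pq Q ^ 3 * (Pq (Q ^ 3))⁻¹ := by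
  rw [bser, evc_mul (as_euler.pow 3) as_einv3 hQ, evc_pow as_euler 3 hQ, evc_euler hQ,
    evc_einv3 hQ]

/-! ### The operator `U_3` -/

theorem as_U {F : PowerSeries ℂ} (hF : AS F) {p : ℕ} (hp : p ≠ 0) : AS (U p F) := by
  intro Q hQ
  obtain ⟨t, ht⟩ := IsAlgClosed.exists_pow_nat_eq Q (Nat.pos_of_ne_zero hp)
  have ht1 : ‖t‖ < 1 := by
    by_contra h
    push Not at h
    have h1 : 1 ≤ ‖t‖ ^ p := one_le_pow₀ h
    rw [← norm_pow, ht] at h1
    linarith
  have hinj : Function.Injective (fun n : ℕ ↦ p * n) := by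
    intro a b h
    exact Nat.eq_of_mul_eq_mul_left (Nat.pos_of_ne_zero hp) h
  have h2 := (hF t ht1).comp_injective hinj
  refine h2.congr fun n ↦ ?_
  rw [Function.comp, U, PowerSeries.coeff_mk, pow_mul, ht]

/-- A primitive cube root of unity. -/
def om : ℂ := Complex.exp (2 * Real.pi * Complex.I / 3)

theorem om_prim : IsPrimitiveRoot om 3 := by
  have := Complex.isPrimitiveRoot_exp 3 three_ne_zero
  rw [om]
  convert this using 2
  push_cast
  ring

theorem om_sum {n : ℕ} (hn : ¬ 3 ∣ n) : 1 + om ^ n + (om ^ 2) ^ n = 0 := by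
  have h1 : (om ^ n) ^ 3 = 1 := by rw [← pow_mul, mul_comm, pow_mul, om_prim.pow_eq_one, one_pow]
  have h2 : om ^ n ≠ 1 := fun h ↦ hn (om_prim.dvd_of_pow_eq_one n h)
  have h3 : (om ^ n - 1) * (1 + om ^ n + (om ^ 2) ^ n) = 0 := by
    rw [← pow_mul, mul_comm 2 n, pow_mul]
    linear_combination h1
  exact (mul_eq_zero.mp h3).resolve_left (sub_ne_zero.mpr h2)

theorem evc_U3 {F : PowerSeries ℂ} (hF : AS F) {t : ℂ} (ht : ‖t‖ < 1) :
    3 * evc (U 3 F) (t ^ 3) = evc F t + evc F (om * t) + evc F (om ^ 2 * t) := by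
  have hom : ‖om‖ = 1 := om_prim.norm'_eq_one three_ne_zero
  have h1 := hF.hasSum ht
  have h2 := hF.hasSum (Q := om * t) (by rwa [norm_mul, hom, one_mul])
  have h3 := hF.hasSum (Q := om ^ 2 * t) (by rwa [norm_mul, norm_pow, hom, one_pow, one_mul])
  have ht3 : ‖t ^ 3‖ < 1 := by
    rw [norm_pow]
    exact pow_lt_one₀ (norm_nonneg _) ht three_ne_zero
  have h4 := ((as_U hF three_ne_zero).hasSum ht3).mul_left 3
  have hinj : Function.Injective (fun n : ℕ ↦ 3 * n) := by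
    intro a b h
    simpa using h
  have h5 : HasSum (fun n ↦ PowerSeries.coeff n F * t ^ n +
      PowerSeries.coeff n F * (om * t) ^ n + PowerSeries.coeff n F * (om ^ 2 * t) ^ n)
      (3 * evc (U 3 F) (t ^ 3)) := by
    rw [← hinj.hasSum_iff]
    · refine hasSum_congr_fun h4 fun n ↦ ?_
      rw [Function.comp, U, PowerSeries.coeff_mk, mul_pow, mul_pow, pow_mul om 3 n,
        om_prim.pow_eq_one, one_pow, pow_mul (om ^ 2) 3 n, ← pow_mul om 2 3, mul_comm 2 3,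
        pow_mul om 3 2, om_prim.pow_eq_one, one_pow, one_pow, pow_mul]
      ring
    · intro n hn
      have hd : ¬ 3 ∣ n := fun ⟨m, hm⟩ ↦ hn ⟨m, hm.symm⟩
      have := om_sum hd
      rw [mul_pow, mul_pow]
      linear_combination PowerSeries.coeff n F * t ^ n * this
  exact h5.unique ((h1.add h2).add h3)

end D3

end GH
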