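import Pool.Agent.GH.ExtA
import Pool.Agent.GH.D3.Base3

/-!
# Ghost conjecture, `p = 3`: from the central disc to the whole weight disc, Newton polygons
-/

open PowerSeries Filter Topology

noncomputable section

namespace GH

namespace D3

/-- A strict vertex of the Newton polygon of `b` is a point of any series with the same
polygon. -/
theorem d3_vertex {K : Type*} [NormedField K] {a b : ℕ → K}
    (h : newtonPolygon 3 a = newtonPolygon 3 b) {n : ℕ} (hb : b n ≠ 0) {α ε : ℝ} (hε : 0 < ε)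
    (hv : ∀ i : ℕ, b i ≠ 0 → - Real.logb 3 ‖b n‖ + α * ((i : ℝ) - n) + ε * |(i : ℝ) - n| ≤
      - Real.logb 3 ‖b i‖) : ‖a n‖ = ‖b n‖ := by
  obtain ⟨g, hg⟩ : ∃ g : ℝ, g = - Real.logb 3 ‖b n‖ := ⟨_, rfl⟩
  rw [← hg] at hv
  have hlog : ∀ x : ℝ, Real.logb ((3 : ℕ) : ℝ) x = Real.logb 3 x := fun x => by norm_num
  -- three minorants of `b`
  have hmp : IsMinorant 3 b (α + ε) (g - (α + ε) * n) := by
    intro i hi
    rw [hlog]
    refine le_trans ?_ (hv i hi)
    have h1 := mul_le_mul_of_nonneg_left (le_abs_self ((i : ℝ) - n)) hε.le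
    linarith
  have hmm : IsMinorant 3 b (α - ε) (g - (α - ε) * n) := by
    intro i hi
    rw [hlog]
    refine le_trans ?_ (hv i hi)
    have h1 := mul_le_mul_of_nonneg_left (neg_abs_le ((i : ℝ) - n)) hε.le
    linarith
  have hnb : newtonPolygon 3 b n ≤ ((g : ℝ) : EReal) := by
    have h1 := g1_np_le 3 hb
    rw [hlog, ← hg] at h1
    exact h1
  -- lower bounds for `a`
  have hai : ∀ i : ℕ, a i ≠ 0 → g + α * ((i : ℝ) - n) + ε * |(i : ℝ) - n| ≤
      - Real.logb 3 ‖a i‖ := by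
    intro i hi
    have h1 := g1_np_le 3 hi
    rw [hlog, h] at h1
    rcases le_total (n : ℝ) i with h2 | h2
    · have h3 := (g1_le_np 3 hmp i).trans h1
      rw [EReal.coe_le_coe_iff] at h3
      rw [abs_of_nonneg (by linarith)]
      linarith
    · have h3 := (g1_le_np 3 hmm i).trans h1
      rw [EReal.coe_le_coe_iff] at h3
      rw [abs_of_nonpos (by linarith)]
      linarith
  have hint : ∀ i : ℕ, i ≠ n → 1 ≤ |(i : ℝ) - n| := by
    intro i hi
    have h1 : (i : ℤ) - n ≠ 0 := by omega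
    have h2 : 1 ≤ |(i : ℤ) - n| := Int.one_le_abs h1
    exact_mod_cast h2
  -- the value at `n`
  have han : a n ≠ 0 := by
    intro h0
    have hmin : IsMinorant 3 a α (g + ε - α * n) := by
      intro i hi
      have hin : i ≠ n := fun h1 => hi (h1 ▸ h0)
      rw [hlog]
      refine le_trans ?_ (hai i hi)
      have h1 := mul_le_mul_of_nonneg_left (hint i hin) hε.le
      linarith
    have h1 := (g1_le_np 3 hmin n).trans (h ▸ hnb)
    rw [EReal.coe_le_coe_iff] at h1
    linarith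
  have hge : g ≤ - Real.logb 3 ‖a n‖ := by
    have h1 := hai n han
    simp only [sub_self, mul_zero, abs_zero, add_zero] at h1
    exact h1
  have hle : - Real.logb 3 ‖a n‖ ≤ g := by
    by_contra hlt
    push Not at hlt
    obtain ⟨δ, hδ⟩ : ∃ δ : ℝ, δ = min ε (- Real.logb 3 ‖a n‖ - g) := ⟨_, rfl⟩
    have hδ0 : 0 < δ := hδ ▸ lt_min hε (by linarith)
    have hδ1 : δ ≤ ε := hδ ▸ min_le_left _ _
    have hδ2 : δ ≤ - Real.logb 3 ‖a n‖ - g := hδ ▸ min_le_right _ _
    have hmin : IsMinorant 3 a α (g + δ - α * n) := by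
      intro i hi
      rw [hlog]
      by_cases hin : i = n
      · subst hin
        linarith
      · refine le_trans ?_ (hai i hi)
        have h1 := mul_le_mul_of_nonneg_left (hint i hin) hε.le
        linarith
    have h1 := (g1_le_np 3 hmin n).trans (h ▸ hnb)
    rw [EReal.coe_le_coe_iff] at h1
    linarith
  have heq : Real.logb 3 ‖a n‖ = Real.logb 3 ‖b n‖ := by linarith
  have h1 : (0 : ℝ) < ‖a n‖ := norm_pos_iff.2 han
  have h2 : (0 : ℝ) < ‖b n‖ := norm_pos_iff.2 hb
  exact Real.logb_injOn_pos (by norm_num) (Set.mem_Ioi.2 h1) (Set.mem_Ioi.2 h2) heq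

/-- If `‖b i‖ ≤ 3^(-i(i+1))` for all `i`, with near equality at `n`, then `n` is a vertex. -/
theorem d3_tri {K : Type*} [NormedField K] {a b : ℕ → K}
    (h : newtonPolygon 3 a = newtonPolygon 3 b) (hb1 : ∀ i, ‖b i‖ ≤ (1 / 3) ^ (i * (i + 1)))
    {n : ℕ} (hb : (1 / 3) ^ (n * (n + 1)) * (3 / 4) ≤ ‖b n‖) : ‖a n‖ = ‖b n‖ := by
  have h8 : ∀ k : ℕ, Real.logb 3 ((1 / 3) ^ k) = -k := by
    intro k
    rw [Real.logb_pow]
    have : Real.logb 3 (1 / 3) = -1 := by
      rw [one_div, Real.logb_inv, Real.logb_self_eq_one (by norm_num)]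
    rw [this]
    ring
  have h34 : -(1 / 2) ≤ Real.logb 3 (3 / 4) := by
    have h1 : Real.logb 3 (1 / 3) ≤ Real.logb 3 ((3 / 4) ^ 2) :=
      Real.logb_le_logb_of_le (by norm_num) (by norm_num) (by norm_num)
    rw [Real.logb_pow] at h1
    have h2 : Real.logb 3 (1 / 3) = -1 := by
      rw [one_div, Real.logb_inv, Real.logb_self_eq_one (by norm_num)]
    rw [h2] at h1
    push_cast at h1
    linarith
  have hpos : ∀ k : ℕ, (0 : ℝ) < (1 / 3) ^ k := fun k => by positivity
  have hbn : 0 < ‖b n‖ := lt_of_lt_of_le (by have := hpos (n * (n + 1)); positivity) hb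
  have hbn0 : b n ≠ 0 := norm_pos_iff.1 hbn
  have hvn : - Real.logb 3 ‖b n‖ ≤ (n : ℝ) * (n + 1) + 1 / 2 := by
    have h1 := Real.logb_le_logb_of_le (b := 3) (by norm_num)
      (by have := hpos (n * (n + 1)); positivity) hb
    rw [Real.logb_mul (hpos _).ne' (by norm_num), h8] at h1
    push_cast at h1
    linarith
  refine d3_vertex h hbn0 (α := 2 * n + 1) (ε := 1 / 2) (by norm_num) fun i hi => ?_
  by_cases hin : i = n
  · subst hin
    simp
  · have hi0 : 0 < ‖b i‖ := norm_pos_iff.2 hi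
    have hvi : (i : ℝ) * (i + 1) ≤ - Real.logb 3 ‖b i‖ := by
      have h1 := Real.logb_le_logb_of_le (b := 3) (by norm_num) hi0 (hb1 i)
      rw [h8] at h1
      push_cast at h1
      linarith
    have h1 : 1 ≤ |(i : ℝ) - n| := by
      have h1 : (i : ℤ) - n ≠ 0 := by omega
      have h2 : 1 ≤ |(i : ℤ) - n| := Int.one_le_abs h1
      exact_mod_cast h2
    have h2 : ((i : ℝ) - n) ^ 2 = |(i : ℝ) - n| ^ 2 := (sq_abs _).symm
    have h3 : (i : ℝ) * (i + 1) = (n : ℝ) * (n + 1) +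
        (2 * n + 1) * ((i : ℝ) - n) + ((i : ℝ) - n) ^ 2 := by ring
    nlinarith

end D3

end GH
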