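import Pool.Agent.GH.D3.Param3
import Pool.Agent.GH.GhostMult3

open PowerSeries Filter Topology

noncomputable section

namespace GH

namespace D3

/-! Valuations of the ghost coefficients, `p = 3`. -/

/-- A product over even numbers (prefix `d3_gv`). -/
theorem d3_gv_prod_even {M : Type*} [CommMonoid M] (g : ℕ → M) (e : ℕ → ℕ) (N : ℕ) :
    ∏ k ∈ Finset.range (2 * N), g k ^ (if Even k then e k else 0) =
      ∏ m ∈ Finset.range N, g (2 * m) ^ e (2 * m) := by
  induction N with
  | zero => simp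
  | succ N ih =>
    rw [show 2 * (N + 1) = 2 * N + 1 + 1 by ring, Finset.prod_range_succ, Finset.prod_range_succ,
      ih, Finset.prod_range_succ, if_pos (even_two_mul N),
      if_neg (by rw [Nat.not_even_iff_odd]; exact odd_two_mul_add_one N), pow_zero, mul_one]

/-- A sum over even numbers. -/
theorem d3_gv_sum_even (e : ℕ → ℕ) (N : ℕ) :
    ∑ k ∈ Finset.range (2 * N), (if Even k then e k else 0) = ∑ m ∈ Finset.range N, e (2 * m) := by
  induction N with
  | zero => simp
  | succ N ih =>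
    rw [show 2 * (N + 1) = 2 * N + 1 + 1 by ring, Finset.sum_range_succ, Finset.sum_range_succ,
      ih, Finset.sum_range_succ, if_pos (even_two_mul N),
      if_neg (by rw [Nat.not_even_iff_odd]; exact odd_two_mul_add_one N), add_zero]

/-- The ghost coefficient as a finite product over `k`. -/
theorem ghost3_eq_prod (w : C3) (n : ℕ) :
    ghost 3 w n = ∏ k ∈ Finset.range (12 * n + 4),
      (w - (7 ^ k - 1)) ^ (if Even k then mult 3 n k else 0) := by
  rw [GH.ghost3_eq_prod, show 12 * n + 4 = 2 * (6 * n + 2) by ring,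
    d3_gv_prod_even (fun k => w - (7 ^ k - 1)) (mult 3 n)]

/-- `deg g_n = n(n+1)`. -/
theorem sum_mult3 (n : ℕ) : ∑ k ∈ Finset.range (12 * n + 4),
    (if Even k then mult 3 n k else 0) = n * (n + 1) := by
  rw [show 12 * n + 4 = 2 * (6 * n + 2) by ring, d3_gv_sum_even (mult 3 n), GH.sum_mult3]

/-- Outside the central disc. -/
theorem norm_ghost3_outer {w : C3} (h1 : 1 / 3 < ‖w‖) (n : ℕ) :
    ‖ghost 3 w n‖ = ‖w‖ ^ (n * (n + 1)) :=
  GH.norm_ghost3_outer h1 n

/-- On the central disc. -/
theorem norm_ghost_wx3 {x : C3} (hx : ‖x‖ ≤ 1) (n : ℕ) :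
    ‖ghost 3 (wx3 x) n‖ = ∏ k ∈ Finset.range (12 * n + 4),
      (‖x - k‖ / 3) ^ (if Even k then mult 3 n k else 0) := by
  rw [ghost3_eq_prod, norm_prod]
  refine Finset.prod_congr rfl fun k _ => ?_
  rw [norm_pow, ← wx3_natCast, norm_wx3_sub hx (IsUltrametricDist.norm_natCast_le_one C3 k)]

end D3

end GH
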