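import Pool.Agent.GH.D3.Ext3_a
import Pool.Agent.GH.D3.GhostVal3
import Pool.Agent.GH.D3.Param3

/-!
# Ghost conjecture, `p = 3`: from the central disc to the whole weight disc, p-adic lemmas
-/

open PowerSeries Filter Topology

noncomputable section

namespace GH

namespace D3

/-! ### ultrametric lemmas -/

theorem d3_iota_norm (z : ℤ_[3]) : ‖iota3 z‖ = ‖z‖ := by
  unfold iota3
  have h := PadicComplex.norm_extends' 3 (z : ℚ_[3])
  rw [PadicInt.padic_norm_e_of_padicInt] at h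
  exact h

theorem d3_sub_left {x y : C3} (h : ‖y‖ < ‖x‖) : ‖x - y‖ = ‖x‖ := by
  rw [sub_eq_add_neg, IsUltrametricDist.norm_add_eq_max_of_norm_ne_norm
    (by rw [norm_neg]; exact h.ne'), norm_neg, max_eq_left h.le]

theorem d3_sub_right {x y : C3} (h : ‖x‖ < ‖y‖) : ‖x - y‖ = ‖y‖ := by
  rw [norm_sub_rev, d3_sub_left h]

theorem d3_sub_le {x y : C3} {C : ℝ} (hx : ‖x‖ ≤ C) (hy : ‖y‖ ≤ C) : ‖x - y‖ ≤ C := by
  rw [sub_eq_add_neg]
  refine (IsUltrametricDist.norm_add_le_max x (-y)).trans (max_le hx ?_)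
  rwa [norm_neg]

theorem d3_norm_eq {x y : C3} (h : ‖x - y‖ < ‖x‖) : ‖y‖ = ‖x‖ := by
  have h1 : y = x - (x - y) := by ring
  rw [h1, d3_sub_left h]

theorem d3_norm_eq' {x y : C3} (h : ‖x - y‖ < ‖y‖) : ‖x‖ = ‖y‖ := by
  rw [norm_sub_rev] at h
  exact d3_norm_eq h

theorem d3_hasSum_le {f : ℕ → C3} {S : C3} (h : HasSum f S) {C : ℝ} (hC : 0 ≤ C)
    (hf : ∀ n, ‖f n‖ ≤ C) : ‖S‖ ≤ C := by
  have h1 : Tendsto (fun s : Finset ℕ => ‖∑ n ∈ s, f n‖) atTop (𝓝 ‖S‖) := h.norm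
  refine le_of_tendsto' h1 fun s => ?_
  exact IsUltrametricDist.norm_sum_le_of_forall_le_of_nonneg hC fun n _ => hf n

theorem d3_norm_int (m : ℤ) : ‖(m : C3)‖ = ‖(m : ℤ_[3])‖ := by
  rw [← d3_iota_norm, map_intCast]

theorem d3_norm_int_le (m : ℤ) : ‖(m : C3)‖ ≤ 1 := by
  rw [d3_norm_int]
  exact PadicInt.norm_le_one _

theorem d3_norm_dvd {m : ℤ} (h : 3 ∣ m) : ‖(m : C3)‖ ≤ 1 / 3 := by
  rw [d3_norm_int]
  have h1 : ‖(m : ℤ_[3])‖ ≤ ((3 : ℕ) : ℝ) ^ (-((1 : ℕ) : ℤ)) :=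
    PadicInt.norm_int_le_pow_iff_dvd.2 (by simpa using h)
  refine h1.trans (le_of_eq ?_)
  norm_num

theorem d3_norm_ndvd {m : ℤ} (h : ¬ 3 ∣ m) : ‖(m : C3)‖ = 1 := by
  rw [d3_norm_int]
  have h1 : ¬ ‖(m : ℤ_[3])‖ < 1 := by
    rw [PadicInt.norm_int_lt_one_iff_dvd]
    simpa using h
  exact le_antisymm (PadicInt.norm_le_one _) (not_lt.1 h1)

theorem d3_kmod (k : ℕ) : ∃ z : C3, ‖z‖ ≤ 1 / 3 ∧ (k : C3) = ((k % 3 : ℕ) : C3) + z := by
  obtain ⟨q, hq⟩ : ∃ q : ℕ, q = k / 3 := ⟨_, rfl⟩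
  have h4 : ((k % 3 + 3 * q : ℕ) : C3) = k := by rw [hq, Nat.mod_add_div]
  refine ⟨((3 * (q : ℤ) : ℤ) : C3), d3_norm_dvd (dvd_mul_right _ _), ?_⟩
  rw [← h4]
  push_cast
  ring

theorem d3_norm_three : ‖(3 : C3)‖ = 1 / 3 := by
  have h := d3_norm_int 3
  have h2 := PadicInt.norm_p (p := 3)
  push_cast at h h2
  rw [h, h2]
  norm_num

theorem d3_norm_nat_le (m : ℕ) : ‖(m : C3)‖ ≤ 1 := by
  have := d3_norm_int_le (m : ℤ)
  rwa [Int.cast_natCast] at this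

/-! ### evaluation -/

theorem d3_term_le (F : Lam3) (w : C3) (n : ℕ) :
    ‖iota3 (PowerSeries.coeff n F) * w ^ n‖ = ‖PowerSeries.coeff n F‖ * ‖w‖ ^ n := by
  rw [norm_mul, norm_pow, d3_iota_norm]

theorem d3_hasSum (F : Lam3) {w : C3} (hw : ‖w‖ < 1) :
    HasSum (fun n => iota3 (PowerSeries.coeff n F) * w ^ n) (ev3 w F) := by
  refine Summable.hasSum ?_
  refine Summable.of_norm_bounded (g := fun n => ‖w‖ ^ n)
    (summable_geometric_of_lt_one (norm_nonneg _) hw) fun n => ?_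
  rw [d3_term_le]
  exact mul_le_of_le_one_left (pow_nonneg (norm_nonneg _) _) (PadicInt.norm_le_one _)

/-- The value, up to an error smaller than the term of index `l`. -/
theorem d3_ev_sub_sum (F : Lam3) {w : C3} (hw : ‖w‖ < 1) (l : ℕ) :
    ‖ev3 w F - ∑ m ∈ Finset.range (l + 1), iota3 (PowerSeries.coeff m F) * w ^ m‖ ≤
      ‖w‖ ^ (l + 1) := by
  have h1 := d3_hasSum F hw
  have h2 := (hasSum_nat_add_iff' (l + 1)).2 h1
  refine d3_hasSum_le h2 (pow_nonneg (norm_nonneg _) _) fun n => ?_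
  rw [d3_term_le]
  calc ‖PowerSeries.coeff (n + (l + 1)) F‖ * ‖w‖ ^ (n + (l + 1)) ≤ 1 * ‖w‖ ^ (n + (l + 1)) :=
        mul_le_mul_of_nonneg_right (PadicInt.norm_le_one _) (pow_nonneg (norm_nonneg _) _)
    _ = ‖w‖ ^ (n + (l + 1)) := one_mul _
    _ ≤ ‖w‖ ^ (l + 1) := pow_le_pow_of_le_one (norm_nonneg _) hw.le (by omega)

/-- Outside the central disc the term of index `l` dominates. -/
theorem d3_ev_outer (F : Lam3) {l : ℕ}
    (h1 : ∀ m < l, ‖PowerSeries.coeff m F‖ ≤ 3 ^ m * (1 / 3) ^ l)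
    (h2 : ‖PowerSeries.coeff l F‖ = 1) {w : C3} (hw : 1 / 3 < ‖w‖) (hw1 : ‖w‖ < 1) :
    ‖ev3 w F‖ = ‖w‖ ^ l := by
  have hw0 : 0 < ‖w‖ := by linarith
  have hS := d3_hasSum F hw1
  have hL : HasSum (fun n => if n = l then iota3 (PowerSeries.coeff l F) * w ^ l else 0)
      (iota3 (PowerSeries.coeff l F) * w ^ l) := hasSum_ite_eq l _
  have hD := hS.sub hL
  obtain ⟨θ, hθ⟩ : ∃ θ : ℝ, θ = max (1 / (3 * ‖w‖)) ‖w‖ := ⟨_, rfl⟩
  have hθ1 : θ < 1 := by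
    rw [hθ]
    refine max_lt ?_ hw1
    rw [div_lt_one (by positivity)]
    linarith
  have hθa : 1 / (3 * ‖w‖) ≤ θ := hθ ▸ le_max_left _ _
  have hθb : ‖w‖ ≤ θ := hθ ▸ le_max_right _ _
  have hθ0 : 0 ≤ θ := hw0.le.trans hθb
  have hlt : ‖ev3 w F - iota3 (PowerSeries.coeff l F) * w ^ l‖ ≤ θ * ‖w‖ ^ l := by
    refine d3_hasSum_le hD (by positivity) fun m => ?_
    rcases lt_trichotomy m l with h | h | h
    · rw [if_neg h.ne, sub_zero, d3_term_le]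
      have h3 : ‖PowerSeries.coeff m F‖ * ‖w‖ ^ m ≤ 3 ^ m * (1 / 3) ^ l * ‖w‖ ^ m :=
        mul_le_mul_of_nonneg_right (h1 m h) (by positivity)
      refine h3.trans ?_
      obtain ⟨d, rfl⟩ := Nat.exists_eq_add_of_lt h
      have h4 : (3 : ℝ) ^ m * (1 / 3) ^ (m + d + 1) * ‖w‖ ^ m =
          (1 / (3 * ‖w‖)) ^ (d + 1) * ‖w‖ ^ (m + d + 1) := by
        rw [div_pow, div_pow, mul_pow, one_pow, one_pow]
        field_simp
        rw [pow_add, pow_add, pow_add, pow_add]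
        ring
      rw [h4]
      refine mul_le_mul_of_nonneg_right ?_ (by positivity)
      have h5 : 1 / (3 * ‖w‖) ≤ 1 := hθa.trans hθ1.le
      calc (1 / (3 * ‖w‖)) ^ (d + 1) ≤ (1 / (3 * ‖w‖)) ^ 1 :=
            pow_le_pow_of_le_one (by positivity) h5 (by omega)
        _ = 1 / (3 * ‖w‖) := pow_one _
        _ ≤ θ := hθa
    · subst h
      rw [if_pos rfl, sub_self, norm_zero]
      positivity
    · rw [if_neg h.ne', sub_zero, d3_term_le]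
      calc ‖PowerSeries.coeff m F‖ * ‖w‖ ^ m ≤ 1 * ‖w‖ ^ m :=
            mul_le_mul_of_nonneg_right (PadicInt.norm_le_one _) (by positivity)
        _ = ‖w‖ ^ m := one_mul _
        _ ≤ ‖w‖ ^ (l + 1) := pow_le_pow_of_le_one hw0.le hw1.le (by omega)
        _ = ‖w‖ * ‖w‖ ^ l := by ring
        _ ≤ θ * ‖w‖ ^ l := mul_le_mul_of_nonneg_right hθb (by positivity)
  have hn : ‖iota3 (PowerSeries.coeff l F) * w ^ l‖ = ‖w‖ ^ l := by
    rw [d3_term_le, h2, one_mul]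
  have h3 : 0 < ‖w‖ ^ l := by positivity
  rw [← hn]
  refine d3_norm_eq' (lt_of_le_of_lt hlt ?_)
  rw [hn]
  nlinarith

/-! ### elements of norm close to one -/

theorem d3_exists_norm {p : ℝ → Prop} (hp : ∀ᶠ r in 𝓝 (1 : ℝ), p r) :
    ∃ z : C3, 0 < ‖z‖ ∧ ‖z‖ < 1 ∧ p ‖z‖ := by
  have h1 : Tendsto (fun N : ℕ => (1 / 3 : ℝ) ^ (1 / ((N : ℝ) + 1))) atTop (𝓝 1) := by
    have h2 : Tendsto (fun N : ℕ => 1 / ((N : ℝ) + 1)) atTop (𝓝 0) :=
      tendsto_one_div_add_atTop_nhds_zero_nat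
    have h3 := ((Real.continuous_const_rpow (a := (1 / 3 : ℝ)) (by norm_num)).tendsto 0).comp h2
    rwa [Real.rpow_zero] at h3
  obtain ⟨N, hN⟩ := (h1.eventually hp).exists
  obtain ⟨z, hz⟩ := IsAlgClosed.exists_pow_nat_eq (3 : C3) (Nat.succ_pos N)
  have hz1 : ‖z‖ ^ (N + 1) = 1 / 3 := by
    rw [← norm_pow, hz, d3_norm_three]
  have hz2 : ‖z‖ = (1 / 3 : ℝ) ^ (1 / ((N : ℝ) + 1)) := by
    have h4 := Real.pow_rpow_inv_natCast (norm_nonneg z) (Nat.succ_ne_zero N)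
    rw [Nat.succ_eq_add_one, hz1] at h4
    rw [← h4]
    push_cast
    rw [one_div ((N : ℝ) + 1)]
  refine ⟨z, ?_, ?_, ?_⟩
  · rw [hz2]; positivity
  · rw [hz2]
    exact Real.rpow_lt_one (by norm_num) (by norm_num) (by positivity)
  · rw [hz2]
    exact hN

/-! ### the ghost coefficient near the points `0`, `1`, `2` -/

/-- the part of the multiplicities in a residue class -/
def g3A (n : ℕ) (i : Fin 3) : ℕ :=
  ∑ k ∈ Finset.range (12 * n + 4),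
    if k % 3 = (i : ℕ) then (if Even k then mult 3 n k else 0) else 0

theorem g3A_sum (n : ℕ) : ∑ i, g3A n i = n * (n + 1) := by
  rw [← sum_mult3 n]
  unfold g3A
  rw [Finset.sum_comm]
  refine Finset.sum_congr rfl fun k _ => ?_
  rw [Fin.sum_univ_three]
  have h : k % 3 < 3 := Nat.mod_lt _ (by norm_num)
  have h' : k % 3 = 0 ∨ k % 3 = 1 ∨ k % 3 = 2 := by omega
  rcases h' with h' | h' | h' <;> simp [h']

/-- The value of the ghost coefficient at a generic point. -/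
theorem d3_ghost_gen {x : C3} (hx : ‖x‖ ≤ 1) (h : ∀ i : Fin 3, ‖x - (i : ℕ)‖ = 1) (n : ℕ) :
    ‖ghost 3 (wx3 x) n‖ = (1 / 3) ^ (n * (n + 1)) := by
  rw [norm_ghost_wx3 hx, ← sum_mult3 n, ← Finset.prod_pow_eq_pow_sum]
  refine Finset.prod_congr rfl fun k _ => ?_
  congr 1
  have h1 : ‖x - k‖ = 1 := by
    have h2 := h ⟨k % 3, Nat.mod_lt _ (by norm_num)⟩
    obtain ⟨z, hz, hk⟩ := d3_kmod k
    have h3 : x - k = (x - ((k % 3 : ℕ) : C3)) - z := by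
      rw [hk]
      ring
    have h5 : ‖x - ((k % 3 : ℕ) : C3)‖ = 1 := h2
    rw [h3, d3_sub_left (by rw [h5]; exact lt_of_le_of_lt hz (by norm_num)), h5]
  rw [h1]

/-- near `i` -/
theorem d3_ghost_near {x : C3} (hx : ‖x‖ ≤ 1) (i : Fin 3) (h1 : 1 / 3 < ‖x - (i : ℕ)‖)
    (h2 : ‖x - (i : ℕ)‖ < 1) (n : ℕ) :
    ‖ghost 3 (wx3 x) n‖ = (1 / 3) ^ (n * (n + 1)) * ‖x - (i : ℕ)‖ ^ g3A n i := by
  rw [norm_ghost_wx3 hx, ← sum_mult3 n, ← Finset.prod_pow_eq_pow_sum]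
  unfold g3A
  rw [← Finset.prod_pow_eq_pow_sum, ← Finset.prod_mul_distrib]
  refine Finset.prod_congr rfl fun k _ => ?_
  by_cases hk : k % 3 = (i : ℕ)
  · rw [if_pos hk, ← mul_pow]
    congr 1
    obtain ⟨z, hz, hk'⟩ := d3_kmod k
    have h3 : x - k = (x - ((i : ℕ) : C3)) - z := by
      rw [hk', hk]
      ring
    rw [h3, d3_sub_left (lt_of_le_of_lt hz h1)]
    ring
  · rw [if_neg hk, pow_zero, mul_one]
    congr 1
    have h3 : x - k = (x - ((i : ℕ) : C3)) - (((k : ℤ) - (i : ℕ) : ℤ) : C3) := by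
      push_cast
      ring
    have h4 : ‖(((k : ℤ) - (i : ℕ) : ℤ) : C3)‖ = 1 := by
      apply d3_norm_ndvd
      have := i.2
      omega
    rw [h3, d3_sub_right (by rw [h4]; exact h2), h4]

theorem d3_ghost_le {x : C3} (hx : ‖x‖ ≤ 1) (n : ℕ) :
    ‖ghost 3 (wx3 x) n‖ ≤ (1 / 3) ^ (n * (n + 1)) := by
  rw [norm_ghost_wx3 hx, ← sum_mult3 n, ← Finset.prod_pow_eq_pow_sum]
  refine Finset.prod_le_prod (fun m _ => by positivity) fun m _ => ?_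
  refine pow_le_pow_left₀ (by positivity) ?_ _
  have h1 : ‖x - m‖ ≤ 1 := d3_sub_le hx (d3_norm_nat_le m)
  linarith

end D3

end GH
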