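import Pool.Agent.GH.D3.Base3
import Pool.Agent.GH.Fred3

/-!
# Project GH (MP_370013_nt), `p` general: decay hypothesis and invariance under unitriangular
Toeplitz changes of basis (copy of the file for `p = 2`)
-/

set_option autoImplicit false

open Filter Topology

namespace GH

namespace D3

section field

variable {K : Type*} [NormedField K] [IsUltrametricDist K] [CompleteSpace K]

/-- The decay of the matrices: `C i j = 0` for `j > p i` and `|C i j| ≤ c r^(j-pi)`. -/
structure DecayP (p : ℕ) (r c : ℝ) (C : ℕ → ℕ → K) : Prop where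
  one_lt : 1 < r
  zero : ∀ i j, p * i < j → C i j = 0
  le : ∀ i j, j ≤ p * i → ‖C i j‖ * r ^ (p * i - j) ≤ c

omit [IsUltrametricDist K] [CompleteSpace K] in
theorem DecayP.cpt {p : ℕ} (hp : 2 ≤ p) {r c : ℝ} {C : ℕ → ℕ → K} (h : DecayP p r c C) :
    Cpt (fun i => r ^ (i + 1)) (fun j => c * (Real.sqrt r)⁻¹ ^ (j + 1)) (sh C) := by
  have hr0 : 0 < r := zero_lt_one.trans h.one_lt
  have hs : 1 < Real.sqrt r := by
    rw [Real.lt_sqrt zero_le_one]
    simpa using h.one_lt
  have hs0 : 0 < Real.sqrt r := zero_lt_one.trans hs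
  have hc : 0 ≤ c := (by positivity : 0 ≤ ‖C 0 0‖ * r ^ (p * 0 - 0)).trans
    (h.le 0 0 (Nat.zero_le _))
  refine ⟨fun i => by positivity, ?_, fun i j => ?_⟩
  · rw [Nat.cofinite_eq_atTop]
    have h1 : (Real.sqrt r)⁻¹ < 1 := inv_lt_one_of_one_lt₀ hs
    have h2 := (tendsto_pow_atTop_nhds_zero_of_lt_one (by positivity) h1).comp
      (tendsto_add_atTop_nat 1)
    simpa using h2.const_mul c
  · unfold sh
    rcases lt_or_ge (p * (i + 1)) (j + 1) with hij | hij
    · rw [h.zero _ _ hij, norm_zero, mul_zero]
      positivity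
    · have h1 := h.le (i + 1) (j + 1) hij
      have e1 : Real.sqrt r ^ (2 : ℕ) = r := Real.sq_sqrt hr0.le
      obtain ⟨q, rfl⟩ : ∃ q, p = q + 2 := ⟨p - 2, by omega⟩
      have e3 : (q + 2) * (i + 1) = (i + 1) + (q + 1) * (i + 1) := by ring
      have h2 : Real.sqrt r ^ (j + 1) ≤ r ^ ((q + 1) * (i + 1)) := by
        calc Real.sqrt r ^ (j + 1) ≤ Real.sqrt r ^ (2 * ((q + 1) * (i + 1))) := by
              refine pow_le_pow_right₀ hs.le (hij.trans ?_)
              nlinarith [Nat.zero_le (q * (i + 1))]
          _ = r ^ ((q + 1) * (i + 1)) := by rw [pow_mul, e1]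
      have h3 : r ^ ((q + 1) * (i + 1)) * (r ^ (i + 1) * ‖C (i + 1) (j + 1)‖) ≤
          r ^ (j + 1) * c := by
        have e2 : r ^ ((q + 1) * (i + 1)) * (r ^ (i + 1) * ‖C (i + 1) (j + 1)‖) =
            r ^ (j + 1) * (‖C (i + 1) (j + 1)‖ * r ^ ((q + 2) * (i + 1) - (j + 1))) := by
          have : r ^ ((q + 1) * (i + 1)) * r ^ (i + 1) =
              r ^ (j + 1) * r ^ ((q + 2) * (i + 1) - (j + 1)) := by
            rw [← pow_add, ← pow_add]
            congr 1
            omega
          calc _ = (r ^ ((q + 1) * (i + 1)) * r ^ (i + 1)) * ‖C (i + 1) (j + 1)‖ := by ring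
            _ = _ := by rw [this]; ring
        rw [e2]
        exact mul_le_mul_of_nonneg_left h1 (by positivity)
      have h4 : Real.sqrt r ^ (j + 1) * (r ^ (i + 1) * ‖C (i + 1) (j + 1)‖) ≤ r ^ (j + 1) * c :=
        (mul_le_mul_of_nonneg_right h2 (by positivity)).trans h3
      rw [inv_pow]
      calc r ^ (i + 1) * ‖C (i + 1) (j + 1)‖ ≤ (r ^ (j + 1) * c) / Real.sqrt r ^ (j + 1) := by
            rw [le_div_iff₀' (by positivity)]
            exact h4
        _ = _ := by
            rw [div_eq_mul_inv, mul_assoc]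

/-- (F1) -/
theorem DecayP.tendsto {p : ℕ} (hp : 2 ≤ p) {r c : ℝ} {C : ℕ → ℕ → K} (h : DecayP p r c C)
    (m : ℕ) : Tendsto (fun N => fredBlock C N m) atTop (𝓝 (fred C m)) := by
  rw [GH.fred_eq (DecayP.cpt hp h)]
  exact fredBlock_tendsto (DecayP.cpt hp h) m

theorem DecayP.fred_eq {p : ℕ} (hp : 2 ≤ p) {r c : ℝ} {C : ℕ → ℕ → K} (h : DecayP p r c C)
    (m : ℕ) : fred C m = fredCoeff (sh C) m :=
  GH.fred_eq (DecayP.cpt hp h) m

/-- (F2) Invariance under unitriangular Toeplitz changes of basis. -/
theorem d3_conj {p : ℕ} (hp : 2 ≤ p) {r c c' : ℝ} {C C' : ℕ → ℕ → K} (hC : DecayP p r c C)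
    (hC' : DecayP p r c' C')
    (u : ℕ → K) (hu0 : u 0 = 1) (hu : ∀ n, ‖u n‖ * r ^ n ≤ 1)
    (h : ∀ i, 1 ≤ i → ∀ j, 1 ≤ j → ∑ k ∈ Finset.Icc j (p * i), C i k * u (k - j) =
      ∑ k ∈ Finset.Icc 1 i, u (i - k) * C' k j) (m : ℕ) : fred C m = fred C' m := by
  have hr : 0 < r := zero_lt_one.trans hC.one_lt
  rw [DecayP.fred_eq hp hC, DecayP.fred_eq hp hC']
  set v := toepInv u with hv
  have hvu := toepInv_spec' u hu0
  have hvw : ∀ n, ‖v n‖ * r ^ n ≤ 1 := toepInv_le hr u hu
  set w : ℕ → ℝ := fun i => r ^ (i + 1) with hw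
  have z' : ∀ i l, p * (i + 1) ≤ l → sh C' i l = 0 := fun i l hl => hC'.zero _ _ (by omega)
  have z : ∀ i l, p * (i + 1) ≤ l → sh C i l = 0 := fun i l hl => hC.zero _ _ (by omega)
  -- the product `A = C' T⁻¹`
  obtain ⟨c1, hA⟩ := (DecayP.cpt hp hC').mul_right (B := toep v) (β := 1) (toep_weight hr v hvw)
    (fun i => (Finset.range (i + 1)).finite_toSet.subset fun k hk => by
      rw [Finset.mem_coe, Finset.mem_range]
      by_contra hc
      exact hk (toep_zero v (by omega)))
  have hAf : ∀ i j N, p * (i + 1) ≤ N → ∑' k, sh C' i k * toep v k j =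
      ∑ k ∈ Finset.range N, sh C' i k * toep v k j := fun i j N hN =>
    tsum_eq_sum fun k hk => by
      rw [z' i k (by rw [Finset.mem_range] at hk; omega), zero_mul]
  have h1 := fredCoeff_mul_comm hA (B := toep u) (β := 1) (toep_weight hr u hu)
    (fun i => (Finset.range (i + 1)).finite_toSet.subset fun k hk => by
      rw [Finset.mem_coe, Finset.mem_range]
      by_contra hc
      exact hk (toep_zero u (by omega))) m
  -- `A T = C'`
  have e1 : (fun i j => ∑' k, (∑' l, sh C' i l * toep v l k) * toep u k j) = sh C' := by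
    funext i j
    set N := p * (i + 1) + (j + 1) with hN
    have a1 : ∀ k, ∑' l, sh C' i l * toep v l k = ∑ l ∈ Finset.range N, sh C' i l * toep v l k :=
      fun k => hAf i k N (by omega)
    simp only [a1]
    rw [tsum_eq_sum (s := Finset.range N)]
    · have a2 : ∀ k ∈ Finset.range N, (∑ l ∈ Finset.range N, sh C' i l * toep v l k) * toep u k j =
          ∑ l ∈ Finset.range N, sh C' i l * (toep v l k * toep u k j) := fun k _ => by
        rw [Finset.sum_mul]
        exact Finset.sum_congr rfl fun l _ => by ring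
      rw [Finset.sum_congr rfl a2, Finset.sum_comm]
      have a3 : ∀ l ∈ Finset.range N, ∑ k ∈ Finset.range N, sh C' i l * (toep v l k * toep u k j) =
          if l = j then sh C' i l else 0 := fun l hl => by
        rw [← Finset.mul_sum, toep_mul v u hvu N l j (Finset.mem_range.1 hl)]
        split_ifs <;> simp
      rw [Finset.sum_congr rfl a3, Finset.sum_ite_eq' (Finset.range N) j, if_pos]
      rw [Finset.mem_range]
      omega
    · intro k hk
      rw [Finset.mem_range] at hk
      rw [Finset.sum_eq_zero, zero_mul]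
      intro l hl
      rw [Finset.mem_range] at hl
      rw [toep_zero v (by omega), mul_zero]
  -- `T A = C`
  have e2 : (fun i j => ∑' k, toep u i k * (∑' l, sh C' k l * toep v l j)) = sh C := by
    funext i j
    set N := p * (i + 1) + (j + 1) with hN
    rw [tsum_eq_sum (s := Finset.range (i + 1))]
    · have a1 : ∀ k ∈ Finset.range (i + 1), toep u i k * (∑' l, sh C' k l * toep v l j) =
          ∑ l ∈ Finset.range N, (toep u i k * sh C' k l) * toep v l j := fun k hk => by
        rw [Finset.mem_range] at hk
        have hm : p * (k + 1) ≤ p * (i + 1) := Nat.mul_le_mul_left _ (by omega)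
        rw [hAf k j N (by omega), Finset.mul_sum]
        exact Finset.sum_congr rfl fun l _ => by ring
      rw [Finset.sum_congr rfl a1, Finset.sum_comm]
      have a2 : ∀ l ∈ Finset.range N, ∑ k ∈ Finset.range (i + 1), toep u i k * sh C' k l *
          toep v l j = ∑ k ∈ Finset.range N, (sh C i k * toep u k l) * toep v l j := fun l _ => by
        rw [← Finset.sum_mul, ← Finset.sum_mul]
        congr 1
        have h2 := h (i + 1) (by omega) (l + 1) (by omega)
        have h3 : ∑ k ∈ Finset.range (i + 1), toep u i k * sh C' k l =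
            ∑ k ∈ Finset.Icc 1 (i + 1), u (i + 1 - k) * C' k (l + 1) := by
          have e0 : Finset.Icc 1 (i + 1) = Finset.Ico 1 (i + 2) := by
            ext x
            simp only [Finset.mem_Icc, Finset.mem_Ico]
            omega
          have e1 : i + 2 - 1 = i + 1 := by omega
          rw [e0, Finset.sum_Ico_eq_sum_range, e1]
          refine Finset.sum_congr rfl fun k hk => ?_
          rw [Finset.mem_range] at hk
          have e2 : i + 1 - (1 + k) = i - k := by omega
          rw [toep, if_pos (by omega), e2, add_comm 1 k]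
          rfl
        have h4 : ∑ k ∈ Finset.range N, sh C i k * toep u k l =
            ∑ k ∈ Finset.Icc (l + 1) (p * (i + 1)), C (i + 1) k * u (k - (l + 1)) := by
          have e0 : Finset.Icc (l + 1) (p * (i + 1)) = Finset.Ico (l + 1) (p * (i + 1) + 1) := by
            ext x
            simp only [Finset.mem_Icc, Finset.mem_Ico]
            omega
          have e1 : ∑ k ∈ Finset.Ico l (p * (i + 1)), sh C i k * toep u k l =
              ∑ k ∈ Finset.range N, sh C i k * toep u k l := by
            refine Finset.sum_subset (fun k hk => ?_) fun k _ hk => ?_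
            · rw [Finset.mem_Ico] at hk
              rw [Finset.mem_range]
              omega
            · rw [Finset.mem_Ico] at hk
              rcases lt_or_ge k l with h5 | h5
              · rw [toep_zero u h5, mul_zero]
              · rw [z i k (by omega), zero_mul]
          rw [← e1, e0, Finset.sum_Ico_eq_sum_range, Finset.sum_Ico_eq_sum_range]
          have e2 : p * (i + 1) + 1 - (l + 1) = p * (i + 1) - l := by omega
          rw [e2]
          refine Finset.sum_congr rfl fun k hk => ?_
          have e3 : l + k - l = k := by omega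
          have e4 : l + 1 + k - (l + 1) = k := by omega
          have e5 : l + 1 + k = l + k + 1 := by omega
          rw [toep, if_pos (by omega), e3, e4, e5]
          rfl
        rw [h3, h4, h2]
      rw [Finset.sum_congr rfl a2, Finset.sum_comm]
      have a3 : ∀ k ∈ Finset.range N, ∑ l ∈ Finset.range N, sh C i k * toep u k l * toep v l j =
          if k = j then sh C i k else 0 := fun k hk => by
        have : ∀ l ∈ Finset.range N, sh C i k * toep u k l * toep v l j =
            sh C i k * (toep u k l * toep v l j) := fun l _ => by ring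
        rw [Finset.sum_congr rfl this, ← Finset.mul_sum,
          toep_mul u v (toepInv_spec u hu0) N k j (Finset.mem_range.1 hk)]
        split_ifs <;> simp
      rw [Finset.sum_congr rfl a3, Finset.sum_ite_eq' (Finset.range N) j, if_pos]
      rw [Finset.mem_range]
      omega
    · intro k hk
      rw [Finset.mem_range] at hk
      rw [toep_zero u (by omega), zero_mul]
  rw [e1, e2] at h1
  exact h1.symm

end field

end D3

end GH
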