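import Pool.Agent.GH.D3.Base3

open PowerSeries Filter Topology

noncomputable section

namespace GH

namespace D3

/-! The matrix of `U_3`. -/

variable {K : Type*} [Field K] [CharZero K]

/-- The identities of `QHaupt3` over `K`. -/
structure HIds3 (K : Type*) [Field K] : Prop where
  c0 : PowerSeries.coeff 0 (hser3 K) = 0
  c1 : PowerSeries.coeff 1 (hser3 K) = 1
  t0 : PowerSeries.constantCoeff (bser K) = 1
  f1 : hauptmodul 3 K = hser3 K * (1 + 9 * hser3 K + 27 * hser3 K ^ 2)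
  f2 : (hauptmodul 3 K).expand 3 three_ne_zero * (1 + 9 * hser3 K + 27 * hser3 K ^ 2) =
    hser3 K ^ 3
  h1 : ∃ B : PowerSeries K, PowerSeries.constantCoeff B = 1 ∧
    hser3 K * (B.expand 3 three_ne_zero - 3 * X) = X
  t3 : bser K ^ 3 * (1 + 9 * hser3 K + 27 * hser3 K ^ 2) = (bser K ^ 3).expand 3 three_ne_zero

/-! ### Auxiliary statements -/

section Aux

/-- `U_3 (F(q³) G(q)) = F(q) U_3 (G)`, auxiliary form -/
theorem d3_U_expand_mul {R : Type*} [CommRing R] (F G : PowerSeries R) :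
    U 3 (F.expand 3 three_ne_zero * G) = F * U 3 G := by
  ext n
  simp only [U, coeff_mk]
  rw [coeff_mul, coeff_mul]
  symm
  refine Finset.sum_of_injOn (fun p ↦ (3 * p.1, 3 * p.2)) ?_ ?_ ?_ ?_
  · intro a _ b _ hab
    simp only [Prod.mk.injEq] at hab
    exact Prod.ext (by omega) (by omega)
  · intro a ha
    simp only [Finset.mem_coe, Finset.HasAntidiagonal.mem_antidiagonal] at ha ⊢
    omega
  · intro a ha hna
    rw [Finset.HasAntidiagonal.mem_antidiagonal] at ha
    by_cases h : 3 ∣ a.1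
    · exfalso
      apply hna
      obtain ⟨m, hm⟩ := h
      refine ⟨(m, n - m), ?_, ?_⟩
      · simp only [Finset.mem_coe, Finset.HasAntidiagonal.mem_antidiagonal]
        omega
      · exact Prod.ext (by simp [hm]) (by simp; omega)
    · rw [coeff_expand_of_not_dvd _ _ _ h, zero_mul]
  · intro a _
    simp only [coeff_mk]
    rw [coeff_expand_mul]

theorem d3_U_add {R : Type*} [CommRing R] (F G : PowerSeries R) :
    U 3 (F + G) = U 3 F + U 3 G := by
  ext n
  simp only [U, coeff_mk, map_add]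

theorem d3_U_C_mul {R : Type*} [CommRing R] (a : R) (F : PowerSeries R) :
    U 3 (C a * F) = C a * U 3 F := by
  ext n
  simp only [U, coeff_mk, coeff_C_mul]

theorem d3_U_X_pow {R : Type*} [CommRing R] (k : ℕ) (hk : k ≠ 0) (hk3 : k < 3) :
    U 3 ((X : PowerSeries R) ^ k) = 0 := by
  ext n
  rw [U, coeff_mk, coeff_X_pow, if_neg (by omega), map_zero]

theorem d3_U_X {R : Type*} [CommRing R] : U 3 (X : PowerSeries R) = 0 := by
  have h := d3_U_X_pow (R := R) 1 (by norm_num) (by norm_num)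
  rwa [pow_one] at h

theorem d3_U_expand {R : Type*} [CommRing R] (F : PowerSeries R) :
    U 3 (F.expand 3 three_ne_zero) = F := by
  ext n
  rw [U, coeff_mk, coeff_expand_mul]

omit [CharZero K]

variable (K) in
theorem d3_Q_inv : Qser K * (Qser K)⁻¹ = 1 := by
  apply PowerSeries.mul_inv_cancel
  simp [Qser]

/-- the sequence `b_i(G)` -/
def d3_B (G : PowerSeries K) : PowerSeries K :=
  PowerSeries.mk fun i ↦ PowerSeries.coeff (3 * i)
    ((1 + C (3 : K) * X) ^ 2 * Qser K ^ i * (Qser K)⁻¹ * G)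

theorem d3_B_add (G H : PowerSeries K) : d3_B (G + H) = d3_B G + d3_B H := by
  ext i
  simp only [d3_B, coeff_mk, map_add, mul_add]

theorem d3_B_C_mul (a : K) (G : PowerSeries K) : d3_B (C a * G) = C a * d3_B G := by
  ext i
  simp only [d3_B, coeff_mk, coeff_C_mul]
  rw [show (1 + C (3 : K) * X) ^ 2 * Qser K ^ i * (Qser K)⁻¹ * (C a * G) =
    C a * ((1 + C (3 : K) * X) ^ 2 * Qser K ^ i * (Qser K)⁻¹ * G) from by ring, coeff_C_mul]

theorem d3_B_z (G : PowerSeries K) :
    d3_B (X ^ 3 * (Qser K)⁻¹ * G) = X * d3_B G := by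
  ext i
  rcases i with _ | i
  · simp only [d3_B, coeff_mk]
    rw [mul_zero, show (1 + C (3 : K) * X) ^ 2 * Qser K ^ 0 * (Qser K)⁻¹ *
      (X ^ 3 * (Qser K)⁻¹ * G) = X ^ 3 * ((1 + C (3 : K) * X) ^ 2 * Qser K ^ 0 * (Qser K)⁻¹ *
        ((Qser K)⁻¹ * G)) from by ring, PowerSeries.coeff_X_pow_mul', if_neg (by norm_num),
      PowerSeries.coeff_zero_X_mul]
  · rw [PowerSeries.coeff_succ_X_mul]
    simp only [d3_B, coeff_mk]
    have h1 : (1 + C (3 : K) * X) ^ 2 * Qser K ^ (i + 1) * (Qser K)⁻¹ *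
        (X ^ 3 * (Qser K)⁻¹ * G) = X ^ 3 * ((1 + C (3 : K) * X) ^ 2 * Qser K ^ i *
          (Qser K)⁻¹ * G) := by
      calc (1 + C (3 : K) * X) ^ 2 * Qser K ^ (i + 1) * (Qser K)⁻¹ *
            (X ^ 3 * (Qser K)⁻¹ * G) =
          (Qser K * (Qser K)⁻¹) * (X ^ 3 * ((1 + C (3 : K) * X) ^ 2 * Qser K ^ i *
            (Qser K)⁻¹ * G)) := by ring
        _ = _ := by rw [d3_Q_inv, one_mul]
    rw [h1, PowerSeries.coeff_X_pow_mul', if_pos (by omega)]
    congr 1

theorem d3_poly (i n : ℕ) (h : 2 * i + 2 < n) :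
    PowerSeries.coeff n ((1 + C (3 : K) * X) ^ 2 * Qser K ^ i) = 0 := by
  have h1 : (1 + C (3 : K) * X) ^ 2 * Qser K ^ i =
      (((1 + Polynomial.C (3 : K) * Polynomial.X) ^ 2 *
        (1 + Polynomial.C (9 : K) * Polynomial.X + Polynomial.C (27 : K) * Polynomial.X ^ 2) ^ i :
          Polynomial K) : PowerSeries K) := by
    simp [Qser]
  rw [h1, Polynomial.coeff_coe]
  apply Polynomial.coeff_eq_zero_of_natDegree_lt
  have h2 : (1 + Polynomial.C (3 : K) * Polynomial.X : Polynomial K).natDegree ≤ 1 := by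
    compute_degree
  have h3 : (1 + Polynomial.C (9 : K) * Polynomial.X + Polynomial.C (27 : K) *
      Polynomial.X ^ 2 : Polynomial K).natDegree ≤ 2 := by
    compute_degree
  calc _ ≤ ((1 + Polynomial.C (3 : K) * Polynomial.X) ^ 2 : Polynomial K).natDegree +
        ((1 + Polynomial.C (9 : K) * Polynomial.X + Polynomial.C (27 : K) *
          Polynomial.X ^ 2) ^ i : Polynomial K).natDegree :=
        Polynomial.natDegree_mul_le
    _ ≤ 2 * 1 + i * 2 := add_le_add (Polynomial.natDegree_pow_le.trans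
        (Nat.mul_le_mul_left _ h2)) (Polynomial.natDegree_pow_le.trans
        (Nat.mul_le_mul_left _ h3))
    _ < n := by omega

theorem d3_B_succ (G : PowerSeries K) (i : ℕ) : PowerSeries.coeff (i + 1) (d3_B G) =
    PowerSeries.coeff (3 * (i + 1)) ((1 + C (3 : K) * X) ^ 2 * Qser K ^ i * G) := by
  simp only [d3_B, coeff_mk]
  congr 1
  calc (1 + C (3 : K) * X) ^ 2 * Qser K ^ (i + 1) * (Qser K)⁻¹ * G =
      (Qser K * (Qser K)⁻¹) * ((1 + C (3 : K) * X) ^ 2 * Qser K ^ i * G) := by ring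
    _ = _ := by rw [d3_Q_inv, one_mul]

theorem d3_B_zero (G : PowerSeries K) : PowerSeries.coeff 0 (d3_B G) =
    PowerSeries.coeff 0 G := by
  have h : constantCoeff (Qser K)⁻¹ = 1 := by
    rw [PowerSeries.constantCoeff_inv]
    simp [Qser]
  simp only [d3_B, coeff_mk, mul_zero, pow_zero, mul_one, coeff_zero_eq_constantCoeff_apply,
    map_mul, h]
  simp

theorem d3_B_one : d3_B (1 : PowerSeries K) = 1 := by
  ext i
  rcases i with _ | i
  · rw [d3_B_zero]
  · rw [d3_B_succ, mul_one, d3_poly _ _ (by omega), coeff_one, if_neg (by omega)]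

theorem d3_B_X : d3_B (X : PowerSeries K) = 9 * X := by
  have h9 : (9 : PowerSeries K) = C (9 : K) := (map_ofNat C 9).symm
  ext i
  rcases i with _ | i
  · rw [d3_B_zero, h9, coeff_C_mul]
    simp
  · rw [d3_B_succ, show 3 * (i + 1) = (3 * i + 2) + 1 from by ring, coeff_succ_mul_X, h9,
      coeff_C_mul, coeff_X]
    rcases i with _ | i
    · have e : ((1 + C (3 : K) * X) ^ 2 * Qser K ^ 0 : PowerSeries K) =
          1 + C (6 : K) * X + C (9 : K) * X ^ 2 := by
        rw [pow_zero, mul_one, h9.symm, show C (3 : K) = (3 : PowerSeries K) from map_ofNat C 3,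
          show C (6 : K) = (6 : PowerSeries K) from map_ofNat C 6]
        ring
      rw [e]
      simp [coeff_one, coeff_X, coeff_X_pow]
    · rw [d3_poly _ _ (by omega), if_neg (by omega), mul_zero]

theorem d3_B_X2 : d3_B (X ^ 2 : PowerSeries K) = 6 * X + 243 * X ^ 2 := by
  have h6 : (6 : PowerSeries K) = C (6 : K) := (map_ofNat C 6).symm
  have h243 : (243 : PowerSeries K) = C (243 : K) := (map_ofNat C 243).symm
  have h3 : C (3 : K) = (3 : PowerSeries K) := map_ofNat C 3
  have h9 : C (9 : K) = (9 : PowerSeries K) := map_ofNat C 9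
  have h27 : C (27 : K) = (27 : PowerSeries K) := map_ofNat C 27
  have h15 : C (15 : K) = (15 : PowerSeries K) := map_ofNat C 15
  have h90 : C (90 : K) = (90 : PowerSeries K) := map_ofNat C 90
  ext i
  rcases i with _ | i
  · rw [d3_B_zero, h6, h243, map_add, coeff_C_mul, coeff_C_mul]
    simp
  · rw [d3_B_succ, show 3 * (i + 1) = (3 * i + 1) + 2 from by ring, coeff_mul_X_pow', if_pos
      (by omega), show 3 * i + 1 + 2 - 2 = 3 * i + 1 from by omega, h6, h243, map_add,
      coeff_C_mul, coeff_C_mul, coeff_X, coeff_X_pow]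
    rcases i with _ | _ | i
    · have e : ((1 + C (3 : K) * X) ^ 2 * Qser K ^ 0 : PowerSeries K) =
          1 + C (6 : K) * X + C (9 : K) * X ^ 2 := by
        rw [pow_zero, mul_one, h9, h3, ← h6]
        ring
      rw [e]
      simp [coeff_one, coeff_X, coeff_X_pow]
    · have e : ((1 + C (3 : K) * X) ^ 2 * Qser K ^ (0 + 1) : PowerSeries K) =
          1 + C (15 : K) * X + C (90 : K) * X ^ 2 + C (243 : K) * X ^ 3 +
            C (243 : K) * X ^ 4 := by
        rw [zero_add, pow_one, Qser, h9, h3, h27, h15, h90, ← h243]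
        ring
      rw [e]
      simp [coeff_one, coeff_X, coeff_X_pow]
    · rw [d3_poly _ _ (by omega), if_neg (by omega), if_neg (by omega), mul_zero, mul_zero,
        add_zero]

theorem d3_decomp (G : PowerSeries K) : ∃ (a c d : K) (G₁ : PowerSeries K),
    G = C a * 1 + C c * X + C d * X ^ 2 + X ^ 3 * (Qser K)⁻¹ * G₁ := by
  refine ⟨coeff 0 G, coeff 1 G, coeff 2 G, Qser K * PowerSeries.mk fun n ↦ coeff (n + 3) G, ?_⟩
  have h1 : X ^ 3 * (Qser K)⁻¹ * (Qser K * PowerSeries.mk fun n ↦ coeff (n + 3) G) =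
      X ^ 3 * PowerSeries.mk fun n ↦ coeff (n + 3) G := by
    calc _ = (Qser K * (Qser K)⁻¹) * (X ^ 3 * PowerSeries.mk fun n ↦ coeff (n + 3) G) := by ring
      _ = _ := by rw [d3_Q_inv, one_mul]
  rw [h1]
  ext n
  rw [map_add, map_add, map_add, PowerSeries.coeff_X_pow_mul', PowerSeries.coeff_C_mul,
    PowerSeries.coeff_C_mul, PowerSeries.coeff_C_mul, PowerSeries.coeff_X, coeff_one,
    coeff_X_pow]
  rcases n with _ | _ | _ | n
  · simp
  · simp
  · simp
  · simp

end Aux

/-- `U_3 (G(h)) = ∑ b_i f^i`, `b_i = [T^{3i}] (1+3T)² Q^{i-1} G(T)`. -/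
theorem U_subst_hser3 (hh : HIds3 K) (G : PowerSeries K) :
    U 3 (G.subst (hser3 K)) =
      (PowerSeries.mk fun i ↦ PowerSeries.coeff (3 * i)
        ((1 + C (3 : K) * X) ^ 2 * Qser K ^ i * (Qser K)⁻¹ * G)).subst
        (hauptmodul 3 K) := by
  have hB : (PowerSeries.mk fun i ↦ PowerSeries.coeff (3 * i)
        ((1 + C (3 : K) * X) ^ 2 * Qser K ^ i * (Qser K)⁻¹ * G)) = d3_B G := rfl
  rw [hB]
  obtain ⟨B, -, hh1⟩ := hh.h1
  set h := hser3 K with hhd
  set f := hauptmodul 3 K with hfd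
  have h0 : constantCoeff h = 0 := by
    rw [← coeff_zero_eq_constantCoeff_apply]
    exact hh.c0
  have hs : HasSubst h := HasSubst.of_constantCoeff_zero' h0
  have hf0 : constantCoeff f = 0 := by
    have hf1 : f = h * (1 + 9 * h + 27 * h ^ 2) := hh.f1
    rw [hf1, map_mul, h0, zero_mul]
  have hfs : HasSubst f := HasSubst.of_constantCoeff_zero' hf0
  have h9 : (9 : PowerSeries K) = C (9 : K) := (map_ofNat C 9).symm
  have h27 : (27 : PowerSeries K) = C (27 : K) := (map_ofNat C 27).symm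
  have hu : (1 + 9 * h + 27 * h ^ 2 : PowerSeries K) ≠ 0 := by
    intro hz
    have := congrArg constantCoeff hz
    simp [h0] at this
  set L : PowerSeries K → PowerSeries K := fun G ↦ U 3 (subst h G) - subst f (d3_B G) with hL
  set f3 : PowerSeries K := PowerSeries.expand 3 three_ne_zero f with hf3
  set B3 : PowerSeries K := PowerSeries.expand 3 three_ne_zero B with hB3
  have hf2 : f3 * (1 + 9 * h + 27 * h ^ 2) = h ^ 3 := hh.f2
  -- `z(h) = f(q³)`
  have hz : subst h (X ^ 3 * (Qser K)⁻¹ : PowerSeries K) = f3 := by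
    have e1 : subst h (Qser K) = 1 + 9 * h + 27 * h ^ 2 := by
      rw [Qser, subst_add hs, subst_add hs, subst_mul hs, subst_mul hs, subst_pow hs, subst_X hs,
        subst_C, subst_C, h9, h27]
      rw [← map_one (C (R := K)), subst_C]
      rfl
    have e2 : subst h (X ^ 3 * (Qser K)⁻¹ : PowerSeries K) * (1 + 9 * h + 27 * h ^ 2) =
        h ^ 3 := by
      rw [← e1, ← subst_mul hs]
      have e3 : (X ^ 3 * (Qser K)⁻¹ : PowerSeries K) * Qser K = X ^ 3 := by
        calc _ = X ^ 3 * (Qser K * (Qser K)⁻¹) := by ring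
          _ = X ^ 3 := by rw [d3_Q_inv, mul_one]
      rw [e3, subst_pow hs, subst_X hs]
    refine mul_right_cancel₀ hu ?_
    rw [e2, hf2]
  -- `L (z G) = f L G`
  have hLz : ∀ G₁ : PowerSeries K, L (X ^ 3 * (Qser K)⁻¹ * G₁) = f * L G₁ := by
    intro G₁
    simp only [hL]
    rw [subst_mul hs, hz, hf3, d3_U_expand_mul, d3_B_z, subst_mul hfs, subst_X hfs]
    ring
  have hX : (X : PowerSeries K) ≠ 0 := X_ne_zero
  -- `f D = q`
  have hX3 : (PowerSeries.expand 3 three_ne_zero (X : PowerSeries K)) = X ^ 3 := expand_X _ _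
  have hfD : f * (B ^ 3 - 27 * X) = X := by
    have e1 : PowerSeries.expand 3 three_ne_zero (f * (B ^ 3 - 27 * X)) =
        PowerSeries.expand 3 three_ne_zero (X : PowerSeries K) := by
      have e27 : PowerSeries.expand 3 three_ne_zero (27 : PowerSeries K) = 27 := map_ofNat _ _
      rw [map_mul, map_sub, map_mul, map_pow, hX3, e27, ← hf3, ← hB3]
      have e2 : (1 + 9 * h + 27 * h ^ 2) * (B3 - 3 * X) ^ 2 = B3 ^ 2 + 3 * X * B3 + 9 * X ^ 2 := by
        calc (1 + 9 * h + 27 * h ^ 2) * (B3 - 3 * X) ^ 2 =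
            (B3 - 3 * X) ^ 2 + 9 * (h * (B3 - 3 * X)) * (B3 - 3 * X) +
              27 * (h * (B3 - 3 * X)) ^ 2 := by ring
          _ = _ := by rw [hh1]; ring
      calc f3 * (B3 ^ 3 - 27 * X ^ 3) =
          f3 * ((B3 ^ 2 + 3 * X * B3 + 9 * X ^ 2) * (B3 - 3 * X)) := by ring
        _ = (f3 * (1 + 9 * h + 27 * h ^ 2)) * (B3 - 3 * X) ^ 3 := by rw [← e2]; ring
        _ = (h * (B3 - 3 * X)) ^ 3 := by rw [hf2]; ring
        _ = X ^ 3 := by rw [hh1]
    have e3 := congrArg (U 3) e1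
    rwa [d3_U_expand, d3_U_expand] at e3
  have hD0 : B ^ 3 - 27 * X ≠ 0 := by
    intro e
    rw [e, mul_zero] at hfD
    exact hX hfD.symm
  have hDe : PowerSeries.expand 3 three_ne_zero (B ^ 3 - 27 * X) = B3 ^ 3 - 27 * X ^ 3 := by
    have e27 : PowerSeries.expand 3 three_ne_zero (27 : PowerSeries K) = 27 := map_ofNat _ _
    rw [map_sub, map_mul, map_pow, hX3, e27]
  have hhD : (B3 ^ 3 - 27 * X ^ 3) * h = X * (B3 ^ 2 + 3 * X * B3 + 9 * X ^ 2) := by
    calc (B3 ^ 3 - 27 * X ^ 3) * h =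
        (h * (B3 - 3 * X)) * (B3 ^ 2 + 3 * X * B3 + 9 * X ^ 2) := by ring
      _ = _ := by rw [hh1]
  have c9 : (9 : PowerSeries K) = C 9 := h9
  have c3 : (3 : PowerSeries K) = C 3 := (map_ofNat C 3).symm
  have c6 : (6 : PowerSeries K) = C 6 := (map_ofNat C 6).symm
  have c27 : (27 : PowerSeries K) = C 27 := h27
  have c54 : (54 : PowerSeries K) = C 54 := (map_ofNat C 54).symm
  have c81 : (81 : PowerSeries K) = C 81 := (map_ofNat C 81).symm
  have hUx : ∀ (F : PowerSeries K), U 3 (PowerSeries.expand 3 three_ne_zero F * X) = 0 := by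
    intro F
    rw [d3_U_expand_mul, d3_U_X, mul_zero]
  have hUx2 : ∀ (F : PowerSeries K), U 3 (PowerSeries.expand 3 three_ne_zero F * X ^ 2) = 0 := by
    intro F
    rw [d3_U_expand_mul, d3_U_X_pow 2 (by norm_num) (by norm_num), mul_zero]
  -- `U_3 (h) = 9 f`
  have hU1 : U 3 h = 9 * f := by
    refine mul_left_cancel₀ hD0 ?_
    rw [← d3_U_expand_mul, hDe, hhD]
    have e1 : X * (B3 ^ 2 + 3 * X * B3 + 9 * X ^ 2) =
        PowerSeries.expand 3 three_ne_zero (B ^ 2) * X +
          (PowerSeries.expand 3 three_ne_zero (C 3 * B) * X ^ 2 +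
            PowerSeries.expand 3 three_ne_zero (C 9 * X)) := by
      rw [map_pow, map_mul, map_mul, expand_C, expand_C, hX3, ← c3, ← c9]
      ring
    rw [e1, d3_U_add, d3_U_add, hUx, hUx2, d3_U_expand, zero_add, zero_add, ← c9]
    calc 9 * X = 9 * (f * (B ^ 3 - 27 * X)) := by rw [hfD]
      _ = _ := by ring
  -- `U_3 (h²) = 6 f + 243 f²`
  have hU2 : U 3 (h ^ 2) = 6 * f + 243 * f ^ 2 := by
    refine mul_left_cancel₀ (pow_ne_zero 2 hD0) ?_
    rw [← d3_U_expand_mul, map_pow, hDe]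
    have e1 : (B3 ^ 3 - 27 * X ^ 3) ^ 2 * h ^ 2 =
        PowerSeries.expand 3 three_ne_zero (B ^ 4) * X ^ 2 +
          (PowerSeries.expand 3 three_ne_zero (C 27 * X * B ^ 2) * X +
            (PowerSeries.expand 3 three_ne_zero (C 54 * X * B) * X ^ 2 +
              PowerSeries.expand 3 three_ne_zero (C 6 * X * B ^ 3 + C 81 * X ^ 2))) := by
      simp only [map_pow, map_mul, map_add, expand_C, hX3, ← hB3]
      rw [← c27, ← c54, ← c6, ← c81]
      calc (B3 ^ 3 - 27 * X ^ 3) ^ 2 * h ^ 2 = ((B3 ^ 3 - 27 * X ^ 3) * h) ^ 2 := by ring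
        _ = _ := by rw [hhD]; ring
    rw [e1, d3_U_add, d3_U_add, d3_U_add, hUx2, hUx, hUx2, d3_U_expand, zero_add, zero_add,
      zero_add, ← c6, ← c81]
    calc 6 * X * B ^ 3 + 81 * X ^ 2 = 6 * X * (B ^ 3 - 27 * X) + 243 * X ^ 2 := by ring
      _ = 6 * (f * (B ^ 3 - 27 * X)) * (B ^ 3 - 27 * X) + 243 * (f * (B ^ 3 - 27 * X)) ^ 2 := by
          rw [hfD]
      _ = _ := by ring
  have hLadd : ∀ G H : PowerSeries K, L (G + H) = L G + L H := by
    intro G H
    simp only [hL]
    rw [subst_add hs, d3_U_add, d3_B_add, subst_add hfs]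
    ring
  have hLC : ∀ (a : K) (G : PowerSeries K), L (C a * G) = C a * L G := by
    intro a G
    simp only [hL]
    have e1 : subst h (C a * G) = C a * subst h G := by
      rw [subst_mul hs, subst_C]; rfl
    have e2 : subst f (C a * d3_B G) = C a * subst f (d3_B G) := by
      rw [subst_mul hfs, subst_C]; rfl
    rw [e1, d3_B_C_mul, e2, d3_U_C_mul]
    ring
  have hL1 : L 1 = 0 := by
    simp only [hL]
    have e1 : subst h (1 : PowerSeries K) = 1 := by
      rw [← map_one (C (R := K)), subst_C]; rfl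
    have e2 : subst f (1 : PowerSeries K) = 1 := by
      rw [← map_one (C (R := K)), subst_C]; rfl
    have e3 : U 3 (1 : PowerSeries K) = 1 := by
      have := d3_U_expand (1 : PowerSeries K)
      rwa [map_one] at this
    rw [e1, d3_B_one, e2, e3, sub_self]
  have hLX : L X = 0 := by
    simp only [hL]
    rw [subst_X hs, hU1, d3_B_X, subst_mul hfs, subst_X hfs, h9, subst_C]
    exact sub_self _
  have hLX2 : L (X ^ 2) = 0 := by
    simp only [hL]
    have c243 : (243 : PowerSeries K) = C 243 := (map_ofNat C 243).symm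
    rw [subst_pow hs, subst_X hs, hU2, d3_B_X2, subst_add hfs, subst_mul hfs, subst_mul hfs,
      subst_pow hfs, subst_X hfs, c6, subst_C, c243, subst_C]
    exact sub_self _
  have hdvd : ∀ (n : ℕ) (G : PowerSeries K), (X : PowerSeries K) ^ n ∣ L G := by
    intro n
    induction n with
    | zero => intro G; simp
    | succ n ih =>
      intro G
      obtain ⟨a, c, d, G₁, hG⟩ := d3_decomp G
      rw [hG, hLadd, hLadd, hLadd, hLC, hLC, hLC, hL1, hLX, hLX2, hLz, mul_zero, mul_zero,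
        mul_zero, zero_add, zero_add, zero_add, pow_succ, mul_comm]
      exact mul_dvd_mul (X_dvd_iff.2 hf0) (ih G₁)
  have hL0 : L G = 0 := by
    ext n
    have h1 := hdvd (n + 1) G
    rw [X_pow_dvd_iff] at h1
    rw [h1 n (by omega), map_zero]
  exact sub_eq_zero.1 hL0

/-- `U_3 (F(q³) G(q)) = F(q) U_3 (G)`. -/
theorem U_expand_mul3 {R : Type*} [CommRing R] (F G : PowerSeries R) :
    U 3 (F.expand 3 three_ne_zero * G) = F * U 3 G := d3_U_expand_mul F G

end D3

end GH
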