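import Pool.Agent.GH.D3.Base3

open PowerSeries Filter Topology

noncomputable section

namespace GH

namespace D3

/-! The evaluation map `ev3` (helper43). -/

theorem d3z_norm_iota (a : ℤ_[3]) : ‖iota3 a‖ = ‖a‖ := by
  show ‖algebraMap ℚ_[3] C3 (a : ℚ_[3])‖ = ‖a‖
  rw [norm_algebraMap']
  rfl

theorem d3z_norm_term (w : C3) (F : Lam3) (n : ℕ) :
    ‖iota3 (PowerSeries.coeff n F) * w ^ n‖ ≤ ‖w‖ ^ n := by
  rw [norm_mul, norm_pow, d3z_norm_iota]
  exact mul_le_of_le_one_left (by positivity) (PadicInt.norm_le_one _)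

theorem d3z_summable_norm {w : C3} (hw : ‖w‖ < 1) (F : Lam3) :
    Summable fun n ↦ ‖iota3 (PowerSeries.coeff n F) * w ^ n‖ :=
  Summable.of_nonneg_of_le (fun _ ↦ norm_nonneg _) (d3z_norm_term w F)
    (summable_geometric_of_lt_one (norm_nonneg _) hw)

theorem d3z_summable {w : C3} (hw : ‖w‖ < 1) (F : Lam3) :
    Summable fun n ↦ iota3 (PowerSeries.coeff n F) * w ^ n :=
  (d3z_summable_norm hw F).of_norm

theorem d3z_ev_add {w : C3} (hw : ‖w‖ < 1) (F G : Lam3) : ev3 w (F + G) = ev3 w F + ev3 w G := by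
  unfold ev3
  rw [← (d3z_summable hw F).tsum_add (d3z_summable hw G)]
  refine tsum_congr fun n ↦ ?_
  rw [map_add, map_add, add_mul]

theorem d3z_ev_mul {w : C3} (hw : ‖w‖ < 1) (F G : Lam3) : ev3 w (F * G) = ev3 w F * ev3 w G := by
  unfold ev3
  rw [tsum_mul_tsum_eq_tsum_sum_antidiagonal_of_summable_norm (d3z_summable_norm hw F)
    (d3z_summable_norm hw G)]
  refine tsum_congr fun n ↦ ?_
  rw [PowerSeries.coeff_mul, map_sum, Finset.sum_mul]
  refine Finset.sum_congr rfl fun kl hkl ↦ ?_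
  rw [← Finset.HasAntidiagonal.mem_antidiagonal.1 hkl, map_mul, pow_add]
  ring

theorem d3z_ev_C (w : C3) (a : ℤ_[3]) : ev3 w (PowerSeries.C a) = iota3 a := by
  unfold ev3
  rw [tsum_eq_single 0]
  · simp
  · intro n hn
    rw [PowerSeries.coeff_C, if_neg hn, map_zero, zero_mul]

theorem d3z_ev_X (w : C3) : ev3 w X = w := by
  unfold ev3
  rw [tsum_eq_single 1]
  · simp
  · intro n hn
    rw [PowerSeries.coeff_X, if_neg hn, map_zero, zero_mul]

/-- the evaluation as a ring homomorphism -/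
def d3z_evHom {w : C3} (hw : ‖w‖ < 1) : Lam3 →+* C3 where
  toFun := ev3 w
  map_one' := by
    have h := d3z_ev_C w 1
    rwa [map_one, map_one] at h
  map_mul' := d3z_ev_mul hw
  map_zero' := by
    have h := d3z_ev_C w 0
    rwa [map_zero, map_zero] at h
  map_add' := d3z_ev_add hw

theorem d3z_norm_ev_le {w : C3} (hw : ‖w‖ < 1) (F : Lam3) : ‖ev3 w F‖ ≤ 1 := by
  unfold ev3
  refine (IsUltrametricDist.norm_tsum_le _).trans (ciSup_le fun n ↦ ?_)
  exact (d3z_norm_term w F n).trans (pow_le_one₀ (norm_nonneg _) hw.le)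

theorem d3z_norm_nd {a : ℕ} (h : ¬ 3 ∣ a) : ‖(a : ℤ_[3])‖ = 1 := by
  have h1 : ¬ ‖(a : ℤ_[3])‖ < 1 := by
    rw [PadicInt.norm_natCast_lt_one_iff]
    exact h
  exact le_antisymm (PadicInt.norm_le_one _) (not_lt.1 h1)

theorem d3z_not_isUnit {a : ℕ} (h : 3 ∣ a) : ¬ IsUnit (a : ℤ_[3]) := by
  rw [PadicInt.isUnit_iff]
  have h1 : ‖(a : ℤ_[3])‖ < 1 := by
    rw [PadicInt.norm_natCast_lt_one_iff]
    exact h
  exact h1.ne

/-! The powers `7^s`, `s ∈ ℤ_3`. -/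

theorem d3z_norm_three : ‖(3 : ℤ_[3])‖ = 1 / 3 := by
  have h : ‖((3 : ℕ) : ℤ_[3])‖ = ((3 : ℕ) : ℝ)⁻¹ := PadicInt.norm_p
  rw [Nat.cast_ofNat, Nat.cast_ofNat] at h
  rw [h]
  norm_num

theorem d3z_norm_two : ‖(2 : ℤ_[3])‖ = 1 := by
  have h := d3z_norm_nd (a := 2) (by decide)
  rwa [Nat.cast_ofNat] at h

theorem d3z_norm_six : ‖(6 : ℤ_[3])‖ = 1 / 3 := by
  have h : (6 : ℤ_[3]) = 2 * 3 := by norm_num
  rw [h, norm_mul, d3z_norm_two, d3z_norm_three]
  norm_num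

theorem d3z_six_nilp : Tendsto (fun n : ℕ ↦ (6 : ℤ_[3]) ^ n) atTop (𝓝 0) :=
  tendsto_pow_atTop_nhds_zero_of_norm_lt_one (by rw [d3z_norm_six]; norm_num)

/-- `7^s` -/
def d3z_E : AddChar ℤ_[3] ℤ_[3] := PadicInt.addChar_of_value_at_one (6 : ℤ_[3]) d3z_six_nilp

theorem d3z_E_cont : Continuous d3z_E := PadicInt.continuous_addChar_of_value_at_one d3z_six_nilp

theorem d3z_E_one : d3z_E 1 = 7 := by
  unfold d3z_E
  rw [PadicInt.addChar_of_value_at_one_def]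
  norm_num

theorem d3z_E_nat (n : ℕ) : d3z_E (n : ℤ_[3]) = 7 ^ n := by
  have h := AddChar.map_nsmul_eq_pow d3z_E n 1
  rw [nsmul_eq_mul, mul_one, d3z_E_one] at h
  exact h

theorem d3z_norm_int {z : ℤ} (hz : z ≠ 0) :
    ‖(z : ℤ_[3])‖ = (3 : ℝ) ^ (-(padicValInt 3 z : ℤ)) := by
  rw [PadicInt.norm_intCast_eq_padic_norm, Padic.norm_eq_zpow_neg_valuation (by exact_mod_cast hz),
    Padic.valuation_intCast]
  norm_num

theorem d3z_lte (n : ℕ) : ‖((7 : ℤ_[3]) ^ n - 1)‖ = ‖(n : ℤ_[3])‖ * (1 / 3) := by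
  rcases Nat.eq_zero_or_pos n with rfl | hn
  · simp
  have h1 := Int.emultiplicity_pow_sub_pow (p := 3) (x := 7) (y := 1) Nat.prime_three (by decide)
    (by norm_num) (by norm_num) n
  rw [one_pow] at h1
  have hne : ((7 : ℤ) ^ n - 1) ≠ 0 := by
    have : (1 : ℤ) < 7 ^ n := one_lt_pow₀ (by norm_num) hn.ne'
    omega
  have hn0 : (n : ℤ) ≠ 0 := by exact_mod_cast hn.ne'
  have e4 : emultiplicity (((3 : ℕ) : ℤ)) (7 - 1) = 1 := by
    have h4 : (7 - 1 : ℤ) = ((3 : ℕ) : ℤ) * 2 := by norm_num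
    rw [h4]
    refine emultiplicity_eq_coe.2 ⟨by norm_num, ?_⟩
    norm_num
  rw [e4] at h1
  have hv1 : (padicValInt 3 ((7 : ℤ) ^ n - 1) : ℕ∞) =
      emultiplicity (((3 : ℕ) : ℤ)) ((7 : ℤ) ^ n - 1) := by
    have := padicValInt.of_ne_one_ne_zero (p := 3) (by norm_num) hne
    rw [this]
    exact (FiniteMultiplicity.emultiplicity_eq_multiplicity
      (Int.finiteMultiplicity_iff.2 ⟨by norm_num, hne⟩)).symm
  have hv2 : (padicValInt 3 (n : ℤ) : ℕ∞) = emultiplicity (((3 : ℕ) : ℤ)) (n : ℤ) := by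
    have := padicValInt.of_ne_one_ne_zero (p := 3) (by norm_num) hn0
    rw [this]
    exact (FiniteMultiplicity.emultiplicity_eq_multiplicity
      (Int.finiteMultiplicity_iff.2 ⟨by norm_num, hn0⟩)).symm
  have hv3 : emultiplicity (((3 : ℕ) : ℤ)) (n : ℤ) = emultiplicity 3 n := Int.natCast_emultiplicity 3 n
  rw [← hv3, ← hv1, ← hv2] at h1
  have h2 : padicValInt 3 ((7 : ℤ) ^ n - 1) = 1 + padicValInt 3 (n : ℤ) := by exact_mod_cast h1
  have e1 : ((7 : ℤ_[3]) ^ n - 1) = (((7 : ℤ) ^ n - 1 : ℤ) : ℤ_[3]) := by push_cast; rfl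
  have e2 : (n : ℤ_[3]) = ((n : ℤ) : ℤ_[3]) := by push_cast; rfl
  rw [e1, e2, d3z_norm_int hne, d3z_norm_int hn0, h2]
  push_cast
  rw [neg_add, add_comm, zpow_add₀ (by norm_num)]
  norm_num

theorem d3z_E_norm (s : ℤ_[3]) : ‖d3z_E s - 1‖ = ‖s‖ * (1 / 3) := by
  have h := PadicInt.denseRange_natCast (p := 3)
  have hc : IsClosed {s : ℤ_[3] | ‖d3z_E s - 1‖ = ‖s‖ * (1 / 3)} :=
    isClosed_eq ((d3z_E_cont.sub continuous_const).norm) (continuous_norm.mul continuous_const)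
  have : ∀ s : ℤ_[3], s ∈ {s : ℤ_[3] | ‖d3z_E s - 1‖ = ‖s‖ * (1 / 3)} := by
    intro s
    refine hc.closure_subset_iff.2 ?_ (h s)
    rintro _ ⟨n, rfl⟩
    show ‖d3z_E (n : ℤ_[3]) - 1‖ = ‖(n : ℤ_[3])‖ * (1 / 3)
    rw [d3z_E_nat]
    exact d3z_lte n
  exact this s

theorem d3z_E_mul_neg (s : ℤ_[3]) : d3z_E s * d3z_E (-s) = 1 := by
  rw [← AddChar.map_add_eq_mul, add_neg_cancel, AddChar.map_zero_eq_one]

theorem d3z_E_norm_one (s : ℤ_[3]) : ‖d3z_E s‖ = 1 := by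
  refine le_antisymm (PadicInt.norm_le_one _) ?_
  have h := congrArg norm (d3z_E_mul_neg s)
  rw [norm_mul, norm_one] at h
  have h1 : ‖d3z_E (-s)‖ ≤ 1 := PadicInt.norm_le_one _
  have h2 : 0 ≤ ‖d3z_E s‖ := norm_nonneg _
  nlinarith

theorem d3z_E_sub (s t : ℤ_[3]) : ‖d3z_E s - d3z_E t‖ = ‖s - t‖ * (1 / 3) := by
  have h : d3z_E s - d3z_E t = d3z_E t * (d3z_E (s - t) - 1) := by
    rw [mul_sub, ← AddChar.map_add_eq_mul, mul_one, add_sub_cancel]
  rw [h, norm_mul, d3z_E_norm_one, one_mul, d3z_E_norm]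

theorem d3z_E_close (s : ℤ_[3]) : ‖d3z_E s - 1‖ ≤ 1 / 3 := by
  rw [d3z_E_norm]
  have := PadicInt.norm_le_one s
  linarith

/-- two values of `7^s` are not opposite modulo `3` -/
theorem d3z_E_add (s t : ℤ_[3]) : ‖d3z_E s + d3z_E t‖ = 1 := by
  have e : d3z_E s + d3z_E t = ((d3z_E s - 1) + (d3z_E t - 1)) + 2 := by ring
  have h1 : ‖(d3z_E s - 1) + (d3z_E t - 1)‖ ≤ 1 / 3 :=
    (IsUltrametricDist.norm_add_le_max _ _).trans (max_le (d3z_E_close s) (d3z_E_close t))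
  rw [e, IsUltrametricDist.norm_add_eq_max_of_norm_ne_norm, d3z_norm_two]
  · exact max_eq_right (by linarith)
  · rw [d3z_norm_two]
    intro h
    rw [h] at h1
    norm_num at h1

theorem d3z_pow_eq (m : ℕ) : (1 / 3 : ℝ) ^ m = ((3 : ℕ) : ℝ) ^ (-(m : ℤ)) := by
  rw [zpow_neg, zpow_natCast, one_div, inv_pow]
  norm_num

theorem d3z_lt_third {x : ℤ_[3]} {n : ℕ} (h : ‖x‖ < (1 / 3 : ℝ) ^ n) :
    ‖x‖ ≤ (1 / 3 : ℝ) ^ (n + 1) := by
  rw [d3z_pow_eq] at h ⊢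
  rw [PadicInt.norm_le_pow_iff_norm_lt_pow_add_one]
  have : -((n + 1 : ℕ) : ℤ) + 1 = -(n : ℤ) := by push_cast; ring
  rw [this]
  exact h

theorem d3z_sub_le (x y : ℤ_[3]) : ‖x - y‖ ≤ max ‖x‖ ‖y‖ := by
  have h := IsUltrametricDist.norm_add_le_max x (-y)
  rwa [norm_neg, ← sub_eq_add_neg] at h

/-- sum or difference of two elements of the same norm `3^(-n)` -/
theorem d3z_third {x y : ℤ_[3]} {n : ℕ} (hx : ‖x‖ = (1 / 3 : ℝ) ^ n)
    (hy : ‖y‖ = (1 / 3 : ℝ) ^ n) :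
    ‖x + y‖ ≤ (1 / 3 : ℝ) ^ (n + 1) ∨ ‖x - y‖ ≤ (1 / 3 : ℝ) ^ (n + 1) := by
  have key : ∀ z : ℤ_[3], ‖z‖ = (1 / 3 : ℝ) ^ n → ∃ u : ℤ_[3], ‖u‖ = 1 ∧ z = 3 ^ n * u := by
    intro z hz
    have h1 : ‖z‖ ≤ ((3 : ℕ) : ℝ) ^ (-(n : ℤ)) := by
      rw [hz, d3z_pow_eq]
    have h2 := (PadicInt.norm_le_pow_iff_mem_span_pow z n).1 h1
    obtain ⟨u, hu⟩ := Ideal.mem_span_singleton'.1 h2
    refine ⟨u, ?_, ?_⟩
    · have h3 := congrArg norm hu
      push_cast at h3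
      rw [norm_mul, norm_pow, d3z_norm_three, hz] at h3
      have h4 : (0 : ℝ) < (1 / 3) ^ n := by positivity
      exact mul_right_cancel₀ h4.ne' (by rw [h3, one_mul])
    · rw [← hu]
      push_cast
      ring
  obtain ⟨u, hu, rfl⟩ := key x hx
  obtain ⟨v, hv, rfl⟩ := key y hy
  have hpm : ∀ u : ℤ_[3], ‖u‖ = 1 → ‖u - 1‖ ≤ 1 / 3 ∨ ‖u + 1‖ ≤ 1 / 3 := by
    intro u hu
    obtain ⟨n, hn, h⟩ := PadicInt.exists_mem_range u
    rw [IsLocalRing.mem_maximalIdeal, PadicInt.mem_nonunits] at h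
    have h3 : ∀ {x : ℤ_[3]}, ‖x‖ < 1 → ‖x‖ ≤ 1 / 3 := by
      intro x hx
      have := d3z_lt_third (x := x) (n := 0) (by rwa [pow_zero])
      rwa [zero_add, pow_one] at this
    interval_cases n
    · rw [Nat.cast_zero, sub_zero, hu] at h
      exact absurd h (lt_irrefl _)
    · rw [Nat.cast_one] at h
      exact Or.inl (h3 h)
    · right
      have e : u + 1 = (u - ((2 : ℕ) : ℤ_[3])) + 3 := by push_cast; ring
      rw [e]
      exact (IsUltrametricDist.norm_add_le_max _ _).trans (max_le (h3 h) d3z_norm_three.le)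
  have h1 : ‖u + v‖ ≤ 1 / 3 ∨ ‖u - v‖ ≤ 1 / 3 := by
    rcases hpm u hu with h1 | h1 <;> rcases hpm v hv with h2 | h2
    · right
      have e : u - v = (u - 1) - (v - 1) := by ring
      rw [e]
      exact (d3z_sub_le _ _).trans (max_le h1 h2)
    · left
      have e : u + v = (u - 1) + (v + 1) := by ring
      rw [e]
      exact (IsUltrametricDist.norm_add_le_max _ _).trans (max_le h1 h2)
    · left
      have e : u + v = (u + 1) + (v - 1) := by ring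
      rw [e]
      exact (IsUltrametricDist.norm_add_le_max _ _).trans (max_le h1 h2)
    · right
      have e : u - v = (u + 1) - (v + 1) := by ring
      rw [e]
      exact (d3z_sub_le _ _).trans (max_le h1 h2)
  rw [← mul_add, ← mul_sub, norm_mul, norm_mul, norm_pow, d3z_norm_three, pow_succ]
  rcases h1 with h1 | h1
  · exact Or.inl (mul_le_mul_of_nonneg_left h1 (by positivity))
  · exact Or.inr (mul_le_mul_of_nonneg_left h1 (by positivity))

/-- surjectivity onto `1 + 3 ℤ_3`, approximate form -/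
theorem d3z_apx (y : ℤ_[3]) (n : ℕ) :
    ∃ s : ℤ_[3], ‖d3z_E s - (1 + 3 * y)‖ ≤ (1 / 3 : ℝ) ^ (n + 1) := by
  induction n with
  | zero =>
    refine ⟨0, ?_⟩
    rw [AddChar.map_zero_eq_one, zero_add, pow_one]
    have e : (1 : ℤ_[3]) - (1 + 3 * y) = -(3 * y) := by ring
    rw [e, norm_neg, norm_mul, d3z_norm_three]
    exact mul_le_of_le_one_right (by norm_num) (PadicInt.norm_le_one _)
  | succ n ih =>
    obtain ⟨s, hs⟩ := ih
    rcases lt_or_eq_of_le hs with h | h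
    · exact ⟨s, d3z_lt_third h⟩
    · have h1 : ‖d3z_E (s + 3 ^ n) - d3z_E s‖ = (1 / 3 : ℝ) ^ (n + 1) := by
        rw [d3z_E_sub, add_sub_cancel_left, norm_pow, d3z_norm_three, pow_succ]
      rcases d3z_third h1 h with h2 | h2
      · refine ⟨s + 3 ^ n, ?_⟩
        rwa [sub_add_sub_cancel] at h2
      · refine ⟨s - 3 ^ n, ?_⟩
        have e : d3z_E (s - 3 ^ n) - (1 + 3 * y) =
            -((d3z_E (s + 3 ^ n) - d3z_E s) - (d3z_E s - (1 + 3 * y))) +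
              (d3z_E (s + 3 ^ n) - d3z_E s) * (1 - d3z_E (-3 ^ n)) := by
          have e1 : d3z_E (s - 3 ^ n) = d3z_E s * d3z_E (-3 ^ n) := by
            rw [← AddChar.map_add_eq_mul, sub_eq_add_neg]
          have e2 : d3z_E (s + 3 ^ n) * d3z_E (-3 ^ n) = d3z_E s := by
            rw [← AddChar.map_add_eq_mul, add_neg_cancel_right]
          rw [e1]
          linear_combination e2
        rw [e]
        refine (IsUltrametricDist.norm_add_le_max _ _).trans (max_le ?_ ?_)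
        · rw [norm_neg]
          exact h2
        · rw [norm_mul, h1, pow_succ (1 / 3 : ℝ) (n + 1)]
          refine mul_le_mul_of_nonneg_left ?_ (by positivity)
          rw [← norm_neg, neg_sub]
          exact d3z_E_close _

theorem d3z_surj (y : ℤ_[3]) : ∃ s : ℤ_[3], d3z_E s = 1 + 3 * y := by
  have hcl : IsClosed (Set.range d3z_E) := (isCompact_range d3z_E_cont).isClosed
  have h : (1 + 3 * y) ∈ closure (Set.range d3z_E) := by
    rw [Metric.mem_closure_iff]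
    intro ε hε
    obtain ⟨n, hn⟩ := exists_pow_lt_of_lt_one hε (show (1 / 3 : ℝ) < 1 by norm_num)
    obtain ⟨s, hs⟩ := d3z_apx y n
    refine ⟨d3z_E s, ⟨s, rfl⟩, ?_⟩
    rw [dist_comm, dist_eq_norm]
    have h0 : (0 : ℝ) < (1 / 3) ^ n := by positivity
    rw [pow_succ] at hs
    linarith
  rw [hcl.closure_eq] at h
  exact h

theorem d3z_exists {a : ℕ} (h : ¬ 3 ∣ a) : ∃ s : ℤ_[3], d3z_E s = a ∨ d3z_E s = -a := by
  have h4 : a % 3 = 1 ∨ a % 3 = 2 := by omega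
  rcases h4 with h4 | h4
  · obtain ⟨s, hs⟩ := d3z_surj ((a / 3 : ℕ) : ℤ_[3])
    refine ⟨s, Or.inl ?_⟩
    rw [hs]
    have : a = 1 + 3 * (a / 3) := by omega
    conv_rhs => rw [this]
    push_cast
    ring
  · obtain ⟨s, hs⟩ := d3z_surj (-((a / 3 + 1 : ℕ) : ℤ_[3]))
    refine ⟨s, Or.inr ?_⟩
    rw [hs]
    have : a = 2 + 3 * (a / 3) := by omega
    conv_rhs => rw [this]
    push_cast
    ring

end D3

end GH
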